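import Pool.Agent.Work.MP_54ef3e_nt.Bd.B02

/-! Bundle of small proof modules (one section per former module). -/

section

/-!
# MP_54ef3e_nt: the real inequality of case 2 (helper86)
-/

set_option autoImplicit false

namespace Pool.Agent.Fr

theorem C2I_A (u v : ℝ) (hu : 0 ≤ u) (hv : 0 ≤ v) (h : 11.9 ≤ u + v) (k t b : ℝ)
    (hk : k = (u + v) * 10 / 7) (ht : t = 17 / 10 * k - 3 + u) (hb : b = (t + 3 - k) * 10 / 14) :
    0 < k * t * (b + k - 4) + t * (t + 1 - k - b) +
      2 * k ^ 2 * (0.542 * b + 0.458 * (t + 3 - k)) - 1.16 * k * t ^ 2 - 0.024 * t ^ 3 := by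
  subst hb
  subst ht
  subst hk
  nlinarith [pow_nonneg hu 3, pow_nonneg hv 3, mul_nonneg (pow_nonneg hu 2) hv,
    mul_nonneg hu (pow_nonneg hv 2), mul_nonneg hu hv, pow_nonneg hu 2, pow_nonneg hv 2,
    mul_nonneg hu (sub_nonneg.2 h), mul_nonneg hv (sub_nonneg.2 h)]

theorem C2I_B (u v : ℝ) (hu : 0 ≤ u) (hv : 0 ≤ v) (k t b : ℝ)
    (hk : k = 5 * (u + v) + 10) (ht : t = 3 / 2 * k - 1 + u) (hb : b = k / 2) :
    0 < k * t * (b + k - 4) + t * (t + 1 - k - b) +
      2 * k ^ 2 * (0.542 * b + 0.458 * (t + 3 - k)) - 1.16 * k * t ^ 2 - 0.024 * t ^ 3 := by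
  subst hb
  subst ht
  subst hk
  nlinarith [pow_nonneg hu 3, pow_nonneg hv 3, mul_nonneg (pow_nonneg hu 2) hv,
    mul_nonneg hu (pow_nonneg hv 2), mul_nonneg hu hv, pow_nonneg hu 2, pow_nonneg hv 2]

theorem C2I_G (k t b : ℝ) (hk : 17 ≤ k) (h1 : k < 2 * b) (h2 : b ≤ k) (h3 : k + b - 1 ≤ t)
    (h4 : 5 * (t + 3 - k) ≤ 7 * b) :
    0 < k * t * (b + k - 4) + t * (t + 1 - k - b) +
      2 * k ^ 2 * (0.542 * b + 0.458 * (t + 3 - k)) - 1.16 * k * t ^ 2 - 0.024 * t ^ 3 := by
  have ht : 0 < t := by linarith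
  have hc : 0 ≤ k * t - t + 1.084 * k ^ 2 := by nlinarith
  -- monotone in b
  have mono : ∀ b' : ℝ, b' ≤ b →
      k * t * (b' + k - 4) + t * (t + 1 - k - b') +
      2 * k ^ 2 * (0.542 * b' + 0.458 * (t + 3 - k)) - 1.16 * k * t ^ 2 - 0.024 * t ^ 3 ≤
      k * t * (b + k - 4) + t * (t + 1 - k - b) +
      2 * k ^ 2 * (0.542 * b + 0.458 * (t + 3 - k)) - 1.16 * k * t ^ 2 - 0.024 * t ^ 3 := by
    intro b' hb'
    have := mul_nonneg (sub_nonneg.2 hb') hc
    linarith
  rcases le_or_gt (17 / 10 * k - 3) t with h | h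
  · refine lt_of_lt_of_le ?_ (mono ((t + 3 - k) * 10 / 14) (by linarith))
    exact C2I_A (t - 17 / 10 * k + 3) (24 / 10 * k - 3 - t) (by linarith) (by linarith)
      (by linarith) k t _ (by ring) (by ring) rfl
  · refine lt_of_lt_of_le ?_ (mono (k / 2) (by linarith))
    exact C2I_B (t - 3 / 2 * k + 1) (17 / 10 * k - 3 - t) (by linarith) (by linarith)
      k t _ (by ring) (by ring) rfl

theorem th_C2I : S_C2I := by
  intro p k b t eA eB qA qB hk h1 h2 hp h3 h4 hA hAB hB hqA hqB
  have hk0 : (0 : ℝ) < k := by linarith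
  have hb0 : 0 < b := by linarith
  have ht0 : 0 < t := by linarith
  have hp0 : 0 < p := by linarith
  obtain ⟨lam, hlam⟩ : ∃ lam, lam = (t + 3 - k) / b := ⟨_, rfl⟩
  rw [← hlam] at hqB
  have hlb : lam * b = t + 3 - k := by rw [hlam]; field_simp
  have hl1 : 1 ≤ lam := by
    rw [hlam, le_div_iff₀ hb0]; linarith
  have hl2 : lam ≤ 7 / 5 := by
    rw [hlam, div_le_iff₀ hb0]; linarith
  obtain ⟨s, hs⟩ : ∃ s : ℝ, s = 1 + 0.458 * (lam - 1) := ⟨_, rfl⟩
  have hs1 : 1 ≤ s := by rw [hs]; linarith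
  have hss : s ^ 2 ≤ lam := by
    rw [hs]
    nlinarith [mul_nonneg (sub_nonneg.2 hl1) (sub_nonneg.2 hl2)]
  have heA : 0 < eA := by
    have h5 : (0 : ℝ) < k ^ 4 := by positivity
    have h6 : 0 < 3 * k - 4 := by linarith
    by_contra hc
    have : eA * (3 * k - 4) ≤ 0 := mul_nonpos_of_nonpos_of_nonneg (not_lt.1 hc) h6.le
    linarith
  obtain ⟨U, hU⟩ : ∃ U, U = eA / k ^ 2 := ⟨_, rfl⟩
  obtain ⟨V, hV⟩ : ∃ V, V = lam * eB / b ^ 2 := ⟨_, rfl⟩
  have hU0 : 0 < U := by rw [hU]; positivity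
  have hV0 : 0 ≤ V := by rw [hV]; positivity
  obtain ⟨w, hw⟩ : ∃ w, w = s * k * b / t := ⟨_, rfl⟩
  have hw0 : 0 < w := by rw [hw]; positivity
  have hUV : w ^ 2 ≤ U * V := by
    rw [hw, hU, hV, div_pow, div_mul_div_comm, div_le_div_iff₀ (by positivity) (by positivity)]
    have e1 : (s * k * b) ^ 2 * (k ^ 2 * b ^ 2) = s ^ 2 * (k * b) ^ 4 := by ring
    have e2 : eA * (lam * eB) * t ^ 2 = lam * (eA * eB * t ^ 2) := by ring
    rw [e1, e2]
    exact mul_le_mul hss hAB (by positivity) (by linarith)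
  have hUVs : 2 * w ≤ U + V := by
    by_contra hc
    have hc' : U + V < 2 * w := not_le.1 hc
    nlinarith [sq_nonneg (U - V), mul_self_lt_mul_self (by linarith : 0 ≤ U + V) hc']
  -- lower bounds of qA / k^2 and qB / b^2
  have hA' : t / k + (b - 1) * (1 - 1 / k) + U - 1 ≤ qA / k ^ 2 := by
    rw [hU, le_div_iff₀ (by positivity)]
    have : (t / k + (b - 1) * (1 - 1 / k) + eA / k ^ 2 - 1) * k ^ 2 =
        k * t + (b - 1) * (k ^ 2 - k) + (eA - k ^ 2) := by
      field_simp
      ring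
    linarith
  have hB' : t / b + (k - 3) * (1 - 1 / b) + V - lam ≤ qB / b ^ 2 := by
    rw [hV, le_div_iff₀ (by positivity)]
    have : (t / b + (k - 3) * (1 - 1 / b) + lam * eB / b ^ 2 - lam) * b ^ 2 =
        b * t + (k - 3) * (b ^ 2 - b) + lam * (eB - b ^ 2) := by
      field_simp
      ring
    linarith
  have htb : t / b = (k - 3) / b + lam := by
    field_simp
    linarith
  obtain ⟨X, hX⟩ : ∃ X, X = qA / k ^ 2 + qB / b ^ 2 - 1.16 * t := ⟨_, rfl⟩
  have hX1 : (b + k - 4) + (t + 1 - k - b) / k + 2 * w - 1.16 * t ≤ X := by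
    have e1 : t / b + (k - 3) * (1 - 1 / b) - lam = k - 3 := by
      rw [htb]; ring
    have e2 : t / k + (b - 1) * (1 - 1 / k) - 1 = b - 1 + (t + 1 - k - b) / k := by
      field_simp
      ring
    rw [hX]
    linarith
  have hG := C2I_G k t b hk h1 h2 h3 h4
  have hX2 : 0.024 * t ^ 3 < X * (k * t) := by
    have e3 : ((b + k - 4) + (t + 1 - k - b) / k + 2 * w - 1.16 * t) * (k * t) =
        k * t * (b + k - 4) + t * (t + 1 - k - b) +
          2 * k ^ 2 * (0.542 * b + 0.458 * (t + 3 - k)) - 1.16 * k * t ^ 2 := by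
      have e4 : s * b = 0.542 * b + 0.458 * (t + 3 - k) := by
        rw [hs, ← hlb]; ring
      rw [← e4, hw]
      field_simp
    have e5 := mul_le_mul_of_nonneg_right hX1 (by positivity : 0 ≤ k * t)
    linarith
  have hX3 : 0.84 * t ^ 2 < p * X := by
    have e6 : 0.024 * t ^ 2 < X * k := by
      by_contra hc
      have hc' := not_lt.1 hc
      have : X * k * t ≤ 0.024 * t ^ 2 * t := mul_le_mul_of_nonneg_right hc' ht0.le
      nlinarith
    have e7 : 0 < X := by
      by_contra hc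
      have : X * k ≤ 0 := mul_nonpos_of_nonpos_of_nonneg (not_lt.1 hc) hk0.le
      have : 0 < 0.024 * t ^ 2 := by positivity
      linarith
    have e8 : 35 * k * X < p * X := mul_lt_mul_of_pos_right hp e7
    linarith
  have e9 : p * qA / k ^ 2 + p * qB / b ^ 2 - 2 * t ^ 2 = p * X + 1.16 * p * t - 2 * t ^ 2 := by
    rw [hX]; ring
  rw [e9]
  linarith

end Pool.Agent.Fr

end

section

/-!
# Case 2: assembly
-/

set_option autoImplicit false

open scoped Pointwise

namespace Pool.Agent.Fr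

open Pool.Agent.LS Pool.Agent.Fou

lemma CASE2_norm_ft {p : ℕ} [Fact p.Prime] (A : Finset (ZMod p)) (r : ZMod p) :
    ‖ft A r‖ ≤ A.card := by
  unfold ft
  refine (norm_sum_le _ _).trans ?_
  refine (Finset.sum_le_card_nsmul _ _ 1 fun x _ => ?_).trans (by simp)
  exact (Circle.norm_coe _).le

lemma CASE2_en_nonneg {p : ℕ} [Fact p.Prime] (A B : Finset (ZMod p)) : 0 ≤ en A B := by
  unfold en
  exact Finset.sum_nonneg fun x _ => by positivity

/-- The part of the argument after the choice of the half circles. -/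
lemma CASE2_end (hT2 : S_T2) (hR3 : S_R3) (p : ℕ) [Fact p.Prime] (S B : Finset (ZMod p))
    (hS : Hyp S) (hb : B.card ≤ S.card) (u v : ℝ)
    (h1 : 7 * S.card < 10 * (half u S).card) (h2 : 7 * B.card < 10 * (half v B).card)
    (h3 : (S + B).card + 3 < (half u S).card + 2 * (half v B).card)
    (h4 : (S + B).card + 3 < 2 * (half u S).card + (half v B).card) : Concl S := by
  have hA1 : half u S ⊆ S := Finset.filter_subset _ _
  have hB1 : half v B ⊆ B := Finset.filter_subset _ _
  have cA := Finset.card_le_card hA1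
  have cB := Finset.card_le_card hB1
  have s3 := hS.three
  have s35 := hS.small
  have sN := hS.doub
  have hAne : (half u S).Nonempty := Finset.card_pos.mp (by omega)
  have hBne : (half v B).Nonempty := by
    refine Finset.card_pos.mp ?_
    omega
  by_cases hA : InAPp (half u S) (2 * (half u S).card - 2)
  · exact theoremB hA1 (by omega) sN (by omega) (by omega) hA
  · by_cases hle : (half v B).card ≤ (half u S).card
    · have h := hR3 p 2 0 0 1 1 u v (by norm_num) (by norm_num) (by norm_num) (by norm_num) S B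
        (half u S) (half v B) (Finset.Subset.refl _) (Finset.Subset.refl _) hBne hle hA
      have h5 := Finset.card_le_card (Finset.add_subset_add hA1 hB1)
      omega
    · push Not at hle
      by_cases hB : InAPp (half v B) (2 * (half v B).card - 2)
      · have h5 := Finset.card_le_card (Finset.add_subset_add (Finset.Subset.refl S) hB1)
        exact hT2 p S (half v B) hS hB (by omega) (by omega) (by omega)
      · have h := hR3 p 2 0 0 1 1 v u (by norm_num) (by norm_num) (by norm_num) (by norm_num) B S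
          (half v B) (half u S) (Finset.Subset.refl _) (Finset.Subset.refl _) hAne hle.le hB
        have h5 := Finset.card_le_card (Finset.add_subset_add hB1 hA1)
        rw [add_comm B S] at h5
        omega

theorem th_CASE2 : S_CASE2 := by
  intro hE3 hE4 _ hE7 hE8 _ hE11 hX1 hT2 _ hR3 hH1 hF2 hC2I hC2F p _ S hS h17
  by_cases hExt : Ext S
  · exact Or.inl hExt
  right
  have hpp : p.Prime := Fact.out
  have s3 := hS.three
  have s35 := hS.small
  have sN := hS.doub
  have hSne : S.Nonempty := Finset.card_pos.mp (by omega)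
  obtain ⟨B, hBne, hBk, hkB, hmin⟩ := hX1 p S s3 sN
  have hSB : S.card ≤ (S + B).card := Finset.card_le_card_add_right hBne
  -- the ratio is less than 7/5
  have hrat : 5 * ((S + B).card + 3 - S.card) ≤ 7 * B.card := by
    unfold Ext at hExt
    push Not at hExt
    obtain ⟨B', hB'ne, hB'k, hB'⟩ := hExt
    have h1 := hmin B' hB'ne hB'k
    have h2 : S.card ≤ (S + B').card := Finset.card_le_card_add_right hB'ne
    have h3 : 5 * ((S + B').card + 3 - S.card) ≤ 7 * B'.card := by omega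
    have h4 : 0 < B'.card := Finset.card_pos.mpr hB'ne
    have h5 : 5 * ((S + B).card + 3 - S.card) * B'.card ≤ 7 * B.card * B'.card := by
      calc 5 * ((S + B).card + 3 - S.card) * B'.card
          = 5 * (((S + B).card + 3 - S.card) * B'.card) := by ring
        _ ≤ 5 * (((S + B').card + 3 - S.card) * B.card) := by gcongr
        _ = 5 * ((S + B').card + 3 - S.card) * B.card := by ring
        _ ≤ 7 * B'.card * B.card := by gcongr
        _ = 7 * B.card * B'.card := by ring
    exact Nat.le_of_mul_le_mul_right h5 h4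
  have hBpos : 0 < B.card := Finset.card_pos.mpr hBne
  have htp : (S + B).card < p := by omega
  have hcd : S.card + B.card ≤ (S + B).card + 1 := by
    have h := ZMod.cauchy_davenport hpp hSne hBne
    rcases min_le_iff.mp h with h | h
    · omega
    · omega
  -- reals
  set k : ℝ := (S.card : ℝ) with hk
  set b : ℝ := (B.card : ℝ) with hb
  set t : ℝ := ((S + B).card : ℝ) with ht
  have k17 : (17 : ℝ) ≤ k := by rw [hk]; exact_mod_cast h17
  have kb : k < 2 * b := by rw [hk, hb]; exact_mod_cast hkB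
  have bk : b ≤ k := by rw [hk, hb]; exact_mod_cast hBk
  have kp : 35 * k < p := by rw [hk]; exact_mod_cast s35
  have kbt : k + b - 1 ≤ t := by
    have : ((S.card : ℝ)) + B.card ≤ ((S + B).card : ℝ) + 1 := by exact_mod_cast hcd
    rw [hk, hb, ht]
    linarith
  have rat : 5 * (t + 3 - k) ≤ 7 * b := by
    have h : 5 * ((S + B).card + 3) ≤ 7 * B.card + 5 * S.card := by omega
    have h' : (5 : ℝ) * (((S + B).card : ℝ) + 3) ≤ 7 * B.card + 5 * S.card := by exact_mod_cast h
    rw [hk, hb, ht]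
    linarith
  have bpos : 0 < b := by rw [hb]; exact_mod_cast hBpos
  have kpos : 0 < k := by linarith
  have tpos : 0 < t := by linarith
  have tp : t < p := by rw [ht]; exact_mod_cast htp
  set lam : ℝ := (t + 3 - k) / b with hlam
  have hlamB : ∀ B' : Finset (ZMod p), B'.Nonempty → B'.card ≤ S.card →
      (S.card : ℝ) - 3 + lam * B'.card ≤ (S + B').card := by
    intro B' hB'ne hB'k
    have h1 := hmin B' hB'ne hB'k
    have h2 : S.card ≤ (S + B').card := Finset.card_le_card_add_right hB'ne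
    have h3 : (((S + B).card + 3 - S.card : ℕ) : ℝ) = t + 3 - k := by
      rw [Nat.cast_sub (by omega)]
      push_cast
      rfl
    have h4 : (((S + B').card + 3 - S.card : ℕ) : ℝ) = ((S + B').card : ℝ) + 3 - k := by
      rw [Nat.cast_sub (by omega)]
      push_cast
      rfl
    have h5 : (((S + B).card + 3 - S.card : ℕ) : ℝ) * B'.card ≤
        (((S + B').card + 3 - S.card : ℕ) : ℝ) * B.card := by exact_mod_cast h1
    rw [h3, h4, ← hb] at h5
    have h6 : lam * B'.card ≤ ((S + B').card : ℝ) + 3 - k := by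
      rw [hlam, div_mul_eq_mul_div, div_le_iff₀ bpos]
      exact h5
    linarith
  -- energies
  have eSS := CASE2_en_nonneg S S
  have eBB := CASE2_en_nonneg B B
  have eSB := CASE2_en_nonneg S B
  have i1 : k ^ 4 ≤ en S S * (3 * k - 4) := by
    have h1 := hE3 p S S
    have h2 : ((S + S).card : ℝ) ≤ 3 * k - 4 := by
      have : ((S + S).card : ℝ) + 4 ≤ 3 * (S.card : ℝ) := by exact_mod_cast sN
      rw [hk]
      linarith
    calc k ^ 4 = (k * k) ^ 2 := by ring
      _ ≤ en S S * ((S + S).card : ℝ) := h1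
      _ ≤ en S S * (3 * k - 4) := by gcongr
  have i2 : (k * b) ^ 4 ≤ en S S * en B B * t ^ 2 := by
    have h1 : (k * b) ^ 2 ≤ en S B * t := hE3 p S B
    have h2 : en S B ^ 2 ≤ en S S * en B B := hE4 p S B
    calc (k * b) ^ 4 = ((k * b) ^ 2) ^ 2 := by ring
      _ ≤ (en S B * t) ^ 2 := by gcongr
      _ = en S B ^ 2 * t ^ 2 := by ring
      _ ≤ en S S * en B B * t ^ 2 := by gcongr
  have i3 : k * t + (b - 1) * (k ^ 2 - k) + (en S S - k ^ 2) ≤ en S (S + B) :=
    hE7 p S B hSne hBne (by omega)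
  have i4 : b * t + (k - 3) * (b ^ 2 - b) + (t + 3 - k) / b * (en B B - b ^ 2) ≤ en B (S + B) :=
    hE8 p S B lam hlamB hBne hBk
  have i5 := hC2I p k b t (en S S) (en B B) (en S (S + B)) (en B (S + B)) k17 kb bk kp kbt rat
    i1 i2 eBB i3 i4
  obtain ⟨r, hr, i6⟩ := hF2 p S B hSne hBne htp
  set al : ℝ := ‖ft S r‖ / S.card with hal
  set be : ℝ := ‖ft B r‖ / B.card with hbe
  have ptpos : 0 < (p : ℝ) * t - t ^ 2 := by nlinarith
  have i7 : 1.16 < al ^ 2 + be ^ 2 := by
    have h1 : 1.16 * ((p : ℝ) * t - t ^ 2) < (al ^ 2 + be ^ 2) * ((p : ℝ) * t - t ^ 2) :=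
      lt_of_lt_of_le i5 i6
    exact lt_of_mul_lt_mul_right h1 ptpos.le
  have al0 : 0 ≤ al := by positivity
  have be0 : 0 ≤ be := by positivity
  have al1 : al ≤ 1 := by
    rw [hal]
    exact div_le_one_of_le₀ (CASE2_norm_ft S r) (by positivity)
  have be1 : be ≤ 1 := by
    rw [hbe]
    exact div_le_one_of_le₀ (CASE2_norm_ft B r) (by positivity)
  -- dilation
  have hft1 := (hE11 p r S hr).1
  have hft2 := (hE11 p r B hr).1
  have c1 : (aff r 0 S).card = S.card := card_aff hr S
  have c2 : (aff r 0 B).card = B.card := card_aff hr B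
  have c3 : (aff r 0 S + aff r 0 S).card = (S + S).card := card_aff_add hr S S
  have c4 : (aff r 0 S + aff r 0 B).card = (S + B).card := card_aff_add hr S B
  obtain ⟨u, hu⟩ := hH1 p (aff r 0 S)
  obtain ⟨v, hv⟩ := hH1 p (aff r 0 B)
  unfold fa at hu hv
  rw [hft1, c1] at hu
  rw [hft2, c2] at hv
  have hu' : (1 + al) * k / 2 ≤ ((half u (aff r 0 S)).card : ℝ) := by
    refine le_trans (le_of_eq ?_) hu
    rw [hal, hk]
    field_simp
  have hv' : (1 + be) * b / 2 ≤ ((half v (aff r 0 B)).card : ℝ) := by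
    refine le_trans (le_of_eq ?_) hv
    rw [hbe, hb]
    field_simp
  obtain ⟨j1, j2, j3, j4⟩ := hC2F k b t _ _ al be k17 kb bk rat al0 al1 be0 be1 i7 hu' hv'
  have hS' : Hyp (aff r 0 S) := ⟨by rw [c1]; exact s3, by rw [c1]; exact s35, by
    rw [c1, c3]; exact sN⟩
  have hC : Concl (aff r 0 S) := by
    refine CASE2_end hT2 hR3 p (aff r 0 S) (aff r 0 B) hS'
      (by rw [c1, c2]; exact hBk) u v ?_ ?_ ?_ ?_
    · rw [c1]
      rw [hk] at j1
      exact_mod_cast j1
    · rw [c2]
      rw [hb] at j2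
      exact_mod_cast j2
    · rw [c4]
      rw [ht] at j3
      exact_mod_cast j3
    · rw [c4]
      rw [ht] at j4
      exact_mod_cast j4
  unfold Concl at hC ⊢
  rw [c1, c3] at hC
  exact hC.of_aff hr

end Pool.Agent.Fr

end

section

/-!
# The full range 3k-4 theorem modulo a prime: item E1
-/

set_option autoImplicit false

open scoped Pointwise

namespace Pool.Agent.Fr

open Pool.Agent.LS Pool.Agent.Fou

theorem th_E1 : S_E1 := by
  intro p _ A x
  unfold rp sh
  refine Finset.card_bij' (fun z _ => z.1) (fun a _ => (a, a - x)) ?_ ?_ ?_ ?_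
  · rintro ⟨a, b⟩ h
    simp only [Finset.mem_filter, Finset.mem_product] at h ⊢
    obtain ⟨⟨ha, hb⟩, hx⟩ := h
    refine ⟨ha, ?_⟩
    rw [← hx]
    simpa using hb
  · intro a h
    simp only [Finset.mem_filter, Finset.mem_product] at h ⊢
    exact ⟨⟨h.1, h.2⟩, by ring⟩
  · rintro ⟨a, b⟩ h
    simp only [Finset.mem_filter, Finset.mem_product] at h ⊢
    rw [← h.2]
    simp
  · intro a h
    rfl

end Pool.Agent.Fr

end

section

set_option autoImplicit false

open scoped Pointwise

namespace Pool.Agent.Fr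

open Pool.Agent.LS Pool.Agent.Fou

theorem E10_rp {p : ℕ} [Fact p.Prime] {r : ZMod p} (v : ZMod p) (hr : r ≠ 0)
    (A : Finset (ZMod p)) (x : ZMod p) : rp (aff r v A) (r * x) = rp A x := by
  classical
  unfold rp aff
  symm
  refine Finset.card_bij (fun w _ => (r * w.1 + v, r * w.2 + v)) ?_ ?_ ?_
  · intro w hw
    simp only [Finset.mem_filter, Finset.mem_product, Finset.mem_image] at hw ⊢
    refine ⟨⟨⟨w.1, hw.1.1, rfl⟩, ⟨w.2, hw.1.2, rfl⟩⟩, ?_⟩
    rw [← hw.2]
    ring
  · intro w _ w' _ h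
    simp only [Prod.mk.injEq, add_left_inj] at h
    exact Prod.ext (mul_left_cancel₀ hr h.1) (mul_left_cancel₀ hr h.2)
  · intro w hw
    simp only [Finset.mem_filter, Finset.mem_product, Finset.mem_image] at hw
    obtain ⟨⟨⟨a, ha, h1⟩, ⟨b, hb, h2⟩⟩, h3⟩ := hw
    refine ⟨(a, b), ?_, ?_⟩
    · simp only [Finset.mem_filter, Finset.mem_product]
      refine ⟨⟨ha, hb⟩, ?_⟩
      apply mul_left_cancel₀ hr
      rw [← h3, ← h1, ← h2]
      ring
    · exact Prod.ext h1 h2

theorem th_E10 : S_E10 := by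
  intro p _ r v v' hr A B
  unfold en
  rw [← Equiv.sum_comp (Equiv.mulLeft₀ r hr)]
  refine Finset.sum_congr rfl fun x _ => ?_
  change (rp (aff r v A) (r * x) : ℝ) * (rp (aff r v' B) (r * x) : ℝ) = _
  rw [E10_rp v hr, E10_rp v' hr]

end Pool.Agent.Fr

end

section

set_option autoImplicit false

open scoped Pointwise

namespace Pool.Agent.Fr

open Pool.Agent.LS Pool.Agent.Fou

theorem th_E11 : S_E11 := by
  intro p _ r A hr
  refine ⟨?_, ?_⟩
  · unfold ft aff
    rw [Finset.sum_image (fun x _ y _ h => aff_inj (v := 0) hr h)]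
    refine Finset.sum_congr rfl fun s _ => ?_
    simp
  · rw [aff_add, add_zero]

end Pool.Agent.Fr

end

section

/-!
# MP_54ef3e_nt, item E3: `(|A||B|)^2 ≤ en A B * |A+B|`
-/

set_option autoImplicit false

open scoped Pointwise

namespace Pool.Agent.Fr

open Pool.Agent.LS Pool.Agent.Fou

theorem E3_energy (p : ℕ) [Fact p.Prime] (A B : Finset (ZMod p)) :
    Finset.addEnergy A B = ∑ x : ZMod p, rp A x * rp B x := by
  classical
  unfold Finset.addEnergy
  rw [Finset.card_eq_sum_card_fiberwise (f := fun v => v.1.1 - v.1.2) (t := Finset.univ)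
    (fun _ _ => by simp)]
  refine Finset.sum_congr rfl fun x _ => ?_
  unfold rp
  rw [← Finset.card_product]
  refine Finset.card_nbij' (fun v => ((v.1.1, v.1.2), (v.2.2, v.2.1)))
    (fun v => ((v.1.1, v.1.2), (v.2.2, v.2.1))) ?_ ?_ ?_ ?_
  · rintro ⟨⟨a, a'⟩, ⟨b, b'⟩⟩ hv
    simp only [Finset.coe_filter, Finset.mem_filter, Finset.mem_product, Finset.coe_product,
      Set.mem_ofPred_eq, Set.mem_prod] at hv ⊢
    obtain ⟨⟨⟨⟨h1, h2⟩, h3, h4⟩, h5⟩, h6⟩ := hv
    refine ⟨⟨⟨h1, h2⟩, h6⟩, ⟨h4, h3⟩, ?_⟩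
    rw [← h6]
    linear_combination -h5
  · rintro ⟨⟨a, a'⟩, ⟨b, b'⟩⟩ hv
    simp only [Finset.coe_filter, Finset.mem_filter, Finset.mem_product, Finset.coe_product,
      Set.mem_ofPred_eq, Set.mem_prod] at hv ⊢
    obtain ⟨⟨⟨h1, h2⟩, h3⟩, ⟨h4, h5⟩, h6⟩ := hv
    refine ⟨⟨⟨⟨h1, h2⟩, h5, h4⟩, ?_⟩, h3⟩
    linear_combination h3 - h6
  · rintro ⟨⟨a, a'⟩, ⟨b, b'⟩⟩ _
    rfl
  · rintro ⟨⟨a, a'⟩, ⟨b, b'⟩⟩ _
    rfl

theorem th_E3 : S_E3 := by
  classical
  intro p _ A B
  have h := Finset.le_card_add_mul_addEnergy A B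
  rw [E3_energy] at h
  have h' : ((A.card ^ 2 * B.card ^ 2 : ℕ) : ℝ) ≤
      (((A + B).card * ∑ x : ZMod p, rp A x * rp B x : ℕ) : ℝ) := by exact_mod_cast h
  push_cast at h'
  unfold en
  rw [mul_pow, mul_comm (∑ x : ZMod p, (rp A x : ℝ) * (rp B x : ℝ))]
  exact h'

end Pool.Agent.Fr

end

section

/-!
# MP_54ef3e_nt, item E4: Cauchy–Schwarz for energies
-/

set_option autoImplicit false

namespace Pool.Agent.Fr

theorem th_E4 : S_E4 := by
  intro p _ A B
  have h := Finset.sum_mul_sq_le_sq_mul_sq (Finset.univ : Finset (ZMod p))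
    (fun x => (Pool.Agent.Fou.rp A x : ℝ)) (fun x => (Pool.Agent.Fou.rp B x : ℝ))
  have hA : en A A = ∑ x : ZMod p, (Pool.Agent.Fou.rp A x : ℝ) ^ 2 := by
    unfold en
    exact Finset.sum_congr rfl (fun x _ => by ring)
  have hB : en B B = ∑ x : ZMod p, (Pool.Agent.Fou.rp B x : ℝ) ^ 2 := by
    unfold en
    exact Finset.sum_congr rfl (fun x _ => by ring)
  rw [hA, hB]
  exact h

end Pool.Agent.Fr

end

section

set_option autoImplicit false

namespace Pool.Agent.Fr

open Pool.Agent.LS Pool.Agent.Fou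

/-- a difference is represented at most `|A|` times -/
theorem E5_le {p : ℕ} [Fact p.Prime] (A : Finset (ZMod p)) (x : ZMod p) : rp A x ≤ A.card := by
  unfold rp
  refine Finset.card_le_card_of_injOn Prod.fst (fun v hv => ?_) (fun v hv w hw h => ?_)
  · exact (Finset.mem_product.1 (Finset.mem_filter.1 hv).1).1
  · have h1 := (Finset.mem_filter.1 (Finset.mem_coe.1 hv)).2
    have h2 := (Finset.mem_filter.1 (Finset.mem_coe.1 hw)).2
    refine Prod.ext h ?_
    have h3 : v.2 = v.1 - x := by rw [← h1]; ring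
    have h4 : w.2 = w.1 - x := by rw [← h2]; ring
    rw [h3, h4, h]

theorem E5_sum {p : ℕ} [Fact p.Prime] (A : Finset (ZMod p)) :
    ∑ x : ZMod p, rp A x = A.card ^ 2 := by
  unfold rp
  rw [← Finset.card_eq_sum_card_fiberwise (f := fun v : ZMod p × ZMod p => v.1 - v.2)
    (fun v _ => Finset.mem_coe.2 (Finset.mem_univ _)), Finset.card_product, sq]

theorem th_E5 : S_E5 := by
  intro p _ A
  have h1 : ((∑ x : ZMod p, rp A x : ℕ) : ℝ) = (A.card : ℝ) ^ 2 := by
    rw [E5_sum]
    push_cast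
    rfl
  calc en A A = ∑ x : ZMod p, (rp A x : ℝ) * (rp A x : ℝ) := rfl
    _ ≤ ∑ x : ZMod p, (A.card : ℝ) * (rp A x : ℝ) := by
        refine Finset.sum_le_sum fun x _ => ?_
        exact mul_le_mul_of_nonneg_right (by exact_mod_cast E5_le A x) (Nat.cast_nonneg _)
    _ = (A.card : ℝ) * ((∑ x : ZMod p, rp A x : ℕ) : ℝ) := by
        rw [← Finset.mul_sum]
        push_cast
        rfl
    _ = (A.card : ℝ) ^ 3 := by
        rw [h1]
        ring

end Pool.Agent.Fr

end

section

/-!
# Item E6: the Katz-Koester inclusion, `|A + sh B x| ≤ rp (A+B) x`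
-/

set_option autoImplicit false

open scoped Pointwise

namespace Pool.Agent.Fr

open Pool.Agent.LS Pool.Agent.Fou

theorem e6_sh_card_le (p : ℕ) [Fact p.Prime] (A : Finset (ZMod p)) (x : ZMod p) :
    (sh A x).card ≤ rp A x := by
  unfold rp
  refine Finset.card_le_card_of_injOn (fun a => (a, a - x)) ?_ ?_
  · intro a ha
    have ha' : a ∈ sh A x := ha
    unfold sh at ha'
    rw [Finset.mem_filter] at ha'
    have : (a, a - x) ∈ (A ×ˢ A).filter (fun v => v.1 - v.2 = x) := by
      rw [Finset.mem_filter, Finset.mem_product]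
      exact ⟨⟨ha'.1, ha'.2⟩, sub_sub_cancel a x⟩
    exact this
  · intro a _ b _ hab
    exact (Prod.mk.inj hab).1

theorem e6_sub_right (p : ℕ) [Fact p.Prime] (A B : Finset (ZMod p)) (x : ZMod p) :
    A + sh B x ⊆ sh (A + B) x := by
  intro z hz
  obtain ⟨a, ha, b, hb, rfl⟩ := Finset.mem_add.1 hz
  unfold sh at hb ⊢
  rw [Finset.mem_filter] at hb ⊢
  refine ⟨Finset.add_mem_add ha hb.1, ?_⟩
  have h : a + b - x = a + (b - x) := add_sub_assoc a b x
  rw [h]
  exact Finset.add_mem_add ha hb.2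

theorem e6_sub_left (p : ℕ) [Fact p.Prime] (A B : Finset (ZMod p)) (x : ZMod p) :
    sh A x + B ⊆ sh (A + B) x := by
  rw [add_comm (sh A x) B, add_comm A B]
  exact e6_sub_right p B A x

theorem th_E6 : S_E6 := by
  intro p _ A B x
  exact ⟨(Finset.card_le_card (e6_sub_right p A B x)).trans (e6_sh_card_le p (A + B) x),
    (Finset.card_le_card (e6_sub_left p A B x)).trans (e6_sh_card_le p (A + B) x)⟩

end Pool.Agent.Fr

end

section

/-!
# Case 2: the choice of the frequency
-/

set_option autoImplicit false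

open scoped Pointwise

namespace Pool.Agent.Fr

open Pool.Agent.LS Pool.Agent.Fou

theorem th_F2 : S_F2 := by
  intro p _ A B hA hB hT
  classical
  by_contra hcon
  push Not at hcon
  have hTne : (A + B).Nonempty := hA.add hB
  generalize A + B = T at *
  have ha : (0 : ℝ) < A.card := by exact_mod_cast hA.card_pos
  have hb : (0 : ℝ) < B.card := by exact_mod_cast hB.card_pos
  have ht : (0 : ℝ) < T.card := by exact_mod_cast hTne.card_pos
  have htp : (T.card : ℝ) < p := by exact_mod_cast hT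
  set L : ℝ := (p : ℝ) * en A T / (A.card : ℝ) ^ 2 + (p : ℝ) * en B T / (B.card : ℝ) ^ 2
        - 2 * (T.card : ℝ) ^ 2 with hL
  set D : ℝ := (p : ℝ) * T.card - (T.card : ℝ) ^ 2 with hD
  set w : ZMod p → ℝ := fun r => Complex.normSq (ft A r) / (A.card : ℝ) ^ 2 +
    Complex.normSq (ft B r) / (B.card : ℝ) ^ 2 with hw
  set g : ZMod p → ℝ := fun r => Complex.normSq (ft T r) with hg
  have hDpos : 0 < D := by
    have : D = (T.card : ℝ) * (p - T.card) := by rw [hD]; ring
    rw [this]
    exact mul_pos ht (by linarith)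
  have hw1 : ∀ r, (‖ft A r‖ / A.card) ^ 2 + (‖ft B r‖ / B.card) ^ 2 = w r := by
    intro r
    simp only [hw, div_pow, Complex.normSq_eq_norm_sq]
  have h1 : ∀ r : ZMod p, r ≠ 0 → w r * D < L := by
    intro r hr
    have := hcon r hr
    rwa [hw1] at this
  have h2 : ∑ r : ZMod p, g r = p * T.card := parseval T
  have h3 : ∑ r : ZMod p, w r * g r =
      (p : ℝ) * en A T / (A.card : ℝ) ^ 2 + (p : ℝ) * en B T / (B.card : ℝ) ^ 2 := by
    have e1 : ∀ r : ZMod p, w r * g r =
        Complex.normSq (ft A r) * Complex.normSq (ft T r) / (A.card : ℝ) ^ 2 +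
        Complex.normSq (ft B r) * Complex.normSq (ft T r) / (B.card : ℝ) ^ 2 := by
      intro r
      simp only [hw, hg]
      ring
    rw [Finset.sum_congr rfl fun r _ => e1 r, Finset.sum_add_distrib, ← Finset.sum_div,
      ← Finset.sum_div, energy, energy]
    rfl
  have hg0 : g 0 = (T.card : ℝ) ^ 2 := normSq_zero T
  have hw0 : w 0 = 2 := by
    simp only [hw, normSq_zero]
    rw [div_self (by positivity), div_self (by positivity)]
    norm_num
  have h4 : ∑ r ∈ Finset.univ.erase (0 : ZMod p), g r = D := by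
    have := Finset.add_sum_erase Finset.univ g (Finset.mem_univ (0 : ZMod p))
    rw [h2, hg0] at this
    rw [hD]
    linarith
  have h5 : ∑ r ∈ Finset.univ.erase (0 : ZMod p), w r * g r = L := by
    have := Finset.add_sum_erase Finset.univ (fun r => w r * g r) (Finset.mem_univ (0 : ZMod p))
    rw [h3, hg0, hw0] at this
    rw [hL]
    linarith
  have hpos : ∃ r ∈ Finset.univ.erase (0 : ZMod p), 0 < g r := by
    by_contra hno
    push Not at hno
    have := Finset.sum_nonpos hno
    linarith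
  obtain ⟨r0, hr0, hr0g⟩ := hpos
  have h6 : ∑ r ∈ Finset.univ.erase (0 : ZMod p), w r * g r * D <
      ∑ r ∈ Finset.univ.erase (0 : ZMod p), L * g r := by
    apply Finset.sum_lt_sum
    · intro r hr
      have := (h1 r (Finset.ne_of_mem_erase hr)).le
      have h7 : 0 ≤ g r := Complex.normSq_nonneg _
      nlinarith
    · refine ⟨r0, hr0, ?_⟩
      have := h1 r0 (Finset.ne_of_mem_erase hr0)
      nlinarith
  rw [← Finset.sum_mul, ← Finset.mul_sum, h4, h5] at h6
  exact lt_irrefl _ h6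

end Pool.Agent.Fr

end

section

/-!
# MP_54ef3e_nt, item H1: the half circle lemma (helper61)
-/

set_option autoImplicit false

open MeasureTheory Set

namespace Pool.Agent.Fr

open Pool.Agent.LS Pool.Agent.Fou

/-- The square wave. -/
noncomputable def H1_s (x : ℝ) : ℝ := if Int.fract x < 1 / 2 then 1 else -1

theorem H1_meas : Measurable H1_s :=
  Measurable.ite (measurableSet_lt measurable_fract measurable_const) measurable_const
    measurable_const

theorem H1_int (β a b : ℝ) :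
    IntervalIntegrable (fun t => H1_s (β + t) * Real.sin (2 * Real.pi * t)) volume a b := by
  have h1 : IntervalIntegrable (fun t => Real.sin (2 * Real.pi * t)) volume a b :=
    (by fun_prop : Continuous fun t => Real.sin (2 * Real.pi * t)).intervalIntegrable _ _
  have hb : ∀ t, ‖H1_s (β + t)‖ ≤ 1 := by
    intro t
    unfold H1_s
    split_ifs <;> simp
  have hm : AEStronglyMeasurable (fun t => H1_s (β + t)) volume :=
    (H1_meas.comp (measurable_const_add β)).aestronglyMeasurable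
  constructor
  · exact h1.1.bdd_mul (c := 1) hm.restrict (Filter.Eventually.of_forall hb)
  · exact h1.2.bdd_mul (c := 1) hm.restrict (Filter.Eventually.of_forall hb)

theorem H1_sumInt {ι : Type*} (A : Finset ι) (f : ι → ℝ) (a b : ℝ) :
    IntervalIntegrable (fun t => ∑ i ∈ A, H1_s (f i + t) * Real.sin (2 * Real.pi * t))
      volume a b := by
  have h := IntervalIntegrable.sum A
    (f := fun i t => H1_s (f i + t) * Real.sin (2 * Real.pi * t)) (fun i _ => H1_int (f i) a b)
  have e : (∑ i ∈ A, fun t => H1_s (f i + t) * Real.sin (2 * Real.pi * t)) =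
      fun t => ∑ i ∈ A, H1_s (f i + t) * Real.sin (2 * Real.pi * t) := by
    funext t
    simp only [Finset.sum_apply]
  rw [← e]
  exact h

theorem H1_sin (a b : ℝ) : ∫ t in a..b, Real.sin (2 * Real.pi * t) =
    (Real.cos (2 * Real.pi * a) - Real.cos (2 * Real.pi * b)) / (2 * Real.pi) := by
  have hpi : (2 * Real.pi) ≠ 0 := by positivity
  rw [intervalIntegral.integral_comp_mul_left (fun x => Real.sin x) hpi, integral_sin, smul_eq_mul]
  ring

theorem H1_J0 {β : ℝ} (h0 : 0 ≤ β) (h1 : β ≤ 1 / 2) :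
    ∫ t in (0 : ℝ)..(1 / 2), H1_s (β + t) * Real.sin (2 * Real.pi * t) =
      Real.cos (2 * Real.pi * β) / Real.pi := by
  have hpi := Real.pi_pos
  rw [← intervalIntegral.integral_add_adjacent_intervals (H1_int β 0 (1 / 2 - β))
    (H1_int β (1 / 2 - β) (1 / 2))]
  have e1 : ∫ t in (0 : ℝ)..(1 / 2 - β), H1_s (β + t) * Real.sin (2 * Real.pi * t) =
      ∫ t in (0 : ℝ)..(1 / 2 - β), Real.sin (2 * Real.pi * t) := by
    apply intervalIntegral.integral_congr_ae
    filter_upwards [compl_mem_ae_iff.2 (measure_singleton (1 / 2 - β))] with t ht htI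
    rw [uIoc_of_le (by linarith)] at htI
    have ht' : t ≠ 1 / 2 - β := ht
    have h2 : t < 1 / 2 - β := lt_of_le_of_ne htI.2 ht'
    have h3 : Int.fract (β + t) = β + t :=
      Int.fract_eq_self.2 ⟨by linarith [htI.1], by linarith⟩
    unfold H1_s
    rw [h3, if_pos (by linarith), one_mul]
  have e2 : ∫ t in (1 / 2 - β)..(1 / 2), H1_s (β + t) * Real.sin (2 * Real.pi * t) =
      ∫ t in (1 / 2 - β)..(1 / 2), -Real.sin (2 * Real.pi * t) := by
    apply intervalIntegral.integral_congr_ae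
    filter_upwards [compl_mem_ae_iff.2 (measure_singleton (1 / 2 : ℝ))] with t ht htI
    rw [uIoc_of_le (by linarith)] at htI
    have ht' : t ≠ 1 / 2 := ht
    have h2 : t < 1 / 2 := lt_of_le_of_ne htI.2 ht'
    have h3 : Int.fract (β + t) = β + t :=
      Int.fract_eq_self.2 ⟨by linarith [htI.1], by linarith⟩
    unfold H1_s
    rw [h3, if_neg (by linarith [htI.1])]
    ring
  rw [e1, e2, intervalIntegral.integral_neg, H1_sin, H1_sin]
  have c1 : Real.cos (2 * Real.pi * (1 / 2 - β)) = -Real.cos (2 * Real.pi * β) := by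
    rw [show 2 * Real.pi * (1 / 2 - β) = Real.pi - 2 * Real.pi * β by ring, Real.cos_pi_sub]
  have c2 : Real.cos (2 * Real.pi * (1 / 2)) = -1 := by
    rw [show 2 * Real.pi * (1 / 2) = Real.pi by ring, Real.cos_pi]
  rw [c1, c2, mul_zero, Real.cos_zero]
  field_simp
  ring

theorem H1_half (x : ℝ) : H1_s (x + 1 / 2) = -H1_s x := by
  unfold H1_s
  have h0 := Int.fract_nonneg x
  have h1 := Int.fract_lt_one x
  by_cases h : Int.fract x < 1 / 2
  · have h2 : Int.fract (x + 1 / 2) = Int.fract x + 1 / 2 := by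
      rw [Int.fract_eq_iff]
      refine ⟨by linarith, by linarith, ⌊x⌋, ?_⟩
      have := Int.self_sub_floor x
      linarith
    rw [h2, if_pos h, if_neg (by linarith)]
  · have h2 : Int.fract (x + 1 / 2) = Int.fract x - 1 / 2 := by
      rw [Int.fract_eq_iff]
      refine ⟨by linarith, by linarith, ⌊x⌋ + 1, ?_⟩
      have := Int.self_sub_floor x
      push_cast
      linarith
    rw [h2, if_neg h, if_pos (by linarith)]
    ring

theorem H1_J (β : ℝ) :
    ∫ t in (0 : ℝ)..(1 / 2), H1_s (β + t) * Real.sin (2 * Real.pi * t) =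
      Real.cos (2 * Real.pi * β) / Real.pi := by
  -- reduction to `0 ≤ β < 1`
  have hper : ∀ t, H1_s (β + t) = H1_s (Int.fract β + t) := by
    intro t
    unfold H1_s
    have h : β + t = (Int.fract β + t) + (⌊β⌋ : ℤ) := by
      have := Int.self_sub_floor β
      linarith
    rw [h, Int.fract_add_intCast]
  have hcos : Real.cos (2 * Real.pi * β) = Real.cos (2 * Real.pi * Int.fract β) := by
    have h : 2 * Real.pi * β = 2 * Real.pi * Int.fract β + (⌊β⌋ : ℤ) * (2 * Real.pi) := by
      have := Int.self_sub_floor β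
      rw [← this]
      ring
    rw [h, Real.cos_add_int_mul_two_pi]
  simp only [hper]
  rw [hcos]
  have h0 := Int.fract_nonneg β
  have h1 := Int.fract_lt_one β
  rcases le_total (Int.fract β) (1 / 2) with h | h
  · exact H1_J0 h0 h
  · have h2 := H1_J0 (β := Int.fract β - 1 / 2) (by linarith) (by linarith)
    have e : ∀ t, H1_s (Int.fract β + t) = -H1_s (Int.fract β - 1 / 2 + t) := by
      intro t
      rw [← H1_half]
      congr 1
      ring
    simp only [e, neg_mul]
    rw [intervalIntegral.integral_neg, h2,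
      show 2 * Real.pi * (Int.fract β - 1 / 2) = 2 * Real.pi * Int.fract β - Real.pi by ring,
      Real.cos_sub_pi]
    ring

theorem H1_card {p : ℕ} [Fact p.Prime] (A : Finset (ZMod p)) (u : ℝ) :
    2 * ((half u A).card : ℝ) - A.card = ∑ a ∈ A, H1_s ((a.val : ℝ) / p - u) := by
  have hc : ∀ x : ZMod p, ((cellR 2 u x + (2 - 0)) % 2 < 1) ↔
      Int.fract ((x.val : ℝ) / p - u) < 1 / 2 := by
    intro x
    have h0 := Int.fract_nonneg ((x.val : ℝ) / p - u)
    have h1 := Int.fract_lt_one ((x.val : ℝ) / p - u)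
    unfold cellR
    by_cases h : Int.fract ((x.val : ℝ) / p - u) < 1 / 2
    · have h2 : ⌊((2 : ℕ) : ℝ) * Int.fract ((x.val : ℝ) / p - u)⌋₊ = 0 := by
        rw [Nat.floor_eq_zero]
        push_cast
        linarith
      rw [h2]
      exact iff_of_true (by decide) h
    · have h2 : ⌊((2 : ℕ) : ℝ) * Int.fract ((x.val : ℝ) / p - u)⌋₊ = 1 := by
        rw [Nat.floor_eq_iff (by positivity)]
        push_cast
        constructor <;> linarith
      rw [h2]
      exact iff_of_false (by decide) h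
  have h1 : ((half u A).card : ℝ) =
      ∑ a ∈ A, if Int.fract ((a.val : ℝ) / p - u) < 1 / 2 then (1 : ℝ) else 0 := by
    unfold half arcR
    rw [Finset.card_filter]
    push_cast
    refine Finset.sum_congr rfl fun x _ => ?_
    simp only [hc x]
  rw [h1, Finset.mul_sum, Finset.cast_card, ← Finset.sum_sub_distrib]
  refine Finset.sum_congr rfl fun x _ => ?_
  unfold H1_s
  split_ifs <;> norm_num

theorem th_H1 : S_H1 := by
  intro p _ A
  by_contra hcon
  push Not at hcon
  set φ : ℝ := Complex.arg (ft A 1) with hφ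
  set θ : ℝ := φ / (2 * Real.pi) with hθ
  have hpi := Real.pi_pos
  -- the Fourier coefficient
  have hfa : fa A = ∑ a ∈ A, Real.cos (2 * Real.pi * ((a.val : ℝ) / p - θ)) := by
    have h1 : (Complex.exp (-(φ : ℂ) * Complex.I) * ft A 1).re = fa A := by
      have h2 : ft A 1 = ‖ft A 1‖ * Complex.exp (φ * Complex.I) :=
        (Complex.norm_mul_exp_arg_mul_I (ft A 1)).symm
      have h3 : Complex.exp (-(φ : ℂ) * Complex.I) * ft A 1 = ((‖ft A 1‖ : ℝ) : ℂ) := by
        conv_lhs => rw [h2]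
        rw [mul_left_comm, ← Complex.exp_add]
        simp
      rw [h3, Complex.ofReal_re]
      rfl
    rw [← h1]
    unfold ft
    rw [Finset.mul_sum, Complex.re_sum]
    refine Finset.sum_congr rfl fun a _ => ?_
    rw [one_mul, ZMod.stdAddChar_apply, ZMod.toCircle_apply, ← Complex.exp_add]
    have h4 : -(φ : ℂ) * Complex.I + 2 * Real.pi * Complex.I * a.val / p =
        ((2 * Real.pi * ((a.val : ℝ) / p - θ) : ℝ) : ℂ) * Complex.I := by
      rw [hθ]
      push_cast
      have : (Real.pi : ℂ) ≠ 0 := by exact_mod_cast hpi.ne'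
      field_simp
      ring
    rw [h4, Complex.exp_ofReal_mul_I_re]
  -- the integral
  have hI : ∫ t in (0 : ℝ)..(1 / 2), (fa A - ∑ a ∈ A, H1_s (((a.val : ℝ) / p - θ) + t)) *
      Real.sin (2 * Real.pi * t) = 0 := by
    have e : ∀ t : ℝ, (fa A - ∑ a ∈ A, H1_s (((a.val : ℝ) / p - θ) + t)) *
        Real.sin (2 * Real.pi * t) = fa A * Real.sin (2 * Real.pi * t) -
        ∑ a ∈ A, H1_s (((a.val : ℝ) / p - θ) + t) * Real.sin (2 * Real.pi * t) := by
      intro t
      rw [sub_mul, Finset.sum_mul]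
    simp only [e]
    rw [intervalIntegral.integral_sub, intervalIntegral.integral_const_mul, H1_sin,
      intervalIntegral.integral_finsetSum]
    · simp only [H1_J]
      rw [← Finset.sum_div, ← hfa, mul_zero, Real.cos_zero,
        show 2 * Real.pi * (1 / 2) = Real.pi by ring, Real.cos_pi]
      field_simp
      ring
    · intro a _
      exact H1_int _ _ _
    · exact ((by fun_prop : Continuous fun t => Real.sin (2 * Real.pi * t)).intervalIntegrable
        _ _).const_mul _
    · exact H1_sumInt A (fun a => (a.val : ℝ) / p - θ) _ _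
  have hpos : 0 < ∫ t in (0 : ℝ)..(1 / 2), (fa A - ∑ a ∈ A, H1_s (((a.val : ℝ) / p - θ) + t)) *
      Real.sin (2 * Real.pi * t) := by
    apply intervalIntegral.intervalIntegral_pos_of_pos_on
    · have e : ∀ t : ℝ, (fa A - ∑ a ∈ A, H1_s (((a.val : ℝ) / p - θ) + t)) *
          Real.sin (2 * Real.pi * t) = fa A * Real.sin (2 * Real.pi * t) -
          ∑ a ∈ A, H1_s (((a.val : ℝ) / p - θ) + t) * Real.sin (2 * Real.pi * t) := by
        intro t
        rw [sub_mul, Finset.sum_mul]
      simp only [e]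
      exact (((by fun_prop : Continuous fun t => Real.sin (2 * Real.pi * t)).intervalIntegrable
        _ _).const_mul _).sub (H1_sumInt A (fun a => (a.val : ℝ) / p - θ) _ _)
    · intro t ht
      apply mul_pos
      · have h1 := hcon (θ - t)
        have h2 := H1_card A (θ - t)
        have h3 : ∑ a ∈ A, H1_s ((a.val : ℝ) / p - (θ - t)) =
            ∑ a ∈ A, H1_s (((a.val : ℝ) / p - θ) + t) :=
          Finset.sum_congr rfl fun a _ => by congr 1; ring
        rw [← h3, ← h2]
        linarith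
      · apply Real.sin_pos_of_pos_of_lt_pi
        · have := ht.1
          positivity
        · have := ht.2
          nlinarith
    · norm_num
  rw [hI] at hpos
  exact lt_irrefl _ hpos

end Pool.Agent.Fr

end

section

/-!
# Item KA: adding a row to the accumulated combination
-/

set_option autoImplicit false

namespace Pool.Agent.Fr.Cert

theorem th_KA : S_KA := by
  rintro ⟨hadd, hmul, dadd, dmul, -, -, -⟩ n r m p q P Q c ⟨f, g, hf, hg, hP, hQ, hle⟩
    ⟨f', g', hf', hg', hp, hq, hle'⟩ hm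
  have hm' : m ≤ 2 ^ 30 := hm.le
  refine ⟨fun i => f i + m * f' i, fun i => g i + m * g' i, fun i => ?_, fun i => ?_, ?_, ?_, ?_⟩
  · have h1 : m * f' i ≤ 2 ^ 30 * 2 ^ 17 := Nat.mul_le_mul hm' (hf' i)
    have h2 := hf i
    have h3 : (2 : ℕ) ^ 30 * 2 ^ 17 = 2 ^ 47 := by norm_num
    calc f i + m * f' i ≤ r * 2 ^ 47 + 2 ^ 47 := by
          rw [← h3]; exact Nat.add_le_add h2 h1
      _ = (r + 1) * 2 ^ 47 := by ring
  · have h1 : m * g' i ≤ 2 ^ 30 * 2 ^ 17 := Nat.mul_le_mul hm' (hg' i)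
    have h2 := hg i
    have h3 : (2 : ℕ) ^ 30 * 2 ^ 17 = 2 ^ 47 := by norm_num
    calc g i + m * g' i ≤ (2 ^ 50 + r * 2 ^ 47) + 2 ^ 47 := by
          rw [← h3]; exact Nat.add_le_add h2 h1
      _ = 2 ^ 50 + (r + 1) * 2 ^ 47 := by ring
  · rw [hadd, hmul, hP, hp]
  · rw [hadd, hmul, hQ, hq]
  · rw [dadd, dmul, dadd, dmul]
    exact Nat.add_le_add hle (Nat.mul_le_mul_left m hle')

end Pool.Agent.Fr.Cert

end

section

/-!
# Bits of a number with digits 0/1 in base 2^64
-/

set_option autoImplicit false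

namespace Pool.Agent.Fr.Cert

private lemma KB_lt (m : ℕ) (f : ℕ → ℕ) (hf : ∀ i, f i ≤ 1) : ev m f < 2 ^ (64 * m) := by
  induction m with
  | zero => simp [ev]
  | succ m ih =>
    have h1 : ev (m + 1) f = ev m f + f m * 2 ^ (64 * m) := by
      rw [ev, Finset.sum_range_succ, ← ev]
    have h2 : f m * 2 ^ (64 * m) ≤ 1 * 2 ^ (64 * m) := Nat.mul_le_mul_right _ (hf m)
    have h3 : 2 ^ (64 * (m + 1)) = 2 ^ 64 * 2 ^ (64 * m) := by
      rw [← pow_add]
      congr 1
      ring
    have h4 : 0 < 2 ^ (64 * m) := by positivity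
    have h5 : 2 * 2 ^ (64 * m) ≤ 2 ^ 64 * 2 ^ (64 * m) := Nat.mul_le_mul_right _ (by norm_num)
    rw [h1, h3]
    omega

theorem th_KB : S_KB := by
  intro m f hf
  induction m with
  | zero =>
    intro j
    simp [ev]
  | succ m ih =>
    intro j
    have h1 : ev (m + 1) f = 2 ^ (64 * m) * f m + ev m f := by
      rw [ev, Finset.sum_range_succ, ← ev, mul_comm (f m), add_comm]
    rw [h1, Nat.testBit_two_pow_mul_add _ (KB_lt m f hf)]
    split_ifs with h
    · rw [ih j]
      constructor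
      · rintro ⟨i, hi, h2⟩
        exact ⟨i, by omega, h2⟩
      · rintro ⟨i, hi, h2, h3⟩
        exact ⟨i, by omega, h2, h3⟩
    · have h4 : ∀ a : ℕ, a ≤ 1 → ∀ l : ℕ, (a.testBit l = true ↔ l = 0 ∧ a = 1) := by
        intro a ha l
        interval_cases a
        · simp
        · rw [Nat.testBit_one_eq_true_iff_self_eq_zero]
          simp
      rw [h4 (f m) (hf m)]
      constructor
      · rintro ⟨h5, h6⟩
        exact ⟨m, by omega, by omega, h6⟩
      · rintro ⟨i, hi, h5, h6⟩
        have h7 : i = m := by omega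
        subst h7
        exact ⟨by omega, h6⟩

end Pool.Agent.Fr.Cert

end

section

/-!
# Item KC: the final comparison gives a contradiction
-/

set_option autoImplicit false

namespace Pool.Agent.Fr.Cert

lemma kc_pw1 : pw 1 = 2 ^ 64 := by
  unfold pw
  rfl

lemma kc_ev_succ (m : ℕ) (f : ℕ → ℕ) :
    ev (m + 1) f = f 0 + 2 ^ 64 * ev m (fun i => f (i + 1)) := by
  unfold ev
  rw [Finset.sum_range_succ', Finset.mul_sum, add_comm, Nat.mul_zero, pow_zero, mul_one]
  have : ∀ i ∈ Finset.range m, f (i + 1) * 2 ^ (64 * (i + 1)) =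
      2 ^ 64 * (f (i + 1) * 2 ^ (64 * i)) := by
    intro i _
    rw [Nat.mul_add, pow_add, mul_one, mul_comm (2 ^ (64 * i)), mul_left_comm]
  rw [Finset.sum_congr rfl this]

lemma kc_mod (m : ℕ) (f : ℕ → ℕ) (h : f 0 < 2 ^ 64) : ev (m + 1) f % 2 ^ 64 = f 0 := by
  rw [kc_ev_succ, Nat.add_mul_mod_self_left, Nat.mod_eq_of_lt h]

lemma kc_div (m : ℕ) (f : ℕ → ℕ) (h : f 0 < 2 ^ 64) :
    ev (m + 1) f / 2 ^ 64 = ev m (fun i => f (i + 1)) := by
  rw [kc_ev_succ, Nat.add_mul_div_left _ _ (by positivity), Nat.div_eq_of_lt h, zero_add]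

lemma kc_ev_one (f : ℕ → ℕ) : ev 1 f = f 0 := by
  simp [ev]

lemma kc_cmp_succ (F : ℕ → ℕ → Bool) (m P Q : ℕ) :
    cmpDig F (m + 1) P Q = cond (Nat.ble (Nat.mod P (pw 1)) (Nat.mod Q (pw 1)))
      (cmpDig F m (Nat.div P (pw 1)) (Nat.div Q (pw 1))) false := by
  unfold cmpDig
  simp only [force_eq]

lemma kc_mod' (m : ℕ) (f : ℕ → ℕ) (h : f 0 < 2 ^ 64) :
    Nat.mod (ev (m + 1) f) (2 ^ 64) = f 0 := kc_mod m f h

lemma kc_div' (m : ℕ) (f : ℕ → ℕ) (h : f 0 < 2 ^ 64) :
    Nat.div (ev (m + 1) f) (2 ^ 64) = ev m (fun i => f (i + 1)) := kc_div m f h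

lemma kc_cmp (F : ℕ → ℕ → Bool) (j : ℕ) : ∀ (f g : ℕ → ℕ), (∀ i, f i < 2 ^ 64) →
    (∀ i, g i < 2 ^ 64) → cmpDig F j (ev (j + 2) f) (ev (j + 2) g) = true →
    (∀ i < j, f i ≤ g i) ∧ F (ev 2 (fun i => f (i + j))) (ev 2 (fun i => g (i + j))) = true := by
  induction j with
  | zero =>
    intro f g _ _ h
    refine ⟨fun i hi => absurd hi (Nat.not_lt_zero i), ?_⟩
    simpa [cmpDig] using h
  | succ j ih =>
    intro f g hf hg h
    rw [kc_cmp_succ, kc_pw1] at h
    have e : j + 1 + 2 = (j + 2) + 1 := by ring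
    rw [e, kc_mod' _ _ (hf 0), kc_mod' _ _ (hg 0), kc_div' _ _ (hf 0), kc_div' _ _ (hg 0)] at h
    have h1 : Nat.ble (f 0) (g 0) = true := by
      by_contra hc
      rw [Bool.not_eq_true] at hc
      rw [hc] at h
      simp at h
    rw [h1, cond_true] at h
    obtain ⟨h2, h3⟩ := ih (fun i => f (i + 1)) (fun i => g (i + 1)) (fun i => hf _)
      (fun i => hg _) h
    refine ⟨fun i hi => ?_, ?_⟩
    · rcases i with _ | i
      · exact Nat.le_of_ble_eq_true h1
      · exact h2 i (by omega)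
    · have e1 : (fun i => f (i + j + 1)) = (fun i => f (i + (j + 1))) := by
        funext i
        rw [add_assoc]
      have e2 : (fun i => g (i + j + 1)) = (fun i => g (i + (j + 1))) := by
        funext i
        rw [add_assoc]
      rw [e1, e2] at h3
      exact h3

lemma kc_fin (ka kb : ℕ) (f g : ℕ → ℕ) (hf : ∀ i, f i < 2 ^ 64) (hg : ∀ i, g i < 2 ^ 64)
    (h : fin ka kb (ev 2 f) (ev 2 g) = true) :
    f 0 * ka + f 1 < g 0 * ka + g 1 ∧
      ((kb = 0 ∧ f 0 ≤ g 0) ∨ (kb ≠ 0 ∧ f 0 * kb + f 1 < g 0 * kb + g 1)) := by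
  unfold fin at h
  simp only [force_eq, kc_pw1] at h
  have a1 : Nat.mod (ev 2 f) (2 ^ 64) = f 0 := kc_mod 1 f (hf 0)
  have a2 : Nat.mod (ev 2 g) (2 ^ 64) = g 0 := kc_mod 1 g (hg 0)
  have a3 : Nat.div (ev 2 f) (2 ^ 64) = f 1 := by
    have := kc_div 1 f (hf 0)
    rw [kc_ev_one] at this
    exact this
  have a4 : Nat.div (ev 2 g) (2 ^ 64) = g 1 := by
    have := kc_div 1 g (hg 0)
    rw [kc_ev_one] at this
    exact this
  rw [a1, a2, a3, a4] at h
  have h' := h
  rw [Bool.and_eq_true] at h'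
  obtain ⟨h1, h2⟩ := h'
  have h1' : f 0 * ka + f 1 < g 0 * ka + g 1 := by
    have := Nat.le_of_ble_eq_true h1
    exact this
  refine ⟨h1', ?_⟩
  by_cases hk : kb = 0
  · subst hk
    left
    refine ⟨rfl, ?_⟩
    simp only [Nat.beq_refl, cond_true] at h2
    exact Nat.le_of_ble_eq_true h2
  · right
    have hb : Nat.beq kb 0 = false := by
      cases kb with
      | zero => exact absurd rfl hk
      | succ m => rfl
    rw [hb, cond_false] at h2
    have := Nat.le_of_ble_eq_true h2
    exact ⟨hk, this⟩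

theorem th_KC : S_KC := by
  intro n r P Q ka kb c hA hr hc hka hkb
  obtain ⟨f, g, hf, hg, hP, hQ, hd⟩ := hA
  have hr' : r * 2 ^ 47 ≤ 64 * 2 ^ 47 := Nat.mul_le_mul_right _ hr
  have hf' : ∀ i, f i < 2 ^ 64 := by
    intro i
    have := hf i
    norm_num at this hr' ⊢
    omega
  have hg' : ∀ i, g i < 2 ^ 64 := by
    intro i
    have := hg i
    norm_num at this hr' ⊢
    omega
  subst hP hQ
  obtain ⟨h1, h2⟩ := kc_cmp _ (2 * n) f g hf' hg' hc
  have h3 := kc_fin ka kb _ _ (fun i => hf' _) (fun i => hg' _) h2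
  simp only [zero_add] at h3
  obtain ⟨h4, h5⟩ := h3
  rw [add_comm 1 (2 * n)] at h4 h5
  -- the value at `k`
  have h6 : f (2 * n) * c.k + f (2 * n + 1) < g (2 * n) * c.k + g (2 * n + 1) := by
    obtain ⟨d, hd'⟩ := Nat.exists_eq_add_of_le hka
    rcases Nat.le_total (f (2 * n)) (g (2 * n)) with hle | hle
    · rw [hd']
      have : f (2 * n) * d ≤ g (2 * n) * d := Nat.mul_le_mul_right _ hle
      rw [Nat.mul_add, Nat.mul_add]
      omega
    · rcases h5 with ⟨_, h5⟩ | ⟨hne, h5⟩
      · rw [hd']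
        have : f (2 * n) * d ≤ g (2 * n) * d := Nat.mul_le_mul_right _ h5
        rw [Nat.mul_add, Nat.mul_add]
        omega
      · rcases hkb with hkb | hkb
        · exact absurd hkb hne
        · obtain ⟨e, he⟩ := Nat.exists_eq_add_of_le hkb
          rw [he, Nat.mul_add, Nat.mul_add] at h5
          have : g (2 * n) * e ≤ f (2 * n) * e := Nat.mul_le_mul_right _ hle
          omega
  -- the sums
  unfold dot at hd
  rw [show 2 * n + 2 = (2 * n) + 1 + 1 by ring] at hd
  rw [Finset.sum_range_succ, Finset.sum_range_succ, Finset.sum_range_succ,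
    Finset.sum_range_succ] at hd
  have v1 : vec n c (2 * n) = c.k := by
    unfold vec
    rw [if_neg (by omega), if_neg (by omega), if_pos rfl]
  have v2 : vec n c (2 * n + 1) = 1 := by
    unfold vec
    rw [if_neg (by omega), if_neg (by omega), if_neg (by omega)]
  rw [v1, v2, mul_one, mul_one] at hd
  have hs : ∑ i ∈ Finset.range (2 * n), f i * vec n c i ≤
      ∑ i ∈ Finset.range (2 * n), g i * vec n c i :=
    Finset.sum_le_sum fun i hi => Nat.mul_le_mul_right _ (h1 i (Finset.mem_range.1 hi))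
  omega

end Pool.Agent.Fr.Cert

end
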