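import Pool.Agent.Work.MP_54ef3e_nt.Bd.B02

/-! Bundle of small proof modules (one section per former module). -/

section

/-!
# A set of bits at the places `64 i` as a number in base `2^64`
-/

set_option autoImplicit false

namespace Pool.Agent.Fr.Cert

theorem th_KE : S_KE := by
  intro hB m E hE
  apply Nat.eq_of_testBit_eq
  intro j
  have hf : ∀ i, (fun i => if E.testBit (64 * i) then 1 else 0 : ℕ → ℕ) i ≤ 1 := by
    intro i
    by_cases h : E.testBit (64 * i) = true <;> simp [h]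
  have key := hB m (fun i => if E.testBit (64 * i) then 1 else 0) hf j
  by_cases h : E.testBit j = true
  · obtain ⟨i, hi, hj⟩ := hE j h
    rw [h]
    symm
    rw [key]
    refine ⟨i, hi, hj, ?_⟩
    rw [hj] at h
    simp [h]
  · have h' : (ev m (fun i => if E.testBit (64 * i) then 1 else 0)).testBit j ≠ true := by
      intro h2
      rw [key] at h2
      obtain ⟨i, hi, hj, h3⟩ := h2
      rw [hj] at h
      simp [h] at h3
    simp only [Bool.not_eq_true] at h h'
    rw [h, h']

end Pool.Agent.Fr.Cert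

end

section

/-!
# The functional rows
-/

set_option autoImplicit false

namespace Pool.Agent.Fr.Cert

theorem KF_sum (P : Par) (A C : ℤ) (c : Conf) :
    ∑ i ∈ Finset.range (2 * P.n + 2), co P A C i * (vec P.n c i : ℤ) =
      P.Phi c + C - A * c.k := by
  rw [Finset.sum_range_succ, Finset.sum_range_succ, two_mul, Finset.sum_range_add]
  have e1 : ∑ i ∈ Finset.range P.n, co P A C i * (vec P.n c i : ℤ) =
      ∑ i ∈ Finset.range P.n, P.C.getD i 0 * (c.s i : ℤ) := by
    apply Finset.sum_congr rfl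
    intro i hi
    rw [Finset.mem_range] at hi
    unfold co vec
    rw [if_pos hi, if_pos hi]
  have e2 : ∑ i ∈ Finset.range P.n, co P A C (P.n + i) * (vec P.n c (P.n + i) : ℤ) =
      ∑ i ∈ Finset.range P.n, P.D.getD i 0 * (c.t i : ℤ) := by
    apply Finset.sum_congr rfl
    intro i hi
    rw [Finset.mem_range] at hi
    unfold co vec
    rw [if_neg (by omega), if_pos (by omega), if_neg (by omega), if_pos (by omega),
      Nat.add_sub_cancel_left]
  have e3 : co P A C (P.n + P.n) * (vec P.n c (P.n + P.n) : ℤ) = -A * c.k := by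
    unfold co vec
    rw [if_neg (by omega), if_neg (by omega), if_pos (by omega), if_neg (by omega),
      if_neg (by omega), if_pos (by omega)]
  have e4 : co P A C (P.n + P.n + 1) * (vec P.n c (P.n + P.n + 1) : ℤ) = C := by
    unfold co vec
    rw [if_neg (by omega), if_neg (by omega), if_neg (by omega), if_neg (by omega),
      if_neg (by omega), if_neg (by omega)]
    simp
  rw [e1, e2, e3, e4]
  unfold Par.Phi
  ring

theorem KF_dot (P : Par) (A C : ℤ) (c : Conf) :
    ((dot (2 * P.n + 2) (fun i => (co P A C i).toNat) (vec P.n c) : ℕ) : ℤ) -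
      (dot (2 * P.n + 2) (fun i => (-co P A C i).toNat) (vec P.n c) : ℕ) =
      P.Phi c + C - A * c.k := by
  rw [← KF_sum]
  unfold dot
  push_cast
  rw [← Finset.sum_sub_distrib]
  apply Finset.sum_congr rfl
  intro i _
  rw [← sub_mul]
  congr 1
  omega

theorem KF_bound {P : Par} {A C : ℤ} (h : ∀ i < 2 * P.n + 2, |co P A C i| ≤ 2 ^ 16) (i : ℕ) :
    |co P A C i| ≤ 2 ^ 16 := by
  rcases Nat.lt_or_ge i (2 * P.n + 2) with hi | hi
  · exact h i hi
  · have h1 := h (2 * P.n + 1) (by omega)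
    have e : co P A C i = co P A C (2 * P.n + 1) := by
      unfold co
      rw [if_neg (by omega), if_neg (by omega), if_neg (by omega), if_neg (by omega),
        if_neg (by omega), if_neg (by omega)]
    rw [e]
    exact h1

theorem th_KF : S_KF := by
  intro hKM hKR hKL T P c hT hG
  obtain ⟨l1, l2, l3, l4, _⟩ := hKL
  constructor
  · refine ⟨fun i => (co P P.A0 P.C0 i).toNat, fun i => (-co P P.A0 P.C0 i).toNat, ?_, ?_,
      hT.F0P, hT.F0Q, ?_⟩
    · intro i
      have := abs_le.1 (KF_bound hT.c0 i)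
      show (co P P.A0 P.C0 i).toNat ≤ 2 ^ 17
      omega
    · intro i
      have := abs_le.1 (KF_bound hT.c0 i)
      show (-co P P.A0 P.C0 i).toNat ≤ 2 ^ 17
      omega
    · have h1 := KF_dot P P.A0 P.C0 c
      have h2 := hG.f0
      have : ((dot (2 * P.n + 2) (fun i => (-co P P.A0 P.C0 i).toNat) (vec P.n c) : ℕ) : ℤ) ≤
          (dot (2 * P.n + 2) (fun i => (co P P.A0 P.C0 i).toNat) (vec P.n c) : ℕ) := by
        linarith
      exact_mod_cast this
  · intro x hx
    obtain ⟨r1, r2, _, _⟩ := hKR hKM P.n x (P.n / 2) c hx (Nat.div_le_self _ _)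
    refine ⟨fun i => (co P P.A1 P.C1 i).toNat, fun i => (-co P P.A1 P.C1 i).toNat +
      T.B1 * (if i < P.n then ind P.n x (P.n / 2) i else 0), ?_, ?_, hT.F1P, ?_, ?_⟩
    · intro i
      have := abs_le.1 (KF_bound hT.c1 i)
      show (co P P.A1 P.C1 i).toNat ≤ 2 ^ 17
      omega
    · intro i
      have h1 := abs_le.1 (KF_bound hT.c1 i)
      have h2 : (if i < P.n then ind P.n x (P.n / 2) i else 0) ≤ 1 := by
        unfold ind
        split_ifs <;> omega
      have h3 : T.B1 * (if i < P.n then ind P.n x (P.n / 2) i else 0) ≤ 2 ^ 16 * 1 :=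
        Nat.mul_le_mul hT.B1le h2
      show (-co P P.A1 P.C1 i).toNat + T.B1 * (if i < P.n then ind P.n x (P.n / 2) i else 0) ≤
        2 ^ 17
      omega
    · rw [l1, l2, ← hT.F1Q, ← r1]
    · rw [l3, l4, r2]
      have h1 := KF_dot P P.A1 P.C1 c
      have h2 := hG.f1 x
      rw [← hT.B1] at h2
      have : ((dot (2 * P.n + 2) (fun i => (-co P P.A1 P.C1 i).toNat) (vec P.n c) +
          T.B1 * win P.n c.s x (P.n / 2) : ℕ) : ℤ) ≤
          (dot (2 * P.n + 2) (fun i => (co P P.A1 P.C1 i).toNat) (vec P.n c) : ℕ) := by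
        push_cast
        linarith
      exact_mod_cast this

end Pool.Agent.Fr.Cert

end

section

/-!
# Item KL: linear structure of `ev`, `dot`; `ones`
-/

set_option autoImplicit false

namespace Pool.Agent.Fr.Cert

open Finset

private lemma kl_geom (a : ℕ) : (∑ i ∈ Finset.range a, 1 * 2 ^ (64 * i)) * bm = 2 ^ (64 * a) - 1 := by
  induction a with
  | zero => simp
  | succ n ih =>
    rw [Finset.sum_range_succ, add_mul, ih]
    have h1 : (2:ℕ) ^ (64 * (n + 1)) = 2 ^ (64 * n) * 18446744073709551616 := by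
      rw [show 64 * (n + 1) = 64 * n + 64 by ring, pow_add]; norm_num
    have h2 : 1 ≤ (2:ℕ) ^ (64 * n) := Nat.one_le_two_pow
    rw [h1]
    unfold bm
    omega

theorem th_KL : S_KL := by
  refine ⟨?_, ?_, ?_, ?_, ?_, ?_, ?_⟩
  · intro m f g
    unfold ev
    rw [← Finset.sum_add_distrib]
    exact Finset.sum_congr rfl fun i _ => by ring
  · intro m a f
    unfold ev
    rw [Finset.mul_sum]
    exact Finset.sum_congr rfl fun i _ => by ring
  · intro m f g v
    unfold dot
    rw [← Finset.sum_add_distrib]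
    exact Finset.sum_congr rfl fun i _ => by ring
  · intro m a f v
    unfold dot
    rw [Finset.mul_sum]
    exact Finset.sum_congr rfl fun i _ => by ring
  · intro m j hj
    have hp : pw j = 2 ^ (64 * j) := rfl
    unfold ev
    rw [hp, Finset.sum_eq_single j]
    · simp
    · intro b _ hb
      simp [hb]
    · intro h
      exact absurd (Finset.mem_range.2 hj) h
  · intro m j v hj
    unfold dot
    rw [Finset.sum_eq_single j]
    · simp
    · intro b _ hb
      simp [hb]
    · intro h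
      exact absurd (Finset.mem_range.2 hj) h
  · intro a
    have hp : pw a = 2 ^ (64 * a) := rfl
    have h := kl_geom a
    have ho : ones a = (pw a - 1) / bm := rfl
    rw [ho, hp, ← h]
    unfold ev
    exact Nat.mul_div_cancel _ (by unfold bm; norm_num)

end Pool.Agent.Fr.Cert

end

section

set_option autoImplicit false

namespace Pool.Agent.Fr.Cert

theorem th_KLEAF : S_KLEAF := by
  intro hKB hKE hKL hKC hrows T P c N E H L ka kb cc hT hG hI hleaf
  unfold leaf at hleaf
  rw [force_eq] at hleaf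
  have hE : ∀ j, E.testBit j = true → ∃ i < 2 * P.n + 2, j = 64 * i := by
    intro j hj
    obtain ⟨i, hi, hji, _⟩ := hI.E j hj
    exact ⟨i, by omega, hji⟩
  have hEv := hKE hKB (2 * P.n + 2) E hE
  have hAcc : Acc P.n c 0 0 (Nat.mul 1125899906842624 E) := by
    refine ⟨fun _ => 0, fun i => 1125899906842624 * (if E.testBit (64 * i) then 1 else 0),
      ?_, ?_, ?_, ?_, ?_⟩
    · intro i; simp
    · intro i
      dsimp only
      split_ifs <;> norm_num
    · simp [ev]
    · rw [hKL.2.1, ← hEv]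
      rfl
    · have h0 : dot (2 * P.n + 2)
          (fun i => 1125899906842624 * (if E.testBit (64 * i) then 1 else 0)) (vec P.n c) = 0 := by
        unfold dot
        apply Finset.sum_eq_zero
        intro i _
        by_cases hb : E.testBit (64 * i) = true
        · obtain ⟨i', hi', hii, hs⟩ := hI.E _ hb
          have hii' : i = i' := by omega
          subst hii'
          simp [vec, hi', hs]
        · simp [hb]
      rw [h0]
      exact Nat.zero_le _
  obtain ⟨r', A', B', hr', hAcc', hf⟩ := hrows T P c N E H L ka kb _ hT hG hI 64 0 cc 0 _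
    (by norm_num) hAcc hleaf
  have hn : Nat.mul 2 T.n = 2 * P.n := by rw [hT.n]; rfl
  rw [hn] at hf
  exact hKC P.n r' A' B' ka kb c hAcc' hr' hf hI.ka hI.kb

end Pool.Agent.Fr.Cert

end

section

/-!
# Windows: the packed mask and the window sums
-/

set_option autoImplicit false

namespace Pool.Agent.Fr.Cert

lemma km_ones (a : ℕ) : ones a = ∑ q ∈ Finset.range a, 2 ^ (64 * q) := by
  have h := Nat.geomSum_eq (m := 2 ^ 64) (by norm_num) a
  have h2 : ∑ q ∈ Finset.range a, 2 ^ (64 * q) = ∑ q ∈ Finset.range a, (2 ^ 64) ^ q := by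
    apply Finset.sum_congr rfl
    intro q _
    rw [pow_mul]
  rw [h2, h, ← pow_mul]
  rfl

lemma km_ones_lt (m : ℕ) : ∑ q ∈ Finset.range m, 2 ^ (64 * q) < 2 ^ (64 * m) := by
  induction m with
  | zero => simp
  | succ m ih =>
    rw [Finset.sum_range_succ]
    have h : (2 : ℕ) ^ (64 * (m + 1)) = 2 ^ (64 * m) * 2 ^ 64 := by
      rw [mul_add, pow_add]
    rw [h]
    have h3 : (2 : ℕ) ^ (64 * m) * 2 ≤ 2 ^ (64 * m) * 2 ^ 64 := by
      apply Nat.mul_le_mul_left
      norm_num
    omega

lemma km_shift (x m : ℕ) : ∑ q ∈ Finset.range m, 2 ^ (64 * (x + q)) < 2 ^ (64 * (x + m)) := by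
  have h : ∑ q ∈ Finset.range m, 2 ^ (64 * (x + q))
      = 2 ^ (64 * x) * ∑ q ∈ Finset.range m, 2 ^ (64 * q) := by
    rw [Finset.mul_sum]
    apply Finset.sum_congr rfl
    intro q _
    rw [mul_add, pow_add]
  rw [h, mul_add, pow_add]
  exact (Nat.mul_lt_mul_left (by positivity)).2 (km_ones_lt m)

lemma km_mask (n x a : ℕ) (hx : x < n) (ha : a ≤ n) :
    mask n x a = ∑ q ∈ Finset.range a, 2 ^ (64 * ((x + q) % n)) := by
  have hV : Nat.mul (ones a) (pw x) = ∑ q ∈ Finset.range a, 2 ^ (64 * (x + q)) := by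
    have h1 : Nat.mul (ones a) (pw x) = ones a * 2 ^ (64 * x) := rfl
    rw [h1, km_ones, Finset.sum_mul]
    apply Finset.sum_congr rfl
    intro q _
    rw [mul_add, pow_add, mul_comm]
  have hm : mask n x a = (∑ q ∈ Finset.range a, 2 ^ (64 * (x + q))) % 2 ^ (64 * n)
      + (∑ q ∈ Finset.range a, 2 ^ (64 * (x + q))) / 2 ^ (64 * n) := by
    unfold mask
    rw [force_eq, hV]
    rfl
  rw [hm]
  rcases le_or_gt (x + a) n with h | h
  · have hlt : ∑ q ∈ Finset.range a, 2 ^ (64 * (x + q)) < 2 ^ (64 * n) :=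
      lt_of_lt_of_le (km_shift x a) (Nat.pow_le_pow_right (by norm_num) (by omega))
    rw [Nat.mod_eq_of_lt hlt, Nat.div_eq_of_lt hlt, add_zero]
    apply Finset.sum_congr rfl
    intro q hq
    rw [Finset.mem_range] at hq
    rw [Nat.mod_eq_of_lt (by omega : x + q < n)]
  · obtain ⟨c, hc⟩ : ∃ c, x + c = n := ⟨n - x, by omega⟩
    obtain ⟨d, hd⟩ : ∃ d, a = c + d := ⟨a - c, by omega⟩
    have hs : ∑ q ∈ Finset.range a, 2 ^ (64 * (x + q))
        = ∑ q ∈ Finset.range c, 2 ^ (64 * (x + q))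
          + 2 ^ (64 * n) * ∑ q ∈ Finset.range d, 2 ^ (64 * q) := by
      rw [hd, Finset.sum_range_add, Finset.mul_sum]
      congr 1
      apply Finset.sum_congr rfl
      intro q _
      rw [← pow_add, ← mul_add, ← add_assoc, hc]
    have hlt : ∑ q ∈ Finset.range c, 2 ^ (64 * (x + q)) < 2 ^ (64 * n) := by
      have := km_shift x c
      rwa [hc] at this
    rw [hs, Nat.add_mul_mod_self_left, Nat.mod_eq_of_lt hlt,
      Nat.add_mul_div_left _ _ (by positivity), Nat.div_eq_of_lt hlt, zero_add, hd,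
      Finset.sum_range_add]
    congr 1
    · apply Finset.sum_congr rfl
      intro q hq
      rw [Finset.mem_range] at hq
      rw [Nat.mod_eq_of_lt (by omega : x + q < n)]
    · apply Finset.sum_congr rfl
      intro q hq
      rw [Finset.mem_range] at hq
      have e : (x + (c + q)) % n = q := by
        rw [← add_assoc, hc, Nat.add_mod_left, Nat.mod_eq_of_lt (by omega)]
      rw [e]

lemma km_sum (n x a : ℕ) (hx : x < n) (ha : a ≤ n) (g : ℕ → ℕ) :
    ∑ q ∈ Finset.range a, g ((x + q) % n) = ∑ i ∈ Finset.range n, ind n x a i * g i := by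
  have h : ∑ i ∈ Finset.range n, ind n x a i * g i
      = ∑ i ∈ (Finset.range n).filter (fun i => (i + (n - x)) % n < a), g i := by
    rw [Finset.sum_filter]
    apply Finset.sum_congr rfl
    intro i _
    unfold ind
    split_ifs <;> simp
  rw [h]
  apply Finset.sum_bij (fun q _ => (x + q) % n)
  · intro q hq
    rw [Finset.mem_range] at hq
    rw [Finset.mem_filter, Finset.mem_range]
    refine ⟨Nat.mod_lt _ (by omega), ?_⟩
    have e : ((x + q) % n + (n - x)) % n = q := by
      rcases lt_or_ge (x + q) n with h1 | h1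
      · rw [Nat.mod_eq_of_lt h1]
        have : x + q + (n - x) = q + n := by omega
        rw [this, Nat.add_mod_right, Nat.mod_eq_of_lt (by omega)]
      · have h2 : (x + q) % n = x + q - n := by
          rw [Nat.mod_eq_sub_mod h1, Nat.mod_eq_of_lt (by omega)]
        rw [h2]
        have : x + q - n + (n - x) = q := by omega
        rw [this, Nat.mod_eq_of_lt (by omega)]
    omega
  · intro q hq q' hq' e
    rw [Finset.mem_range] at hq hq'
    have h1 : ∀ r, r < a → (x + r < n ∧ (x + r) % n = x + r) ∨ (n ≤ x + r ∧ (x + r) % n = x + r - n) := by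
      intro r hr
      rcases lt_or_ge (x + r) n with h1 | h1
      · exact Or.inl ⟨h1, Nat.mod_eq_of_lt h1⟩
      · refine Or.inr ⟨h1, ?_⟩
        rw [Nat.mod_eq_sub_mod h1, Nat.mod_eq_of_lt (by omega)]
    rcases h1 q hq with ⟨a1, a2⟩ | ⟨a1, a2⟩ <;> rcases h1 q' hq' with ⟨b1, b2⟩ | ⟨b1, b2⟩ <;> omega
  · intro i hi
    rw [Finset.mem_filter, Finset.mem_range] at hi
    refine ⟨(i + (n - x)) % n, Finset.mem_range.2 hi.2, ?_⟩
    rcases lt_or_ge i x with h1 | h1
    · have h2 : (i + (n - x)) % n = i + (n - x) := Nat.mod_eq_of_lt (by omega)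
      rw [h2]
      have : x + (i + (n - x)) = i + n := by omega
      rw [this, Nat.add_mod_right, Nat.mod_eq_of_lt hi.1]
    · have h2 : (i + (n - x)) % n = i - x := by
        have : i + (n - x) = (i - x) + n := by omega
        rw [this, Nat.add_mod_right, Nat.mod_eq_of_lt (by omega)]
      rw [h2]
      have : x + (i - x) = i := by omega
      rw [this, Nat.mod_eq_of_lt hi.1]
  · intro q _
    rfl

theorem th_KM : S_KM := by
  intro n x a hx ha
  refine ⟨?_, ?_, ?_⟩
  · rw [km_mask n x a hx ha, km_sum n x a hx ha (fun i => 2 ^ (64 * i))]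
    rfl
  · intro f
    unfold win dot
    exact km_sum n x a hx ha f
  · intro f
    unfold win
    rw [km_sum n x a hx ha f]
    apply Finset.sum_le_sum
    intro i _
    unfold ind
    split_ifs <;> simp

end Pool.Agent.Fr.Cert

end

section

/-!
# Nested and disjoint windows (helper61)
-/

set_option autoImplicit false

namespace Pool.Agent.Fr.Cert

open Finset

namespace NKN

lemma cong {n x y : ℕ} (hx : x < n) (q : ℕ) :
    (y + q) % n = (x + ((y + (n - x)) % n + q)) % n := by
  have h : x + ((y + (n - x)) % n + q) ≡ y + q [MOD n] := by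
    have h1 : (y + (n - x)) % n ≡ y + (n - x) [MOD n] := Nat.mod_modEq _ _
    have h2 : x + ((y + (n - x)) % n + q) ≡ x + ((y + (n - x)) + q) [MOD n] :=
      (h1.add_right q).add_left x
    refine h2.trans ?_
    have h3 : x + ((y + (n - x)) + q) = (y + q) + n := by omega
    rw [h3]
    exact Nat.add_modEq_right
  exact h.symm

lemma winy {n x y : ℕ} (hx : x < n) (b : ℕ) (f : ℕ → ℕ) :
    win n f y b = ∑ q ∈ Finset.Ico ((y + (n - x)) % n) ((y + (n - x)) % n + b),
      f ((x + q) % n) := by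
  unfold win
  rw [Finset.sum_Ico_eq_sum_range]
  have : (y + (n - x)) % n + b - (y + (n - x)) % n = b := by omega
  rw [this]
  refine Finset.sum_congr rfl fun q _ => ?_
  rw [cong hx q]

lemma full {n x : ℕ} (hx : x < n) (f : ℕ → ℕ) :
    ∑ q ∈ range n, f ((x + q) % n) = ∑ i ∈ range n, f i := by
  have hn : 0 < n := by omega
  refine Finset.sum_nbij' (fun q => (x + q) % n) (fun i => (i + (n - x)) % n) ?_ ?_ ?_ ?_ ?_
  · intro q _
    exact mem_range.2 (Nat.mod_lt _ hn)
  · intro q _
    exact mem_range.2 (Nat.mod_lt _ hn)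
  · intro q hq
    have hq' := mem_range.1 hq
    change ((x + q) % n + (n - x)) % n = q
    have h : (x + q) % n + (n - x) ≡ q [MOD n] := by
      have h1 : (x + q) % n ≡ x + q [MOD n] := Nat.mod_modEq _ _
      refine (h1.add_right (n - x)).trans ?_
      have h3 : x + q + (n - x) = q + n := by omega
      rw [h3]
      exact Nat.add_modEq_right
    have := h
    unfold Nat.ModEq at this
    rw [this, Nat.mod_eq_of_lt hq']
  · intro q hq
    have hq' := mem_range.1 hq
    change (x + (q + (n - x)) % n) % n = q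
    have h : x + (q + (n - x)) % n ≡ q [MOD n] := by
      have h1 : (q + (n - x)) % n ≡ q + (n - x) [MOD n] := Nat.mod_modEq _ _
      refine (h1.add_left x).trans ?_
      have h3 : x + (q + (n - x)) = q + n := by omega
      rw [h3]
      exact Nat.add_modEq_right
    have := h
    unfold Nat.ModEq at this
    rw [this, Nat.mod_eq_of_lt hq']
  · intro q _
    rfl

end NKN

theorem th_KN : S_KN := by
  intro n x a y b f hx hy ha hb
  constructor
  · intro h
    rw [NKN.winy hx b f]
    unfold win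
    apply Finset.sum_le_sum_of_subset
    intro q hq
    rw [mem_Ico] at hq
    exact mem_range.2 (by omega)
  · intro h1 h2
    rw [NKN.winy hx b f, ← NKN.full hx f]
    unfold win
    rw [← Finset.sum_union]
    · apply Finset.sum_le_sum_of_subset
      intro q hq
      rw [mem_union, mem_Ico, mem_range] at hq
      exact mem_range.2 (by omega)
    · rw [Finset.disjoint_left]
      intro q hq hq'
      rw [mem_Ico] at hq'
      rw [mem_range] at hq
      omega

end Pool.Agent.Fr.Cert

end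

section

/-!
# MP_54ef3e_nt, item KR (helper27): digits of the basic forms
-/

set_option autoImplicit false

namespace Pool.Agent.Fr.Cert

theorem KR_low (n : ℕ) (f w : ℕ → ℕ) :
    ∑ i ∈ Finset.range (2 * n + 2), (if i < n then f i else 0) * w i =
      ∑ i ∈ Finset.range n, f i * w i := by
  have h : 2 * n + 2 = n + (n + 2) := by ring
  rw [h, Finset.sum_range_add]
  have h1 : ∑ i ∈ Finset.range n, (if i < n then f i else 0) * w i =
      ∑ i ∈ Finset.range n, f i * w i := by
    apply Finset.sum_congr rfl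
    intro i hi
    rw [if_pos (Finset.mem_range.1 hi)]
  have h2 : ∑ i ∈ Finset.range (n + 2), (if n + i < n then f (n + i) else 0) * w (n + i) = 0 := by
    apply Finset.sum_eq_zero
    intro i _
    rw [if_neg (by omega), zero_mul]
  rw [h1, h2, add_zero]

theorem KR_high (n : ℕ) (f w : ℕ → ℕ) :
    ∑ i ∈ Finset.range (2 * n + 2), (if n ≤ i ∧ i < 2 * n then f (i - n) else 0) * w i =
      ∑ i ∈ Finset.range n, f i * w (n + i) := by
  have h : 2 * n + 2 = n + (n + 2) := by ring
  rw [h, Finset.sum_range_add, Finset.sum_range_add (fun x => (if n ≤ n + x ∧ n + x < 2 * n then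
    f (n + x - n) else 0) * w (n + x)) n 2]
  have h1 : ∑ i ∈ Finset.range n, (if n ≤ i ∧ i < 2 * n then f (i - n) else 0) * w i = 0 := by
    apply Finset.sum_eq_zero
    intro i hi
    have := Finset.mem_range.1 hi
    rw [if_neg (by omega), zero_mul]
  have h2 : ∑ i ∈ Finset.range n, (if n ≤ n + i ∧ n + i < 2 * n then f (n + i - n) else 0) *
      w (n + i) = ∑ i ∈ Finset.range n, f i * w (n + i) := by
    apply Finset.sum_congr rfl
    intro i hi
    have := Finset.mem_range.1 hi
    rw [if_pos (by omega), Nat.add_sub_cancel_left]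
  have h3 : ∑ i ∈ Finset.range 2, (if n ≤ n + (n + i) ∧ n + (n + i) < 2 * n then
      f (n + (n + i) - n) else 0) * w (n + (n + i)) = 0 := by
    apply Finset.sum_eq_zero
    intro i _
    rw [if_neg (by omega), zero_mul]
  rw [h1, h2, h3, add_zero, zero_add]

theorem th_KR : S_KR := by
  intro hKM n x a c hx ha
  obtain ⟨hm, hw, -⟩ := hKM n x a hx ha
  refine ⟨?_, ?_, ?_, ?_⟩
  · rw [hm]
    exact (KR_low n (ind n x a) (fun i => 2 ^ (64 * i))).symm
  · rw [hw]
    refine (KR_low n (ind n x a) (vec n c)).trans ?_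
    apply Finset.sum_congr rfl
    intro i hi
    have := Finset.mem_range.1 hi
    simp only [vec, if_pos this]
  · have hpw : pw n = 2 ^ (64 * n) := rfl
    rw [hm, hpw]
    refine Eq.trans ?_ (KR_high n (ind n x a) (fun i => 2 ^ (64 * i))).symm
    unfold ev
    rw [Finset.mul_sum]
    apply Finset.sum_congr rfl
    intro i _
    rw [Nat.mul_add, pow_add]
    ring
  · rw [hw]
    refine (KR_high n (ind n x a) (vec n c)).trans ?_
    apply Finset.sum_congr rfl
    intro i hi
    have := Finset.mem_range.1 hi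
    have h1 : ¬ n + i < n := by omega
    have h2 : n + i < 2 * n := by omega
    simp only [vec, if_neg h1, if_pos h2, Nat.add_sub_cancel_left]

end Pool.Agent.Fr.Cert

end

section

/-!
# One row of the checker is sound
-/

set_option autoImplicit false

namespace Pool.Agent.Fr.Cert

theorem acc_eq (m p q P Q : ℕ) (k : ℕ → ℕ → Bool) :
    acc m p q P Q k = k (P + m * p) (Q + m * q) := by
  unfold acc
  rw [force_eq, force_eq]
  rfl

theorem cond_false_true {C X : Bool} (h : cond C X false = true) : C = true ∧ X = true := by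
  cases C
  · simp at h
  · exact ⟨rfl, h⟩

theorem KROW_meets {N w : ℕ} (h : meets N w = true) :
    ∃ j, N.testBit j = true ∧ w.testBit j = true := by
  unfold meets at h
  rw [Nat.blt_eq] at h
  by_contra hc
  push Not at hc
  have : (N &&& w) = 0 := by
    apply Nat.zero_of_testBit_eq_false
    intro i
    rw [Nat.testBit_and]
    by_cases h1 : N.testBit i = true
    · rw [Bool.eq_false_iff.2 (hc i h1), Bool.and_false]
    · rw [Bool.eq_false_iff.2 h1, Bool.false_and]
  have h' : 0 < (N &&& w) := h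
  omega

theorem KROW_tb {v i : ℕ} (h : tb v i = true) : v.testBit i = true := by
  unfold tb at h
  rw [Nat.beq_eq] at h
  rw [Nat.testBit_eq_decide_div_mod_eq]
  exact decide_eq_true h

theorem KROW_cell {P : Par} {c : Conf} {N E H L ka kb x : ℕ} (hI : Inv P c N E H L ka kb)
    (hx : x < P.n) (h : meets N (pw x) = true) : 1 ≤ c.s x := by
  obtain ⟨j, h1, h2⟩ := KROW_meets h
  have h3 : (2 ^ (64 * x)).testBit j = true := h2
  rw [Nat.testBit_two_pow] at h3
  have h4 : 64 * x = j := by simpa using h3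
  rw [← h4] at h1
  exact hI.N x hx h1

theorem KROW_win (hKM : S_KM) (hKB : S_KB) {P : Par} {c : Conf} {N E H L ka kb x a : ℕ}
    (hI : Inv P c N E H L ka kb) (hx : x < P.n) (ha : a ≤ P.n)
    (h : meets N (mask P.n x a) = true) : 1 ≤ win P.n c.s x a := by
  obtain ⟨j, h1, h2⟩ := KROW_meets h
  obtain ⟨e1, e2, _⟩ := hKM P.n x a hx ha
  rw [e1, hKB P.n _ (fun i => by unfold ind; split_ifs <;> omega)] at h2
  obtain ⟨i, hi, rfl, hi1⟩ := h2
  have h3 := hI.N i hi h1
  rw [e2, dot]
  calc 1 ≤ ind P.n x a i * c.s i := by rw [hi1, one_mul]; exact h3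
    _ ≤ _ := Finset.single_le_sum (f := fun i => ind P.n x a i * c.s i)
      (fun _ _ => Nat.zero_le _) (Finset.mem_range.2 hi)

theorem KROW_cd {x a : ℕ} (ha : a < 32) : cd x a / 32 = x ∧ cd x a % 32 = a := by
  have : cd x a = 32 * x + a := rfl
  rw [this]
  omega

theorem th_KROW : S_KROW := by
  intro hKM hKB hKV hKF hKN hKR hKL T P c N E H L ka kb kd x a y b m A B k hT hG hI h
  obtain ⟨v1, v2, v3, v4, v5, v6, v9, v10, v11, v12⟩ := hKV hKM hKN hKR hKL P c hG hT.two
  obtain ⟨w7, w8⟩ := hKF hKM hKR hKL T P c hT hG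
  have hlt := hT.lt
  unfold row at h
  rw [hT.n] at h
  simp only [force_eq] at h
  cases h1 : Nat.beq kd 1
  swap
  · rw [h1, cond_true] at h
    obtain ⟨hC, h⟩ := cond_false_true h
    simp only [Bool.and_eq_true, Nat.blt_eq] at hC
    obtain ⟨⟨hx, hy⟩, ha, hm⟩ := hC
    rw [acc_eq] at h
    exact ⟨_, _, v1 x y a hx hy ha (KROW_cell hI hy hm), h⟩
  rw [h1, cond_false] at h
  cases h2 : Nat.beq kd 2
  swap
  · rw [h2, cond_true] at h
    obtain ⟨hC, h⟩ := cond_false_true h
    simp only [Bool.and_eq_true, Nat.blt_eq, Nat.ble_eq] at hC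
    obtain ⟨⟨⟨hx, hy⟩, ha, hb⟩, hab, hm1, hm2⟩ := hC
    have hab' : a + b ≤ P.n := hab
    rw [acc_eq] at h
    exact ⟨_, _, v2 x y a b hx hy ha hb hab' (KROW_win hKM hKB hI hx (by omega) hm1)
      (KROW_win hKM hKB hI hy (by omega) hm2), h⟩
  rw [h2, cond_false] at h
  cases h3 : Nat.beq kd 3
  swap
  · rw [h3, cond_true] at h
    obtain ⟨hC, h⟩ := cond_false_true h
    simp only [Bool.and_eq_true, Bool.or_eq_true, Nat.blt_eq, Nat.ble_eq, Nat.beq_eq] at hC
    obtain ⟨⟨⟨hx, hy⟩, ht⟩, hab, hor⟩ := hC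
    have hab' : a + b ≤ P.n := hab
    rw [acc_eq] at h
    have hH := hI.H _ (KROW_tb ht)
    obtain ⟨c1, c2⟩ := KROW_cd (x := x) (a := a) (by omega)
    rw [c1, c2] at hH
    rcases hor with ⟨rfl, rfl⟩ | ⟨hm, ho⟩
    · refine ⟨_, _, v3 x x a a hx hx hab' hH (by omega) (Or.inl ?_), h⟩
      have : (x + (P.n - x)) % P.n = 0 := by
        have e : x + (P.n - x) = P.n := by omega
        rw [e, Nat.mod_self]
      rw [this]
      omega
    · refine ⟨_, _, v3 x y a b hx hy hab' hH (KROW_win hKM hKB hI hy (by omega) hm) ?_, h⟩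
      rcases ho with ho | ⟨ho1, ho2⟩
      · exact Or.inl ho
      · exact Or.inr ⟨ho1, ho2⟩
  rw [h3, cond_false] at h
  cases h4 : Nat.beq kd 4
  swap
  · rw [h4, cond_true] at h
    obtain ⟨hC, h⟩ := cond_false_true h
    simp only [Bool.and_eq_true, Nat.blt_eq] at hC
    rw [acc_eq] at h
    exact ⟨_, _, v4 x hC.1 (KROW_cell hI hC.1 hC.2), h⟩
  rw [h4, cond_false] at h
  cases h5 : Nat.beq kd 5
  swap
  · rw [h5, cond_true] at h
    obtain ⟨hC, h⟩ := cond_false_true h
    simp only [Bool.and_eq_true, Nat.blt_eq, Nat.ble_eq] at hC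
    obtain ⟨⟨hx, ha⟩, ht⟩ := hC
    rw [acc_eq] at h
    have hH := hI.H _ (KROW_tb ht)
    obtain ⟨c1, c2⟩ := KROW_cd (x := x) (a := a) (by omega)
    rw [c1, c2] at hH
    exact ⟨_, _, v5 x a hx ha hH, h⟩
  rw [h5, cond_false] at h
  cases h6 : Nat.beq kd 6
  swap
  · rw [h6, cond_true] at h
    obtain ⟨hC, h⟩ := cond_false_true h
    simp only [Bool.and_eq_true, Nat.blt_eq, Nat.ble_eq] at hC
    obtain ⟨⟨hx, ha⟩, ht⟩ := hC
    rw [acc_eq] at h
    have hL := hI.L _ (KROW_tb ht)
    obtain ⟨c1, c2⟩ := KROW_cd (x := x) (a := a) (by omega)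
    rw [c1, c2] at hL
    exact ⟨_, _, v6 x a hx ha hL, h⟩
  rw [h6, cond_false] at h
  cases h7 : Nat.beq kd 7
  swap
  · rw [h7, cond_true, acc_eq] at h
    exact ⟨_, _, w7, h⟩
  rw [h7, cond_false] at h
  cases h8 : Nat.beq kd 8
  swap
  · rw [h8, cond_true] at h
    obtain ⟨hC, h⟩ := cond_false_true h
    rw [Nat.blt_eq] at hC
    rw [acc_eq] at h
    exact ⟨_, _, w8 x hC, h⟩
  rw [h8, cond_false] at h
  cases h9 : Nat.beq kd 9
  swap
  · rw [h9, cond_true, acc_eq] at h
    exact ⟨_, _, v9, h⟩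
  rw [h9, cond_false] at h
  cases h10 : Nat.beq kd 10
  swap
  · rw [h10, cond_true, acc_eq] at h
    exact ⟨_, _, v10, h⟩
  rw [h10, cond_false] at h
  cases h11 : Nat.beq kd 11
  swap
  · rw [h11, cond_true, acc_eq] at h
    exact ⟨_, _, v11, h⟩
  rw [h11, cond_false] at h
  cases h12 : Nat.beq kd 12
  swap
  · rw [h12, cond_true] at h
    obtain ⟨hC, h⟩ := cond_false_true h
    rw [Nat.blt_eq] at hC
    rw [acc_eq] at h
    exact ⟨_, _, v12 x hC, h⟩
  rw [h12, cond_false] at h
  exact absurd h Bool.false_ne_true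

end Pool.Agent.Fr.Cert

end

section

set_option autoImplicit false

namespace Pool.Agent.Fr.Cert

theorem th_KROWS : S_KROWS := by
  intro hKA hKL hrow T P c N E H L ka kb f hT hG hI fuel
  induction fuel with
  | zero =>
    intro r cc A B _ _ h
    exact absurd h (by simp [rows])
  | succ fuel ih =>
    intro r cc A B hr hA h
    have h' : cond (Nat.beq cc 0) (f A B)
      (force (Nat.div cc 18014398509481984) fun c' =>
       force (Nat.mod cc 16) fun kd =>
       force (Nat.mod (Nat.div cc 16) 32) fun x =>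
       force (Nat.mod (Nat.div cc 512) 32) fun a =>
       force (Nat.mod (Nat.div cc 16384) 32) fun y =>
       force (Nat.mod (Nat.div cc 524288) 32) fun b =>
       force (Nat.mod (Nat.div cc 16777216) 1073741824) fun m =>
       row T N H L kd x a y b m A B (rows T N H L f fuel c')) = true := h
    cases hb : Nat.beq cc 0 with
    | true =>
      rw [hb] at h'
      exact ⟨r, A, B, by omega, hA, h'⟩
    | false =>
      rw [hb] at h'
      simp only [force_eq, cond_false] at h'
      obtain ⟨p, q, hV, hk⟩ := hrow T P c N E H L ka kb _ _ _ _ _ _ _ _ _ hT hG hI h'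
      have hm : Nat.mod (Nat.div cc 16777216) 1073741824 < 2 ^ 30 :=
        lt_of_lt_of_eq (Nat.mod_lt _ (by norm_num)) (by norm_num)
      exact ih (r + 1) _ _ _ (by omega) (hKA hKL P.n r _ p q A B c hA hV hm) hk

end Pool.Agent.Fr.Cert

end

section

/-!
# Soundness of the certificate checker: the whole program
-/

set_option autoImplicit false

namespace Pool.Agent.Fr.Cert

/-- reading one instruction -/
lemma krun_step (T : Tab) (c N E H L ka kb : ℕ) (k : List St → Bool) (rest : List St)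
    (h : step T c N E H L ka kb k rest = true) :
    (leaf T N E H L ka kb (c / 8) = true ∧ k rest = true) ∨
    (c / 8 < T.n ∧ k (⟨N ||| pw (c / 8), E, H, L, ka, kb⟩ ::
      ⟨N, E ||| pw (c / 8), H, L, ka, kb⟩ :: rest) = true) ∨
    (k (⟨N, E, H ||| 2 ^ (c / 8), L, ka, kb⟩ ::
      ⟨N, E, H, L ||| 2 ^ (c / 8), ka, kb⟩ :: rest) = true) ∨
    (k (⟨N, E, H, L, ka, c / 8⟩ :: ⟨N, E, H, L, c / 8 + 1, kb⟩ :: rest) = true) ∨
    (c / 8 < T.n ∧ E &&& mask T.n (c / 8) (T.n / 2) = mask T.n (c / 8) (T.n / 2) ∧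
      k rest = true) := by
  unfold step at h
  rw [force_eq, force_eq] at h
  have e1 : Nat.mod c 8 = c % 8 := rfl
  have e2 : Nat.div c 8 = c / 8 := rfl
  rw [e1, e2] at h
  generalize c % 8 = kd at h
  generalize c / 8 = d at h ⊢
  by_cases h0 : Nat.beq kd 0 = true
  · rw [h0, cond_true, Bool.and_eq_true] at h
    exact Or.inl h
  rw [Bool.not_eq_true] at h0
  rw [h0, cond_false] at h
  by_cases h1 : Nat.beq kd 1 = true
  · rw [h1, cond_true] at h
    by_cases hd : Nat.blt d T.n = true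
    · rw [hd, cond_true, force_eq, force_eq] at h
      exact Or.inr (Or.inl ⟨Nat.blt_eq.mp hd, h⟩)
    · rw [Bool.not_eq_true] at hd
      rw [hd, cond_false] at h
      exact absurd h (by decide)
  rw [Bool.not_eq_true] at h1
  rw [h1, cond_false] at h
  by_cases h2 : Nat.beq kd 2 = true
  · rw [h2, cond_true, force_eq, force_eq] at h
    exact Or.inr (Or.inr (Or.inl h))
  rw [Bool.not_eq_true] at h2
  rw [h2, cond_false] at h
  by_cases h3 : Nat.beq kd 3 = true
  · rw [h3, cond_true] at h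
    by_cases hd : (Nat.blt 0 d && Nat.ble ka d) = true
    · rw [hd, cond_true] at h
      exact Or.inr (Or.inr (Or.inr (Or.inl h)))
    · rw [Bool.not_eq_true] at hd
      rw [hd, cond_false] at h
      exact absurd h (by decide)
  rw [Bool.not_eq_true] at h3
  rw [h3, cond_false] at h
  by_cases h4 : Nat.beq kd 4 = true
  · rw [h4, cond_true, force_eq, Bool.and_eq_true, Bool.and_eq_true] at h
    exact Or.inr (Or.inr (Or.inr (Or.inr ⟨Nat.blt_eq.mp h.1.1, Nat.beq_eq.mp h.1.2, h.2⟩)))
  · rw [Bool.not_eq_true] at h4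
    rw [h4, cond_false] at h
    exact absurd h (by decide)

lemma krun_tb_or (v d j : ℕ) (h : (v ||| 2 ^ d).testBit j = true) :
    v.testBit j = true ∨ j = d := by
  rw [Nat.testBit_or, Bool.or_eq_true] at h
  rcases h with h | h
  · exact Or.inl h
  · right
    rw [Nat.testBit_two_pow] at h
    exact (of_decide_eq_true h).symm

theorem th_KRUN : S_KRUN := by
  intro hKM hKB _ hleaf T P c hT hG cs
  induction cs with
  | nil =>
    intro st hst a ha
    cases st with
    | nil => exact absurd ha (by simp)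
    | cons b st => simp [run] at hst
  | cons cc cs ih =>
    intro st hst a ha hinv
    cases st with
    | nil => simp [run] at hst
    | cons b rest =>
      obtain ⟨N, E, H, L, ka, kb⟩ := b
      unfold run at hst
      simp only [force_eq] at hst
      rcases krun_step T cc N E H L ka kb (run T cs) rest hst with h | h | h | h | h
      · rcases List.mem_cons.1 ha with rfl | ha
        · exact hleaf T P c N E H L ka kb _ hT hG hinv h.1
        · exact ih rest h.2 a ha hinv
      · obtain ⟨hd, h⟩ := h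
        rw [hT.n] at hd
        have hpw : ∀ i, pw i = 2 ^ (64 * i) := fun _ => rfl
        rcases List.mem_cons.1 ha with rfl | ha
        · dsimp only at hinv
          by_cases hs : c.s (cc / 8) = 0
          · refine ih _ h ⟨N, E ||| pw (cc / 8), H, L, ka, kb⟩ (by simp) ?_
            refine ⟨hinv.N, fun j hj => ?_, hinv.H, hinv.L, hinv.ka, hinv.kb⟩
            rw [hpw] at hj
            rcases krun_tb_or _ _ _ hj with hj | hj
            · exact hinv.E j hj
            · exact ⟨cc / 8, hd, hj, hs⟩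
          · refine ih _ h ⟨N ||| pw (cc / 8), E, H, L, ka, kb⟩ (by simp) ?_
            refine ⟨fun i hi hj => ?_, hinv.E, hinv.H, hinv.L, hinv.ka, hinv.kb⟩
            rw [hpw] at hj
            rcases krun_tb_or _ _ _ hj with hj | hj
            · exact hinv.N i hi hj
            · have hj' : i = cc / 8 := by omega
              rw [hj']
              exact Nat.one_le_iff_ne_zero.2 hs
        · exact ih _ h a (List.mem_cons_of_mem _ (List.mem_cons_of_mem _ ha)) hinv
      · rcases List.mem_cons.1 ha with rfl | ha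
        · dsimp only at hinv
          by_cases hs : 2 * c.k + 1 ≤ 3 * win P.n c.s (cc / 8 / 32) (cc / 8 % 32)
          · refine ih _ h ⟨N, E, H ||| 2 ^ (cc / 8), L, ka, kb⟩ (by simp) ?_
            refine ⟨hinv.N, hinv.E, fun d hd => ?_, hinv.L, hinv.ka, hinv.kb⟩
            rcases krun_tb_or _ _ _ hd with hj | hj
            · exact hinv.H d hj
            · rw [hj]
              exact hs
          · refine ih _ h ⟨N, E, H, L ||| 2 ^ (cc / 8), ka, kb⟩ (by simp) ?_
            refine ⟨hinv.N, hinv.E, hinv.H, fun d hd => ?_, hinv.ka, hinv.kb⟩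
            rcases krun_tb_or _ _ _ hd with hj | hj
            · exact hinv.L d hj
            · rw [hj]
              omega
        · exact ih _ h a (List.mem_cons_of_mem _ (List.mem_cons_of_mem _ ha)) hinv
      · rcases List.mem_cons.1 ha with rfl | ha
        · dsimp only at hinv
          by_cases hs : c.k ≤ cc / 8
          · exact ih _ h ⟨N, E, H, L, ka, cc / 8⟩ (by simp)
              ⟨hinv.N, hinv.E, hinv.H, hinv.L, hinv.ka, Or.inr hs⟩
          · exact ih _ h ⟨N, E, H, L, cc / 8 + 1, kb⟩ (by simp)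
              ⟨hinv.N, hinv.E, hinv.H, hinv.L, by dsimp only; omega, hinv.kb⟩
        · exact ih _ h a (List.mem_cons_of_mem _ (List.mem_cons_of_mem _ ha)) hinv
      · obtain ⟨hd, hw, h⟩ := h
        rw [hT.n] at hd hw
        rcases List.mem_cons.1 ha with rfl | ha
        · dsimp only at hinv
          obtain ⟨hm, hwin, _⟩ := hKM P.n (cc / 8) (P.n / 2) hd (Nat.div_le_self _ _)
          have hi1 : ∀ i, ind P.n (cc / 8) (P.n / 2) i ≤ 1 := by
            intro i
            unfold ind
            split_ifs <;> omega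
          have h0 : win P.n c.s (cc / 8) (P.n / 2) = 0 := by
            rw [hwin]
            unfold dot
            refine Finset.sum_eq_zero fun i hi => ?_
            rw [Finset.mem_range] at hi
            by_cases hii : ind P.n (cc / 8) (P.n / 2) i = 1
            · have hb : (mask P.n (cc / 8) (P.n / 2)).testBit (64 * i) = true := by
                rw [hm]
                exact (hKB P.n _ hi1 (64 * i)).2 ⟨i, hi, rfl, hii⟩
              rw [← hw, Nat.testBit_and, Bool.and_eq_true] at hb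
              obtain ⟨i', hi', he, hs⟩ := hinv.E _ hb.1
              have : i = i' := by omega
              rw [this, hs, mul_zero]
            · have : ind P.n (cc / 8) (P.n / 2) i = 0 := by
                have := hi1 i
                omega
              rw [this, zero_mul]
          have := hG.rect (cc / 8)
          omega
        · exact ih _ h a ha hinv

end Pool.Agent.Fr.Cert

end

section

/-!
# Item KV: the valid rows
-/

set_option autoImplicit false

namespace Pool.Agent.Fr.Cert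

/-- A basic row with small digits and its value. -/
def Row (n : ℕ) (c : Conf) (B p v : ℕ) : Prop := ∃ f : ℕ → ℕ,
  (∀ i, f i ≤ B) ∧ p = ev (2 * n + 2) f ∧ dot (2 * n + 2) f (vec n c) = v

lemma Row.add {n : ℕ} {c : Conf} {B B' p p' v v' : ℕ} (hL : S_KL) (h : Row n c B p v)
    (h' : Row n c B' p' v') : Row n c (B + B') (p + p') (v + v') := by
  obtain ⟨f, hf, hp, hv⟩ := h
  obtain ⟨f', hf', hp', hv'⟩ := h'
  refine ⟨fun i => f i + f' i, fun i => Nat.add_le_add (hf i) (hf' i), ?_, ?_⟩
  · rw [hL.1, hp, hp']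
  · rw [hL.2.2.1, hv, hv']

lemma Row.mul {n : ℕ} {c : Conf} {B p v : ℕ} (hL : S_KL) (a : ℕ) (h : Row n c B p v) :
    Row n c (a * B) (a * p) (a * v) := by
  obtain ⟨f, hf, hp, hv⟩ := h
  refine ⟨fun i => a * f i, fun i => Nat.mul_le_mul_left a (hf i), ?_, ?_⟩
  · rw [hL.2.1, hp]
  · rw [hL.2.2.2.1, hv]

lemma Row.val {n : ℕ} {c : Conf} {B B' p p' v v' : ℕ} (h : Row n c B p v)
    (h' : Row n c B' p' v') (hB : B ≤ 2 ^ 17) (hB' : B' ≤ 2 ^ 17) (hv : v' ≤ v) :
    Val n c p p' := by
  obtain ⟨f, hf, hp, hv1⟩ := h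
  obtain ⟨f', hf', hp', hv2⟩ := h'
  exact ⟨f, f', fun i => (hf i).trans hB, fun i => (hf' i).trans hB', hp, hp', by
    rw [hv1, hv2]; exact hv⟩

lemma ind_le (n x a i : ℕ) : ind n x a i ≤ 1 := by
  unfold ind; split_ifs <;> simp

lemma row_s (hR : ∀ (n x a : ℕ) (c : Conf), x < n → a ≤ n →
  mask n x a = ev (2 * n + 2) (fun i => if i < n then ind n x a i else 0) ∧
  dot (2 * n + 2) (fun i => if i < n then ind n x a i else 0) (vec n c) = win n c.s x a ∧
  pw n * mask n x a =
    ev (2 * n + 2) (fun i => if n ≤ i ∧ i < 2 * n then ind n x a (i - n) else 0) ∧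
  dot (2 * n + 2) (fun i => if n ≤ i ∧ i < 2 * n then ind n x a (i - n) else 0) (vec n c) =
    win n c.t x a) (n x a : ℕ) (c : Conf) (hx : x < n) (ha : a ≤ n) :
    Row n c 1 (mask n x a) (win n c.s x a) := by
  obtain ⟨h1, h2, -, -⟩ := hR n x a c hx ha
  refine ⟨_, fun i => ?_, h1, h2⟩
  by_cases hi : i < n
  · simp only [hi, if_true]; exact ind_le n x a i
  · simp [hi]

lemma row_t (hR : ∀ (n x a : ℕ) (c : Conf), x < n → a ≤ n →
  mask n x a = ev (2 * n + 2) (fun i => if i < n then ind n x a i else 0) ∧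
  dot (2 * n + 2) (fun i => if i < n then ind n x a i else 0) (vec n c) = win n c.s x a ∧
  pw n * mask n x a =
    ev (2 * n + 2) (fun i => if n ≤ i ∧ i < 2 * n then ind n x a (i - n) else 0) ∧
  dot (2 * n + 2) (fun i => if n ≤ i ∧ i < 2 * n then ind n x a (i - n) else 0) (vec n c) =
    win n c.t x a) (n x a : ℕ) (c : Conf) (hx : x < n) (ha : a ≤ n) :
    Row n c 1 (pw n * mask n x a) (win n c.t x a) := by
  obtain ⟨-, -, h1, h2⟩ := hR n x a c hx ha
  refine ⟨_, fun i => ?_, h1, h2⟩
  by_cases hi : n ≤ i ∧ i < 2 * n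
  · simp only [hi, and_self, if_true]; exact ind_le n x a (i - n)
  · simp [hi]

lemma row_pw (hL : S_KL) (n j : ℕ) (c : Conf) (hj : j < 2 * n + 2) :
    Row n c 1 (pw j) (vec n c j) := by
  refine ⟨fun i => if i = j then 1 else 0, fun i => ?_, ?_, ?_⟩
  · by_cases hi : i = j <;> simp [hi]
  · rw [hL.2.2.2.2.1 _ _ hj]
  · rw [hL.2.2.2.2.2.1 _ _ _ hj]

lemma vec_k (n : ℕ) (c : Conf) : vec n c (2 * n) = c.k := by
  unfold vec
  rw [if_neg (by omega), if_neg (by omega), if_pos rfl]

lemma vec_one (n : ℕ) (c : Conf) : vec n c (2 * n + 1) = 1 := by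
  unfold vec
  rw [if_neg (by omega), if_neg (by omega), if_neg (by omega)]

lemma vec_s (n x : ℕ) (c : Conf) (hx : x < n) : vec n c x = c.s x := by
  unfold vec
  rw [if_pos hx]

lemma win_mod (n : ℕ) (f : ℕ → ℕ) (x a : ℕ) : win n f (x % n) a = win n f x a := by
  unfold win
  refine Finset.sum_congr rfl fun q _ => ?_
  rw [Nat.mod_add_mod]

lemma win_one (n : ℕ) (f : ℕ → ℕ) (x : ℕ) (hx : x < n) : win n f x 1 = f x := by
  unfold win
  simp [Nat.mod_eq_of_lt hx]

lemma win_full (n : ℕ) (f : ℕ → ℕ) : win n f 0 n = ∑ i ∈ Finset.range n, f i := by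
  unfold win
  refine Finset.sum_congr rfl fun q hq => ?_
  rw [zero_add, Nat.mod_eq_of_lt (Finset.mem_range.1 hq)]

lemma mask_full (n : ℕ) (hn : 0 < n) (hM : S_KM) (hL : S_KL) : mask n 0 n = ones n := by
  obtain ⟨h1, -, -⟩ := hM n 0 n hn le_rfl
  rw [h1, hL.2.2.2.2.2.2 n]
  unfold ev
  refine Finset.sum_congr rfl fun i hi => ?_
  have hi' := Finset.mem_range.1 hi
  have : ind n 0 n i = 1 := by
    unfold ind
    rw [if_pos (Nat.mod_lt _ hn)]
  rw [this]

theorem th_KV : S_KV := by
  intro hM hN hR' hL P c hG hn2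
  have hR := hR' hM
  have hn : 0 < P.n := by omega
  set n := P.n with hndef
  have hk := row_pw hL n (2 * n) c (by omega)
  rw [vec_k] at hk
  have h1 := row_pw hL n (2 * n + 1) c (by omega)
  rw [vec_one] at h1
  have hs : Row n c 1 (ones n) c.k := by
    have := row_s hR n 0 n c hn le_rfl
    rw [mask_full n hn hM hL, win_full, hG.mass] at this
    exact this
  have ht : Row n c 1 (pw n * ones n) (∑ j ∈ Finset.range n, c.t j) := by
    have := row_t hR n 0 n c hn le_rfl
    rw [mask_full n hn hM hL, win_full] at this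
    exact this
  refine ⟨?_, ?_, ?_, ?_, ?_, ?_, ?_, ?_, ?_, ?_⟩
  · -- tile
    intro x y a hx hy ha hc
    have r1 := row_t hR n ((x + y) % n) (a + 1) c (Nat.mod_lt _ hn) (by omega)
    have r2 := row_s hR n x a c hx ha.le
    refine r1.val r2 (by norm_num) (by norm_num) ?_
    rw [win_mod]
    exact hG.tile x y a (by omega) (by rw [win_one _ _ _ hy]; exact hc)
  · -- Cauchy-Davenport
    intro x y a b hx hy ha hb hab h3 h4
    have r1 := row_t hR n ((x + y) % n) (a + b) c (Nat.mod_lt _ hn) hab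
    have r2 := row_s hR n x a c hx (by omega)
    have r3 := row_s hR n y b c hy (by omega)
    refine (h1.add hL r1).val (r2.add hL r3) (by norm_num) (by norm_num) ?_
    rw [win_mod]
    have := hG.cd x y a b ha hb hab h3 h4
    rw [← hndef] at this
    omega
  · -- pair
    intro x y a b hx hy hab h3 h4 h5
    have r1 := row_t hR n ((x + y) % n) (a + b) c (Nat.mod_lt _ hn) hab
    have r2 := row_s hR n x a c hx (by omega)
    have r3 := row_s hR n y b c hy (by omega)
    refine ((h1.mul hL 3).add hL r1).val (r2.add hL (r3.mul hL 2)) (by norm_num) (by norm_num) ?_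
    rw [win_mod]
    have hle : win n c.s y b ≤ win n c.s x a := by
      have h6 := hN n x a y b c.s hx hy (by omega) (by omega)
      rcases h5 with h5 | ⟨h5, h7⟩
      · exact h6.1 h5
      · have h8 := h6.2 h5 h7
        have h9 := hG.mass
        rw [← hndef] at h9
        rw [h9] at h8
        omega
    have := hG.pair x y a b hab h3 h4 hle
    rw [← hndef] at this
    omega
  · intro x hx hc
    have r := row_pw hL n x c (by omega)
    rw [vec_s n x c hx] at r
    exact r.val h1 (by norm_num) (by norm_num) hc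
  · intro x a hx ha h3
    have r := (row_s hR n x a c hx ha).mul hL 3
    refine r.val ((hk.mul hL 2).add hL h1) (by norm_num) (by norm_num) h3
  · intro x a hx ha h3
    have r := (row_s hR n x a c hx ha).mul hL 3
    exact (hk.mul hL 2).val r (by norm_num) (by norm_num) h3
  · refine (hk.mul hL 3).val (ht.add hL (h1.mul hL 4)) (by norm_num) (by norm_num) ?_
    have := hG.sum
    rw [← hndef] at this
    omega
  · exact hk.val hs (by norm_num) (by norm_num) le_rfl
  · exact hs.val hk (by norm_num) (by norm_num) le_rfl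
  · intro x hx
    have r := row_s hR n x (n / 2) c hx (Nat.div_le_self _ _)
    exact r.val h1 (by norm_num) (by norm_num) (hG.rect x)

end Pool.Agent.Fr.Cert

end

section

/-!
# MP_54ef3e_nt, item LA (helper78): two quadratic inequalities
-/

set_option autoImplicit false

namespace Pool.Agent.Fr

theorem th_LA : S_LA := by
  refine ⟨fun e h0 h1 => ?_, fun e m h0 h1 h2 h3 => ?_⟩
  · nlinarith [mul_nonneg h0 (sub_nonneg.2 h1)]
  · have h4 : 0 ≤ 1 - m := by linarith
    have h5 : 0 ≤ 1 - 17 * e := by linarith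
    have h6 : 0 ≤ 1.6841 * m - 1.5333 - 0.018 * e := by linarith
    nlinarith [mul_nonneg h0 h5, mul_nonneg h4 h6, mul_nonneg h0 h4, mul_nonneg h5 h4,
      mul_nonneg h0 h6, mul_nonneg h5 h6]

end Pool.Agent.Fr

end

section

set_option autoImplicit false

namespace Pool.Agent.Fr

theorem th_LB1 : S_LB1 := by
  refine ⟨?_, ?_⟩
  · intro e h1 h2
    nlinarith [mul_nonneg (sub_nonneg.2 h1) (sub_nonneg.2 h2)]
  · intro e m h1 h2 hm hL
    have hA : 0 ≤ (16 * e - 1) * (1 - 8 * e) := mul_nonneg (by linarith) (by linarith)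
    -- L between L0 and L1
    set L := -0.0792 + 1.5366 * m - 0.5691 * e with hLdef
    have hL1 : L ≤ 1.4574 - 0.5691 * e := by rw [hLdef]; linarith
    have hp : 0 ≤ (L - (1.2242 + 0.9512 * e)) * ((1.4574 - 0.5691 * e) - L) :=
      mul_nonneg (by linarith) (by linarith)
    have hm' : m = (L + 0.0792 + 0.5691 * e) / 1.5366 := by rw [hLdef]; ring
    -- L^2 ≤ (L0+L1) L - L0 L1
    have h3 : L ^ 2 ≤ ((1.2242 + 0.9512 * e) + (1.4574 - 0.5691 * e)) * L -
      (1.2242 + 0.9512 * e) * (1.4574 - 0.5691 * e) := by nlinarith [hp]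
    rw [hm']
    nlinarith [mul_nonneg (sub_nonneg.2 h1) (sub_nonneg.2 hL.le), mul_nonneg (sub_nonneg.2 h2) (sub_nonneg.2 hL.le),
      mul_nonneg (sub_nonneg.2 h1) (sub_nonneg.2 hL1), mul_nonneg (sub_nonneg.2 h2) (sub_nonneg.2 hL1), hA]

end Pool.Agent.Fr

end

section

set_option autoImplicit false

namespace Pool.Agent.Fr

theorem th_LB2 : S_LB2 := by
  intro e h1 h2
  nlinarith [mul_nonneg (sub_nonneg.2 h1) (sub_nonneg.2 h2)]

end Pool.Agent.Fr

end

section

set_option autoImplicit false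

namespace Pool.Agent.Fr

theorem PA0_core (e n w : ℝ) (he0 : 0 ≤ e) (he : 17 * e ≤ 1)
    (hn0 : 1.9 ≤ n) (hn : n ≤ 3 - 4 * e) (hw : 1 ≤ w * n) :
    n ^ 2 * (1 - (0.2965 - 0.30 * e)) - 1.3 ≤
      35 * (n * e + (1 - 3 * e) * (1 - e) + 0.1 * w - 1.4 * e - (0.2965 - 0.30 * e) * n) := by
  have hn' : 0 < n := by linarith
  have t1 : 25 / 36 - 625 / 5184 * n ≤ w := by
    have h1 : (25 / 36 - 625 / 5184 * n) * n ≤ w * n := by
      nlinarith [sq_nonneg (n - 72 / 25)]
    exact le_of_mul_le_mul_right h1 hn'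
  obtain ⟨n1, hn1⟩ : ∃ n1, n1 = 3 - 4 * e := ⟨_, rfl⟩
  have t4 : 0 ≤ (n1 - n) * (35 * (-e + 0.1 * (625 / 5184) + (0.2965 - 0.30 * e)) +
      (n + n1) * (1 - (0.2965 - 0.30 * e))) := by
    apply mul_nonneg
    · linarith
    · have h1 : 0 ≤ (n + n1) * (1 - (0.2965 - 0.30 * e)) :=
        mul_nonneg (by linarith) (by linarith)
      nlinarith
  have t5 : n1 ^ 2 * (1 - (0.2965 - 0.30 * e)) - 1.3 ≤
      35 * (n1 * e + (1 - 3 * e) * (1 - e) + 0.1 * (25 / 36 - 625 / 5184 * n1) - 1.4 * e -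
        (0.2965 - 0.30 * e) * n1) := by
    rw [hn1]
    nlinarith [mul_nonneg he0 (sub_nonneg.2 he), mul_nonneg (mul_nonneg he0 he0) (sub_nonneg.2 he),
      mul_nonneg he0 he0]
  nlinarith [t1, t4, t5]

theorem th_PA0 : S_PA0 := by
  intro p k N E q hk hN1 hN2 hp hE hE3 hq
  have hk0 : 0 < k := by linarith
  have hN0 : 0 < N := by linarith
  have hE0 : 0 ≤ E := by
    by_contra h
    push Not at h
    have : E * N < 0 := mul_neg_of_neg_of_pos h hN0
    have : 0 ≤ k ^ 4 := by positivity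
    linarith
  have core := PA0_core (1 / k) (N / k) (E / k ^ 3) (by positivity)
    (by rw [mul_one_div, div_le_one hk0]; exact hk)
    (by rw [le_div_iff₀ hk0]; linarith)
    (by rw [div_le_iff₀ hk0]; have : (3 - 4 * (1 / k)) * k = 3 * k - 4 := by field_simp
        linarith)
    (by
      have : E / k ^ 3 * (N / k) = E * N / k ^ 4 := by field_simp
      rw [this, one_le_div (by positivity)]; exact hE)
  obtain ⟨c, hc⟩ : ∃ c, c = 0.2965 - 0.30 / k := ⟨_, rfl⟩
  have hc' : 0.2965 - 0.30 * (1 / k) = c := by rw [hc]; ring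
  rw [hc'] at core
  rw [← hc]
  have e1 : ((N / k) ^ 2 * (1 - c) - 1.3) * k ^ 4 = k ^ 2 * N ^ 2 * (1 - c) - 1.3 * k ^ 4 := by
    field_simp
  have e2 : ((N / k) * (1 / k) + (1 - 3 * (1 / k)) * (1 - 1 / k) + 0.1 * (E / k ^ 3) -
      1.4 * (1 / k) - c * (N / k)) * k ^ 3 =
      k * N + (k - 3) * (k ^ 2 - k) + 7 / 5 * (E - k ^ 2) - 1.3 * E - c * N * k ^ 2 := by
    field_simp
    ring
  have hpos : 0 ≤ (N / k) ^ 2 * (1 - c) - 1.3 := by
    have h1 : 1.9 ≤ N / k := by rw [le_div_iff₀ hk0]; linarith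
    have h2 : c ≤ 0.2965 := by rw [hc]; have : 0 ≤ 0.30 / k := by positivity
                               linarith
    have h3 : (1.9 : ℝ) ^ 2 ≤ (N / k) ^ 2 := by nlinarith
    nlinarith
  obtain ⟨Φ, hΦ⟩ : ∃ Φ, Φ = ((N / k) * (1 / k) + (1 - 3 * (1 / k)) * (1 - 1 / k) +
      0.1 * (E / k ^ 3) - 1.4 * (1 / k) - c * (N / k)) := ⟨_, rfl⟩
  rw [← hΦ] at core e2
  have hΦ0 : 0 ≤ Φ := by linarith
  have h3 : Φ * k ^ 3 ≤ q - 1.3 * E - c * N * k ^ 2 := by rw [e2]; linarith
  have hk3 : 0 < k ^ 3 := by positivity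
  have hp0 : 0 < p := by linarith
  have h4 : p * (Φ * k ^ 3) ≤ p * (q - 1.3 * E - c * N * k ^ 2) :=
    mul_le_mul_of_nonneg_left h3 hp0.le
  have h5 : 35 * k * (Φ * k ^ 3) ≤ p * (Φ * k ^ 3) :=
    mul_le_mul_of_nonneg_right hp.le (by positivity)
  have h6 : ((N / k) ^ 2 * (1 - c) - 1.3) * k ^ 4 ≤ 35 * Φ * k ^ 4 :=
    mul_le_mul_of_nonneg_right core (by positivity)
  rw [e1] at h6
  nlinarith [h4, h5, h6]

end Pool.Agent.Fr

end

section

set_option autoImplicit false

namespace Pool.Agent.Fr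

/-- From the normalised inequality to the inequality of the item. -/
theorem pos_of_norm {p k N E q M A g a0 a1 a2 : ℝ} (hg : A = 2 - g) (hk : 1 ≤ k) (hE0 : 0 ≤ E)
    (hp : 35 * k < p)
    (hq : k * N + (M - 3) * (k ^ 2 - k) +
      2 * (E - k ^ 2 - (k - M) * Real.sqrt (k * E) + (k - M) * k) ≤ q)
    (hpos : 0 ≤ (N / k) ^ 2 * (1 - (a0 + a1 * (M / k) - a2 / k)) - g)
    (h : (N / k) ^ 2 * (1 - (a0 + a1 * (M / k) - a2 / k)) - g ≤
      35 * ((N / k) * (1 / k) + (M / k - 3 * (1 / k)) * (1 - 1 / k) +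
        A * (Real.sqrt (k * E) / k ^ 2) ^ 2 - 2 * (1 / k) -
        2 * (1 - M / k) * (Real.sqrt (k * E) / k ^ 2) + 2 * (1 - M / k) * (1 / k) -
        (a0 + a1 * (M / k) - a2 / k) * (N / k))) :
    0 ≤ (p * q - k ^ 2 * N ^ 2) - g * (p * E - k ^ 4) -
      (a0 + a1 * (M / k) - a2 / k) * k ^ 2 * (p * N - N ^ 2) := by
  have hk0 : 0 < k := by linarith
  obtain ⟨c, hc⟩ : ∃ c, c = a0 + a1 * (M / k) - a2 / k := ⟨_, rfl⟩
  rw [← hc] at hpos h ⊢
  obtain ⟨w, hw⟩ : ∃ w, w = Real.sqrt (k * E) := ⟨_, rfl⟩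
  rw [← hw] at hq h
  have hw2 : w ^ 2 = k * E := by rw [hw]; exact Real.sq_sqrt (by positivity)
  -- multiply by k^4
  have e1 : ((N / k) ^ 2 * (1 - c) - g) * k ^ 4 = k ^ 2 * N ^ 2 * (1 - c) - g * k ^ 4 := by
    field_simp
  have e2 : ((N / k) * (1 / k) + (M / k - 3 * (1 / k)) * (1 - 1 / k) +
        A * (w / k ^ 2) ^ 2 - 2 * (1 / k) -
        2 * (1 - M / k) * (w / k ^ 2) + 2 * (1 - M / k) * (1 / k) - c * (N / k)) * k ^ 3 =
      k * N + (M - 3) * (k ^ 2 - k) +
      2 * (E - k ^ 2 - (k - M) * w + (k - M) * k) - g * E - c * N * k ^ 2 := by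
    have : E = w ^ 2 / k := by rw [hw2]; field_simp
    rw [this, hg]
    field_simp
    ring
  obtain ⟨Φ, hΦ⟩ : ∃ Φ, Φ = ((N / k) * (1 / k) + (M / k - 3 * (1 / k)) * (1 - 1 / k) +
        A * (w / k ^ 2) ^ 2 - 2 * (1 / k) -
        2 * (1 - M / k) * (w / k ^ 2) + 2 * (1 - M / k) * (1 / k) - c * (N / k)) := ⟨_, rfl⟩
  rw [← hΦ] at h e2
  have hΦ0 : 0 ≤ Φ := by linarith
  have h3 : Φ * k ^ 3 ≤ q - g * E - c * N * k ^ 2 := by rw [e2]; linarith
  have hk3 : 0 < k ^ 3 := by positivity
  have hp0 : 0 < p := by linarith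
  have h4 : p * (Φ * k ^ 3) ≤ p * (q - g * E - c * N * k ^ 2) :=
    mul_le_mul_of_nonneg_left h3 hp0.le
  have h5 : 35 * k * (Φ * k ^ 3) ≤ p * (Φ * k ^ 3) :=
    mul_le_mul_of_nonneg_right hp.le (by positivity)
  have h6 : ((N / k) ^ 2 * (1 - c) - g) * k ^ 4 ≤ 35 * Φ * k ^ 4 :=
    mul_le_mul_of_nonneg_right h (by positivity)
  rw [e1] at h6
  nlinarith [h4, h5, h6]

theorem coreA (e m n s : ℝ) (he0 : 0 ≤ e) (he : 17 * e ≤ 1) (hm : 0.91 ≤ m) (hm1 : m ≤ 1)
    (hn0 : 1.9 ≤ n) (hn : n ≤ 3 - 4 * e) (hs : 1 ≤ s ^ 2 * n) :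
    n ^ 2 * (1 - (-0.4175 + 0.7855 * m - 0.326 * e)) - 1.3 ≤
      35 * (n * e + (m - 3 * e) * (1 - e) + 0.7 * s ^ 2 - 2 * e - 2 * (1 - m) * s +
        2 * (1 - m) * e - (-0.4175 + 0.7855 * m - 0.326 * e) * n) := by
  have hn' : 0 < n := by linarith
  have t1 : 25 / 36 - 625 / 5184 * n ≤ s ^ 2 := by
    have h1 : (25 / 36 - 625 / 5184 * n) * n ≤ s ^ 2 * n := by
      nlinarith [sq_nonneg (n - 72 / 25)]
    exact le_of_mul_le_mul_right h1 hn'
  have t2 : 2 * (1 - m) * s ≤ (1 - m) * (s ^ 2 * (100 / 59) + 59 / 100) := by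
    have : 0 ≤ (1 - m) * (s - 59 / 100) ^ 2 := mul_nonneg (by linarith) (sq_nonneg _)
    nlinarith
  have t3 : (0.7 - (1 - m) * (100 / 59)) * (25 / 36 - 625 / 5184 * n) ≤
      (0.7 - (1 - m) * (100 / 59)) * s ^ 2 :=
    mul_le_mul_of_nonneg_left t1 (by linarith)
  -- monotonicity in n
  obtain ⟨n1, hn1⟩ : ∃ n1, n1 = 3 - 4 * e := ⟨_, rfl⟩
  have t4 : 0 ≤ (n1 - n) * (-e + (0.7 - (1 - m) * (100 / 59)) * (625 / 5184) +
      (-0.4175 + 0.7855 * m - 0.326 * e) +
      (n + n1) * (1 - (-0.4175 + 0.7855 * m - 0.326 * e)) / 35) := by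
    apply mul_nonneg
    · linarith
    · have h1 : 0 ≤ (n + n1) * (1 - (-0.4175 + 0.7855 * m - 0.326 * e)) :=
        mul_nonneg (by linarith) (by linarith)
      nlinarith
  -- the value at n1 is affine in m
  have t5 : (3 - 4 * e) ^ 2 * (1 - (-0.4175 + 0.7855 * m - 0.326 * e)) - 1.3 ≤
      35 * ((3 - 4 * e) * e + (m - 3 * e) * (1 - e) +
        (0.7 - (1 - m) * (100 / 59)) * (25 / 36 - 625 / 5184 * (3 - 4 * e)) -
        (1 - m) * (59 / 100) - 2 * e +
        2 * (1 - m) * e - (-0.4175 + 0.7855 * m - 0.326 * e) * (3 - 4 * e)) := by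
    have a1 : (3 - 4 * e) ^ 2 * (1 - (-0.4175 + 0.7855 * 0.91 - 0.326 * e)) - 1.3 ≤
      35 * ((3 - 4 * e) * e + (0.91 - 3 * e) * (1 - e) +
        (0.7 - (1 - 0.91) * (100 / 59)) * (25 / 36 - 625 / 5184 * (3 - 4 * e)) -
        (1 - 0.91) * (59 / 100) - 2 * e +
        2 * (1 - 0.91) * e - (-0.4175 + 0.7855 * 0.91 - 0.326 * e) * (3 - 4 * e)) := by
      nlinarith [mul_nonneg he0 (sub_nonneg.2 he), mul_nonneg he0 he0,
        mul_nonneg (mul_nonneg he0 he0) (sub_nonneg.2 he)]
    have a2 : (3 - 4 * e) ^ 2 * (1 - (-0.4175 + 0.7855 * 1 - 0.326 * e)) - 1.3 ≤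
      35 * ((3 - 4 * e) * e + (1 - 3 * e) * (1 - e) +
        (0.7 - (1 - 1) * (100 / 59)) * (25 / 36 - 625 / 5184 * (3 - 4 * e)) -
        (1 - 1) * (59 / 100) - 2 * e +
        2 * (1 - 1) * e - (-0.4175 + 0.7855 * 1 - 0.326 * e) * (3 - 4 * e)) := by
      nlinarith [mul_nonneg he0 (sub_nonneg.2 he), mul_nonneg he0 he0,
        mul_nonneg (mul_nonneg he0 he0) (sub_nonneg.2 he)]
    have b1 := mul_le_mul_of_nonneg_left a1 (show (0 : ℝ) ≤ (1 - m) / 0.09 by
      apply div_nonneg <;> linarith)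
    have b2 := mul_le_mul_of_nonneg_left a2 (show (0 : ℝ) ≤ (m - 0.91) / 0.09 by
      apply div_nonneg <;> linarith)
    have hm' : m = (1 - m) / 0.09 * 0.91 + (m - 0.91) / 0.09 * 1 := by ring
    linear_combination b1 + b2
  rw [hn1] at t4
  linear_combination t5 + 35 * t4 + 35 * t2 + 35 * t3

theorem th_PA1 : S_PA1 := by
  intro p k N E q M hk hN1 hN2 hp hE1 hE2 hM1 hM2 hq
  have hk0 : 0 < k := by linarith
  have hN0 : 0 < N := by linarith
  have hE0 : 0 ≤ E := by
    by_contra hE
    have : E * N < 0 := mul_neg_of_neg_of_pos (not_le.1 hE) hN0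
    have : 0 < k ^ 4 := by positivity
    linarith
  obtain ⟨w, hw⟩ : ∃ w, w = Real.sqrt (k * E) := ⟨_, rfl⟩
  have hw2 : w ^ 2 = k * E := by rw [hw]; exact Real.sq_sqrt (by positivity)
  have key := coreA (1 / k) (M / k) (N / k) (w / k ^ 2) (by positivity)
    (by rw [mul_one_div, div_le_one hk0]; exact hk)
    (by rw [le_div_iff₀ hk0]; exact hM1)
    (by rw [div_le_one hk0]; linarith)
    (by rw [le_div_iff₀ hk0]; linarith)
    (by rw [div_le_iff₀ hk0]; field_simp; linarith)
    (by
      have : (w / k ^ 2) ^ 2 * (N / k) = E * N / k ^ 4 := by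
        rw [div_pow, hw2]; field_simp
      rw [this, le_div_iff₀ (by positivity)]; linarith)
  have hc : (-0.4175 + 0.7855 * (M / k) - 0.326 / k) = (-0.4175 + 0.7855 * (M / k) - 0.326 * (1 / k)) := by
    ring
  refine pos_of_norm (A := 0.7) (by norm_num) (by linarith) hE0 hp hq ?_ ?_
  · have h1 : 1.9 ≤ N / k := by rw [le_div_iff₀ hk0]; linarith
    have h2 : M / k ≤ 1 := by rw [div_le_one hk0]; linarith
    have h3 : 0 ≤ 0.326 / k := by positivity
    have h4 : 0.6 ≤ (1 - (-0.4175 + 0.7855 * (M / k) - 0.326 / k)) := by linarith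
    nlinarith [mul_le_mul (show (1.9:ℝ)^2 ≤ (N / k) ^ 2 by nlinarith) h4 (by norm_num) (by positivity)]
  · rw [hc, ← hw]
    exact key

end Pool.Agent.Fr

end
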