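import Pool.Agent.Work.MP_54ef3e_nt.Bd.B02
import Pool.Agent.Work.MP_54ef3e_nt.Bd.B03

/-! Bundle of small proof modules (one section per former module). -/

section

/-!
# Item PB0: positivity, `8 ≤ k ≤ 16`
-/

set_option autoImplicit false

namespace Pool.Agent.Fr

theorem th_PB0 : S_PB0 := by
  intro p k N E q hk8 hk16 hN1 hN2 hp _ _ hq
  have hk0 : (0:ℝ) < k := by linarith
  have hp0 : 0 < p := by linarith
  have h1 : (0.286 + 0.479 / k) * k ^ 2 = 0.286 * k ^ 2 + 0.479 * k := by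
    field_simp
  rw [h1]
  have hpq : p * (k * N + (k - 1) * (k ^ 2 - k) + (E - k ^ 2)) ≤ p * q :=
    mul_le_mul_of_nonneg_left hq hp0.le
  have hN0 : 0 ≤ N := by linarith
  -- the coefficient of `p`
  have hA : 0 ≤ 0.286 * k ^ 2 - 0.521 * k := by nlinarith
  have hc0 : 0 ≤ (3 * k - 4 - N) * (0.286 * k ^ 2 - 0.521 * k) :=
    mul_nonneg (by linarith) hA
  have hc1 : 0 ≤ 0.142 * k ^ 2 - 0.293 * k - 1.084 := by nlinarith
  have hc : 0 ≤ k ^ 3 - 3 * k ^ 2 + k - N * (0.286 * k ^ 2 - 0.521 * k) := by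
    have := mul_nonneg hk0.le hc1
    nlinarith
  have hpc : 35 * k * (k ^ 3 - 3 * k ^ 2 + k - N * (0.286 * k ^ 2 - 0.521 * k)) ≤
      p * (k ^ 3 - 3 * k ^ 2 + k - N * (0.286 * k ^ 2 - 0.521 * k)) :=
    mul_le_mul_of_nonneg_right hp.le hc
  have hB : 0 ≤ 0.714 * k ^ 2 - 0.479 * k := by nlinarith
  have hNN : N ^ 2 ≤ (3 * k - 4) ^ 2 := by
    apply pow_le_pow_left₀ hN0 hN2
  have hB2 : N ^ 2 * (0.714 * k ^ 2 - 0.479 * k) ≤ (3 * k - 4) ^ 2 * (0.714 * k ^ 2 - 0.479 * k) :=
    mul_le_mul_of_nonneg_right hNN hB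
  have hc2 : 35 * k * (k ^ 3 - 3 * k ^ 2 + k - (3 * k - 4) * (0.286 * k ^ 2 - 0.521 * k)) ≤
      35 * k * (k ^ 3 - 3 * k ^ 2 + k - N * (0.286 * k ^ 2 - 0.521 * k)) := by
    apply mul_le_mul_of_nonneg_left _ (by linarith)
    linarith
  have hfin : 0 ≤ -0.456 * k ^ 3 + 11.192 * k ^ 2 - 60.86 * k + 7.664 := by
    have h8 : 0 ≤ (k - 8) * (16 - k) := mul_nonneg (by linarith) (by linarith)
    have h9 : 0 ≤ (k - 8) * ((k - 8) * (16 - k)) := mul_nonneg (by linarith) h8
    have h10 : 0 ≤ (16 - k) * ((k - 8) * (16 - k)) := mul_nonneg (by linarith) h8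
    nlinarith
  have hfin2 := mul_nonneg hk0.le hfin
  nlinarith [hpq, hpc, hB2, hc2, hfin2]

end Pool.Agent.Fr

end

section

/-!
# MP_54ef3e_nt, item PC0: positivity, `3 ≤ k ≤ 7` (helper61)
-/

set_option autoImplicit false

namespace Pool.Agent.Fr

theorem th_PC0 : S_PC0 := by
  intro p k N E q hk3 hk7 hN1 hN2 hp _ _ hq
  have hk0 : 0 < k := by linarith
  have hp0 : 0 < p := by linarith
  have hN0 : 0 ≤ N := by linarith
  have e1 : (0.3275 + 0.181 / k) * k ^ 2 = 0.3275 * k ^ 2 + 0.181 * k := by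
    field_simp
  have h1 : p * (k * N + (k - 1) * (k ^ 2 - k) + (E - k ^ 2)) ≤ p * q :=
    mul_le_mul_of_nonneg_left hq hp0.le
  -- the bracket
  have hB0 : 0 < 0.0175 * k ^ 2 + 0.767 * k - 2.276 := by nlinarith
  have hB : 0.0175 * k ^ 2 + 0.767 * k - 2.276 ≤ N * (0.819 - 0.3275 * k) + k ^ 2 - 3 * k + 1 := by
    nlinarith [mul_nonneg (sub_nonneg.2 hN2) (by linarith : (0 : ℝ) ≤ 0.3275 * k - 0.819)]
  have hpB : 35 * k * (0.0175 * k ^ 2 + 0.767 * k - 2.276) ≤
      p * (N * (0.819 - 0.3275 * k) + k ^ 2 - 3 * k + 1) :=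
    mul_le_mul hp.le hB hB0.le hp0.le
  have hNN : N ^ 2 ≤ (3 * k - 4) ^ 2 := pow_le_pow_left₀ hN0 hN2 2
  have hNN2 : N ^ 2 * (0.6725 * k - 0.181) ≤ (3 * k - 4) ^ 2 * (0.6725 * k - 0.181) :=
    mul_le_mul_of_nonneg_right hNN (by linarith)
  have hf : 0 ≤ 35 * k * (0.0175 * k ^ 2 + 0.767 * k - 2.276) + k ^ 3 -
      (3 * k - 4) ^ 2 * (0.6725 * k - 0.181) := by
    nlinarith [mul_nonneg (mul_nonneg (sub_nonneg.2 hk3) (sub_nonneg.2 hk7))
      (by linarith : (0 : ℝ) ≤ 4.44 * k - 0.214)]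
  have hG : 0 ≤ k * (p * (N * (0.819 - 0.3275 * k) + k ^ 2 - 3 * k + 1) + k ^ 3 -
      N ^ 2 * (0.6725 * k - 0.181)) := by
    apply mul_nonneg hk0.le
    linarith
  rw [e1]
  nlinarith

end Pool.Agent.Fr

end

section

/-!
# MP_54ef3e_nt, item R2: arcs with real offset, Cauchy-Davenport
-/

set_option autoImplicit false

open scoped Pointwise

namespace Pool.Agent.Fr

open Pool.Agent.LS Pool.Agent.Fou

variable {p : ℕ} [Fact p.Prime]

/-- The lift of a residue class to the integers, adapted to the arc starting at the cell `a₀`. -/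
noncomputable def R2_lift (n a₀ : ℕ) (u : ℝ) (x : ZMod p) : ℤ :=
  (x.val : ℤ) - p * ⌊(x.val : ℝ) / (p : ℝ) - u⌋ + (if a₀ ≤ cellR n u x then 0 else (p : ℤ))

lemma R2_cast (n a₀ : ℕ) (u : ℝ) (x : ZMod p) : ((R2_lift n a₀ u x : ℤ) : ZMod p) = x := by
  have : NeZero p := ⟨(Fact.out : p.Prime).ne_zero⟩
  unfold R2_lift
  split_ifs <;> simp

lemma R2_inj (n a₀ : ℕ) (u : ℝ) : Function.Injective (R2_lift (p := p) n a₀ u) := by
  intro x y h
  rw [← R2_cast n a₀ u x, ← R2_cast n a₀ u y, h]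

lemma R2_bounds {n a₀ a : ℕ} {u : ℝ} (hn : 0 < n) (ha₀ : a₀ < n) (_han : a ≤ n)
    {S : Finset (ZMod p)} {x : ZMod p} (hx : x ∈ arcR n u a₀ a S) :
    (a₀ : ℝ) ≤ n * ((R2_lift n a₀ u x : ℝ) / p - u) ∧
      (n : ℝ) * ((R2_lift n a₀ u x : ℝ) / p - u) < a₀ + a := by
  have hp : (0 : ℝ) < p := by exact_mod_cast (Fact.out : p.Prime).pos
  have hnr : (0 : ℝ) < n := by exact_mod_cast hn
  have hx2 : (cellR n u x + (n - a₀)) % n < a := (Finset.mem_filter.mp hx).2
  set f : ℝ := Int.fract ((x.val : ℝ) / (p : ℝ) - u) with hf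
  have hf0 : 0 ≤ f := Int.fract_nonneg _
  have hf1 : f < 1 := Int.fract_lt_one _
  have hc1 : ((cellR n u x : ℕ) : ℝ) ≤ n * f := Nat.floor_le (by positivity)
  have hc2 : (n : ℝ) * f < (cellR n u x : ℕ) + 1 := Nat.lt_floor_add_one _
  have hc3 : cellR n u x < n := by
    have : ((cellR n u x : ℕ) : ℝ) < n := by
      calc ((cellR n u x : ℕ) : ℝ) ≤ n * f := hc1
        _ < n * 1 := mul_lt_mul_of_pos_left hf1 hnr
        _ = n := mul_one _
    exact_mod_cast this
  have hff : f = (x.val : ℝ) / (p : ℝ) - u - ⌊(x.val : ℝ) / (p : ℝ) - u⌋ := rfl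
  unfold R2_lift
  split_ifs with h
  · have e : (cellR n u x + (n - a₀)) % n = cellR n u x - a₀ := by
      have : cellR n u x + (n - a₀) = (cellR n u x - a₀) + n := by omega
      rw [this, Nat.add_mod_right, Nat.mod_eq_of_lt (by omega)]
    rw [e] at hx2
    have h1 : (a₀ : ℝ) ≤ cellR n u x := by exact_mod_cast h
    have h2 : ((cellR n u x : ℕ) : ℝ) + 1 ≤ a₀ + a := by
      have : cellR n u x + 1 ≤ a₀ + a := by omega
      exact_mod_cast this
    have h3 : ((((x.val : ℤ) - p * ⌊(x.val : ℝ) / (p : ℝ) - u⌋ + 0 : ℤ) : ℝ) / p - u) = f := by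
      rw [hff]; push_cast; field_simp; ring
    rw [h3]
    constructor <;> linarith
  · push Not at h
    have e : (cellR n u x + (n - a₀)) % n = cellR n u x + (n - a₀) := Nat.mod_eq_of_lt (by omega)
    rw [e] at hx2
    have h1 : (a₀ : ℝ) ≤ (cellR n u x : ℕ) + n := by
      have : a₀ ≤ cellR n u x + n := by omega
      exact_mod_cast this
    have h2 : ((cellR n u x : ℕ) : ℝ) + n + 1 ≤ a₀ + a := by
      have : cellR n u x + n + 1 ≤ a₀ + a := by omega
      exact_mod_cast this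
    have h3 : ((((x.val : ℤ) - p * ⌊(x.val : ℝ) / (p : ℝ) - u⌋ + p : ℤ) : ℝ) / p - u) =
        f + 1 := by
      rw [hff]; push_cast; field_simp; ring
    rw [h3, mul_add, mul_one]
    constructor <;> linarith

lemma R2_mem {n c₀ c : ℕ} {w : ℝ} (hn : 0 < n) {S : Finset (ZMod p)} {t : ZMod p} (ht : t ∈ S)
    {z : ℤ} (hz : (z : ZMod p) = t) (h1 : (c₀ : ℝ) ≤ n * ((z : ℝ) / p - w))
    (h2 : (n : ℝ) * ((z : ℝ) / p - w) < c₀ + c) : t ∈ arcR n w (c₀ % n) c S := by
  have hp0 : 0 < p := (Fact.out : p.Prime).pos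
  have hp : (0 : ℝ) < p := by exact_mod_cast hp0
  have : NeZero p := ⟨hp0.ne'⟩
  have hnr : (0 : ℝ) < n := by exact_mod_cast hn
  refine Finset.mem_filter.mpr ⟨ht, ?_⟩
  have hz' : ((t.val : ℤ) : ZMod p) = (z : ZMod p) := by rw [hz]; simp
  rw [ZMod.intCast_eq_intCast_iff_dvd_sub] at hz'
  obtain ⟨m, hm⟩ := hz'
  have hzm : (z : ℝ) = t.val + p * m := by
    have : z = t.val + p * m := by linarith
    exact_mod_cast this
  set W : ℝ := (z : ℝ) / p - w with hW
  have hW0 : 0 ≤ W := by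
    have : 0 ≤ (n : ℝ) * W := le_trans (Nat.cast_nonneg _) h1
    exact nonneg_of_mul_nonneg_right this hnr
  have hfr : Int.fract ((t.val : ℝ) / (p : ℝ) - w) = Int.fract W := by
    have : (t.val : ℝ) / (p : ℝ) - w = W - m := by
      rw [hW, hzm]; field_simp; ring
    rw [this, Int.fract_sub_intCast]
  obtain ⟨k, hk⟩ : ∃ k : ℕ, ⌊W⌋ = k := ⟨⌊W⌋.toNat, by
    have := Int.floor_nonneg.2 hW0
    omega⟩
  have hcell : (cellR n w t : ℤ) = ⌊(n : ℝ) * W⌋ - n * k := by
    unfold cellR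
    rw [hfr, Int.natCast_floor_eq_floor (mul_nonneg hnr.le (Int.fract_nonneg _))]
    have : (n : ℝ) * Int.fract W = n * W - ((n * k : ℤ) : ℝ) := by
      rw [Int.fract, hk]; push_cast; ring
    rw [this, Int.floor_sub_intCast]
  have hN1 : (c₀ : ℤ) ≤ ⌊(n : ℝ) * W⌋ := Int.le_floor.2 (by exact_mod_cast h1)
  have hN2 : ⌊(n : ℝ) * W⌋ < (c₀ : ℤ) + c := Int.floor_lt.2 (by exact_mod_cast h2)
  obtain ⟨e, he⟩ : ∃ e : ℕ, ⌊(n : ℝ) * W⌋ = c₀ + e := ⟨(⌊(n : ℝ) * W⌋ - c₀).toNat, by omega⟩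
  have hec : e < c := by omega
  have hce : cellR n w t + n * k = c₀ + e := by
    have : (cellR n w t : ℤ) + n * k = c₀ + e := by rw [hcell, he]; ring
    exact_mod_cast this
  have hdiv := Nat.div_add_mod c₀ n
  have hlt := Nat.mod_lt c₀ hn
  have e1 : cellR n w t + (n - c₀ % n) + n * k = e + n * (c₀ / n + 1) := by
    have : n * (c₀ / n + 1) = n * (c₀ / n) + n := by ring
    omega
  have e2 : (cellR n w t + (n - c₀ % n)) % n = e % n := by
    calc (cellR n w t + (n - c₀ % n)) % n = (cellR n w t + (n - c₀ % n) + n * k) % n := by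
          rw [Nat.add_mul_mod_self_left]
      _ = (e + n * (c₀ / n + 1)) % n := by rw [e1]
      _ = e % n := Nat.add_mul_mod_self_left _ _ _
  rw [e2]
  exact lt_of_le_of_lt (Nat.mod_le _ _) hec

/-- General transfer: a pair of arcs of total length at most the circle lifts to the integers.
Here `I` and `J` are arbitrary subsets of the arcs. -/
theorem R2_pair {n a₀ b₀ a b : ℕ} {u v : ℝ} (hn : 0 < n) (ha₀ : a₀ < n) (hb₀ : b₀ < n)
    (hab : a + b ≤ n) {S S' I J : Finset (ZMod p)} (hI : I ⊆ arcR n u a₀ a S)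
    (hJ : J ⊆ arcR n v b₀ b S') :
    ∃ X Y : Finset ℤ, castF p X = I ∧ castF p Y = J ∧ X.card = I.card ∧ Y.card = J.card ∧
      (X + Y).card = (I + J).card ∧
      I + J ⊆ arcR n (u + v) ((a₀ + b₀) % n) (a + b) (S + S') := by
  classical
  have hp : (0 : ℝ) < p := by exact_mod_cast (Fact.out : p.Prime).pos
  have hnr : (0 : ℝ) < n := by exact_mod_cast hn
  have hcast : ∀ (c : ℕ) (w : ℝ) (U : Finset (ZMod p)), castF p (U.image (R2_lift n c w)) = U := by
    intro c w U
    ext s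
    rw [mem_castF]
    constructor
    · rintro ⟨x, hx, rfl⟩
      obtain ⟨t, ht, rfl⟩ := Finset.mem_image.mp hx
      rwa [R2_cast]
    · intro hs
      exact ⟨_, Finset.mem_image_of_mem _ hs, R2_cast n c w s⟩
  refine ⟨I.image (R2_lift n a₀ u), J.image (R2_lift n b₀ v), hcast _ _ _, hcast _ _ _,
    Finset.card_image_of_injective _ (R2_inj _ _ _),
    Finset.card_image_of_injective _ (R2_inj _ _ _), ?_, ?_⟩
  · conv_rhs => rw [← hcast a₀ u I, ← hcast b₀ v J]
    rw [← castF_add]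
    symm
    apply card_castF
    intro z hz w hw
    obtain ⟨_, gx, _, gy, rfl⟩ := Finset.mem_add.mp hz
    obtain ⟨x, hx, rfl⟩ := Finset.mem_image.mp gx
    obtain ⟨y, hy, rfl⟩ := Finset.mem_image.mp gy
    obtain ⟨_, gx', _, gy', rfl⟩ := Finset.mem_add.mp hw
    obtain ⟨x', hx', rfl⟩ := Finset.mem_image.mp gx'
    obtain ⟨y', hy', rfl⟩ := Finset.mem_image.mp gy'
    have b1 := R2_bounds hn ha₀ (by omega) (hI hx)
    have b2 := R2_bounds hn hb₀ (by omega) (hJ hy)
    have b3 := R2_bounds hn ha₀ (by omega) (hI hx')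
    have b4 := R2_bounds hn hb₀ (by omega) (hJ hy')
    have hab' : (a : ℝ) + b ≤ n := by exact_mod_cast hab
    have h1 : (n : ℝ) * (((R2_lift n a₀ u x + R2_lift n b₀ v y -
        (R2_lift n a₀ u x' + R2_lift n b₀ v y') : ℤ) : ℝ) / p) < n * 1 := by
      push_cast
      have e : (n : ℝ) * (((R2_lift n a₀ u x : ℝ) + (R2_lift n b₀ v y : ℝ) -
          ((R2_lift n a₀ u x' : ℝ) + (R2_lift n b₀ v y' : ℝ))) / p) =
          n * ((R2_lift n a₀ u x : ℝ) / p - u) + n * ((R2_lift n b₀ v y : ℝ) / p - v) -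
          (n * ((R2_lift n a₀ u x' : ℝ) / p - u) + n * ((R2_lift n b₀ v y' : ℝ) / p - v)) := by
        ring
      rw [e]
      linarith [b1.2, b2.2, b3.1, b4.1]
    have h2 := lt_of_mul_lt_mul_left h1 hnr.le
    rw [div_lt_one hp] at h2
    exact_mod_cast h2
  · intro t ht
    obtain ⟨x, hx, y, hy, rfl⟩ := Finset.mem_add.mp ht
    have b1 := R2_bounds hn ha₀ (by omega) (hI hx)
    have b2 := R2_bounds hn hb₀ (by omega) (hJ hy)
    have e : (n : ℝ) * (((R2_lift n a₀ u x + R2_lift n b₀ v y : ℤ) : ℝ) / p - (u + v)) =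
        n * ((R2_lift n a₀ u x : ℝ) / p - u) + n * ((R2_lift n b₀ v y : ℝ) / p - v) := by
      push_cast; ring
    refine R2_mem hn (S := S + S') (z := R2_lift n a₀ u x + R2_lift n b₀ v y) ?_ ?_ ?_ ?_
    · exact Finset.add_mem_add (Finset.mem_filter.mp (hI hx)).1 (Finset.mem_filter.mp (hJ hy)).1
    · push_cast
      rw [R2_cast, R2_cast]
    · rw [e]; push_cast; linarith [b1.1, b2.1]
    · rw [e]; push_cast; linarith [b1.2, b2.2]

theorem th_R2 : S_R2 := by
  intro p _ n a₀ b₀ a b u v hn ha₀ hb₀ hab S S' I J hI hJ hIne hJne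
  obtain ⟨X, Y, hX, hY, cX, cY, cXY, hsub⟩ := R2_pair hn ha₀ hb₀ hab hI hJ
  have hXne : X.Nonempty := by rw [← Finset.card_pos, cX]; exact hIne.card_pos
  have hYne : Y.Nonempty := by rw [← Finset.card_pos, cY]; exact hJne.card_pos
  have := card_add_ge hXne hYne
  exact ⟨hsub, by omega⟩

end Pool.Agent.Fr

end

section

/-!
# The full range 3k-4 theorem modulo a prime: item R3 (arcs with real offset, pair theorem)
-/

set_option autoImplicit false

open scoped Pointwise

namespace Pool.Agent.Fr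

open Pool.Agent.LS Pool.Agent.Fou

/-- The lift of `x` to the integers: `a₀ / n ≤ lift / p - u < (a₀ + n) / n`. -/
noncomputable def R3_lift {p : ℕ} (n : ℕ) (u : ℝ) (a₀ : ℕ) (x : ZMod p) : ℤ :=
  (x.val : ℤ) - p * ⌊(x.val : ℝ) / (p : ℝ) - u⌋ + (if a₀ ≤ cellR n u x then 0 else (p : ℤ))

theorem R3_cast {p : ℕ} [Fact p.Prime] (n : ℕ) (u : ℝ) (a₀ : ℕ) (x : ZMod p) :
    ((R3_lift n u a₀ x : ℤ) : ZMod p) = x := by
  have : NeZero p := ⟨(Fact.out : p.Prime).ne_zero⟩
  unfold R3_lift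
  split_ifs <;> simp

theorem R3_cell_lt {p : ℕ} [Fact p.Prime] {n : ℕ} (hn : 0 < n) (u : ℝ) (x : ZMod p) :
    cellR n u x < n := by
  unfold cellR
  have hn' : (0 : ℝ) < n := by exact_mod_cast hn
  have h1 := Int.fract_lt_one ((x.val : ℝ) / (p : ℝ) - u)
  have h0 := Int.fract_nonneg ((x.val : ℝ) / (p : ℝ) - u)
  rw [Nat.floor_lt (by positivity)]
  calc (n : ℝ) * Int.fract ((x.val : ℝ) / (p : ℝ) - u) < n * 1 := mul_lt_mul_of_pos_left h1 hn'
    _ = n := mul_one _

theorem R3_bounds {p : ℕ} [Fact p.Prime] {n a₀ a : ℕ} {u : ℝ} (hn : 0 < n) (ha₀ : a₀ < n)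
    (han : a ≤ n) {S : Finset (ZMod p)} {x : ZMod p} (hx : x ∈ arcR n u a₀ a S) :
    (a₀ : ℝ) * p ≤ n * ((R3_lift n u a₀ x : ℤ) - u * p) ∧
      (n : ℝ) * ((R3_lift n u a₀ x : ℤ) - u * p) < (a₀ + a) * p := by
  have hp : (0 : ℝ) < p := by exact_mod_cast (Fact.out : p.Prime).pos
  have hn' : (0 : ℝ) < n := by exact_mod_cast hn
  have hx2 : (cellR n u x + (n - a₀)) % n < a := (Finset.mem_filter.mp hx).2
  have hc := R3_cell_lt hn u x
  set f : ℝ := (x.val : ℝ) / (p : ℝ) - u with hf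
  have h0 := Int.fract_nonneg f
  have hb1 : (cellR n u x : ℝ) ≤ n * Int.fract f := Nat.floor_le (by positivity)
  have hb2 : (n : ℝ) * Int.fract f < cellR n u x + 1 := Nat.lt_floor_add_one _
  have hxp : (x.val : ℝ) = (f + u) * p := by rw [hf]; field_simp; ring
  have hfr : (x.val : ℝ) - p * (⌊f⌋ : ℤ) - u * p = Int.fract f * p := by
    rw [hxp, ← Int.self_sub_floor f]; ring
  unfold R3_lift
  rw [← hf]
  split_ifs with h
  · have e : (cellR n u x + (n - a₀)) % n = cellR n u x - a₀ := by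
      have : cellR n u x + (n - a₀) = (cellR n u x - a₀) + n := by omega
      rw [this, Nat.add_mod_right, Nat.mod_eq_of_lt (by omega)]
    rw [e] at hx2
    have h1 : (a₀ : ℝ) ≤ cellR n u x := by exact_mod_cast h
    have h2 : (cellR n u x : ℝ) + 1 ≤ a₀ + a := by
      have : cellR n u x + 1 ≤ a₀ + a := by omega
      exact_mod_cast this
    have e2 : (n : ℝ) * ((((x.val : ℤ) - p * ⌊f⌋ + 0 : ℤ) : ℝ) - u * p) =
        (n * Int.fract f) * p := by
      push_cast
      have : (x.val : ℝ) - p * (⌊f⌋ : ℤ) + 0 - u * p = Int.fract f * p := by linarith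
      rw [this]; ring
    rw [e2]
    exact ⟨mul_le_mul_of_nonneg_right (h1.trans hb1) hp.le,
      mul_lt_mul_of_pos_right (hb2.trans_le h2) hp⟩
  · push Not at h
    have e : (cellR n u x + (n - a₀)) % n = cellR n u x + (n - a₀) := Nat.mod_eq_of_lt (by omega)
    rw [e] at hx2
    have h1 : (a₀ : ℝ) ≤ cellR n u x + n := by
      have : a₀ ≤ cellR n u x + n := by omega
      exact_mod_cast this
    have h2 : (cellR n u x : ℝ) + n + 1 ≤ a₀ + a := by
      have : cellR n u x + n + 1 ≤ a₀ + a := by omega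
      exact_mod_cast this
    have e2 : (n : ℝ) * ((((x.val : ℤ) - p * ⌊f⌋ + (p : ℤ) : ℤ) : ℝ) - u * p) =
        (n * Int.fract f + n) * p := by
      push_cast
      have : (x.val : ℝ) - p * (⌊f⌋ : ℤ) + p - u * p = Int.fract f * p + p := by linarith
      rw [this]; ring
    rw [e2]
    exact ⟨mul_le_mul_of_nonneg_right (by linarith) hp.le,
      mul_lt_mul_of_pos_right (by linarith) hp⟩

/-- A pair of arcs (with real offsets) of total length at most the circle lifts to the integers. -/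
theorem R3_lift_pair {p : ℕ} [Fact p.Prime] {n a₀ b₀ a b : ℕ} {u v : ℝ} (hn : 0 < n)
    (ha₀ : a₀ < n) (hb₀ : b₀ < n) (hab : a + b ≤ n)
    {S S' I J : Finset (ZMod p)} (hI : I ⊆ arcR n u a₀ a S) (hJ : J ⊆ arcR n v b₀ b S') :
    ∃ X Y : Finset ℤ, castF p X = I ∧ castF p Y = J ∧ X.card = I.card ∧ Y.card = J.card ∧
      (X + Y).card = (I + J).card := by
  classical
  have hp : (0 : ℝ) < p := by exact_mod_cast (Fact.out : p.Prime).pos
  have hnz : (0 : ℝ) < n := by exact_mod_cast hn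
  have inj : ∀ (w : ℝ) (c : ℕ), Function.Injective (R3_lift (p := p) n w c) := by
    intro w c x y h
    rw [← R3_cast n w c x, ← R3_cast n w c y, h]
  have hcast : ∀ (w : ℝ) (c : ℕ) (U : Finset (ZMod p)), castF p (U.image (R3_lift n w c)) = U := by
    intro w c U
    ext s
    rw [mem_castF]
    constructor
    · rintro ⟨x, hx, rfl⟩
      obtain ⟨u, hu, rfl⟩ := Finset.mem_image.mp hx
      rwa [R3_cast]
    · intro hs
      exact ⟨_, Finset.mem_image_of_mem _ hs, R3_cast n w c s⟩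
  refine ⟨I.image (R3_lift n u a₀), J.image (R3_lift n v b₀), hcast _ _ _, hcast _ _ _,
    Finset.card_image_of_injective _ (inj _ _), Finset.card_image_of_injective _ (inj _ _), ?_⟩
  conv_rhs => rw [← hcast u a₀ I, ← hcast v b₀ J]
  rw [← castF_add]
  symm
  apply card_castF
  intro z hz w hw
  obtain ⟨_, gx, _, gy, rfl⟩ := Finset.mem_add.mp hz
  obtain ⟨x, hx, rfl⟩ := Finset.mem_image.mp gx
  obtain ⟨y, hy, rfl⟩ := Finset.mem_image.mp gy
  obtain ⟨_, gx', _, gy', rfl⟩ := Finset.mem_add.mp hw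
  obtain ⟨x', hx', rfl⟩ := Finset.mem_image.mp gx'
  obtain ⟨y', hy', rfl⟩ := Finset.mem_image.mp gy'
  have b1 := R3_bounds hn ha₀ (by omega) (hI hx)
  have b2 := R3_bounds hn hb₀ (by omega) (hJ hy)
  have b3 := R3_bounds hn ha₀ (by omega) (hI hx')
  have b4 := R3_bounds hn hb₀ (by omega) (hJ hy')
  have hab' : ((a : ℝ) + b) * p ≤ n * p :=
    mul_le_mul_of_nonneg_right (by exact_mod_cast hab) hp.le
  have key : (n : ℝ) * (((R3_lift n u a₀ x + R3_lift n v b₀ y -
      (R3_lift n u a₀ x' + R3_lift n v b₀ y') : ℤ) : ℝ)) < n * p := by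
    push_cast
    nlinarith [b1.2, b2.2, b3.1, b4.1]
  have key2 := lt_of_mul_lt_mul_left key hnz.le
  exact_mod_cast key2

theorem th_R3 : S_R3 := by
  intro p _ n a₀ b₀ a b u v hn ha₀ hb₀ hab S S' I J hI hJ hJne hJI hnot
  obtain ⟨X, Y, hX, hY, cX, cY, cXY⟩ := R3_lift_pair hn ha₀ hb₀ hab hI hJ
  have hYne : Y.Nonempty := by rw [← Finset.card_pos, cY]; exact hJne.card_pos
  have := pair (A := X) (B := Y) hYne (by omega) (by
    intro h
    apply hnot
    have := InAP.cast (p := p) h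
    rwa [hX, cX] at this)
  omega

end Pool.Agent.Fr

end

section

/-!
# MP_54ef3e_nt, item R4 (helper19): a set contained in a half circle
-/

set_option autoImplicit false

open scoped Pointwise

namespace Pool.Agent.Fr

open Pool.Agent.LS Pool.Agent.Fou

variable {p : ℕ} [Fact p.Prime]

/-- The lift to the integers with real offset. -/
noncomputable def R4_lift (n : ℕ) (u : ℝ) (a : ℕ) (y : ZMod p) : ℤ :=
  if a ≤ cellR n u y then (y.val : ℤ) - p * ⌊(y.val : ℝ) / (p : ℝ) - u⌋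
  else (y.val : ℤ) - p * ⌊(y.val : ℝ) / (p : ℝ) - u⌋ + p

lemma R4_cast (n : ℕ) (u : ℝ) (a : ℕ) (y : ZMod p) : ((R4_lift n u a y : ℤ) : ZMod p) = y := by
  have : NeZero p := ⟨(Fact.out : p.Prime).ne_zero⟩
  unfold R4_lift
  split_ifs <;> simp

lemma R4_bounds {n a w : ℕ} {u : ℝ} (hn : 0 < n) (ha : a < n) (hw : w ≤ n) {S : Finset (ZMod p)}
    {y : ZMod p} (hy : y ∈ arcR n u a w S) :
    (a : ℝ) ≤ n * ((R4_lift n u a y : ℝ) / p - u) ∧
      (n : ℝ) * ((R4_lift n u a y : ℝ) / p - u) < a + w := by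
  have hp : (0 : ℝ) < p := by exact_mod_cast (Fact.out : p.Prime).pos
  have hn' : (0 : ℝ) < n := by exact_mod_cast hn
  have hy2 : (cellR n u y + (n - a)) % n < w := (Finset.mem_filter.mp hy).2
  set t : ℝ := (y.val : ℝ) / (p : ℝ) - u with ht
  have hfr0 : 0 ≤ Int.fract t := Int.fract_nonneg t
  have hfr1 : Int.fract t < 1 := Int.fract_lt_one t
  have hc1 : (cellR n u y : ℝ) ≤ n * Int.fract t := Nat.floor_le (by positivity)
  have hc2 : (n : ℝ) * Int.fract t < cellR n u y + 1 := Nat.lt_floor_add_one _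
  have hcn : cellR n u y < n := by
    have : (cellR n u y : ℝ) < n := by
      calc (cellR n u y : ℝ) ≤ n * Int.fract t := hc1
        _ < n * 1 := mul_lt_mul_of_pos_left hfr1 hn'
        _ = n := mul_one _
    exact_mod_cast this
  have hval : (((y.val : ℤ) - p * ⌊t⌋ : ℤ) : ℝ) / p - u = Int.fract t := by
    have h1 : Int.fract t = t - ⌊t⌋ := rfl
    rw [h1]
    push_cast
    rw [sub_div, mul_div_cancel_left₀ _ hp.ne', ht]
    ring
  unfold R4_lift
  rw [← ht]
  split_ifs with h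
  · rw [hval]
    have e : (cellR n u y + (n - a)) % n = cellR n u y - a := by
      have : cellR n u y + (n - a) = (cellR n u y - a) + n := by omega
      rw [this, Nat.add_mod_right, Nat.mod_eq_of_lt (by omega)]
    rw [e] at hy2
    have h1 : (a : ℝ) ≤ cellR n u y := by exact_mod_cast h
    have h2 : (cellR n u y : ℝ) + 1 ≤ a + w := by
      have : cellR n u y + 1 ≤ a + w := by omega
      exact_mod_cast this
    constructor <;> linarith
  · push Not at h
    have e : (cellR n u y + (n - a)) % n = cellR n u y + (n - a) := Nat.mod_eq_of_lt (by omega)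
    rw [e] at hy2
    have h1 : (a : ℝ) ≤ cellR n u y + n := by
      have : a ≤ cellR n u y + n := by omega
      exact_mod_cast this
    have h2 : (cellR n u y : ℝ) + n + 1 ≤ a + w := by
      have : cellR n u y + n + 1 ≤ a + w := by omega
      exact_mod_cast this
    have hval' : (((y.val : ℤ) - p * ⌊t⌋ + p : ℤ) : ℝ) / p - u = Int.fract t + 1 := by
      rw [← hval]
      push_cast
      field_simp
      ring
    rw [hval']
    constructor <;> linarith

theorem th_R4 : S_R4 := by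
  intro p _ n x u hn he hx S hS hyp
  classical
  have hp0 : 0 < p := (Fact.out : p.Prime).pos
  have hp : (0 : ℝ) < p := by exact_mod_cast hp0
  have hn0 : 0 < n := by omega
  have hn' : (0 : ℝ) < n := by exact_mod_cast hn0
  obtain ⟨m, hm⟩ := he
  have hm2 : n / 2 = m := by omega
  have hnm : (n : ℝ) = m + m := by rw [hm]; push_cast; ring
  rw [hm2] at hS
  refine rectify (u := 1) (v := 0) (X := S.image (R4_lift n u x)) one_ne_zero ?_
    (D := ((p : ℤ) - 1) / 2) ?_ (by omega) hp0 hyp.doub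
  · ext s
    rw [mem_castF]
    simp only [aff, one_mul, add_zero, Finset.image_id']
    constructor
    · rintro ⟨_, hz, rfl⟩
      obtain ⟨y, hy, rfl⟩ := Finset.mem_image.mp hz
      rwa [R4_cast]
    · intro hs
      exact ⟨_, Finset.mem_image_of_mem _ hs, R4_cast n u x s⟩
  · intro z hz z' hz'
    obtain ⟨y, hy, rfl⟩ := Finset.mem_image.mp hz
    obtain ⟨y', hy', rfl⟩ := Finset.mem_image.mp hz'
    have b1 := (R4_bounds (w := m) hn0 hx (by omega) (hS hy)).2
    have b2 := (R4_bounds (w := m) hn0 hx (by omega) (hS hy')).1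
    have h3 : (n : ℝ) * (((R4_lift n u x y : ℝ) - R4_lift n u x y') / p) < n / 2 := by
      have : (n : ℝ) * (((R4_lift n u x y : ℝ) - R4_lift n u x y') / p) =
          n * ((R4_lift n u x y : ℝ) / p - u) - n * ((R4_lift n u x y' : ℝ) / p - u) := by ring
      rw [this]
      have : (n : ℝ) / 2 = m := by rw [hnm]; ring
      rw [this]
      linarith
    have h4 : ((R4_lift n u x y : ℝ) - R4_lift n u x y') / p < 1 / 2 := by
      have : (n : ℝ) * (((R4_lift n u x y : ℝ) - R4_lift n u x y') / p) < n * (1 / 2) := by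
        linarith
      exact lt_of_mul_lt_mul_left this hn'.le
    rw [div_lt_iff₀ hp] at h4
    have h5 : 2 * (R4_lift n u x y - R4_lift n u x y') < (p : ℤ) := by
      have : (2 : ℝ) * ((R4_lift n u x y : ℝ) - R4_lift n u x y') < p := by linarith
      exact_mod_cast this
    omega

end Pool.Agent.Fr

end

section

/-!
# R5: the number of elements of an arc is the window sum of the cell counts
-/

set_option autoImplicit false

open scoped Pointwise

namespace Pool.Agent.Fr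

open Pool.Agent.LS Pool.Agent.Fou

theorem r5_cellR_lt {p : ℕ} [Fact p.Prime] {n : ℕ} (hn : 0 < n) (u : ℝ) (x : ZMod p) :
    cellR n u x < n := by
  unfold cellR
  rw [Nat.floor_lt (mul_nonneg (Nat.cast_nonneg n) (Int.fract_nonneg _))]
  have h1 := Int.fract_lt_one ((x.val : ℝ) / (p : ℝ) - u)
  have h2 : (0 : ℝ) < n := by exact_mod_cast hn
  nlinarith

theorem r5_mod {n c x q : ℕ} (hn : 0 < n) (hc : c < n) (hq : q < n) :
    (c + (n - x % n)) % n = q ↔ c = (x + q) % n := by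
  have hx : x % n < n := Nat.mod_lt _ hn
  constructor
  · intro h
    have h1 : (x + q) % n = (x % n + (c + (n - x % n))) % n := by
      rw [← h, Nat.add_mod, Nat.mod_mod, ← Nat.add_mod]
      simp [Nat.add_mod]
    rw [h1]
    have h2 : x % n + (c + (n - x % n)) = c + n := by omega
    rw [h2, Nat.add_mod_right, Nat.mod_eq_of_lt hc]
  · intro h
    rw [h]
    have h1 : ((x + q) % n + (n - x % n)) % n = ((x % n + q) + (n - x % n)) % n := by
      simp [Nat.add_mod]
    rw [h1]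
    have h2 : (x % n + q) + (n - x % n) = q + n := by omega
    rw [h2, Nat.add_mod_right, Nat.mod_eq_of_lt hq]

theorem th_R5 : S_R5 := by
  intro p _ n x a u hn ha S
  classical
  unfold win cnt
  rw [← Finset.card_biUnion]
  · congr 1
    ext z
    simp only [arcR, Finset.mem_filter, Finset.mem_biUnion, Finset.mem_range]
    have hc := r5_cellR_lt hn u z
    constructor
    · rintro ⟨hz, h⟩
      exact ⟨_, h, hz, (r5_mod hn hc (lt_of_lt_of_le h ha)).1 rfl⟩
    · rintro ⟨q, hq, hz, h⟩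
      refine ⟨hz, ?_⟩
      rw [(r5_mod hn hc (lt_of_lt_of_le hq ha)).2 h]
      exact hq
  · intro q hq q' hq' hne
    simp only [Finset.coe_range, Set.mem_Iio] at hq hq'
    rw [Function.onFun, Finset.disjoint_filter]
    intro z _ h1 h2
    apply hne
    have hc := r5_cellR_lt hn u z
    have e1 := (r5_mod (x := x) hn hc (lt_of_lt_of_le hq ha)).2 h1
    have e2 := (r5_mod (x := x) hn hc (lt_of_lt_of_le hq' ha)).2 h2
    rw [← e1, e2]

end Pool.Agent.Fr

end

section

/-!
# R6: a window of `n / 2` cells is a half circle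
-/

set_option autoImplicit false

open scoped Pointwise

namespace Pool.Agent.Fr

open Pool.Agent.LS Pool.Agent.Fou

/-- the cell of a real number and the half circle -/
theorem r6_key {m x : ℕ} (hm : 0 < m) (hx : x < 2 * m) (w : ℝ) :
    (⌊((2 * m : ℕ) : ℝ) * Int.fract w⌋₊ + (2 * m - x)) % (2 * m) < m ↔
      Int.fract (w - (x : ℝ) / ((2 * m : ℕ) : ℝ)) < 1 / 2 := by
  have hn : (0 : ℝ) < ((2 * m : ℕ) : ℝ) := by exact_mod_cast (by omega : 0 < 2 * m)
  set n : ℕ := 2 * m with hnm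
  set c : ℕ := ⌊(n : ℝ) * Int.fract w⌋₊ with hcdef
  have h0 : 0 ≤ (n : ℝ) * Int.fract w := mul_nonneg hn.le (Int.fract_nonneg _)
  have hc1 : (c : ℝ) ≤ (n : ℝ) * Int.fract w := Nat.floor_le h0
  have hc2 : (n : ℝ) * Int.fract w < c + 1 := Nat.lt_floor_add_one _
  have hcn : c < n := by
    have : (c : ℝ) < n := by
      have h1 := Int.fract_lt_one w
      nlinarith
    exact_mod_cast this
  obtain ⟨d, hd⟩ : ∃ d : ℝ, d = (n : ℝ) * Int.fract w - c := ⟨_, rfl⟩
  have hd0 : 0 ≤ d := by rw [hd]; linarith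
  have hd1 : d < 1 := by rw [hd]; linarith
  have hfr : Int.fract w = (c + d) / n := by
    rw [hd]; field_simp; ring
  -- the remainder
  set r : ℕ := (c + (n - x)) % n with hr
  have hrn : r < n := Nat.mod_lt _ (by omega)
  have hrc : ∃ k : ℤ, (c : ℤ) - x = r + k * n := by
    obtain ⟨q, hq⟩ : ∃ q : ℕ, r + n * q = c + (n - x) := ⟨_, Nat.mod_add_div _ _⟩
    refine ⟨(q : ℤ) - 1, ?_⟩
    have h2 : ((r + n * q : ℕ) : ℤ) = ((c + (n - x) : ℕ) : ℤ) := by rw [hq]
    rw [Nat.cast_add, Nat.cast_add, Nat.cast_sub hx.le, Nat.cast_mul] at h2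
    linarith
  obtain ⟨k, hk⟩ := hrc
  have hkr : (c : ℝ) - x = r + k * n := by exact_mod_cast hk
  have hw : w - (x : ℝ) / n = (r + d) / n + ((⌊w⌋ + k : ℤ) : ℝ) := by
    have h1 : w = ⌊w⌋ + Int.fract w := (Int.floor_add_fract w).symm
    have h2 : (c : ℝ) = x + r + k * n := by linarith
    rw [hfr, h2] at h1
    rw [h1]
    have h3 : (⌊(⌊w⌋ : ℝ) + (x + r + k * n + d) / n⌋ : ℤ) = ⌊w⌋ := by rw [← h1]
    push_cast
    rw [h3]
    field_simp
    ring
  have hfr2 : Int.fract (w - (x : ℝ) / n) = (r + d) / n := by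
    rw [hw, Int.fract_add_intCast]
    rw [Int.fract_eq_self]
    have hr1 : (r : ℝ) + 1 ≤ n := by exact_mod_cast hrn
    constructor
    · positivity
    · rw [div_lt_one hn]; linarith
  rw [hfr2, div_lt_iff₀ hn]
  have hn2 : (1 / 2 : ℝ) * n = m := by rw [hnm]; push_cast; ring
  rw [hn2]
  constructor
  · intro h
    have : (r : ℝ) + 1 ≤ m := by exact_mod_cast h
    linarith
  · intro h
    have : (r : ℝ) < m := by linarith
    exact_mod_cast this

theorem th_R6 : S_R6 := by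
  intro p _ n x u hn2 hn hx S
  obtain ⟨m, hm⟩ := hn
  have hm2 : n = 2 * m := by omega
  subst hm2
  have hm0 : 0 < m := by omega
  unfold half arcR
  congr 1
  ext z
  have h1 : (2 * m) / 2 = m := by omega
  have k1 := r6_key hm0 hx ((z.val : ℝ) / (p : ℝ) - u)
  have k2 := r6_key (m := 1) (x := 0) one_pos (by norm_num)
    ((z.val : ℝ) / (p : ℝ) - (u + (x : ℝ) / ((2 * m : ℕ) : ℝ)))
  unfold cellR
  rw [h1, k1]
  have e : (z.val : ℝ) / (p : ℝ) - (u + (x : ℝ) / ((2 * m : ℕ) : ℝ)) =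
    (z.val : ℝ) / (p : ℝ) - u - (x : ℝ) / ((2 * m : ℕ) : ℝ) := by ring
  rw [e] at k2 ⊢
  have e2 : (z.val : ℝ) / (p : ℝ) - u - (x : ℝ) / ((2 * m : ℕ) : ℝ) -
      ((0 : ℕ) : ℝ) / ((2 * 1 : ℕ) : ℝ) =
    (z.val : ℝ) / (p : ℝ) - u - (x : ℝ) / ((2 * m : ℕ) : ℝ) := by simp
  rw [e2] at k2
  exact k2.symm

end Pool.Agent.Fr

end

section

/-!
# The full range 3k-4 theorem modulo a prime: item R7
-/

set_option autoImplicit false

open scoped Pointwise

namespace Pool.Agent.Fr

open Pool.Agent.LS Pool.Agent.Fou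

theorem R7_arc_full {p : ℕ} [Fact p.Prime] {n : ℕ} (hn : 0 < n) (u : ℝ) (x : ℕ)
    (S : Finset (ZMod p)) : arcR n u x n S = S := by
  unfold arcR
  exact Finset.filter_true_of_mem fun y _ => Nat.mod_lt _ hn

theorem R7_arc_sub {p : ℕ} [Fact p.Prime] (n : ℕ) (u : ℝ) (x a : ℕ)
    (S : Finset (ZMod p)) : arcR n u x a S ⊆ S := Finset.filter_subset _ _

theorem R7_win_add (n : ℕ) (f : ℕ → ℕ) (x a b : ℕ) :
    win n f x (a + b) = win n f x a + win n f (x + a) b := by
  unfold win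
  rw [Finset.sum_range_add]
  congr 1
  refine Finset.sum_congr rfl fun q _ => ?_
  rw [add_assoc]

theorem R7_win_zero (n : ℕ) (f : ℕ → ℕ) :
    win n f 0 n = ∑ i ∈ Finset.range n, f i := by
  unfold win
  refine Finset.sum_congr rfl fun q hq => ?_
  rw [zero_add, Nat.mod_eq_of_lt (Finset.mem_range.1 hq)]

theorem th_R7 : S_R7 := by
  intro h2 h3 h4 h5 p _ n u hn hne S hS hC
  have hn0 : 0 < n := by omega
  have hcard : ∀ (x a : ℕ), a ≤ n → (arcR n u (x % n) a S).card = win n (cnt n u S) x a :=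
    fun x a ha => h5 p n x a u hn0 ha S
  have hcardT : ∀ (x a : ℕ), a ≤ n →
      (arcR n (u + u) (x % n) a (S + S)).card = win n (cnt n (u + u) (S + S)) x a :=
    fun x a ha => h5 p n x a (u + u) hn0 ha (S + S)
  have hfull : ∀ x, win n (cnt n u S) x n = S.card := by
    intro x
    rw [← hcard x n le_rfl, R7_arc_full hn0]
  have hfullT : win n (cnt n (u + u) (S + S)) 0 n = (S + S).card := by
    rw [← hcardT 0 n le_rfl, R7_arc_full hn0]
  have hmod : ∀ x, x % n < n := fun x => Nat.mod_lt _ hn0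
  -- the sum of two arcs
  have hsub : ∀ (x y a b : ℕ), a + b ≤ n → (arcR n u (x % n) a S).Nonempty →
      (arcR n u (y % n) b S).Nonempty →
      (arcR n u (x % n) a S + arcR n u (y % n) b S).card ≤
        win n (cnt n (u + u) (S + S)) (x + y) (a + b) ∧
      (arcR n u (x % n) a S).card + (arcR n u (y % n) b S).card ≤
        (arcR n u (x % n) a S + arcR n u (y % n) b S).card + 1 := by
    intro x y a b hab hI hJ
    obtain ⟨h6, h7⟩ := h2 p n (x % n) (y % n) a b u u hn0 (hmod x) (hmod y) hab S S _ _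
      (Finset.Subset.refl _) (Finset.Subset.refl _) hI hJ
    refine ⟨?_, h7⟩
    rw [← hcardT (x + y) (a + b) hab, Nat.add_mod]
    exact Finset.card_le_card h6
  refine ⟨?_, ?_, ?_, ?_, ?_, ?_⟩
  · rw [← R7_win_zero]
    exact hfull 0
  · rw [← R7_win_zero]
    simp only
    rw [hfullT]
    exact hS.doub
  · intro x y a b ha hb hab hx hy
    simp only at hx hy ⊢
    rw [← hcard x a (by omega)] at hx ⊢
    rw [← hcard y b (by omega)] at hy ⊢
    obtain ⟨h6, h7⟩ := hsub x y a b hab (Finset.card_pos.1 hx) (Finset.card_pos.1 hy)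
    omega
  · intro x y a ha hy
    simp only at hy ⊢
    rw [← hcard y 1 (by omega)] at hy
    rw [← hcard x a (by omega)]
    rcases Nat.eq_zero_or_pos (arcR n u (x % n) a S).card with hx | hx
    · rw [hx]
      exact Nat.zero_le _
    · obtain ⟨h6, h7⟩ := hsub x y a 1 ha (Finset.card_pos.1 hx) (Finset.card_pos.1 hy)
      omega
  · intro x y a b hab hx hy hyx
    simp only at hx hy hyx ⊢
    rw [← hcard x a (by omega)] at hx hyx ⊢
    rw [← hcard y b (by omega)] at hy hyx ⊢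
    have hk := hS.three
    have hdoub := hS.doub
    have hsm := hS.small
    have hI : (arcR n u (x % n) a S).Nonempty := Finset.card_pos.1 (by omega)
    have hJ : (arcR n u (y % n) b S).Nonempty := Finset.card_pos.1 hy
    have hAP : ¬ InAPp (arcR n u (x % n) a S) (2 * (arcR n u (x % n) a S).card - 2) := by
      intro h
      exact hC (theoremB (R7_arc_sub n u (x % n) a S) hsm.le hdoub (by omega) (by omega) h)
    have h6 := h3 p n (x % n) (y % n) a b u u hn0 (hmod x) (hmod y) hab S S _ _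
      (Finset.Subset.refl _) (Finset.Subset.refl _) hJ hyx hAP
    have h7 := (hsub x y a b hab hI hJ).1
    omega
  · intro x
    simp only
    by_contra hx
    have hx0 : win n (cnt n u S) x (n / 2) = 0 := by omega
    have hhalf : n / 2 + n / 2 = n := by
      obtain ⟨m, rfl⟩ := hne
      omega
    have h6 := R7_win_add n (cnt n u S) x (n / 2) (n / 2)
    rw [hhalf, hfull, hx0, zero_add, ← hcard (x + n / 2) (n / 2) (by omega)] at h6
    have h7 : arcR n u ((x + n / 2) % n) (n / 2) S = S :=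
      Finset.eq_of_subset_of_card_le (R7_arc_sub _ _ _ _ _) h6.le
    exact hC (h4 p n ((x + n / 2) % n) u (by omega) hne (hmod _) S (by rw [h7]) hS)

end Pool.Agent.Fr

end

section

/-!
# The full range 3k-4 theorem modulo a prime: statements of the second wave
-/

set_option autoImplicit false

open scoped Pointwise

namespace Pool.Agent.Fr

open Pool.Agent.LS Pool.Agent.Fou

/-! ## The maximal half circle and the frequency -/

/-- Over all dilates `r ≠ 0` and offsets `u` the count `|half u (r S)|` has a maximum. -/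
def S_MAX : Prop := ∀ (p : ℕ) [Fact p.Prime] (S : Finset (ZMod p)),
  ∃ (M : ℕ) (r₀ : ZMod p) (u₀ : ℝ), r₀ ≠ 0 ∧ (half u₀ (aff r₀ 0 S)).card = M ∧
    ∀ (r : ZMod p) (u : ℝ), r ≠ 0 → (half u (aff r 0 S)).card ≤ M

/-- The energy inequality from a large half circle. -/
def S_MH : Prop := S_E9 → S_E10 → S_R3 → S_R4 →
  ∀ (p : ℕ) [Fact p.Prime] (S : Finset (ZMod p)), Hyp S → ¬ Concl S →
  ∀ (r : ZMod p) (u : ℝ) (M : ℕ), r ≠ 0 → (half u (aff r 0 S)).card = M →
    2 * S.card + 1 ≤ 3 * M →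
    M + 1 ≤ S.card ∧
    (S.card : ℝ) * (S + S).card + ((M : ℝ) - 3) * ((S.card : ℝ) ^ 2 - S.card) +
    2 * (en S S - (S.card : ℝ) ^ 2
      - ((S.card : ℝ) - M) * Real.sqrt (S.card * en S S)
      + ((S.card : ℝ) - M) * S.card) ≤ en S (S + S)

/-- The conclusion of the choice of the frequency, `10^4` times the sum of the two coefficients. -/
def Freq {p : ℕ} [Fact p.Prime] (S : Finset (ZMod p)) (A0 C0 A1 B1 C1 : ℝ) : Prop :=
  ∃ r : ZMod p, r ≠ 0 ∧
    A0 * S.card ≤ 10000 * (fa (aff r 0 S) + fa (aff r 0 S + aff r 0 S) / 2) + C0 ∧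
    ∀ (r' : ZMod p) (u : ℝ), r' ≠ 0 → A1 * S.card + B1 * (half u (aff r' 0 S)).card ≤
      10000 * (fa (aff r 0 S) + fa (aff r 0 S + aff r 0 S) / 2) + C1

/-- The basic step: a frequency with `g X² + β k² Y ≤ X Y`, in terms of `fa`. -/
def S_FX : Prop := S_E11 → ∀ (p : ℕ) [Fact p.Prime] (S : Finset (ZMod p)) (g b c : ℝ), Hyp S →
  0 ≤ b →
  (∀ B y : ℝ, 0 < B → 0 ≤ y → g * B ^ 4 ≤ y ^ 2 * (B ^ 2 - b) → c * b ≤ (B + y / 2) ^ 2) →
  0 ≤ ((p : ℝ) * en S (S + S) - (S.card : ℝ) ^ 2 * ((S + S).card : ℝ) ^ 2)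
      - g * ((p : ℝ) * en S S - (S.card : ℝ) ^ 4)
      - b * (S.card : ℝ) ^ 2 * ((p : ℝ) * (S + S).card - ((S + S).card : ℝ) ^ 2) →
  ∃ r : ZMod p, r ≠ 0 ∧
    c * b * (S.card : ℝ) ^ 2 ≤ (fa (aff r 0 S) + fa (aff r 0 S + aff r 0 S) / 2) ^ 2

/-- The elementary bounds on `k`, `N`, `E`. -/
def S_NE : Prop := S_E3 → S_E5 → ∀ (p : ℕ) [Fact p.Prime] (S : Finset (ZMod p)), Hyp S →
  2 * (S.card : ℝ) - 1 ≤ (S + S).card ∧ ((S + S).card : ℝ) ≤ 3 * S.card - 4 ∧
  35 * (S.card : ℝ) < p ∧ (S.card : ℝ) ^ 4 ≤ en S S * (S + S).card ∧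
  en S S ≤ (S.card : ℝ) ^ 3

def S_FA : Prop := S_MAX → S_MH → S_FX → S_NE → S_E3 → S_E5 → S_E8 → S_E9 → S_E10 → S_E11 →
  S_R3 → S_R4 → S_TA → S_LA → S_PA0 → S_PA1 →
  ∀ (p : ℕ) [Fact p.Prime] (S : Finset (ZMod p)), Hyp S → ¬ Concl S → Ext S → 17 ≤ S.card →
    Freq S 13251 6810 (-2082) 16841 6990

def S_FB : Prop := S_MAX → S_MH → S_FX → S_NE → S_E3 → S_E5 → S_E7 → S_E9 → S_E10 → S_E11 →
  S_R3 → S_R4 → S_TB → S_LB1 → S_PB0 → S_PB1 →
  ∀ (p : ℕ) [Fact p.Prime] (S : Finset (ZMod p)), Hyp S → ¬ Concl S → 8 ≤ S.card →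
    S.card ≤ 16 → Freq S 12242 (-9512) (-792) 15366 5691

def S_FC : Prop := S_FX → S_NE → S_E3 → S_E5 → S_E7 → S_E11 → S_TB → S_LB2 → S_PC0 →
  ∀ (p : ℕ) [Fact p.Prime] (S : Finset (ZMod p)), Hyp S → ¬ Concl S → 3 ≤ S.card →
    S.card ≤ 7 → Freq S 13090 (-3396) 0 0 0

/-! ## Averaging over the offset -/

/-- Interpolation of the cosine. -/
def S_INT : Prop := ∀ d κ x s : ℝ, 0 < d → d < Real.pi → d ≤ κ * Real.sin d → 0 ≤ s → s ≤ 1 →
  Real.cos (x + s * d) ≤ (1 - s) * max (Real.cos x) (κ * Real.cos x) +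
    s * max (Real.cos (x + d)) (κ * Real.cos (x + d))

/-- The average of a step function over one step. -/
def S_STEP1 : Prop := ∀ (n : ℕ) (f : ℕ → ℝ), 1 ≤ n → ∀ y : ℝ, ∃ (i : ℕ) (s : ℝ) (z : ℤ), i < n ∧
  0 ≤ s ∧ s ≤ 1 ∧ (n : ℝ) * y = i + 1 / 2 + s + n * z ∧
  IntervalIntegrable (fun u : ℝ => f ⌊(n : ℝ) * Int.fract (y - u)⌋₊) MeasureTheory.volume
    (-(1 / (2 * n))) (1 / (2 * n)) ∧
  ∫ u in (-(1 / (2 * (n : ℝ))))..(1 / (2 * n)), f ⌊(n : ℝ) * Int.fract (y - u)⌋₊ =
    ((1 - s) * f i + s * f ((i + 1) % n)) / n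

/-- The average of a step function over two steps. -/
def S_STEP2 : Prop := ∀ (n : ℕ) (f : ℕ → ℝ), 1 ≤ n → ∀ y : ℝ, ∃ (m : ℕ) (s : ℝ) (z : ℤ), m < n ∧
  0 ≤ s ∧ s ≤ 1 ∧ (n : ℝ) * y = m + s + n * z ∧
  IntervalIntegrable (fun u : ℝ => f ⌊(n : ℝ) * Int.fract (y - 2 * u)⌋₊) MeasureTheory.volume
    (-(1 / (2 * n))) (1 / (2 * n)) ∧
  ∫ u in (-(1 / (2 * (n : ℝ))))..(1 / (2 * n)), f ⌊(n : ℝ) * Int.fract (y - 2 * u)⌋₊ =
    ((1 - s) * ((f ((m + n - 1) % n) + f m) / 2) + s * ((f m + f ((m + 1) % n)) / 2)) / n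

/-- The averaging lemma. -/
def S_AVG : Prop := S_INT → S_STEP1 → S_STEP2 →
  ∀ (p : ℕ) [Fact p.Prime] (n a : ℕ) (κ l th : ℝ) (C D : ℕ → ℝ), 3 ≤ n →
  2 * Real.pi / n ≤ κ * Real.sin (2 * Real.pi / n) → 0 ≤ l →
  (∀ i < n, max (Real.cos (Real.pi * (2 * i + 1) / n)) (κ * Real.cos (Real.pi * (2 * i + 1) / n)) ≤
    C i) →
  (∀ m < n, 2 * l * max (Real.cos (Real.pi * (2 * m - a) / n))
    (κ * Real.cos (Real.pi * (2 * m - a) / n)) ≤ D ((m + n - 1) % n) + D m) →
  ∀ S T : Finset (ZMod p), ∃ u : ℝ,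
    ∑ x ∈ S, Real.cos (2 * Real.pi * ((x.val : ℝ) / p) - th) +
      l * ∑ x ∈ T, Real.cos (2 * Real.pi * ((x.val : ℝ) / p) - 2 * th - Real.pi * a / n) ≤
    ∑ i ∈ Finset.range n, C i * cnt n u S i + ∑ j ∈ Finset.range n, D j * cnt n (u + u) T j

/-- The phase; after a reflection it is in `[0, π]`. -/
def S_PH : Prop := ∀ (p : ℕ) [Fact p.Prime] (S : Finset (ZMod p)) (r : ZMod p), r ≠ 0 →
  ∃ r' : ZMod p, r' ≠ 0 ∧ ∃ th ps : ℝ, 0 ≤ ps ∧ ps ≤ Real.pi ∧
    fa (aff r' 0 S) = fa (aff r 0 S) ∧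
    fa (aff r' 0 S + aff r' 0 S) = fa (aff r 0 S + aff r 0 S) ∧
    ∑ x ∈ aff r' 0 S, Real.cos (2 * Real.pi * ((x.val : ℝ) / p) - th) = fa (aff r' 0 S) ∧
    ∀ ph : ℝ, ∑ x ∈ aff r' 0 S + aff r' 0 S,
        Real.cos (2 * Real.pi * ((x.val : ℝ) / p) - 2 * th - ph) =
      fa (aff r' 0 S + aff r' 0 S) * Real.cos (ps - ph)

/-! ## Tables -/

/-- Upper bounds for `10^8 cos (π j / 26)`, `0 ≤ j ≤ 52`. -/
def U26 : List ℤ := [100000000, 99270908, 97094202, 93501645, 88545623, 82298407, 74851095, 66312286, 56806495, 46472338, 35460509, 23931587, 12053689, 20, -12053648, -23931546, -35460468, -46472297, -56806454, -66312245, -74851054, -82298366, -88545582, -93501604, -97094161, -99270867, -99999980, -99270867, -97094161, -93501604, -88545582, -82298366, -74851054, -66312245, -56806454, -46472297, -35460468, -23931546, -12053648, 20, 12053689, 23931587, 35460509, 46472338, 56806495, 66312286, 74851095, 82298407, 88545623, 93501645, 97094202, 99270908, 100000000]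

/-- Upper bounds for `10^8 cos (π j / 18)`, `0 ≤ j ≤ 36`. -/
def U18 : List ℤ := [100000000, 98480796, 93969283, 86602561, 76604465, 64278781, 50000021, 34202035, 17364838, 21, -17364797, -34201994, -49999979, -64278740, -76604424, -86602520, -93969242, -98480755, -99999980, -98480755, -93969242, -86602520, -76604424, -64278740, -49999980, -34201994, -17364797, 20, 17364838, 34202035, 50000020, 64278781, 76604465, 86602561, 93969283, 98480796, 100000000]

def S_TR26 : Prop := ∀ j : ℕ, j ≤ 52 → 100000000 * Real.cos (Real.pi * j / 26) ≤ (U26.getD j 0 : ℝ)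

def S_TR18 : Prop := ∀ j : ℕ, j ≤ 36 → 100000000 * Real.cos (Real.pi * j / 18) ≤ (U18.getD j 0 : ℝ)

/-- The constants. -/
def S_KAP : Prop :=
  2 * Real.pi / 26 ≤ 1.0099 * Real.sin (2 * Real.pi / 26) ∧
  2 * Real.pi / 18 ≤ 1.0207 * Real.sin (2 * Real.pi / 18) ∧
  1 / 2 ≤ 0.515 * Real.cos (Real.pi * 2 / 26) ∧
  1 / 2 ≤ 0.5321 * Real.cos (Real.pi * 2 / 18) ∧
  1 / 2 ≤ 0.5774 * Real.cos (Real.pi * 3 / 18)

/-- Integer test of the table `C`. -/
def okC (n : ℕ) (κ : ℤ) (U C : List ℤ) : Prop := ∀ i < n,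
  10000 * U.getD (2 * i + 1) 0 ≤ 100000000 * C.getD i 0 ∧
  κ * U.getD (2 * i + 1) 0 ≤ 100000000 * C.getD i 0

/-- Integer test of the table `D`. -/
def okD (n a : ℕ) (κ l : ℤ) (U D : List ℤ) : Prop := ∀ m < n,
  2 * l * (10000 * U.getD (2 * (m : ℤ) - a).natAbs 0) ≤
    1000000000000 * (D.getD ((m + n - 1) % n) 0 + D.getD m 0) ∧
  2 * l * (κ * U.getD (2 * (m : ℤ) - a).natAbs 0) ≤
    1000000000000 * (D.getD ((m + n - 1) % n) 0 + D.getD m 0)

/-- The inequality between the functional and the Fourier coefficients in a sector. -/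
def Sector (P : Par) (a : ℕ) (h : ℝ) : Prop :=
  ∀ (p : ℕ) [Fact p.Prime] (S' : Finset (ZMod p)) (th ps : ℝ),
    |ps - Real.pi * a / P.n| ≤ h →
    ∑ x ∈ S', Real.cos (2 * Real.pi * ((x.val : ℝ) / p) - th) = fa S' →
    (∀ ph : ℝ, ∑ x ∈ S' + S', Real.cos (2 * Real.pi * ((x.val : ℝ) / p) - 2 * th - ph) =
      fa (S' + S') * Real.cos (ps - ph)) →
    ∃ u : ℝ, 10000 * (fa S' + fa (S' + S') / 2) ≤
      (P.Phi ⟨S'.card, cnt P.n u S', cnt P.n (u + u) (S' + S')⟩ : ℝ)

/-- From the tables to the functional inequality. -/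
def S_SEC : Prop := S_INT → S_STEP1 → S_STEP2 → S_AVG →
  ∀ (P : Par) (a : ℕ) (κ l : ℤ) (h : ℝ) (U : List ℤ), 3 ≤ P.n → a ≤ P.n → 10000 ≤ κ → 0 ≤ l →
  (∀ j : ℕ, j ≤ 2 * P.n → 100000000 * Real.cos (Real.pi * j / P.n) ≤ (U.getD j 0 : ℝ)) →
  2 * Real.pi / P.n ≤ (κ / 10000 : ℝ) * Real.sin (2 * Real.pi / P.n) →
  0 ≤ h → h ≤ Real.pi → 1 / 2 ≤ (l / 10000 : ℝ) * Real.cos h →
  okC P.n κ U P.C → okD P.n a κ l U P.D → Sector P a h

/-- From the functional inequality to `Good`. -/
def S_FUN : Prop := S_R2 → S_R3 → S_R4 → S_R5 → S_R6 → S_R7 →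
  ∀ (P : Par) (p : ℕ) [Fact p.Prime] (S : Finset (ZMod p)) (r : ZMod p) (u : ℝ) (V : ℝ),
    4 ≤ P.n → Even P.n → Hyp S → ¬ Concl S → r ≠ 0 →
    V ≤ (P.Phi ⟨S.card, cnt P.n u (aff r 0 S), cnt P.n (u + u) (aff r 0 S + aff r 0 S)⟩ : ℝ) →
    (P.A0 : ℝ) * S.card ≤ V + P.C0 →
    (∀ u' : ℝ, (P.A1 : ℝ) * S.card + P.B1 * (half u' (aff r 0 S)).card ≤ V + P.C1) →
    Good P ⟨S.card, cnt P.n u (aff r 0 S), cnt P.n (u + u) (aff r 0 S + aff r 0 S)⟩

end Pool.Agent.Fr

end

section

/-!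
# Item T2: a structured set `B` with small `S + B` rectifies `S`
-/

set_option autoImplicit false

open scoped Pointwise

namespace Pool.Agent.Fr

open Pool.Agent.LS Pool.Agent.Fou

theorem th_T2 : S_T2 := by
  classical
  intro p _ S B hS hAP hBk hsum hfour
  have hpp : p.Prime := Fact.out
  have : NeZero p := ⟨hpp.ne_zero⟩
  have hk3 := hS.three
  have hk35 := hS.small
  have hdb := hS.doub
  -- `|B| ≥ 2`
  have hB2 : 2 ≤ B.card := by
    by_contra hcon
    have h1 : B.card = 1 := by omega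
    obtain ⟨b, hb⟩ := Finset.card_eq_one.mp h1
    have h2 : (S + B).card = S.card := by rw [hb, Finset.card_add_singleton]
    omega
  obtain ⟨a, d, hAP⟩ := hAP
  have hd : d ≠ 0 := by
    rintro rfl
    have h0 : B ⊆ {a} := by
      intro x hx
      obtain ⟨i, _, e⟩ := hAP x hx
      rw [Finset.mem_singleton, e]; simp
    have := Finset.card_le_card h0
    simp at this
    omega
  set u := d⁻¹ with hu
  have hu0 : u ≠ 0 := inv_ne_zero hd
  set B1 := aff u (-(u * a)) B with hB1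
  set S1 := aff u 0 S with hS1
  have hB1i : ∀ x ∈ B1, ∃ i : ℕ, i < 2 * B.card - 2 ∧ x = (i : ZMod p) := by
    intro x hx
    obtain ⟨s, hs, rfl⟩ := Finset.mem_image.mp hx
    obtain ⟨i, hi, e⟩ := hAP s hs
    refine ⟨i, hi, ?_⟩
    rw [e]
    have : u * d = 1 := inv_mul_cancel₀ hd
    linear_combination (i : ZMod p) * this
  have cB1 : B1.card = B.card := card_aff hu0 B
  have cBS : (B1 + S1).card = (S + B).card := by
    rw [card_aff_add hu0, add_comm B S]
  obtain ⟨z, hz⟩ := gap (p := p) (A := B1) (S := S1) (w := 2 * B.card - 2) (N := 4)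
    (by omega) hB1i (by omega) (by rw [cBS, cB1]; exact hfour)
  set S2 := aff 1 (-z) S1 with hS2
  have hback : InAPp S2 ((S + S).card + 1 - S.card) → InAPp S ((S + S).card + 1 - S.card) := by
    intro h
    exact InAPp.of_aff hu0 (InAPp.of_aff one_ne_zero h)
  apply hback
  set X := S2.image (fun s => ((s.val : ℕ) : ℤ)) with hX
  set C := B1.image (fun s => ((s.val : ℕ) : ℤ)) with hC
  have injv : Function.Injective (fun s : ZMod p => ((s.val : ℕ) : ℤ)) := by
    intro x y h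
    simp only [Nat.cast_inj] at h
    exact ZMod.val_injective p h
  have cS2 : S2.card = S.card := by
    rw [hS2, card_aff one_ne_zero, hS1, card_aff hu0]
  have cX : X.card = S.card := by
    rw [hX, Finset.card_image_of_injective _ injv, cS2]
  have cC : C.card = B.card := by
    rw [hC, Finset.card_image_of_injective _ injv, cB1]
  have castI : ∀ T : Finset (ZMod p), castF p (T.image (fun s => ((s.val : ℕ) : ℤ))) = T := by
    intro T
    ext s
    rw [mem_castF]
    constructor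
    · rintro ⟨x, hx, rfl⟩
      obtain ⟨t, ht, rfl⟩ := Finset.mem_image.mp hx
      simpa using ht
    · intro hs
      exact ⟨_, Finset.mem_image_of_mem _ hs, by simp⟩
  have castX : castF p X = S2 := castI S2
  have castC : castF p C = B1 := castI B1
  have c2 : (S2 + S2).card = (S + S).card := by
    rw [hS2, card_aff_add one_ne_zero, hS1, card_aff_add hu0]
  have cBS2 : (B1 + S2).card = (S + B).card := by
    have h1 : aff 1 0 B1 = B1 := by simp [aff]
    calc (B1 + S2).card = (aff 1 0 B1 + aff 1 (-z) S1).card := by rw [h1]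
      _ = (B1 + S1).card := card_aff_add one_ne_zero _ _
      _ = _ := cBS
  -- all elements of `X` are `≥ w`
  have hXw : ∀ x ∈ X, 2 * (B.card : ℤ) - 2 ≤ x ∧ x < p := by
    intro x hx
    obtain ⟨s, hs, rfl⟩ := Finset.mem_image.mp hx
    constructor
    · by_contra hcon
      push Not at hcon
      have hlt : s.val < 2 * B.card - 2 := by omega
      obtain ⟨s1, hs1, e⟩ := Finset.mem_image.mp hs
      apply hz s.val hlt
      have : z + ((s.val : ℕ) : ZMod p) = s1 := by
        rw [ZMod.natCast_zmod_val, ← e]; ring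
      rw [this]; exact hs1
    · exact_mod_cast ZMod.val_lt s
  have hCw : ∀ x ∈ C, 0 ≤ x ∧ x < 2 * (B.card : ℤ) - 2 := by
    intro x hx
    obtain ⟨s, hs, rfl⟩ := Finset.mem_image.mp hx
    obtain ⟨i, hi, rfl⟩ := hB1i s hs
    rw [ZMod.val_natCast, Nat.mod_eq_of_lt (by omega)]
    constructor
    · positivity
    · omega
  have hCd : ∀ a ∈ C, ∀ a' ∈ C, a - a' < 2 * (B.card : ℤ) - 2 := by
    intro a ha a' ha'
    have h1 := hCw a ha
    have h2 := hCw a' ha'
    linarith
  have hw : (0 : ℤ) < 2 * (B.card : ℤ) - 2 := by omega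
  have hCX : (C + X).card = (S + B).card := by
    rw [← cBS2, ← castC, ← castX]
    symm
    apply card_castF_add (D := 2 * (B.card : ℤ) - 3) (E := p - (2 * (B.card : ℤ) - 2))
    · intro x hx y hy
      have := hCd x hx y hy
      omega
    · intro x hx y hy
      have h1 := hXw x hx
      have h2 := hXw y hy
      linarith
    · linarith
  have hCne : C.Nonempty := by rw [← Finset.card_pos, cC]; omega
  have hXne : X.Nonempty := by rw [← Finset.card_pos, cX]; omega
  -- connectedness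
  have hconn : Conn (2 * (B.card : ℤ) - 2) X := by
    by_contra hcon
    obtain ⟨Y, Z, hY, hZ, hU, hdis, hYZ, _⟩ := split hcon
    have h1 := card_split (A := C) hCd hYZ (X := X)
      (by rw [← hU]; exact Finset.subset_union_left)
      (by rw [← hU]; exact Finset.subset_union_right)
    have h2 := card_add_ge hCne hY
    have h3 := card_add_ge hCne hZ
    have h4 : Y.card + Z.card = X.card := by
      rw [← hU, Finset.card_union_of_disjoint hdis]
    omega
  set m := X.min' hXne with hm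
  set M := X.max' hXne with hM
  have hshort : ¬ (m + (2 * (2 : ℕ) + 1) * (2 * (B.card : ℤ) - 2) ≤ M) := by
    intro h
    have := chain' hw hCd hconn (X.min'_mem hXne) (X.max'_mem hXne) 2 h
    omega
  push Not at hshort
  push_cast at hshort
  have key := rectify (S := S2) (X := X) (u := 1) (v := 0) one_ne_zero
    (by rw [castX]; simp [aff]) (D := M - m) ?_ ?_ (by omega) (by rw [c2, cS2]; exact hdb)
  · rw [c2, cS2] at key
    exact key
  · intro x hx y hy
    have h1 := X.le_max' x hx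
    have h2 := X.min'_le y hy
    linarith
  · have h1 : (B.card : ℤ) ≤ S.card := by exact_mod_cast hBk
    have h2 : (35 : ℤ) * S.card < p := by exact_mod_cast hk35
    linarith

end Pool.Agent.Fr

end

section

set_option autoImplicit false

namespace Pool.Agent.Fr

theorem th_TA : S_TA := by
  intro b B y hB hy h
  by_cases hb : b ≤ 0
  · nlinarith [sq_nonneg (B + y / 2)]
  push Not at hb
  have hB4 : 0 < B ^ 4 := by positivity
  have hy0 : 0 < y := by
    rcases hy.lt_or_eq with h1 | h1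
    · exact h1
    · rw [← h1] at h; nlinarith
  have hy2 : 0 < y ^ 2 := by positivity
  have hkey : 0 ≤ y ^ 4 / 4 + y ^ 3 * B - 4.924 * y ^ 2 * B ^ 2 + 7.7012 * B ^ 4 := by
    have e : y ^ 4 / 4 + y ^ 3 * B - 4.924 * y ^ 2 * B ^ 2 + 7.7012 * B ^ 4 =
        (y - 1.97825 * B) ^ 2 * (y ^ 2 / 4 + (1 + 1.97825 / 2) * (y * B) + 1.96755 * B ^ 2) +
        (-4.924 - (1.96755 - 2 * 1.97825 * (1 + 1.97825 / 2) + 1.97825 ^ 2 / 4)) * (y ^ 2 * B ^ 2) +
        (2 * 1.97825 * 1.96755 - 1.97825 ^ 2 * (1 + 1.97825 / 2)) * (y * B ^ 3) +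
        (7.7012 - 1.97825 ^ 2 * 1.96755) * B ^ 4 := by ring
    rw [e]
    have c1 : (0 : ℝ) ≤ -4.924 - (1.96755 - 2 * 1.97825 * (1 + 1.97825 / 2) + 1.97825 ^ 2 / 4) := by
      norm_num
    have c2 : (0 : ℝ) ≤ 2 * 1.97825 * 1.96755 - 1.97825 ^ 2 * (1 + 1.97825 / 2) := by norm_num
    have c3 : (0 : ℝ) ≤ 7.7012 - 1.97825 ^ 2 * 1.96755 := by norm_num
    positivity
  have h2 : y ^ 2 * (5.924 * b) ≤ y ^ 2 * (B + y / 2) ^ 2 := by nlinarith
  exact le_of_mul_le_mul_left h2 hy2

end Pool.Agent.Fr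

end

section

set_option autoImplicit false

namespace Pool.Agent.Fr

theorem th_TB : S_TB := by
  intro b B y hB hy h
  by_cases hb : b ≤ 0
  · nlinarith [sq_nonneg (B + y / 2)]
  push Not at hb
  have hB4 : 0 < B ^ 4 := by positivity
  have hy0 : 0 < y := by
    rcases hy.lt_or_eq with h1 | h1
    · exact h1
    · rw [← h1] at h; nlinarith
  have hy2 : 0 < y ^ 2 := by positivity
  have hkey : 0 ≤ y ^ 4 / 4 + y ^ 3 * B - 4.219 * y ^ 2 * B ^ 2 + 5.219 * B ^ 4 := by
    have e : y ^ 4 / 4 + y ^ 3 * B - 4.219 * y ^ 2 * B ^ 2 + 5.219 * B ^ 4 =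
        (y - 1.76926 * B) ^ 2 * (y ^ 2 / 4 + (1 + 1.76926 / 2) * (y * B) + 1.66721 * B ^ 2) +
        (-4.219 - (1.66721 - 2 * 1.76926 * (1 + 1.76926 / 2) + 1.76926 ^ 2 / 4)) * (y ^ 2 * B ^ 2) +
        (2 * 1.76926 * 1.66721 - 1.76926 ^ 2 * (1 + 1.76926 / 2)) * (y * B ^ 3) +
        (5.219 - 1.76926 ^ 2 * 1.66721) * B ^ 4 := by ring
    rw [e]
    have c1 : (0 : ℝ) ≤ -4.219 - (1.66721 - 2 * 1.76926 * (1 + 1.76926 / 2) + 1.76926 ^ 2 / 4) := by
      norm_num
    have c2 : (0 : ℝ) ≤ 2 * 1.76926 * 1.66721 - 1.76926 ^ 2 * (1 + 1.76926 / 2) := by norm_num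
    have c3 : (0 : ℝ) ≤ 5.219 - 1.76926 ^ 2 * 1.66721 := by norm_num
    positivity
  have h2 : y ^ 2 * (5.219 * b) ≤ y ^ 2 * (B + y / 2) ^ 2 := by nlinarith
  exact le_of_mul_le_mul_left h2 hy2

end Pool.Agent.Fr

end

section

/-!
# From a certificate to the exclusion of all configurations
-/

set_option autoImplicit false

namespace Pool.Agent.Fr.Cert

/-- Soundness of the checker. -/
def Soundness : Prop := ∀ (T : Tab) (P : Par) (c : Conf), TabOK T P → Good P c →
    ∀ (cs : List ℕ) (st : List St), run T cs st = true →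
      ∀ a ∈ st, ¬ Inv P c a.N a.E a.H a.L a.ka a.kb

theorem tree (hs : Soundness) {T : Tab} {P : Par} {cs : List ℕ} {ka kb : ℕ} (hT : TabOK T P)
    (hr : run T cs (root ka kb) = true) :
    ∀ c : Conf, Good P c → ka ≤ c.k → (kb = 0 ∨ c.k ≤ kb) → False := by
  intro c hc h1 h2
  refine hs T P c hT hc cs _ hr ⟨0, 0, 0, 0, ka, kb⟩ (by simp [root]) ⟨?_, ?_, ?_, ?_, h1, h2⟩
  · intro i _ h
    simp at h
  · intro j h
    simp at h
  · intro d h
    simp at h
  · intro d h
    simp at h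

end Pool.Agent.Fr.Cert

end

section

/-!
# The extremal lemma X1
-/

set_option autoImplicit false

open scoped Pointwise

namespace Pool.Agent.Fr

open Pool.Agent.LS Pool.Agent.Fou

theorem x1_inter_union {p : ℕ} [Fact p.Prime] (S B : Finset (ZMod p)) (x : ZMod p) :
    (S + (B ∩ (B.image (fun b => b + x)))).card + (S + (B ∪ (B.image (fun b => b + x)))).card ≤
      2 * (S + B).card := by
  classical
  set T := S + B with hT
  set T' := T.image (fun b => b + x) with hT'
  have hST' : S + B.image (fun b => b + x) = T' := by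
    ext y
    simp only [hT', hT, Finset.mem_add, Finset.mem_image]
    constructor
    · rintro ⟨s, hs, c, ⟨b, hb, rfl⟩, rfl⟩
      exact ⟨s + b, ⟨s, hs, b, hb, rfl⟩, by ring⟩
    · rintro ⟨c, ⟨s, hs, b, hb, rfl⟩, rfl⟩
      exact ⟨s, hs, b + x, ⟨b, hb, rfl⟩, by ring⟩
  have hTT' : T'.card = T.card := Finset.card_image_of_injective _ (add_left_injective x)
  have h1 : S + (B ∩ (B.image (fun b => b + x))) ⊆ T ∩ T' := by
    apply Finset.subset_inter
    · exact Finset.add_subset_add_left Finset.inter_subset_left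
    · rw [← hST']
      exact Finset.add_subset_add_left Finset.inter_subset_right
  have h2 : S + (B ∪ (B.image (fun b => b + x))) = T ∪ T' := by
    rw [Finset.add_union, hST']
  have h3 := Finset.card_inter_add_card_union T T'
  have h4 := Finset.card_le_card h1
  rw [h2]
  omega

theorem x1_shift {p : ℕ} [Fact p.Prime] (B : Finset (ZMod p)) (x : ZMod p) (hx : x ≠ 0)
    (hB : B.Nonempty) (hBp : B.card < p) : ¬ B ⊆ B.image (fun b => b + x) := by
  classical
  intro h
  have hcard : (B.image (fun b => b + x)).card = B.card :=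
    Finset.card_image_of_injective _ (add_left_injective x)
  have heq : B = B.image (fun b => b + x) := Finset.eq_of_subset_of_card_le h (by rw [hcard])
  obtain ⟨b, hb⟩ := hB
  have hn : ∀ n : ℕ, b + n * x ∈ B := by
    intro n
    induction n with
    | zero => simpa using hb
    | succ n ih =>
      rw [heq]
      refine Finset.mem_image.mpr ⟨b + n * x, ih, ?_⟩
      push_cast
      ring
  have huniv : B = Finset.univ := by
    ext y
    simp only [Finset.mem_univ, iff_true]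
    have := hn ((y - b) / x).val
    rw [ZMod.natCast_zmod_val, div_mul_cancel₀ _ hx] at this
    simpa using this
  rw [huniv, Finset.card_univ, ZMod.card] at hBp
  exact lt_irrefl _ hBp

theorem th_X1 : S_X1 := by
  intro p _ S hS hd
  classical
  obtain ⟨w, hw⟩ : ∃ w : Finset (ZMod p) → ℕ, ∀ B, w B = (S + B).card + 3 - S.card := ⟨_, fun _ => rfl⟩
  have hSne : S.Nonempty := by rw [← Finset.card_pos]; omega
  have hwS : ∀ B : Finset (ZMod p), B.Nonempty → w B + S.card = (S + B).card + 3 := by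
    intro B hB
    have : S.card ≤ (S + B).card := Finset.card_le_card_add_right hB
    rw [hw]; omega
  set F : Finset (Finset (ZMod p)) :=
    (Finset.univ : Finset (Finset (ZMod p))).filter (fun B => B.Nonempty ∧ B.card ≤ S.card) with hF
  have hFm : ∀ B, B ∈ F ↔ B.Nonempty ∧ B.card ≤ S.card := by intro B; simp [hF]
  have hFne : F.Nonempty := ⟨S, by rw [hFm]; exact ⟨hSne, le_rfl⟩⟩
  obtain ⟨B1, hB1F, hB1⟩ := F.exists_min_image (fun B => (w B : ℚ) / B.card) hFne
  set G := F.filter (fun B => (w B : ℚ) / B.card = (w B1 : ℚ) / B1.card) with hG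
  obtain ⟨B0, hB0G, hB0⟩ := G.exists_min_image (fun B => B.card)
    ⟨B1, by rw [hG, Finset.mem_filter]; exact ⟨hB1F, rfl⟩⟩
  rw [hG, Finset.mem_filter] at hB0G
  obtain ⟨hB0F, hB0eq⟩ := hB0G
  obtain ⟨hB0ne, hB0le⟩ := (hFm B0).1 hB0F
  have hB0pos : 0 < B0.card := hB0ne.card_pos
  have hmin : ∀ B : Finset (ZMod p), B.Nonempty → B.card ≤ S.card →
      w B0 * B.card ≤ w B * B0.card := by
    intro B hB hBS
    have h := hB1 B ((hFm B).2 ⟨hB, hBS⟩)
    rw [← hB0eq] at h
    have hBpos : (0 : ℚ) < B.card := by exact_mod_cast hB.card_pos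
    have hB0pos' : (0 : ℚ) < B0.card := by exact_mod_cast hB0pos
    rw [div_le_div_iff₀ hB0pos' hBpos] at h
    exact_mod_cast h
  have hleast : ∀ B : Finset (ZMod p), B.Nonempty → B.card ≤ S.card →
      w B * B0.card = w B0 * B.card → B0.card ≤ B.card := by
    intro B hB hBS h
    apply hB0 B
    rw [hG, Finset.mem_filter]
    refine ⟨(hFm B).2 ⟨hB, hBS⟩, ?_⟩
    rw [← hB0eq]
    have hBpos : (0 : ℚ) < B.card := by exact_mod_cast hB.card_pos
    have hB0pos' : (0 : ℚ) < B0.card := by exact_mod_cast hB0pos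
    rw [div_eq_div_iff hBpos.ne' hB0pos'.ne']
    exact_mod_cast h
  refine ⟨B0, hB0ne, hB0le, ?_, fun B hB hBS => by simpa only [hw] using hmin B hB hBS⟩
  by_contra hcon
  push Not at hcon
  have hSp : S.card ≤ p := by
    have := Finset.card_le_univ S
    rwa [ZMod.card] at this
  -- `|B0| ≥ 2`
  have hB02 : 2 ≤ B0.card := by
    by_contra h1
    have h1' : B0.card = 1 := by omega
    have h2 := hmin S hSne le_rfl
    have h3 := hwS S hSne
    have h4 := hwS B0 hB0ne
    have h5 : S.card ≤ (S + B0).card := Finset.card_le_card_add_right hB0ne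
    rw [h1'] at h2
    have h6 : 3 ≤ w B0 := by omega
    have h7 : 3 * S.card ≤ w B0 * S.card := Nat.mul_le_mul_right _ h6
    omega
  obtain ⟨b, hb, b', hb', hbb⟩ := Finset.one_lt_card.1 (show 1 < B0.card by omega)
  set x := b - b' with hx
  have hx0 : x ≠ 0 := sub_ne_zero.mpr hbb
  have hIU := x1_inter_union S B0 x
  set B' := B0.image (fun b => b + x) with hB'
  have hcardB' : B'.card = B0.card := Finset.card_image_of_injective _ (add_left_injective x)
  have hIUc := Finset.card_inter_add_card_union B0 B'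
  have hIne : (B0 ∩ B').Nonempty := by
    refine ⟨b, Finset.mem_inter.mpr ⟨hb, ?_⟩⟩
    rw [hB']
    exact Finset.mem_image.mpr ⟨b', hb', by rw [hx]; ring⟩
  have hUne : (B0 ∪ B').Nonempty := ⟨b, Finset.mem_union_left _ hb⟩
  have hIpos := hIne.card_pos
  have hIlt : (B0 ∩ B').card < B0.card := by
    apply Finset.card_lt_card
    refine ⟨Finset.inter_subset_left, fun h => ?_⟩
    exact x1_shift B0 x hx0 hB0ne (by omega) (h.trans Finset.inter_subset_right)
  have hUle : (B0 ∪ B').card ≤ S.card := by omega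
  have hI := hmin _ hIne (by omega)
  have hU := hmin _ hUne hUle
  have hwI := hwS _ hIne
  have hwU := hwS _ hUne
  have hw0 := hwS _ hB0ne
  have hsum : w (B0 ∩ B') + w (B0 ∪ B') ≤ 2 * w B0 := by omega
  have key : w (B0 ∩ B') * B0.card = w B0 * (B0 ∩ B').card := by
    apply le_antisymm _ hI
    have e1 : (w (B0 ∩ B') + w (B0 ∪ B')) * B0.card ≤ 2 * w B0 * B0.card :=
      Nat.mul_le_mul_right _ hsum
    have e2 : w B0 * ((B0 ∩ B').card + (B0 ∪ B').card) = w B0 * (2 * B0.card) := by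
      rw [hIUc, hcardB']; ring
    nlinarith
  have := hleast _ hIne (by omega) key
  omega

end Pool.Agent.Fr

end

section

/-!
# Item AVG: the averaging lemma
-/

set_option autoImplicit false

open scoped Pointwise

namespace Pool.Agent.Fr

open Pool.Agent.LS Pool.Agent.Fou

theorem AVG_cell_lt {p : ℕ} [Fact p.Prime] (n : ℕ) (hn : 0 < n) (u : ℝ) (x : ZMod p) :
    cellR n u x < n := by
  unfold cellR
  have hnR : (0 : ℝ) < n := by exact_mod_cast hn
  rw [Nat.floor_lt (mul_nonneg hnR.le (Int.fract_nonneg _))]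
  have := Int.fract_lt_one ((x.val : ℝ) / (p : ℝ) - u)
  nlinarith

theorem AVG_fib {p : ℕ} [Fact p.Prime] (n : ℕ) (hn : 0 < n) (u : ℝ) (S : Finset (ZMod p))
    (C : ℕ → ℝ) : ∑ x ∈ S, C (cellR n u x) = ∑ i ∈ Finset.range n, C i * cnt n u S i := by
  rw [← Finset.sum_fiberwise_of_maps_to (g := fun x => cellR n u x) (t := Finset.range n)
    (fun x _ => Finset.mem_range.mpr (AVG_cell_lt n hn u x))]
  refine Finset.sum_congr rfl fun i _ => ?_
  have h1 : ∑ x ∈ S with cellR n u x = i, C (cellR n u x) =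
      ∑ _x ∈ S with cellR n u _x = i, C i := by
    refine Finset.sum_congr rfl fun x hx => ?_
    rw [(Finset.mem_filter.mp hx).2]
  rw [h1, Finset.sum_const, nsmul_eq_mul, mul_comm]
  rfl

theorem th_AVG : S_AVG := by
  intro hINT hST1 hST2 p _ n a κ l th C D hn hκ hl hC hD S T
  have hn0 : 0 < n := by omega
  have hnR : (0 : ℝ) < n := by exact_mod_cast hn0
  have hn3 : (3 : ℝ) ≤ n := by exact_mod_cast hn
  have hpi := Real.pi_pos
  have hd0 : 0 < 2 * Real.pi / n := by positivity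
  have hd1 : 2 * Real.pi / n < Real.pi := by
    rw [div_lt_iff₀ hnR]
    nlinarith
  -- the points of `S`
  have key1 : ∀ x : ZMod p,
      IntervalIntegrable (fun u : ℝ => C ⌊(n : ℝ) *
        Int.fract (((x.val : ℝ) / p - th / (2 * Real.pi)) - u)⌋₊) MeasureTheory.volume
        (-(1 / (2 * n))) (1 / (2 * n)) ∧
      Real.cos (2 * Real.pi * ((x.val : ℝ) / p) - th) ≤
        n * ∫ u in (-(1 / (2 * (n : ℝ))))..(1 / (2 * n)),
          C ⌊(n : ℝ) * Int.fract (((x.val : ℝ) / p - th / (2 * Real.pi)) - u)⌋₊ := by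
    intro x
    obtain ⟨i, s, z, hi, hs0, hs1, hy, hint, hval⟩ :=
      hST1 n C (by omega) ((x.val : ℝ) / p - th / (2 * Real.pi))
    refine ⟨hint, ?_⟩
    rw [hval]
    have hcos : Real.cos (2 * Real.pi * ((x.val : ℝ) / p) - th) =
        Real.cos (Real.pi * (2 * i + 1) / n + s * (2 * Real.pi / n)) := by
      have h1 : 2 * Real.pi * ((x.val : ℝ) / p) - th =
          Real.pi * (2 * i + 1) / n + s * (2 * Real.pi / n) + z * (2 * Real.pi) := by
        have h2 : 2 * Real.pi * ((x.val : ℝ) / p) - th =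
            2 * Real.pi * ((x.val : ℝ) / p - th / (2 * Real.pi)) := by
          rw [mul_sub, mul_div_cancel₀ th (by positivity)]
        rw [h2]
        have h3 : ((x.val : ℝ) / p - th / (2 * Real.pi)) = (i + 1 / 2 + s + n * z) / n := by
          rw [eq_div_iff hnR.ne', mul_comm, hy]
        rw [h3]
        field_simp
      rw [h1, Real.cos_add_int_mul_two_pi]
    rw [hcos]
    have hI := hINT (2 * Real.pi / n) κ (Real.pi * (2 * i + 1) / n) s hd0 hd1 hκ hs0 hs1
    have hC1 := hC i hi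
    have hC2 : max (Real.cos (Real.pi * (2 * i + 1) / n + 2 * Real.pi / n))
        (κ * Real.cos (Real.pi * (2 * i + 1) / n + 2 * Real.pi / n)) ≤ C ((i + 1) % n) := by
      rcases Nat.lt_or_ge (i + 1) n with h | h
      · rw [Nat.mod_eq_of_lt h]
        have h4 := hC (i + 1) h
        have e : Real.pi * (2 * ((i + 1 : ℕ) : ℝ) + 1) / n =
            Real.pi * (2 * i + 1) / n + 2 * Real.pi / n := by
          push_cast
          ring
        rwa [e] at h4
      · have hin : i + 1 = n := by omega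
        rw [hin, Nat.mod_self]
        have h4 := hC 0 hn0
        have e : Real.cos (Real.pi * (2 * (i : ℝ) + 1) / n + 2 * Real.pi / n) =
            Real.cos (Real.pi * (2 * ((0 : ℕ) : ℝ) + 1) / n) := by
          have h5 : Real.pi * (2 * (i : ℝ) + 1) / n + 2 * Real.pi / n =
              Real.pi * (2 * ((0 : ℕ) : ℝ) + 1) / n + 2 * Real.pi := by
            have hi' : (i : ℝ) = n - 1 := by
              have h6 : ((i + 1 : ℕ) : ℝ) = n := by rw [hin]
              push_cast at h6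
              linarith
            rw [hi']
            field_simp
            push_cast
            ring
          rw [h5, Real.cos_add_two_pi]
        rw [e]
        exact h4
    have h7 : (n : ℝ) * (((1 - s) * C i + s * C ((i + 1) % n)) / n) =
        (1 - s) * C i + s * C ((i + 1) % n) := by
      field_simp
    rw [h7]
    have a1 := mul_le_mul_of_nonneg_left hC1 (by linarith : 0 ≤ 1 - s)
    have a2 := mul_le_mul_of_nonneg_left hC2 hs0
    linarith
  -- the points of `T`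
  have key2 : ∀ x : ZMod p,
      IntervalIntegrable (fun u : ℝ => D ⌊(n : ℝ) *
        Int.fract (((x.val : ℝ) / p - th / Real.pi) - 2 * u)⌋₊) MeasureTheory.volume
        (-(1 / (2 * n))) (1 / (2 * n)) ∧
      l * Real.cos (2 * Real.pi * ((x.val : ℝ) / p) - 2 * th - Real.pi * a / n) ≤
        n * ∫ u in (-(1 / (2 * (n : ℝ))))..(1 / (2 * n)),
          D ⌊(n : ℝ) * Int.fract (((x.val : ℝ) / p - th / Real.pi) - 2 * u)⌋₊ := by
    intro x
    obtain ⟨m, s, z, hm, hs0, hs1, hy, hint, hval⟩ :=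
      hST2 n D (by omega) ((x.val : ℝ) / p - th / Real.pi)
    refine ⟨hint, ?_⟩
    rw [hval]
    have hcos : Real.cos (2 * Real.pi * ((x.val : ℝ) / p) - 2 * th - Real.pi * a / n) =
        Real.cos (Real.pi * (2 * m - a) / n + s * (2 * Real.pi / n)) := by
      have h1 : 2 * Real.pi * ((x.val : ℝ) / p) - 2 * th - Real.pi * a / n =
          Real.pi * (2 * m - a) / n + s * (2 * Real.pi / n) + z * (2 * Real.pi) := by
        have h2 : 2 * Real.pi * ((x.val : ℝ) / p) - 2 * th =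
            2 * Real.pi * ((x.val : ℝ) / p - th / Real.pi) := by
          rw [mul_sub]
          congr 1
          field_simp
        rw [h2]
        have h3 : ((x.val : ℝ) / p - th / Real.pi) = (m + s + n * z) / n := by
          rw [eq_div_iff hnR.ne', mul_comm, hy]
        rw [h3]
        field_simp
        ring
      rw [h1, Real.cos_add_int_mul_two_pi]
    rw [hcos]
    have hI := hINT (2 * Real.pi / n) κ (Real.pi * (2 * m - a) / n) s hd0 hd1 hκ hs0 hs1
    have hI' := mul_le_mul_of_nonneg_left hI hl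
    have hD1 := hD m hm
    have hD2 : 2 * l * max (Real.cos (Real.pi * (2 * m - a) / n + 2 * Real.pi / n))
        (κ * Real.cos (Real.pi * (2 * m - a) / n + 2 * Real.pi / n)) ≤
        D m + D ((m + 1) % n) := by
      rcases Nat.lt_or_ge (m + 1) n with h | h
      · rw [Nat.mod_eq_of_lt h]
        have h4 := hD (m + 1) h
        have e : Real.pi * (2 * ((m + 1 : ℕ) : ℝ) - a) / n =
            Real.pi * (2 * m - a) / n + 2 * Real.pi / n := by
          push_cast
          ring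
        have e2 : (m + 1 + n - 1) % n = m := by
          rw [show m + 1 + n - 1 = m + n by omega, Nat.add_mod_right, Nat.mod_eq_of_lt hm]
        rwa [e, e2] at h4
      · have hin : m + 1 = n := by omega
        rw [hin, Nat.mod_self]
        have h4 := hD 0 hn0
        have e : Real.cos (Real.pi * (2 * (m : ℝ) - a) / n + 2 * Real.pi / n) =
            Real.cos (Real.pi * (2 * ((0 : ℕ) : ℝ) - a) / n) := by
          have h5 : Real.pi * (2 * (m : ℝ) - a) / n + 2 * Real.pi / n =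
              Real.pi * (2 * ((0 : ℕ) : ℝ) - a) / n + 2 * Real.pi := by
            have hi' : (m : ℝ) = n - 1 := by
              have h6 : ((m + 1 : ℕ) : ℝ) = n := by rw [hin]
              push_cast at h6
              linarith
            rw [hi']
            field_simp
            push_cast
            ring
          rw [h5, Real.cos_add_two_pi]
        rw [e]
        have e2 : (0 + n - 1) % n = m := by
          rw [show 0 + n - 1 = m by omega, Nat.mod_eq_of_lt hm]
        rw [e2] at h4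
        exact h4
    have h7 : (n : ℝ) * (((1 - s) * ((D ((m + n - 1) % n) + D m) / 2) +
        s * ((D m + D ((m + 1) % n)) / 2)) / n) =
        (1 - s) * ((D ((m + n - 1) % n) + D m) / 2) + s * ((D m + D ((m + 1) % n)) / 2) := by
      field_simp
    rw [h7]
    have a1 := mul_le_mul_of_nonneg_left hD1 (by linarith : 0 ≤ 1 - s)
    have a2 := mul_le_mul_of_nonneg_left hD2 hs0
    linarith
  -- the average
  set L : ℝ := ∑ x ∈ S, Real.cos (2 * Real.pi * ((x.val : ℝ) / p) - th) +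
      l * ∑ x ∈ T, Real.cos (2 * Real.pi * ((x.val : ℝ) / p) - 2 * th - Real.pi * a / n) with hL
  set G : ℝ → ℝ := fun u => ∑ x ∈ S, C ⌊(n : ℝ) *
        Int.fract (((x.val : ℝ) / p - th / (2 * Real.pi)) - u)⌋₊ +
      ∑ x ∈ T, D ⌊(n : ℝ) * Int.fract (((x.val : ℝ) / p - th / Real.pi) - 2 * u)⌋₊ with hG
  have hi1 : IntervalIntegrable (fun u : ℝ => ∑ x ∈ S, C ⌊(n : ℝ) *
        Int.fract (((x.val : ℝ) / p - th / (2 * Real.pi)) - u)⌋₊) MeasureTheory.volume
        (-(1 / (2 * n))) (1 / (2 * n)) := by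
    have := IntervalIntegrable.sum (μ := MeasureTheory.volume) S
      (f := fun (x : ZMod p) (u : ℝ) => C ⌊(n : ℝ) *
        Int.fract (((x.val : ℝ) / p - th / (2 * Real.pi)) - u)⌋₊)
      (a := (-(1 / (2 * (n : ℝ))))) (b := (1 / (2 * (n : ℝ)))) (fun x _ => (key1 x).1)
    refine this.congr (fun u _ => ?_)
    simp
  have hi2 : IntervalIntegrable (fun u : ℝ => ∑ x ∈ T, D ⌊(n : ℝ) *
        Int.fract (((x.val : ℝ) / p - th / Real.pi) - 2 * u)⌋₊) MeasureTheory.volume
        (-(1 / (2 * n))) (1 / (2 * n)) := by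
    have := IntervalIntegrable.sum (μ := MeasureTheory.volume) T
      (f := fun (x : ZMod p) (u : ℝ) => D ⌊(n : ℝ) *
        Int.fract (((x.val : ℝ) / p - th / Real.pi) - 2 * u)⌋₊)
      (a := (-(1 / (2 * (n : ℝ))))) (b := (1 / (2 * (n : ℝ)))) (fun x _ => (key2 x).1)
    refine this.congr (fun u _ => ?_)
    simp
  have hGi : IntervalIntegrable G MeasureTheory.volume (-(1 / (2 * n))) (1 / (2 * n)) :=
    hi1.add hi2
  have hGint : L ≤ n * ∫ u in (-(1 / (2 * (n : ℝ))))..(1 / (2 * n)), G u := by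
    have h1 : ∫ u in (-(1 / (2 * (n : ℝ))))..(1 / (2 * n)), G u =
        ∑ x ∈ S, (∫ u in (-(1 / (2 * (n : ℝ))))..(1 / (2 * n)),
          C ⌊(n : ℝ) * Int.fract (((x.val : ℝ) / p - th / (2 * Real.pi)) - u)⌋₊) +
        ∑ x ∈ T, (∫ u in (-(1 / (2 * (n : ℝ))))..(1 / (2 * n)),
          D ⌊(n : ℝ) * Int.fract (((x.val : ℝ) / p - th / Real.pi) - 2 * u)⌋₊) := by
      rw [hG, intervalIntegral.integral_add hi1 hi2, intervalIntegral.integral_finsetSum
        (fun x _ => (key1 x).1), intervalIntegral.integral_finsetSum (fun x _ => (key2 x).1)]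
    rw [h1, mul_add, Finset.mul_sum, Finset.mul_sum, hL, Finset.mul_sum]
    exact add_le_add (Finset.sum_le_sum fun x _ => (key1 x).2)
      (Finset.sum_le_sum fun x _ => (key2 x).2)
  have hex : ∃ u' : ℝ, L ≤ G u' := by
    by_contra hcon
    push Not at hcon
    have hpos : 0 < ∫ u in (-(1 / (2 * (n : ℝ))))..(1 / (2 * n)), (L - G u) := by
      refine intervalIntegral.intervalIntegral_pos_of_pos ?_ (fun u => sub_pos.mpr (hcon u)) ?_
      · exact (intervalIntegrable_const).sub hGi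
      · have : 0 < 1 / (2 * (n : ℝ)) := by positivity
        linarith
    rw [intervalIntegral.integral_sub intervalIntegrable_const hGi,
      intervalIntegral.integral_const] at hpos
    have h2 : (1 / (2 * (n : ℝ)) - -(1 / (2 * (n : ℝ)))) • L = L / n := by
      rw [smul_eq_mul]
      field_simp
      ring
    rw [h2] at hpos
    have h3 : (n : ℝ) * ∫ u in (-(1 / (2 * (n : ℝ))))..(1 / (2 * n)), G u < n * (L / n) :=
      mul_lt_mul_of_pos_left (by linarith) hnR
    rw [mul_div_cancel₀ L hnR.ne'] at h3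
    linarith
  obtain ⟨u', hu'⟩ := hex
  refine ⟨th / (2 * Real.pi) + u', ?_⟩
  rw [← AVG_fib n hn0, ← AVG_fib n hn0]
  refine hu'.trans (le_of_eq ?_)
  have e1 : ∑ x ∈ S, C ⌊(n : ℝ) * Int.fract (((x.val : ℝ) / p - th / (2 * Real.pi)) - u')⌋₊ =
      ∑ x ∈ S, C (cellR n (th / (2 * Real.pi) + u') x) := by
    refine Finset.sum_congr rfl fun x _ => ?_
    unfold cellR
    rw [sub_sub]
  have e2 : ∑ x ∈ T, D ⌊(n : ℝ) * Int.fract (((x.val : ℝ) / p - th / Real.pi) - 2 * u')⌋₊ =
      ∑ x ∈ T, D (cellR n (th / (2 * Real.pi) + u' + (th / (2 * Real.pi) + u')) x) := by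
    refine Finset.sum_congr rfl fun x _ => ?_
    unfold cellR
    have e : (x.val : ℝ) / p - th / Real.pi - 2 * u' =
        (x.val : ℝ) / p - (th / (2 * Real.pi) + u' + (th / (2 * Real.pi) + u')) := by
      field_simp
      ring
    rw [e]
  rw [← e1, ← e2]

end Pool.Agent.Fr

end

section

/-!
# Items E7 and E8: lower bounds for the energy (captain's version)
-/

set_option autoImplicit false

open scoped Pointwise

namespace Pool.Agent.Fr

open Pool.Agent.LS Pool.Agent.Fou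

theorem e78_zero {p : ℕ} [Fact p.Prime] (A : Finset (ZMod p)) : rp A 0 = A.card := by
  rw [th_E1 p A 0]
  unfold sh
  rw [Finset.filter_true_of_mem]
  intro a ha
  simpa using ha

theorem e78 {p : ℕ} [Fact p.Prime] (A T : Finset (ZMod p)) (c lam : ℝ)
    (h : ∀ x : ZMod p, (sh A x).Nonempty → c + lam * (sh A x).card ≤ rp T x) :
    (A.card : ℝ) * T.card + c * ((A.card : ℝ) ^ 2 - A.card) +
      lam * (en A A - (A.card : ℝ) ^ 2) ≤ en A T := by
  classical
  have key : ∀ x ∈ Finset.univ.erase (0 : ZMod p),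
      c * (rp A x : ℝ) + lam * ((rp A x : ℝ) * rp A x) ≤ (rp A x : ℝ) * rp T x := by
    intro x _
    rcases (sh A x).eq_empty_or_nonempty with he | hne
    · have : rp A x = 0 := by rw [th_E1 p A x, he, Finset.card_empty]
      rw [this]
      simp
    · have h1 := h x hne
      rw [← th_E1 p A x] at h1
      have h2 : (0 : ℝ) ≤ rp A x := Nat.cast_nonneg _
      nlinarith [mul_le_mul_of_nonneg_left h1 h2]
  have hs := Finset.sum_le_sum key
  have e1 : ∑ x ∈ Finset.univ.erase (0 : ZMod p), (rp A x : ℝ) * rp T x =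
      en A T - (A.card : ℝ) * T.card := by
    have := Finset.add_sum_erase Finset.univ (fun x : ZMod p => (rp A x : ℝ) * rp T x)
      (Finset.mem_univ 0)
    unfold en
    rw [← this]
    simp only [e78_zero]
    ring
  have e2 : ∑ x ∈ Finset.univ.erase (0 : ZMod p), (rp A x : ℝ) * rp A x =
      en A A - (A.card : ℝ) ^ 2 := by
    have := Finset.add_sum_erase Finset.univ (fun x : ZMod p => (rp A x : ℝ) * rp A x)
      (Finset.mem_univ 0)
    unfold en
    rw [← this]
    simp only [e78_zero]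
    ring
  have e3 : ∑ x ∈ Finset.univ.erase (0 : ZMod p), (rp A x : ℝ) = (A.card : ℝ) ^ 2 - A.card := by
    have h1 := Finset.add_sum_erase Finset.univ (fun x : ZMod p => (rp A x : ℝ))
      (Finset.mem_univ 0)
    have h2 : ∑ x : ZMod p, (rp A x : ℝ) = (A.card : ℝ) ^ 2 := by
      have := E5_sum A
      have h3 : ((∑ x : ZMod p, rp A x : ℕ) : ℝ) = ((A.card ^ 2 : ℕ) : ℝ) := by rw [this]
      push_cast at h3
      exact h3
    simp only [e78_zero] at h1
    linarith
  rw [Finset.sum_add_distrib, ← Finset.mul_sum, ← Finset.mul_sum, e1, e2, e3] at hs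
  linarith

theorem th_E7' : S_E7 := by
  intro p _ A B hA hB hp
  have hpr : p.Prime := Fact.out
  have h := e78 A (A + B) ((B.card : ℝ) - 1) 1 (fun x hx => by
    have h1 := (th_E6 p A B x).2
    have h2 := ZMod.cauchy_davenport hpr hx hB
    have h3 : (sh A x).card ≤ A.card := Finset.card_le_card (Finset.filter_subset _ _)
    have h4 : (sh A x).card + B.card ≤ rp (A + B) x + 1 := by
      have hx1 : 1 ≤ (sh A x).card := Finset.card_pos.2 hx
      have hb1 : 1 ≤ B.card := Finset.card_pos.2 hB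
      omega
    have h5 : ((sh A x).card : ℝ) + B.card ≤ rp (A + B) x + 1 := by exact_mod_cast h4
    linarith)
  linarith

theorem th_E8' : S_E8 := by
  intro p _ S B lam hS hB hBS
  have h := e78 B (S + B) ((S.card : ℝ) - 3) lam (fun x hx => by
    have h1 := (th_E6 p S B x).1
    have h3 : (sh B x).card ≤ B.card := Finset.card_le_card (Finset.filter_subset _ _)
    have h4 := hS (sh B x) hx (h3.trans hBS)
    have h5 : ((S + sh B x).card : ℝ) ≤ rp (S + B) x := by exact_mod_cast h1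
    linarith)
  linarith

end Pool.Agent.Fr

end
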