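import Pool.Agent.Work.MP_54ef3e_nt.Bd.B02
import Pool.Agent.Work.MP_54ef3e_nt.Bd.B03
import Pool.Agent.Work.MP_54ef3e_nt.Bd.B05
import Pool.Agent.Work.MP_54ef3e_nt.Bd.B04

/-! Bundle of small proof modules (one section per former module). -/

section

/-!
# MP_54ef3e_nt: lower bound of the energy from a large piece (helper86)
-/

set_option autoImplicit false

open scoped Pointwise

namespace Pool.Agent.Fr

open Pool.Agent.LS Pool.Agent.Fou

theorem e9_sumq (p : ℕ) [Fact p.Prime] (S C : Finset (ZMod p)) :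
    ∑ x : ZMod p, ((C.filter (fun a => a - x ∈ S)).card : ℝ) = (C.card : ℝ) * S.card := by
  have h1 : ∀ x : ZMod p, ((C.filter (fun a => a - x ∈ S)).card : ℝ) =
      ∑ a ∈ C, if a - x ∈ S then (1 : ℝ) else 0 := by
    intro x
    rw [Finset.sum_boole]
  have h2 : ∀ a ∈ C, ∑ x : ZMod p, (if a - x ∈ S then (1 : ℝ) else 0) = (S.card : ℝ) := by
    intro a _
    rw [← Equiv.sum_comp (Equiv.subLeft a)]
    simp
  calc ∑ x : ZMod p, ((C.filter (fun a => a - x ∈ S)).card : ℝ)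
      = ∑ x : ZMod p, ∑ a ∈ C, if a - x ∈ S then (1 : ℝ) else 0 :=
        Finset.sum_congr rfl (fun x _ => h1 x)
    _ = ∑ a ∈ C, ∑ x : ZMod p, if a - x ∈ S then (1 : ℝ) else 0 := Finset.sum_comm
    _ = ∑ a ∈ C, (S.card : ℝ) := Finset.sum_congr rfl h2
    _ = (C.card : ℝ) * S.card := by simp

theorem th_E9 : S_E9 := by
  intro p _ S A hAS hS hA
  have hAk : (A.card : ℝ) ≤ S.card := by exact_mod_cast Finset.card_le_card hAS
  have hk0 : (0 : ℝ) ≤ S.card := by positivity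
  obtain ⟨k, hk⟩ : ∃ k : ℝ, k = S.card := ⟨_, rfl⟩
  obtain ⟨T, hT⟩ : ∃ T, T = S + S := ⟨_, rfl⟩
  obtain ⟨C, hC⟩ : ∃ C, C = S \ A := ⟨_, rfl⟩
  obtain ⟨c, hc⟩ : ∃ c : ℝ, c = C.card := ⟨_, rfl⟩
  have hcc : c = k - A.card := by
    have h := Finset.card_sdiff_add_card_eq_card hAS
    rw [hc, hC, hk]
    have h' : ((S \ A).card : ℝ) + A.card = S.card := by exact_mod_cast h
    linarith
  have hc0 : 0 ≤ c := by rw [hcc, hk]; linarith
  -- the three functions
  let n : ZMod p → ℝ := fun x => (rp S x : ℝ)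
  let m : ZMod p → ℝ := fun x => (((sh S x) ∩ A).card : ℝ)
  let q : ZMod p → ℝ := fun x => ((C.filter (fun a => a - x ∈ S)).card : ℝ)
  have hn : ∀ x, n x = (sh S x).card := fun x => by
    change ((rp S x : ℕ) : ℝ) = _
    rw [th_E1 p S x]
  have hnmq : ∀ x, n x = m x + q x := by
    intro x
    rw [hn x]
    have h1 : (sh S x) \ A = C.filter (fun a => a - x ∈ S) := by
      rw [hC]
      ext a
      simp only [sh, Finset.mem_sdiff, Finset.mem_filter]
      tauto
    have h2 := Finset.card_inter_add_card_sdiff (sh S x) A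
    rw [h1] at h2
    change ((sh S x).card : ℝ) = (((sh S x) ∩ A).card : ℝ) +
      ((C.filter (fun a => a - x ∈ S)).card : ℝ)
    exact_mod_cast h2.symm
  have hn0 : ∀ x, 0 ≤ n x := fun x => by positivity
  have hm0 : ∀ x, 0 ≤ m x := fun x => by positivity
  have hq0 : ∀ x, 0 ≤ q x := fun x => by positivity
  have hqc : ∀ x, q x ≤ c := by
    intro x
    rw [hc]
    change (((C.filter (fun a => a - x ∈ S)).card : ℕ) : ℝ) ≤ (C.card : ℝ)
    exact_mod_cast Finset.card_filter_le C _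
  have hsumq : ∑ x, q x = c * k := by
    rw [hc, hk]; exact e9_sumq p S C
  have hsumn : ∑ x, n x = k ^ 2 := by
    have h1 := e9_sumq p S S
    have h2 : ∑ x, n x = ∑ x : ZMod p, ((S.filter (fun a => a - x ∈ S)).card : ℝ) :=
      Finset.sum_congr rfl (fun x _ => hn x)
    rw [h2, h1, hk]; ring
  have hsh0 : sh S (0 : ZMod p) = S := by
    unfold sh
    ext a
    simp
  have hn_0 : n 0 = k := by rw [hn 0, hsh0, hk]
  have hq_0 : q 0 = c := by
    have : C.filter (fun a => a - 0 ∈ S) = C := by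
      ext a
      simp only [Finset.mem_filter, sub_zero, hC, Finset.mem_sdiff]
      tauto
    change ((C.filter (fun a => a - 0 ∈ S)).card : ℝ) = c
    rw [this, hc]
  have hm_0 : m 0 = k - c := by
    have := hnmq 0
    linarith
  have hT_0 : (rp T 0 : ℝ) = T.card := by
    rw [th_E1 p T 0]
    have : sh T (0 : ZMod p) = T := by
      unfold sh
      ext a
      simp
    rw [this]
  -- the pointwise bound
  have hpt : ∀ x, n x * ((A.card : ℝ) - 3 + 2 * m x) ≤ n x * (rp T x : ℝ) := by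
    intro x
    by_cases hx : (sh S x).Nonempty
    · refine mul_le_mul_of_nonneg_left ?_ (hn0 x)
      have h1 : (S + sh S x).card ≤ rp T x := by
        rw [hT]; exact (th_E6 p S S x).1
      by_cases hxa : ((sh S x) ∩ A).Nonempty
      · have h2 := hA ((sh S x) ∩ A) Finset.inter_subset_right hxa
        have h3 : (A + (sh S x) ∩ A).card ≤ (S + sh S x).card :=
          Finset.card_le_card (Finset.add_subset_add hAS Finset.inter_subset_left)
        have h4 : A.card + 2 * ((sh S x) ∩ A).card ≤ rp T x + 3 := by omega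
        have h5 : (A.card : ℝ) + 2 * (((sh S x) ∩ A).card : ℝ) ≤ (rp T x : ℝ) + 3 := by
          exact_mod_cast h4
        change (A.card : ℝ) - 3 + 2 * (((sh S x) ∩ A).card : ℝ) ≤ (rp T x : ℝ)
        linarith
      · have h2 : m x = 0 := by
          have h3 : (sh S x) ∩ A = ∅ := Finset.not_nonempty_iff_eq_empty.1 hxa
          change (((sh S x) ∩ A).card : ℝ) = 0
          rw [h3]; simp
        have h3 : S.card ≤ (S + sh S x).card := Finset.card_le_card_add_right hx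
        have h4 : (S.card : ℝ) ≤ (rp T x : ℝ) := by exact_mod_cast h3.trans h1
        rw [h2]
        linarith
    · have h1 : n x = 0 := by
        rw [hn x, Finset.not_nonempty_iff_eq_empty.1 hx]; simp
      rw [h1]; simp
  -- the sums
  have henST : en S T = ∑ x, n x * (rp T x : ℝ) := rfl
  have henSS : en S S = ∑ x, n x * n x := rfl
  have hsplit : ∀ g : ZMod p → ℝ, ∑ x, g x = g 0 + ∑ x ∈ Finset.univ.erase (0 : ZMod p), g x :=
    fun g => (Finset.add_sum_erase _ g (Finset.mem_univ 0)).symm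
  have h1 : k * (T.card : ℝ) +
      (∑ x ∈ Finset.univ.erase (0 : ZMod p), n x * ((A.card : ℝ) - 3 + 2 * m x)) ≤ en S T := by
    rw [henST, hsplit]
    rw [hn_0, hT_0]
    exact add_le_add le_rfl (Finset.sum_le_sum (fun x _ => hpt x))
  have h2 : ∑ x ∈ Finset.univ.erase (0 : ZMod p), n x * ((A.card : ℝ) - 3 + 2 * m x) =
      ∑ x, n x * ((A.card : ℝ) - 3 + 2 * m x) - k * ((A.card : ℝ) - 3 + 2 * (k - c)) := by
    rw [hsplit (fun x => n x * ((A.card : ℝ) - 3 + 2 * m x)), hn_0, hm_0]; ring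
  have h3 : ∑ x, n x * ((A.card : ℝ) - 3 + 2 * m x) =
      ((A.card : ℝ) - 3) * k ^ 2 + 2 * (en S S - ∑ x, n x * q x) := by
    rw [henSS, ← hsumn, Finset.mul_sum, ← Finset.sum_sub_distrib, Finset.mul_sum,
      ← Finset.sum_add_distrib]
    refine Finset.sum_congr rfl (fun x _ => ?_)
    rw [hnmq x]; ring
  -- Cauchy-Schwarz
  have hen0 : 0 ≤ en S S := by
    rw [henSS]; exact Finset.sum_nonneg (fun x _ => mul_nonneg (hn0 x) (hn0 x))
  have hk0' : 0 ≤ k := by rw [hk]; exact hk0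
  have h4 : ∑ x, n x * q x ≤ c * Real.sqrt (k * en S S) := by
    have h5 : (∑ x, n x * q x) ^ 2 ≤ (∑ x, n x ^ 2) * ∑ x, q x ^ 2 :=
      Finset.sum_mul_sq_le_sq_mul_sq _ _ _
    have h6 : ∑ x, n x ^ 2 = en S S := by
      rw [henSS]; exact Finset.sum_congr rfl (fun x _ => by ring)
    have h7 : ∑ x, q x ^ 2 ≤ c * (c * k) := by
      rw [← hsumq, Finset.mul_sum]
      refine Finset.sum_le_sum (fun x _ => ?_)
      rw [sq]
      exact mul_le_mul_of_nonneg_right (hqc x) (hq0 x)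
    have h8 : (∑ x, n x * q x) ^ 2 ≤ (c * Real.sqrt (k * en S S)) ^ 2 := by
      rw [mul_pow, Real.sq_sqrt (mul_nonneg hk0' hen0)]
      rw [h6] at h5
      have := mul_le_mul_of_nonneg_left h7 hen0
      nlinarith
    exact abs_le_of_sq_le_sq' h8 (mul_nonneg hc0 (Real.sqrt_nonneg _)) |>.2
  rw [← hk, ← hT, ← hcc]
  rw [h2, h3] at h1
  have h9 : (A.card : ℝ) = k - c := by linarith
  nlinarith [h1, h4, h9]

end Pool.Agent.Fr

end

section

/-!
# MP_54ef3e_nt, item FA (helper27): the choice of the frequency for `k ≥ 17`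
-/

set_option autoImplicit false

open scoped Pointwise

namespace Pool.Agent.Fr

open Pool.Agent.LS Pool.Agent.Fou

theorem th_FA : S_FA := by
  intro hMAX hMH hFX hNE hE3 hE5 hE8 hE9 hE10 hE11 hR3 hR4 hTA hLA hPA0 hPA1 p _ S hS hC hExt h17
  obtain ⟨M, r₀, u₀, hr₀, hM, hmax⟩ := hMAX p S
  obtain ⟨hN1, hN2, hp, hEN, hEE⟩ := hNE hE3 hE5 p S hS
  have h17' : (17 : ℝ) ≤ (S.card : ℝ) := by exact_mod_cast h17
  have hk0 : (0 : ℝ) < (S.card : ℝ) := by linarith
  have hSne : S.Nonempty := Finset.card_pos.1 (by omega)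
  have he0 : (0 : ℝ) ≤ 1 / (S.card : ℝ) := by positivity
  have he1 : 17 * (1 / (S.card : ℝ)) ≤ 1 := by
    rw [mul_one_div, div_le_one hk0]; exact h17'
  have hmax' : ∀ (r' : ZMod p) (u : ℝ), r' ≠ 0 →
      ((half u (aff r' 0 S)).card : ℝ) ≤ (M : ℝ) := by
    intro r' u hr'
    exact_mod_cast hmax r' u hr'
  have hfa : ∀ r : ZMod p, 0 ≤ fa (aff r 0 S) + fa (aff r 0 S + aff r 0 S) / 2 := by
    intro r
    have h1 : 0 ≤ fa (aff r 0 S) := norm_nonneg _
    have h2 : 0 ≤ fa (aff r 0 S + aff r 0 S) := norm_nonneg _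
    linarith
  by_cases hcase : -0.2082 + 1.6841 * ((M : ℝ) / S.card) - 0.6990 * (1 / (S.card : ℝ)) ≤
      1.3251 - 0.6810 * (1 / (S.card : ℝ))
  · -- case (i)
    have hE8' := hE8 p S S (7 / 5) (by
      intro B' hB' hB'c
      have h := hExt B' hB' hB'c
      have h' : 5 * (S.card : ℝ) + 7 * (B'.card : ℝ) ≤ 5 * ((S + B').card : ℝ) + 15 := by
        exact_mod_cast h
      linarith) hSne le_rfl
    have hpos := hPA0 p S.card (S + S).card (en S S) (en S (S + S)) h17' hN1 hN2 hp hEN hEE hE8'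
    obtain ⟨r, hr, hrV⟩ := hFX hE11 p S 1.3 (0.2965 - 0.30 / (S.card : ℝ)) 5.924 hS
      (by
        have : 0.30 / (S.card : ℝ) = 0.30 * (1 / (S.card : ℝ)) := by ring
        rw [this]; linarith)
      (fun B y hB hy h => hTA _ B y hB hy h) hpos
    have hLA1 := hLA.1 (1 / (S.card : ℝ)) he0 he1
    have hc : (0.2965 - 0.30 / (S.card : ℝ)) = (0.2965 - 0.30 * (1 / (S.card : ℝ))) := by ring
    rw [hc] at hrV
    have h1 : ((1.3251 - 0.6810 * (1 / (S.card : ℝ))) * S.card) ^ 2 ≤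
        (fa (aff r 0 S) + fa (aff r 0 S + aff r 0 S) / 2) ^ 2 := by
      refine le_trans ?_ hrV
      rw [mul_pow]
      exact mul_le_mul_of_nonneg_right hLA1 (by positivity)
    have h2 : (1.3251 - 0.6810 * (1 / (S.card : ℝ))) * S.card ≤
        fa (aff r 0 S) + fa (aff r 0 S + aff r 0 S) / 2 := by
      exact le_of_sq_le_sq h1 (hfa r)
    have h3 : (1.3251 - 0.6810 * (1 / (S.card : ℝ))) * S.card = 1.3251 * S.card - 0.6810 := by
      field_simp
    have h4 : (-0.2082 + 1.6841 * ((M : ℝ) / S.card) - 0.6990 * (1 / (S.card : ℝ))) * S.card =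
        -0.2082 * S.card + 1.6841 * M - 0.6990 := by
      field_simp
    have h5 := mul_le_mul_of_nonneg_right hcase hk0.le
    rw [h3] at h2 h5
    rw [h4] at h5
    refine ⟨r, hr, by linarith, ?_⟩
    intro r' u hr'
    have h6 := hmax' r' u hr'
    linarith
  · -- case (ii)
    push Not at hcase
    have hm : 0.91 < (M : ℝ) / S.card := by linarith
    have hM' : 0.91 * (S.card : ℝ) < M := by
      rwa [lt_div_iff₀ hk0] at hm
    have h3M : 2 * S.card + 1 ≤ 3 * M := by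
      have : (2 * (S.card : ℝ) + 1) ≤ 3 * (M : ℝ) := by linarith
      exact_mod_cast this
    obtain ⟨hMk, hq⟩ := hMH hE9 hE10 hR3 hR4 p S hS hC r₀ u₀ M hr₀ hM h3M
    have hMk' : (M : ℝ) ≤ (S.card : ℝ) - 1 := by
      have : ((M : ℝ) + 1) ≤ (S.card : ℝ) := by exact_mod_cast hMk
      linarith
    have hm1 : (M : ℝ) / S.card ≤ 1 := by
      rw [div_le_one hk0]; linarith
    have hpos := hPA1 p S.card (S + S).card (en S S) (en S (S + S)) M h17' hN1 hN2 hp hEN hEE
      hM'.le hMk' hq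
    obtain ⟨r, hr, hrV⟩ := hFX hE11 p S 1.3
      (-0.4175 + 0.7855 * ((M : ℝ) / S.card) - 0.326 / (S.card : ℝ)) 5.924 hS
      (by
        have : 0.326 / (S.card : ℝ) = 0.326 * (1 / (S.card : ℝ)) := by ring
        rw [this]; linarith)
      (fun B y hB hy h => hTA _ B y hB hy h) hpos
    have hLA2 := hLA.2 (1 / (S.card : ℝ)) ((M : ℝ) / S.card) he0 he1 hm1 hcase
    have hc : (-0.4175 + 0.7855 * ((M : ℝ) / S.card) - 0.326 / (S.card : ℝ)) =
        (-0.4175 + 0.7855 * ((M : ℝ) / S.card) - 0.326 * (1 / (S.card : ℝ))) := by ring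
    rw [hc] at hrV
    have h1 : ((-0.2082 + 1.6841 * ((M : ℝ) / S.card) - 0.6990 * (1 / (S.card : ℝ))) * S.card) ^ 2 ≤
        (fa (aff r 0 S) + fa (aff r 0 S + aff r 0 S) / 2) ^ 2 := by
      refine le_trans ?_ hrV
      rw [mul_pow]
      exact mul_le_mul_of_nonneg_right hLA2 (by positivity)
    have h2 : (-0.2082 + 1.6841 * ((M : ℝ) / S.card) - 0.6990 * (1 / (S.card : ℝ))) * S.card ≤
        fa (aff r 0 S) + fa (aff r 0 S + aff r 0 S) / 2 := by
      exact le_of_sq_le_sq h1 (hfa r)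
    have h3 : (1.3251 - 0.6810 * (1 / (S.card : ℝ))) * S.card = 1.3251 * S.card - 0.6810 := by
      field_simp
    have h4 : (-0.2082 + 1.6841 * ((M : ℝ) / S.card) - 0.6990 * (1 / (S.card : ℝ))) * S.card =
        -0.2082 * S.card + 1.6841 * M - 0.6990 := by
      field_simp
    have h5 := mul_le_mul_of_nonneg_right hcase.le hk0.le
    rw [h4] at h2 h5
    rw [h3] at h5
    refine ⟨r, hr, by linarith, ?_⟩
    intro r' u hr'
    have h6 := hmax' r' u hr'
    linarith

end Pool.Agent.Fr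

end

section

/-!
# The full range 3k-4 theorem modulo a prime: choice of the frequency for `8 ≤ k ≤ 16`
-/

set_option autoImplicit false

open scoped Pointwise

namespace Pool.Agent.Fr

open Pool.Agent.LS Pool.Agent.Fou

theorem th_FB : S_FB := by
  intro hMAX hMH hFX hNE hE3 hE5 hE7 hE9 hE10 hE11 hR3 hR4 hTB hLB1 hPB0 hPB1 p _ S hS hC h8 h16
  obtain ⟨hN1, hN2, hp35, hEN, hEk⟩ := hNE hE3 hE5 p S hS
  obtain ⟨M, r₀, u₀, hr₀, hM, hmax⟩ := hMAX p S
  have hk8 : (8 : ℝ) ≤ S.card := by exact_mod_cast h8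
  have hk16 : (S.card : ℝ) ≤ 16 := by exact_mod_cast h16
  have hne : S.Nonempty := Finset.card_pos.1 (by omega)
  have h7 := hE7 p S S hne hne (by have := hS.small; omega)
  set k : ℝ := (S.card : ℝ) with hk
  set m : ℝ := (M : ℝ) / k with hm
  set e : ℝ := 1 / k with he
  have hkpos : 0 < k := by linarith
  have hek : e * k = 1 := by rw [he]; field_simp
  have hmk : m * k = M := by rw [hm]; field_simp
  have hepos : 0 < e := by rw [he]; positivity
  have he16 : 1 ≤ 16 * e := by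
    nlinarith
  have he8 : 8 * e ≤ 1 := by
    nlinarith
  have hMk : (M : ℝ) ≤ k := by
    rw [← hM, hk]
    have h1 : (half u₀ (aff r₀ 0 S)).card ≤ (aff r₀ 0 S).card := Finset.card_filter_le _ _
    have h2 : (aff r₀ 0 S).card ≤ S.card := Finset.card_image_le
    exact_mod_cast h1.trans h2
  have hm1 : m ≤ 1 := by
    rw [hm, div_le_one hkpos]
    exact hMk
  -- the end
  have hend : ∀ r : ZMod p, r ≠ 0 → ∀ W : ℝ, W = fa (aff r 0 S) + fa (aff r 0 S + aff r 0 S) / 2 →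
      (1.2242 + 0.9512 * e) * k ≤ W → (-0.0792 + 1.5366 * m - 0.5691 * e) * k ≤ W →
      Freq S 12242 (-9512) (-792) 15366 5691 := by
    intro r hr W hW h0 h1
    have h0' : 1.2242 * k + 0.9512 ≤ W := by
      have : (1.2242 + 0.9512 * e) * k = 1.2242 * k + 0.9512 * (e * k) := by ring
      rw [this, hek] at h0
      linarith
    have h1' : -0.0792 * k + 1.5366 * M - 0.5691 ≤ W := by
      have : (-0.0792 + 1.5366 * m - 0.5691 * e) * k =
        -0.0792 * k + 1.5366 * (m * k) - 0.5691 * (e * k) := by ring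
      rw [this, hek, hmk] at h1
      linarith
    refine ⟨r, hr, ?_, fun r' u hr' => ?_⟩
    · rw [← hW]
      linarith
    · have h2 : ((half u (aff r' 0 S)).card : ℝ) ≤ M := by exact_mod_cast hmax r' u hr'
      rw [← hW]
      linarith
  have hW0 : ∀ r : ZMod p, 0 ≤ fa (aff r 0 S) + fa (aff r 0 S + aff r 0 S) / 2 := by
    intro r
    have h1 : 0 ≤ fa (aff r 0 S) := norm_nonneg _
    have h2 : 0 ≤ fa (aff r 0 S + aff r 0 S) := norm_nonneg _
    positivity
  rcases le_or_gt (-0.0792 + 1.5366 * m - 0.5691 * e) (1.2242 + 0.9512 * e) with hcase | hcase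
  · -- case (i)
    have hb : (0 : ℝ) ≤ 0.286 + 0.479 / k := by positivity
    have hpos := hPB0 p k ((S + S).card) (en S S) (en S (S + S)) hk8 hk16 hN1 hN2 hp35 hEN hEk h7
    obtain ⟨r, hr, hrW⟩ := hFX hE11 p S 1 (0.286 + 0.479 / k) 5.219 hS hb
      (fun B y hB hy h => hTB _ B y hB hy h) hpos
    have h1 := hLB1.1 e he16 he8
    have h2 : (1.2242 + 0.9512 * e) * k ≤ fa (aff r 0 S) + fa (aff r 0 S + aff r 0 S) / 2 := by
      apply le_of_sq_le_sq _ (hW0 r)
      refine le_trans ?_ hrW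
      rw [mul_pow]
      have h3 : (0.286 + 0.479 / k : ℝ) = 0.286 + 0.479 * e := by rw [he]; ring
      rw [h3]
      exact mul_le_mul_of_nonneg_right h1 (sq_nonneg k)
    exact hend r hr _ rfl h2 ((mul_le_mul_of_nonneg_right hcase hkpos.le).trans h2)
  · -- case (ii)
    have hm91 : 0.91 ≤ m := by linarith
    have hM91 : 0.91 * k ≤ M := by
      rw [← hmk]
      exact mul_le_mul_of_nonneg_right hm91 hkpos.le
    have h3M : 2 * S.card + 1 ≤ 3 * M := by
      have h1 : (2 : ℝ) * k + 1 ≤ 3 * M := by linarith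
      rw [hk] at h1
      exact_mod_cast h1
    obtain ⟨hM1, hMq⟩ := hMH hE9 hE10 hR3 hR4 p S hS hC r₀ u₀ M hr₀ hM h3M
    have hM1' : (M : ℝ) ≤ k - 1 := by
      have h1 : ((M + 1 : ℕ) : ℝ) ≤ (S.card : ℝ) := by exact_mod_cast hM1
      push_cast at h1
      rw [hk]
      linarith
    have hpos := hPB1 p k ((S + S).card) (en S S) (en S (S + S)) M hk8 hk16 hN1 hN2 hp35 hEN hEk
      hM91 hM1' hMq
    have hb' : (-0.3905 + 0.7966 * ((M : ℝ) / k) - 0.295 / k : ℝ) =
        -0.3905 + 0.7966 * m - 0.295 * e := by rw [he, hm]; ring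
    have hb : (0 : ℝ) ≤ -0.3905 + 0.7966 * ((M : ℝ) / k) - 0.295 / k := by
      rw [hb']
      linarith
    obtain ⟨r, hr, hrW⟩ := hFX hE11 p S 1 _ 5.219 hS hb (fun B y hB hy h => hTB _ B y hB hy h) hpos
    have h1 := hLB1.2 e m he16 he8 hm1 hcase
    have h2 : (-0.0792 + 1.5366 * m - 0.5691 * e) * k ≤
        fa (aff r 0 S) + fa (aff r 0 S + aff r 0 S) / 2 := by
      apply le_of_sq_le_sq _ (hW0 r)
      refine le_trans ?_ hrW
      rw [mul_pow, hb']
      exact mul_le_mul_of_nonneg_right h1 (sq_nonneg k)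
    exact hend r hr _ rfl ((mul_le_mul_of_nonneg_right hcase.le hkpos.le).trans h2) h2

end Pool.Agent.Fr

end

section

/-!
# MP_54ef3e_nt, item FC (helper78): the frequency for `3 ≤ k ≤ 7`
-/

set_option autoImplicit false

open scoped Pointwise

namespace Pool.Agent.Fr

open Pool.Agent.LS Pool.Agent.Fou

theorem th_FC : S_FC := by
  intro hFX hNE hE3 hE5 hE7 hE11 hTB hLB2 hPC0 p _ S hH _ h3 h7
  obtain ⟨n1, n2, n3, n4, n5⟩ := hNE hE3 hE5 p S hH
  have hk3 : (3 : ℝ) ≤ S.card := by exact_mod_cast h3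
  have hk7 : (S.card : ℝ) ≤ 7 := by exact_mod_cast h7
  have hk0 : (0 : ℝ) < S.card := by linarith
  have hne : S.Nonempty := Finset.card_pos.1 (by omega)
  have hsm := hH.small
  have h7' := hE7 p S S hne hne (by omega)
  set k : ℝ := (S.card : ℝ) with hk
  have hpos := hPC0 (p : ℝ) k ((S + S).card : ℝ) (en S S) (en S (S + S)) hk3 hk7 n1 n2 n3 n4 n5 h7'
  have hb0 : 0 ≤ 0.3275 + 0.181 / k := by positivity
  obtain ⟨r, hr, hX⟩ := hFX hE11 p S 1 (0.3275 + 0.181 / k) 5.219 hH hb0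
    (fun B y hB hy h => hTB _ B y hB hy h) hpos
  have hL := hLB2 (1 / k) (by rw [mul_one_div, le_div_iff₀ hk0]; linarith)
    (by rw [mul_one_div, div_le_iff₀ hk0]; linarith)
  have hfa0 : 0 ≤ fa (aff r 0 S) + fa (aff r 0 S + aff r 0 S) / 2 := by
    have h1 : 0 ≤ fa (aff r 0 S) := norm_nonneg _
    have h2 : 0 ≤ fa (aff r 0 S + aff r 0 S) := norm_nonneg _
    linarith
  have hsq : (1.3090 * k + 0.3396) ^ 2 ≤
      (fa (aff r 0 S) + fa (aff r 0 S + aff r 0 S) / 2) ^ 2 := by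
    refine le_trans ?_ hX
    have e1 : (1.3090 * k + 0.3396) ^ 2 = (1.3090 + 0.3396 * (1 / k)) ^ 2 * k ^ 2 := by
      field_simp
    have e2 : 5.219 * (0.3275 + 0.181 / k) * k ^ 2 = 5.219 * (0.3275 + 0.181 * (1 / k)) * k ^ 2 := by
      rw [mul_one_div]
    rw [e1, e2]
    exact mul_le_mul_of_nonneg_right hL (sq_nonneg k)
  have hle : 1.3090 * k + 0.3396 ≤ fa (aff r 0 S) + fa (aff r 0 S + aff r 0 S) / 2 :=
    le_of_sq_le_sq hsq hfa0
  refine ⟨r, hr, by linarith, fun r' u _ => ?_⟩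
  simp only [zero_mul, add_zero]
  positivity

end Pool.Agent.Fr

end

section

/-!
# From the functional inequality to `Good`
-/

set_option autoImplicit false

open scoped Pointwise

namespace Pool.Agent.Fr

open Pool.Agent.LS Pool.Agent.Fou

theorem th_FUN : S_FUN := by
  intro hR2 hR3 hR4 hR5 hR6 hR7 P p _ S r u V hn hev hS hnot hr hV h0 h1
  have hcard : (aff r 0 S).card = S.card := card_aff hr S
  have hadd : aff r 0 S + aff r 0 S = aff r 0 (S + S) := by rw [aff_add, add_zero]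
  have hcard2 : (aff r 0 S + aff r 0 S).card = (S + S).card := by rw [hadd, card_aff hr]
  have hS' : Hyp (aff r 0 S) := ⟨by rw [hcard]; exact hS.three, by rw [hcard]; exact hS.small,
    by rw [hcard, hcard2]; exact hS.doub⟩
  have hnot' : ¬ Concl (aff r 0 S) := by
    intro h
    apply hnot
    unfold Concl at h ⊢
    rw [hcard, hcard2] at h
    exact h.of_aff hr
  have hG := hR7 hR2 hR3 hR4 hR5 p P.n u hn hev (aff r 0 S) hS' hnot'
  rw [hcard] at hG
  refine ⟨hG.mass, hG.sum, hG.cd, hG.tile, hG.pair, hG.rect, ?_, ?_⟩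
  · have h : ((P.A0 * (S.card : ℤ) : ℤ) : ℝ) ≤ ((P.Phi ⟨S.card, cnt P.n u (aff r 0 S),
        cnt P.n (u + u) (aff r 0 S + aff r 0 S)⟩ + P.C0 : ℤ) : ℝ) := by
      push_cast
      linarith
    exact_mod_cast h
  · intro x
    have hw : win P.n (cnt P.n u (aff r 0 S)) x (P.n / 2) =
        (half (u + ((x % P.n : ℕ) : ℝ) / P.n) (aff r 0 S)).card := by
      rw [← hR5 p P.n x (P.n / 2) u (by omega) (Nat.div_le_self _ _) (aff r 0 S),
        hR6 p P.n (x % P.n) u (by omega) hev (Nat.mod_lt _ (by omega)) (aff r 0 S)]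
    have h2 := h1 (u + ((x % P.n : ℕ) : ℝ) / P.n)
    have h : ((P.A1 * (S.card : ℤ) + P.B1 * ((win P.n (cnt P.n u (aff r 0 S)) x (P.n / 2) : ℕ) : ℤ) :
        ℤ) : ℝ) ≤ ((P.Phi ⟨S.card, cnt P.n u (aff r 0 S),
        cnt P.n (u + u) (aff r 0 S + aff r 0 S)⟩ + P.C1 : ℤ) : ℝ) := by
      rw [hw]
      push_cast
      linarith
    exact_mod_cast h

end Pool.Agent.Fr

end

section

/-!
# MP_54ef3e_nt, item FX: the frequency (helper61)
-/

set_option autoImplicit false

open scoped Pointwise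

namespace Pool.Agent.Fr

open Pool.Agent.LS Pool.Agent.Fou

theorem th_FX : S_FX := by
  intro hE11 p _ S g b c hS hb hloc hG
  have hk : (0 : ℝ) < S.card := by
    have := hS.three
    exact_mod_cast (by omega : 0 < S.card)
  have hne : S.Nonempty := Finset.card_pos.1 (by have := hS.three; omega)
  have hlt : S.card < p := by have := hS.small; omega
  obtain ⟨r, hr, hpos, hineq⟩ := exists_freq (S := S) hne hlt (α₁ := 1) (α₂ := 0) (α₃ := -g)
    (α₄ := b * (S.card : ℝ) ^ 2) (c := 0) (by positivity) (by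
      unfold en at hG
      linarith)
  refine ⟨r, hr, ?_⟩
  have e1 : fa (aff r 0 S) = ‖ft S r‖ := by
    unfold fa
    rw [(hE11 p r S hr).1]
  have e2 : fa (aff r 0 S + aff r 0 S) = ‖ft (S + S) r‖ := by
    unfold fa
    rw [(hE11 p r S hr).2, (hE11 p r (S + S) hr).1]
  rw [e1, e2]
  set x : ℝ := ‖ft S r‖ with hx
  set y : ℝ := ‖ft (S + S) r‖ with hy
  have hX : Complex.normSq (ft S r) = x ^ 2 := Complex.normSq_eq_norm_sq _
  have hY : Complex.normSq (ft (S + S) r) = y ^ 2 := Complex.normSq_eq_norm_sq _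
  rw [hX] at hpos
  rw [hX, hY] at hineq
  have hx0 : 0 < x := by
    rcases (norm_nonneg (ft S r)).eq_or_lt with h | h
    · exfalso
      have h1 : x = 0 := h.symm
      rw [h1] at hpos
      norm_num at hpos
    · exact h
  have hy0 : 0 ≤ y := norm_nonneg _
  have h1 := hloc (x / S.card) (y / S.card) (by positivity) (by positivity) (by
    rw [div_pow, div_pow, div_pow]
    have h2 : g * x ^ 4 ≤ y ^ 2 * (x ^ 2 - b * (S.card : ℝ) ^ 2) := by nlinarith
    have h3 : y ^ 2 / (S.card : ℝ) ^ 2 * (x ^ 2 / (S.card : ℝ) ^ 2 - b) =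
        (y ^ 2 * (x ^ 2 - b * (S.card : ℝ) ^ 2)) / (S.card : ℝ) ^ 4 := by
      field_simp
    have h4 : g * (x ^ 4 / (S.card : ℝ) ^ 4) = (g * x ^ 4) / (S.card : ℝ) ^ 4 := by ring
    rw [h3, h4]
    exact div_le_div_of_nonneg_right h2 (by positivity))
  have h5 : (x / S.card + y / S.card / 2) ^ 2 * (S.card : ℝ) ^ 2 = (x + y / 2) ^ 2 := by
    field_simp
  calc c * b * (S.card : ℝ) ^ 2 ≤ (x / S.card + y / S.card / 2) ^ 2 * (S.card : ℝ) ^ 2 :=
        mul_le_mul_of_nonneg_right h1 (by positivity)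
    _ = (x + y / 2) ^ 2 := h5

end Pool.Agent.Fr

end

section

set_option autoImplicit false

namespace Pool.Agent.Fr

open Real

theorem int_weight {w α κ c : ℝ} (h1 : w ≤ α) (h2 : α ≤ κ * w) (hw : 0 ≤ w) :
    α * c ≤ w * max c (κ * c) := by
  rcases le_total 0 c with hc | hc
  · calc α * c ≤ κ * w * c := mul_le_mul_of_nonneg_right h2 hc
      _ = w * (κ * c) := by ring
      _ ≤ w * max c (κ * c) := mul_le_mul_of_nonneg_left (le_max_right _ _) hw
  · calc α * c ≤ w * c := mul_le_mul_of_nonpos_right h1 hc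
      _ ≤ w * max c (κ * c) := mul_le_mul_of_nonneg_left (le_max_left _ _) hw

theorem int_sin {d κ s : ℝ} (hd : 0 < d) (hd2 : d < π) (hκ : d ≤ κ * sin d) (hs : 0 ≤ s)
    (hs1 : s ≤ 1) : s ≤ sin (s * d) / sin d ∧ sin (s * d) / sin d ≤ κ * s := by
  have hsd : 0 < sin d := sin_pos_of_pos_of_lt_pi hd hd2
  constructor
  · rw [le_div_iff₀ hsd]
    have h := strictConcaveOn_sin_Icc.concaveOn.2
      (show (0 : ℝ) ∈ Set.Icc 0 π from ⟨le_rfl, pi_pos.le⟩)
      (show d ∈ Set.Icc 0 π from ⟨hd.le, hd2.le⟩)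
      (show 0 ≤ 1 - s by linarith) hs (by ring)
    simpa using h
  · rw [div_le_iff₀ hsd]
    calc sin (s * d) ≤ s * d := sin_le (by positivity)
      _ ≤ s * (κ * sin d) := mul_le_mul_of_nonneg_left hκ hs
      _ = κ * s * sin d := by ring

theorem th_INT : S_INT := by
  intro d κ x s hd hd2 hκ hs hs1
  have hsd : 0 < sin d := sin_pos_of_pos_of_lt_pi hd hd2
  obtain ⟨a1, a2⟩ := int_sin hd hd2 hκ (s := 1 - s) (by linarith) (by linarith)
  obtain ⟨b1, b2⟩ := int_sin hd hd2 hκ hs hs1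
  have e : cos (x + s * d) = sin ((1 - s) * d) / sin d * cos x + sin (s * d) / sin d * cos (x + d) := by
    have e1 : sin ((1 - s) * d) = sin d * cos (s * d) - cos d * sin (s * d) := by
      rw [← sin_sub]; ring_nf
    rw [e1, cos_add, cos_add]
    field_simp
    ring
  rw [e]
  exact add_le_add (int_weight a1 a2 (by linarith)) (int_weight b1 b2 hs)

end Pool.Agent.Fr

end

section

set_option autoImplicit false

namespace Pool.Agent.Fr

theorem KAP_cos_tay (x : ℝ) (h0 : 0 ≤ x) (h1 : x ≤ 1) :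
    |Real.cos x - (1 - x ^ 2 / 2 + x ^ 4 / 24 - x ^ 6 / 720 + x ^ 8 / 40320)| ≤
      x ^ 10 * (11 / 36288000) := by
  have hb := Complex.exp_bound (x := (x : ℂ) * Complex.I)
    (by simpa [abs_of_nonneg h0] using h1) (n := 10) (by norm_num)
  have hs : ∑ m ∈ Finset.range 10, ((x : ℂ) * Complex.I) ^ m / (m.factorial : ℂ) =
      ((1 - x ^ 2 / 2 + x ^ 4 / 24 - x ^ 6 / 720 + x ^ 8 / 40320 : ℝ) : ℂ) +
      ((x - x ^ 3 / 6 + x ^ 5 / 120 - x ^ 7 / 5040 + x ^ 9 / 362880 : ℝ) : ℂ) * Complex.I := by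
    have hI : Complex.I ^ 2 = -1 := Complex.I_sq
    simp only [Finset.sum_range_succ, Finset.sum_range_zero, Nat.factorial]
    push_cast
    linear_combination (x ^ 2 / 2 + x ^ 3 * Complex.I / 6 + x ^ 4 * (Complex.I ^ 2 - 1) / 24 +
      x ^ 5 * Complex.I * (Complex.I ^ 2 - 1) / 120
      + x ^ 6 * (Complex.I ^ 4 - Complex.I ^ 2 + 1) / 720 +
      x ^ 7 * Complex.I * (Complex.I ^ 4 - Complex.I ^ 2 + 1) / 5040
      + x ^ 8 * (Complex.I ^ 6 - Complex.I ^ 4 + Complex.I ^ 2 - 1) / 40320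
      + x ^ 9 * Complex.I * (Complex.I ^ 6 - Complex.I ^ 4 + Complex.I ^ 2 - 1) / 362880) * hI
  rw [hs] at hb
  have hr := Complex.abs_re_le_norm (Complex.exp ((x : ℂ) * Complex.I) -
    (((1 - x ^ 2 / 2 + x ^ 4 / 24 - x ^ 6 / 720 + x ^ 8 / 40320 : ℝ) : ℂ) +
      ((x - x ^ 3 / 6 + x ^ 5 / 120 - x ^ 7 / 5040 + x ^ 9 / 362880 : ℝ) : ℂ) * Complex.I))
  have hre : (Complex.exp ((x : ℂ) * Complex.I) -
      (((1 - x ^ 2 / 2 + x ^ 4 / 24 - x ^ 6 / 720 + x ^ 8 / 40320 : ℝ) : ℂ) +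
      ((x - x ^ 3 / 6 + x ^ 5 / 120 - x ^ 7 / 5040 + x ^ 9 / 362880 : ℝ) : ℂ) * Complex.I)).re =
      Real.cos x - (1 - x ^ 2 / 2 + x ^ 4 / 24 - x ^ 6 / 720 + x ^ 8 / 40320) := by
    rw [Complex.sub_re, Complex.exp_ofReal_mul_I_re, Complex.add_re, Complex.ofReal_re,
      Complex.re_ofReal_mul, Complex.I_re, mul_zero, add_zero]
  rw [hre] at hr
  refine hr.trans (hb.trans ?_)
  have hn : ‖(x : ℂ) * Complex.I‖ = x := by simp [abs_of_nonneg h0]
  rw [hn]
  norm_num [Nat.factorial]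

theorem KAP_cos_encl (x a b : ℝ) (ha : 0 ≤ a) (hax : a ≤ x) (hxb : x ≤ b) (hb : b ≤ 1) :
    1 - b ^ 2 / 2 + a ^ 4 / 24 - b ^ 6 / 720 + a ^ 8 / 40320 - b ^ 10 * (11 / 36288000) ≤
      Real.cos x ∧
    Real.cos x ≤
      1 - a ^ 2 / 2 + b ^ 4 / 24 - a ^ 6 / 720 + b ^ 8 / 40320 + b ^ 10 * (11 / 36288000) := by
  have hx0 : 0 ≤ x := ha.trans hax
  have h := abs_le.1 (KAP_cos_tay x hx0 (hxb.trans hb))
  have a2 := pow_le_pow_left₀ ha hax 2
  have a4 := pow_le_pow_left₀ ha hax 4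
  have a6 := pow_le_pow_left₀ ha hax 6
  have a8 := pow_le_pow_left₀ ha hax 8
  have b2 := pow_le_pow_left₀ hx0 hxb 2
  have b4 := pow_le_pow_left₀ hx0 hxb 4
  have b6 := pow_le_pow_left₀ hx0 hxb 6
  have b8 := pow_le_pow_left₀ hx0 hxb 8
  have b10 := pow_le_pow_left₀ hx0 hxb 10
  constructor <;> linarith [h.1, h.2]

theorem KAP_sin (x u s : ℝ) (h1 : Real.cos x ≤ u) (h0 : 0 ≤ Real.cos x) (hs : 0 ≤ s)
    (hx : 0 ≤ Real.sin x) (h : s ^ 2 ≤ 1 - u ^ 2) : s ≤ Real.sin x := by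
  have h2 := Real.sin_sq_add_cos_sq x
  have h3 : Real.cos x ^ 2 ≤ u ^ 2 := pow_le_pow_left₀ h0 h1 2
  have h4 : s ^ 2 ≤ Real.sin x ^ 2 := by linarith
  exact (sq_le_sq₀ hs hx).1 h4

theorem th_KAP : S_KAP := by
  have p1 := Real.pi_gt_d20
  have p2 := Real.pi_lt_d20
  have c1 := KAP_cos_encl (2 * Real.pi / 26) (2 * 3.14159265358979 / 26)
    (2 * 3.14159265358980 / 26) (by norm_num) (by linarith) (by linarith) (by norm_num)
  have c2 := KAP_cos_encl (2 * Real.pi / 18) (2 * 3.14159265358979 / 18)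
    (2 * 3.14159265358980 / 18) (by norm_num) (by linarith) (by linarith) (by norm_num)
  have c3 := KAP_cos_encl (Real.pi * 3 / 18) (3 * 3.14159265358979 / 18)
    (3 * 3.14159265358980 / 18) (by norm_num) (by linarith) (by linarith) (by norm_num)
  have c1l : 0.970941 ≤ Real.cos (2 * Real.pi / 26) := le_trans (by norm_num) c1.1
  have c1u : Real.cos (2 * Real.pi / 26) ≤ 0.970942 := le_trans c1.2 (by norm_num)
  have c2l : 0.939692 ≤ Real.cos (2 * Real.pi / 18) := le_trans (by norm_num) c2.1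
  have c2u : Real.cos (2 * Real.pi / 18) ≤ 0.939693 := le_trans c2.2 (by norm_num)
  have c3l : 0.866025 ≤ Real.cos (Real.pi * 3 / 18) := le_trans (by norm_num) c3.1
  have s1 : 0 ≤ Real.sin (2 * Real.pi / 26) :=
    Real.sin_nonneg_of_nonneg_of_le_pi (by positivity) (by linarith)
  have s2 : 0 ≤ Real.sin (2 * Real.pi / 18) :=
    Real.sin_nonneg_of_nonneg_of_le_pi (by positivity) (by linarith)
  have t1 := KAP_sin _ _ 0.239313 c1u (by linarith) (by norm_num) s1 (by norm_num)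
  have t2 := KAP_sin _ _ 0.342018 c2u (by linarith) (by norm_num) s2 (by norm_num)
  have e1 : Real.pi * 2 / 26 = 2 * Real.pi / 26 := by ring
  have e2 : Real.pi * 2 / 18 = 2 * Real.pi / 18 := by ring
  refine ⟨by linarith, by linarith, ?_, ?_, by linarith⟩
  · rw [e1]; linarith
  · rw [e2]; linarith

end Pool.Agent.Fr

end

section

/-!
# MP_54ef3e_nt, item MAX: the maximal half circle exists
-/

set_option autoImplicit false

open scoped Pointwise

namespace Pool.Agent.Fr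

open Pool.Agent.LS Pool.Agent.Fou

theorem th_MAX : S_MAX := by
  classical
  intro p _ S
  have hb : ∀ (r : ZMod p) (u : ℝ), (half u (aff r 0 S)).card ≤ S.card := fun r u =>
    (Finset.card_le_card (Finset.filter_subset _ _)).trans Finset.card_image_le
  set P : ℕ → Prop := fun M => ∃ (r : ZMod p) (u : ℝ), r ≠ 0 ∧ (half u (aff r 0 S)).card = M
    with hP
  have h1 : P (half 0 (aff (1 : ZMod p) 0 S)).card := ⟨1, 0, one_ne_zero, rfl⟩
  have hspec := Nat.findGreatest_spec (P := P) (hb 1 0) h1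
  obtain ⟨r₀, u₀, hr, hM⟩ := hspec
  exact ⟨_, r₀, u₀, hr, hM, fun r u hr' => Nat.le_findGreatest (hb r u) ⟨r, u, hr', rfl⟩⟩

end Pool.Agent.Fr

end

section

/-!
# MP_54ef3e_nt, item MH (helper99): the energy inequality from a large half circle
-/

set_option autoImplicit false

open scoped Pointwise

namespace Pool.Agent.Fr

open Pool.Agent.LS Pool.Agent.Fou

theorem th_MH : S_MH := by
  intro hE9 hE10 hR3 hR4 p _ S hS hC r u M hr hM h23
  have hadd : aff r 0 S + aff r 0 S = aff r 0 (S + S) := by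
    rw [aff_add, add_zero]
  have hc1 : (aff r 0 S).card = S.card := card_aff hr S
  have hc2 : (aff r 0 S + aff r 0 S).card = (S + S).card := card_aff_add hr S S
  set S' : Finset (ZMod p) := aff r 0 S with hS'def
  have hS' : Hyp S' := ⟨by rw [hc1]; exact hS.three, by rw [hc1]; exact hS.small,
    by rw [hc1, hc2]; exact hS.doub⟩
  have hC' : ¬ Concl S' := by
    intro h
    apply hC
    unfold Concl at h ⊢
    rw [hc1, hc2] at h
    exact InAPp.of_aff hr h
  set A : Finset (ZMod p) := half u S' with hA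
  have hAS : A ⊆ S' := by
    rw [hA]
    exact Finset.filter_subset _ _
  have h3 := hS.three
  have hsm := hS.small
  have hdb := hS.doub
  have hMle : M ≤ S.card := by
    rw [← hM, ← hc1]
    exact Finset.card_le_card hAS
  have hMlt : M + 1 ≤ S.card := by
    by_contra hcon
    have hMeq : S'.card ≤ A.card := by omega
    have hEq : A = S' := Finset.eq_of_subset_of_card_le hAS hMeq
    apply hC'
    refine hR4 p 2 0 u le_rfl even_two (by norm_num) S' ?_ hS'
    have : half u S' = S' := by rw [← hA, hEq]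
    unfold half at this
    rw [show (2 : ℕ) / 2 = 1 from rfl, this]
  have hnA : ¬ InAPp A (2 * A.card - 2) := by
    intro h
    apply hC'
    refine theoremB hAS ?_ ?_ ?_ ?_ h <;> omega
  have hSne : S'.Nonempty := Finset.card_pos.mp (by omega)
  have h9 := hE9 p S' A hAS hSne (by
    intro B hBA hB
    refine hR3 p 2 0 0 1 1 u u (by norm_num) (by norm_num) (by norm_num) (by norm_num) S' S' A B
      ?_ ?_ hB (Finset.card_le_card hBA) hnA
    · rw [hA]; exact subset_rfl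
    · exact hBA.trans (by rw [hA]; exact subset_rfl))
  have he1 : en S' S' = en S S := hE10 p r 0 0 hr S S
  have he2 : en S' (S' + S') = en S (S + S) := by
    rw [hadd]
    exact hE10 p r 0 0 hr S (S + S)
  rw [hc1, hc2, hM, he1, he2] at h9
  exact ⟨hMlt, h9⟩

end Pool.Agent.Fr

end

section

/-! # NE: basic numerical facts about a configuration -/

set_option autoImplicit false

open scoped Pointwise

namespace Pool.Agent.Fr

open Pool.Agent.LS Pool.Agent.Fou

theorem th_NE : S_NE := by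
  intro hE3 hE5 p _ S hS
  have h3 := hS.three
  have hs := hS.small
  have hd := hS.doub
  have hne : S.Nonempty := Finset.card_pos.mp (by omega)
  have hcd := ZMod.cauchy_davenport Fact.out hne hne
  have h1 : 2 * S.card - 1 ≤ (S + S).card := by
    have : min p (S.card + S.card - 1) ≤ (S + S).card := hcd
    omega
  have h1' : 2 * S.card ≤ (S + S).card + 1 := by omega
  refine ⟨?_, ?_, ?_, ?_, hE5 p S⟩
  · have : (2 * (S.card : ℝ)) ≤ (S + S).card + 1 := by exact_mod_cast h1'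
    linarith
  · have : ((S + S).card : ℝ) + 4 ≤ 3 * (S.card : ℝ) := by exact_mod_cast hd
    linarith
  · exact_mod_cast hs
  · have h := hE3 p S S
    calc (S.card : ℝ) ^ 4 = ((S.card : ℝ) * S.card) ^ 2 := by ring
      _ ≤ _ := h

end Pool.Agent.Fr

end

section

set_option autoImplicit false

namespace Pool.Agent.Fr

theorem coreB (e m n s : ℝ) (he0 : 1 ≤ 16 * e) (he : e ≤ 0.09) (hm : 0.91 ≤ m) (hm1 : m ≤ 1)
    (hn0 : 1.8 ≤ n) (hn : n ≤ 3 - 4 * e) (hs : 1 ≤ s ^ 2 * n) :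
    n ^ 2 * (1 - (-0.3905 + 0.7966 * m - 0.295 * e)) - 1 ≤
      35 * (n * e + (m - 3 * e) * (1 - e) + 1 * s ^ 2 - 2 * e - 2 * (1 - m) * s +
        2 * (1 - m) * e - (-0.3905 + 0.7966 * m - 0.295 * e) * n) := by
  have hn' : 0 < n := by linarith
  have t1 : 20 / 27 - 100 / 729 * n ≤ s ^ 2 := by
    have h1 : (20 / 27 - 100 / 729 * n) * n ≤ s ^ 2 * n := by
      nlinarith [sq_nonneg (n - 27 / 10)]
    exact le_of_mul_le_mul_right h1 hn'
  have t2 : 2 * (1 - m) * s ≤ (1 - m) * (s ^ 2 * (100 / 61) + 61 / 100) := by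
    have : 0 ≤ (1 - m) * (s - 61 / 100) ^ 2 := mul_nonneg (by linarith) (sq_nonneg _)
    nlinarith
  have t3 : (1 - (1 - m) * (100 / 61)) * (20 / 27 - 100 / 729 * n) ≤
      (1 - (1 - m) * (100 / 61)) * s ^ 2 :=
    mul_le_mul_of_nonneg_left t1 (by linarith)
  -- monotonicity in n
  obtain ⟨n1, hn1⟩ : ∃ n1, n1 = 3 - 4 * e := ⟨_, rfl⟩
  have t4 : 0 ≤ (n1 - n) * (-e + (1 - (1 - m) * (100 / 61)) * (100 / 729) +
      (-0.3905 + 0.7966 * m - 0.295 * e) +
      (n + n1) * (1 - (-0.3905 + 0.7966 * m - 0.295 * e)) / 35) := by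
    apply mul_nonneg
    · linarith
    · have h1 : 0 ≤ (n + n1) * (1 - (-0.3905 + 0.7966 * m - 0.295 * e)) :=
        mul_nonneg (by linarith) (by linarith)
      nlinarith
  -- the value at n1 is affine in m
  have t5 : (3 - 4 * e) ^ 2 * (1 - (-0.3905 + 0.7966 * m - 0.295 * e)) - 1 ≤
      35 * ((3 - 4 * e) * e + (m - 3 * e) * (1 - e) +
        (1 - (1 - m) * (100 / 61)) * (20 / 27 - 100 / 729 * (3 - 4 * e)) -
        (1 - m) * (61 / 100) - 2 * e +
        2 * (1 - m) * e - (-0.3905 + 0.7966 * m - 0.295 * e) * (3 - 4 * e)) := by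
    have a1 : (3 - 4 * e) ^ 2 * (1 - (-0.3905 + 0.7966 * 0.91 - 0.295 * e)) - 1 ≤
      35 * ((3 - 4 * e) * e + (0.91 - 3 * e) * (1 - e) +
        (1 - (1 - 0.91) * (100 / 61)) * (20 / 27 - 100 / 729 * (3 - 4 * e)) -
        (1 - 0.91) * (61 / 100) - 2 * e +
        2 * (1 - 0.91) * e - (-0.3905 + 0.7966 * 0.91 - 0.295 * e) * (3 - 4 * e)) := by
      nlinarith [mul_nonneg (sub_nonneg.2 he0) (sub_nonneg.2 he),
        mul_nonneg (sub_nonneg.2 he0) (sub_nonneg.2 he0),
        mul_nonneg (mul_nonneg (sub_nonneg.2 he0) (sub_nonneg.2 he0)) (sub_nonneg.2 he)]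
    have a2 : (3 - 4 * e) ^ 2 * (1 - (-0.3905 + 0.7966 * 1 - 0.295 * e)) - 1 ≤
      35 * ((3 - 4 * e) * e + (1 - 3 * e) * (1 - e) +
        (1 - (1 - 1) * (100 / 61)) * (20 / 27 - 100 / 729 * (3 - 4 * e)) -
        (1 - 1) * (61 / 100) - 2 * e +
        2 * (1 - 1) * e - (-0.3905 + 0.7966 * 1 - 0.295 * e) * (3 - 4 * e)) := by
      nlinarith [mul_nonneg (sub_nonneg.2 he0) (sub_nonneg.2 he),
        mul_nonneg (sub_nonneg.2 he0) (sub_nonneg.2 he0),
        mul_nonneg (mul_nonneg (sub_nonneg.2 he0) (sub_nonneg.2 he0)) (sub_nonneg.2 he)]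
    have b1 := mul_le_mul_of_nonneg_left a1 (show (0 : ℝ) ≤ (1 - m) / 0.09 by
      apply div_nonneg <;> linarith)
    have b2 := mul_le_mul_of_nonneg_left a2 (show (0 : ℝ) ≤ (m - 0.91) / 0.09 by
      apply div_nonneg <;> linarith)
    linear_combination b1 + b2
  rw [hn1] at t4
  linear_combination t5 + 35 * t4 + 35 * t2 + 35 * t3

theorem th_PB1 : S_PB1 := by
  intro p k N E q M hk hk' hN1 hN2 hp hE1 hE2 hM1 hM2 hq
  have hk0 : 0 < k := by linarith
  have hN0 : 0 < N := by linarith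
  have hE0 : 0 ≤ E := by
    by_contra hE
    have : E * N < 0 := mul_neg_of_neg_of_pos (not_le.1 hE) hN0
    have : 0 < k ^ 4 := by positivity
    linarith
  obtain ⟨w, hw⟩ : ∃ w, w = Real.sqrt (k * E) := ⟨_, rfl⟩
  have hw2 : w ^ 2 = k * E := by rw [hw]; exact Real.sq_sqrt (by positivity)
  have key := coreB (1 / k) (M / k) (N / k) (w / k ^ 2)
    (by rw [mul_one_div, one_le_div hk0]; exact hk')
    (by rw [div_le_iff₀ hk0]; linarith)
    (by rw [le_div_iff₀ hk0]; exact hM1)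
    (by rw [div_le_one hk0]; linarith)
    (by rw [le_div_iff₀ hk0]; linarith)
    (by rw [div_le_iff₀ hk0]; field_simp; linarith)
    (by
      have : (w / k ^ 2) ^ 2 * (N / k) = E * N / k ^ 4 := by
        rw [div_pow, hw2]; field_simp
      rw [this, le_div_iff₀ (by positivity)]; linarith)
  have hc : (-0.3905 + 0.7966 * (M / k) - 0.295 / k) = (-0.3905 + 0.7966 * (M / k) - 0.295 * (1 / k)) := by
    ring
  refine pos_of_norm (A := 1) (by norm_num) (by linarith) hE0 hp hq ?_ ?_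
  · have h1 : 1.8 ≤ N / k := by rw [le_div_iff₀ hk0]; linarith
    have h2 : M / k ≤ 1 := by rw [div_le_one hk0]; linarith
    have h3 : 0 ≤ 0.295 / k := by positivity
    have h4 : 0.5 ≤ (1 - (-0.3905 + 0.7966 * (M / k) - 0.295 / k)) := by linarith
    nlinarith [mul_le_mul (show (1.8:ℝ)^2 ≤ (N / k) ^ 2 by nlinarith) h4 (by norm_num) (by positivity)]
  · rw [hc, ← hw]
    exact key

end Pool.Agent.Fr

end

section

/-!
# MP_54ef3e_nt, item PH: phase and reflection (helper61)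
-/

set_option autoImplicit false

open scoped Pointwise

namespace Pool.Agent.Fr

open Pool.Agent.LS Pool.Agent.Fou

/-- A sum of cosines as a real part. -/
theorem PH_sum {p : ℕ} [Fact p.Prime] (A : Finset (ZMod p)) (c : ℝ) :
    ∑ x ∈ A, Real.cos (2 * Real.pi * ((x.val : ℝ) / p) - c) =
      (Complex.exp (((-c : ℝ) : ℂ) * Complex.I) * ft A 1).re := by
  unfold ft
  rw [Finset.mul_sum, Complex.re_sum]
  refine Finset.sum_congr rfl fun a _ => ?_
  rw [one_mul, ZMod.stdAddChar_apply, ZMod.toCircle_apply, ← Complex.exp_add]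
  have h4 : ((-c : ℝ) : ℂ) * Complex.I + 2 * Real.pi * Complex.I * a.val / p =
      ((2 * Real.pi * ((a.val : ℝ) / p) - c : ℝ) : ℂ) * Complex.I := by
    push_cast
    ring
  rw [h4, Complex.exp_ofReal_mul_I_re]

theorem PH_sum' {p : ℕ} [Fact p.Prime] (A : Finset (ZMod p)) (c d : ℝ)
    (h : ft A 1 = (fa A : ℂ) * Complex.exp ((d : ℂ) * Complex.I)) :
    ∑ x ∈ A, Real.cos (2 * Real.pi * ((x.val : ℝ) / p) - c) = fa A * Real.cos (d - c) := by
  rw [PH_sum, h, mul_left_comm, ← Complex.exp_add]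
  have h1 : ((-c : ℝ) : ℂ) * Complex.I + (d : ℂ) * Complex.I = ((d - c : ℝ) : ℂ) * Complex.I := by
    push_cast
    ring
  rw [h1, Complex.re_ofReal_mul, Complex.exp_ofReal_mul_I_re]

theorem PH_main {p : ℕ} [Fact p.Prime] (S : Finset (ZMod p)) (r : ZMod p) (th ps : ℝ)
    (h1 : ft (aff r 0 S) 1 = (fa (aff r 0 S) : ℂ) * Complex.exp ((th : ℂ) * Complex.I))
    (h2 : ft (aff r 0 S + aff r 0 S) 1 = (fa (aff r 0 S + aff r 0 S) : ℂ) *
      Complex.exp (((2 * th + ps : ℝ) : ℂ) * Complex.I)) :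
    ∑ x ∈ aff r 0 S, Real.cos (2 * Real.pi * ((x.val : ℝ) / p) - th) = fa (aff r 0 S) ∧
    ∀ ph : ℝ, ∑ x ∈ aff r 0 S + aff r 0 S,
        Real.cos (2 * Real.pi * ((x.val : ℝ) / p) - 2 * th - ph) =
      fa (aff r 0 S + aff r 0 S) * Real.cos (ps - ph) := by
  constructor
  · rw [PH_sum' _ _ _ h1, sub_self, Real.cos_zero, mul_one]
  · intro ph
    have e : ∀ x : ZMod p, 2 * Real.pi * ((x.val : ℝ) / p) - 2 * th - ph =
        2 * Real.pi * ((x.val : ℝ) / p) - (2 * th + ph) := fun x => by ring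
    simp only [e]
    rw [PH_sum' _ _ _ h2]
    congr 2
    ring

theorem PH_neg {p : ℕ} [Fact p.Prime] (S : Finset (ZMod p)) (r : ZMod p) :
    ft S (-r) = (starRingEnd ℂ) (ft S r) := by
  rw [conj_ft]
  unfold ft
  refine Finset.sum_congr rfl fun s _ => ?_
  rw [neg_mul]

theorem PH_conj (a th : ℝ) : (starRingEnd ℂ) ((a : ℂ) * Complex.exp ((th : ℂ) * Complex.I)) =
    (a : ℂ) * Complex.exp (((-th : ℝ) : ℂ) * Complex.I) := by
  rw [map_mul, Complex.conj_ofReal, ← Complex.exp_conj, map_mul, Complex.conj_ofReal,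
    Complex.conj_I]
  congr 2
  push_cast
  ring

theorem th_PH : S_PH := by
  intro p _ S r hr
  set A := aff r 0 S with hA
  set th : ℝ := Complex.arg (ft A 1) with hth
  set w : ℂ := ft (A + A) 1 * Complex.exp (((-(2 * th) : ℝ) : ℂ) * Complex.I) with hw
  set ps : ℝ := Complex.arg w with hps
  have h1 : ft A 1 = (fa A : ℂ) * Complex.exp ((th : ℂ) * Complex.I) :=
    (Complex.norm_mul_exp_arg_mul_I (ft A 1)).symm
  have hwn : ‖w‖ = fa (A + A) := by
    rw [hw, norm_mul, Complex.norm_exp_ofReal_mul_I, mul_one]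
    rfl
  have h2 : ft (A + A) 1 = (fa (A + A) : ℂ) *
      Complex.exp (((2 * th + ps : ℝ) : ℂ) * Complex.I) := by
    have h3 : w = (fa (A + A) : ℂ) * Complex.exp ((ps : ℂ) * Complex.I) := by
      rw [← hwn]
      exact (Complex.norm_mul_exp_arg_mul_I w).symm
    have h4 : ft (A + A) 1 = w * Complex.exp (((2 * th : ℝ) : ℂ) * Complex.I) := by
      rw [hw, mul_assoc, ← Complex.exp_add]
      have : ((-(2 * th) : ℝ) : ℂ) * Complex.I + ((2 * th : ℝ) : ℂ) * Complex.I = 0 := by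
        push_cast
        ring
      rw [this, Complex.exp_zero, mul_one]
    rw [h4, h3, mul_assoc, ← Complex.exp_add]
    congr 2
    push_cast
    ring
  rcases le_total 0 ps with h0 | h0
  · refine ⟨r, hr, th, ps, h0, Complex.arg_le_pi w, rfl, rfl, ?_⟩
    exact PH_main S r th ps h1 h2
  · have hr' : -r ≠ 0 := neg_ne_zero.2 hr
    have e1 : ft (aff (-r) 0 S) 1 = (starRingEnd ℂ) (ft A 1) := by
      rw [(th_E11 p (-r) S hr').1, hA, (th_E11 p r S hr).1, PH_neg]
    have e2 : ft (aff (-r) 0 S + aff (-r) 0 S) 1 = (starRingEnd ℂ) (ft (A + A) 1) := by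
      rw [(th_E11 p (-r) S hr').2, hA, (th_E11 p r S hr).2, (th_E11 p (-r) (S + S) hr').1,
        (th_E11 p r (S + S) hr).1, PH_neg]
    have f1 : fa (aff (-r) 0 S) = fa A := by
      unfold fa
      rw [e1, RCLike.norm_conj]
    have f2 : fa (aff (-r) 0 S + aff (-r) 0 S) = fa (A + A) := by
      unfold fa
      rw [e2, RCLike.norm_conj]
    refine ⟨-r, hr', -th, -ps, by linarith, ?_, f1, f2, ?_⟩
    · have := Complex.neg_pi_lt_arg w
      linarith
    · apply PH_main S (-r) (-th) (-ps)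
      · rw [e1, f1, h1, PH_conj]
      · rw [e2, f2, h2, PH_conj]
        congr 2
        push_cast
        ring

end Pool.Agent.Fr

end

section

set_option autoImplicit false

open scoped Pointwise

namespace Pool.Agent.Fr

open Pool.Agent.LS Pool.Agent.Fou

theorem th_SEC : S_SEC := by
  intro hI h1 h2 hA P a κ l h U hn ha hκ hl hU hd hh hhπ hlh hC hD p _ S' th ps hps hS hT
  have hn0 : (0 : ℝ) < P.n := by positivity
  have hκ' : (10000 : ℝ) ≤ (κ : ℝ) := by exact_mod_cast hκ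
  have hl' : (0 : ℝ) ≤ (l : ℝ) := by exact_mod_cast hl
  have hC' : ∀ i < P.n, max (Real.cos (Real.pi * (2 * i + 1) / P.n))
      ((κ / 10000 : ℝ) * Real.cos (Real.pi * (2 * i + 1) / P.n)) ≤ (P.C.getD i 0 : ℝ) / 10000 := by
    intro i hi
    have hU1 := hU (2 * i + 1) (by omega)
    obtain ⟨c1, c2⟩ := hC i hi
    have c1' : (10000 : ℝ) * (U.getD (2 * i + 1) 0 : ℝ) ≤ 100000000 * (P.C.getD i 0 : ℝ) := by
      exact_mod_cast c1
    have c2' : (κ : ℝ) * (U.getD (2 * i + 1) 0 : ℝ) ≤ 100000000 * (P.C.getD i 0 : ℝ) := by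
      exact_mod_cast c2
    push_cast at hU1
    have c3 := mul_le_mul_of_nonneg_left hU1 (show (0 : ℝ) ≤ κ by linarith)
    apply max_le
    · linarith
    · linarith
  have hD' : ∀ m < P.n, 2 * (l / 10000 : ℝ) * max (Real.cos (Real.pi * (2 * m - a) / P.n))
      ((κ / 10000 : ℝ) * Real.cos (Real.pi * (2 * m - a) / P.n)) ≤
      (P.D.getD ((m + P.n - 1) % P.n) 0 : ℝ) / 10000 + (P.D.getD m 0 : ℝ) / 10000 := by
    intro m hm
    obtain ⟨d1, d2⟩ := hD m hm
    obtain ⟨j, hj⟩ : ∃ j, j = (2 * (m : ℤ) - a).natAbs := ⟨_, rfl⟩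
    rw [← hj] at d1 d2
    have hjle : j ≤ 2 * P.n := by omega
    have hcos : Real.cos (Real.pi * (2 * m - a) / P.n) = Real.cos (Real.pi * j / P.n) := by
      have hj' : (j : ℝ) = |(2 * (m : ℝ) - a)| := by
        rw [hj]
        have := (Nat.cast_natAbs (α := ℝ) (2 * (m : ℤ) - a))
        rw [this]
        push_cast
        rfl
      rw [← Real.cos_abs (Real.pi * (2 * m - a) / P.n), abs_div, abs_mul, abs_of_pos Real.pi_pos,
        abs_of_pos hn0, hj']
    rw [hcos]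
    have hU1 := hU j hjle
    have d1' : (2 : ℝ) * l * (10000 * (U.getD j 0 : ℝ)) ≤ 1000000000000 *
        ((P.D.getD ((m + P.n - 1) % P.n) 0 : ℝ) + (P.D.getD m 0 : ℝ)) := by exact_mod_cast d1
    have d2' : (2 : ℝ) * l * (κ * (U.getD j 0 : ℝ)) ≤ 1000000000000 *
        ((P.D.getD ((m + P.n - 1) % P.n) 0 : ℝ) + (P.D.getD m 0 : ℝ)) := by exact_mod_cast d2
    have d3 := mul_le_mul_of_nonneg_left hU1 hl'
    have d4 := mul_le_mul_of_nonneg_left d3 (show (0 : ℝ) ≤ κ by linarith)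
    have hl2 : (0 : ℝ) ≤ 2 * (l / 10000 : ℝ) := by positivity
    rw [mul_max_of_nonneg _ _ hl2]
    apply max_le
    · linarith
    · linarith
  obtain ⟨u, hu⟩ := hA hI h1 h2 p P.n a (κ / 10000 : ℝ) (l / 10000 : ℝ) th
    (fun i => (P.C.getD i 0 : ℝ) / 10000) (fun j => (P.D.getD j 0 : ℝ) / 10000) hn hd
    (by positivity) hC' hD' S' (S' + S')
  refine ⟨u, ?_⟩
  rw [hS] at hu
  have e1 : ∑ x ∈ S' + S', Real.cos (2 * Real.pi * ((x.val : ℝ) / p) - 2 * th -
      Real.pi * a / P.n) = fa (S' + S') * Real.cos (ps - Real.pi * a / P.n) := hT _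
  rw [e1] at hu
  have hc : Real.cos h ≤ Real.cos (ps - Real.pi * a / P.n) := by
    rw [← Real.cos_abs (ps - Real.pi * a / P.n)]
    exact Real.cos_le_cos_of_nonneg_of_le_pi (abs_nonneg _) hhπ hps
  have hf : 0 ≤ fa (S' + S') := norm_nonneg _
  have h3 : 1 / 2 ≤ (l / 10000 : ℝ) * Real.cos (ps - Real.pi * a / P.n) :=
    le_trans hlh (mul_le_mul_of_nonneg_left hc (by positivity))
  have h4 : fa (S' + S') / 2 ≤
      (l / 10000 : ℝ) * (fa (S' + S') * Real.cos (ps - Real.pi * a / P.n)) := by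
    have := mul_le_mul_of_nonneg_left h3 hf
    calc fa (S' + S') / 2 = fa (S' + S') * (1 / 2) := by ring
      _ ≤ fa (S' + S') * ((l / 10000 : ℝ) * Real.cos (ps - Real.pi * a / P.n)) := this
      _ = _ := by ring
  have h5 : fa S' + fa (S' + S') / 2 ≤
      ∑ i ∈ Finset.range P.n, (P.C.getD i 0 : ℝ) / 10000 * (cnt P.n u S' i : ℝ) +
      ∑ j ∈ Finset.range P.n, (P.D.getD j 0 : ℝ) / 10000 * (cnt P.n (u + u) (S' + S') j : ℝ) :=
    le_trans (by linarith) hu
  have e2 : (P.Phi ⟨S'.card, cnt P.n u S', cnt P.n (u + u) (S' + S')⟩ : ℝ) = 10000 *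
      (∑ i ∈ Finset.range P.n, (P.C.getD i 0 : ℝ) / 10000 * (cnt P.n u S' i : ℝ) +
      ∑ j ∈ Finset.range P.n, (P.D.getD j 0 : ℝ) / 10000 * (cnt P.n (u + u) (S' + S') j : ℝ)) := by
    unfold Par.Phi
    push_cast
    rw [mul_add, Finset.mul_sum, Finset.mul_sum]
    congr 1 <;> refine Finset.sum_congr rfl fun i _ => ?_ <;> ring
  rw [e2]
  linarith

end Pool.Agent.Fr

end

section

set_option autoImplicit false

namespace Pool.Agent.Fr

open MeasureTheory

theorem STEP1_floor (n : ℕ) (hn : 1 ≤ n) (t : ℝ) (k : ℤ) (h1 : (k : ℝ) ≤ (n : ℝ) * t)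
    (h2 : (n : ℝ) * t < k + 1) : ⌊(n : ℝ) * Int.fract t⌋₊ = (k % (n : ℤ)).toNat := by
  have hn' : (0 : ℝ) < n := by exact_mod_cast hn
  have hk : ⌊(n : ℝ) * t⌋ = k := Int.floor_eq_iff.2 ⟨h1, h2⟩
  have h3 : (n : ℝ) * Int.fract t = (n : ℝ) * t - (((n : ℤ) * ⌊t⌋ : ℤ) : ℝ) := by
    rw [Int.fract]; push_cast; ring
  have h4 : ⌊(n : ℝ) * Int.fract t⌋ = k - (n : ℤ) * ⌊t⌋ := by
    rw [h3, Int.floor_sub_intCast, hk]
  have h5 : 0 ≤ ⌊(n : ℝ) * Int.fract t⌋ :=
    Int.floor_nonneg.2 (mul_nonneg hn'.le (Int.fract_nonneg t))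
  have h6 : ⌊(n : ℝ) * Int.fract t⌋ < (n : ℤ) := by
    rw [Int.floor_lt]
    have := Int.fract_lt_one t
    push_cast
    nlinarith
  have h7 : k % (n : ℤ) = k - (n : ℤ) * ⌊t⌋ := by
    rw [h4] at h5 h6
    have h8 : k = (k - (n : ℤ) * ⌊t⌋) + (n : ℤ) * ⌊t⌋ := by ring
    conv_lhs => rw [h8]
    rw [Int.add_mul_emod_self_left, Int.emod_eq_of_lt h5 h6]
  rw [h7, ← h4]
  rfl

theorem th_STEP1 : S_STEP1 := by
  intro n f hn y
  have hn' : (0 : ℝ) < n := by exact_mod_cast hn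
  have hnz : (0 : ℤ) < n := by exact_mod_cast hn
  set w : ℝ := (n : ℝ) * y - 1 / 2 with hw
  set k : ℤ := ⌊w⌋ with hk
  set s : ℝ := Int.fract w with hs
  have hws : w = k + s := (Int.floor_add_fract w).symm
  have hs0 : 0 ≤ s := Int.fract_nonneg w
  have hs1 : s < 1 := Int.fract_lt_one w
  set i : ℕ := (k % (n : ℤ)).toNat with hi
  have hi' : (i : ℤ) = k % (n : ℤ) := Int.toNat_of_nonneg (Int.emod_nonneg k hnz.ne')
  have hin : i < n := by
    have := Int.emod_lt_of_pos k hnz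
    rw [← hi'] at this
    exact_mod_cast this
  have hi1 : (i + 1) % n = ((k + 1) % (n : ℤ)).toNat := by
    have h1 : (((i + 1) % n : ℕ) : ℤ) = (k + 1) % (n : ℤ) := by
      push_cast
      rw [hi', Int.emod_add_emod]
    rw [← h1]; rfl
  have hkz : (k : ℝ) = i + (n : ℝ) * ((k / (n : ℤ) : ℤ) : ℝ) := by
    have h1 := Int.emod_add_mul_ediv k (n : ℤ)
    rw [← hi'] at h1
    have h2 : ((i : ℤ) : ℝ) + ((n : ℤ) : ℝ) * ((k / (n : ℤ) : ℤ) : ℝ) = (k : ℝ) := by
      exact_mod_cast h1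
    push_cast at h2
    linarith
  set a : ℝ := -(1 / (2 * (n : ℝ))) with ha
  set b : ℝ := 1 / (2 * (n : ℝ)) with hb
  set c : ℝ := (s - 1 / 2) / n with hc
  have hnb : (n : ℝ) * b = 1 / 2 := by rw [hb]; field_simp
  have hna : (n : ℝ) * a = -(1 / 2) := by rw [ha, mul_neg, hnb]
  have hnc : (n : ℝ) * c = s - 1 / 2 := by rw [hc]; field_simp
  have hac : a ≤ c := by
    have : (n : ℝ) * a ≤ n * c := by rw [hna, hnc]; linarith
    exact le_of_mul_le_mul_left this hn'
  have hcb : c ≤ b := by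
    have : (n : ℝ) * c ≤ n * b := by rw [hnb, hnc]; linarith
    exact le_of_mul_le_mul_left this hn'
  have g1 : ∀ u ∈ Set.uIoc a c, f ((i + 1) % n) = f ⌊(n : ℝ) * Int.fract (y - u)⌋₊ := by
    intro u hu
    rw [Set.uIoc_of_le hac] at hu
    have hu1 : (n : ℝ) * a < n * u := mul_lt_mul_of_pos_left hu.1 hn'
    have hu2 : (n : ℝ) * u ≤ n * c := mul_le_mul_of_nonneg_left hu.2 hn'.le
    rw [hna] at hu1
    rw [hnc] at hu2
    rw [STEP1_floor n hn (y - u) (k + 1), hi1]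
    · push_cast
      rw [mul_sub]; linarith
    · push_cast
      rw [mul_sub]; linarith
  have g2 : ∀ u ∈ Set.uIoc c b, f i = f ⌊(n : ℝ) * Int.fract (y - u)⌋₊ := by
    intro u hu
    rw [Set.uIoc_of_le hcb] at hu
    have hu1 : (n : ℝ) * c < n * u := mul_lt_mul_of_pos_left hu.1 hn'
    have hu2 : (n : ℝ) * u ≤ n * b := mul_le_mul_of_nonneg_left hu.2 hn'.le
    rw [hnc] at hu1
    rw [hnb] at hu2
    rw [STEP1_floor n hn (y - u) k, hi]
    · rw [mul_sub]; linarith
    · rw [mul_sub]; linarith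
  have j1 : IntervalIntegrable (fun u : ℝ => f ⌊(n : ℝ) * Int.fract (y - u)⌋₊) volume a c := by
    refine (intervalIntegrable_const (c := f ((i + 1) % n))).congr_ae ?_
    exact (ae_restrict_iff' measurableSet_uIoc).2 (Filter.Eventually.of_forall g1)
  have j2 : IntervalIntegrable (fun u : ℝ => f ⌊(n : ℝ) * Int.fract (y - u)⌋₊) volume c b := by
    refine (intervalIntegrable_const (c := f i)).congr_ae ?_
    exact (ae_restrict_iff' measurableSet_uIoc).2 (Filter.Eventually.of_forall g2)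
  refine ⟨i, s, k / (n : ℤ), hin, hs0, hs1.le, ?_, j1.trans j2, ?_⟩
  · have : (n : ℝ) * y = w + 1 / 2 := by rw [hw]; ring
    rw [this, hws, hkz]; ring
  · rw [← intervalIntegral.integral_add_adjacent_intervals j1 j2]
    rw [← intervalIntegral.integral_congr_ae (Filter.Eventually.of_forall g1),
      ← intervalIntegral.integral_congr_ae (Filter.Eventually.of_forall g2)]
    rw [intervalIntegral.integral_const, intervalIntegral.integral_const, smul_eq_mul, smul_eq_mul]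
    have e1 : c - a = s / n := by rw [hc, ha, hb]; field_simp; ring
    have e2 : b - c = (1 - s) / n := by rw [hc, hb]; field_simp; ring
    rw [e1, e2]; ring

end Pool.Agent.Fr

end

section

set_option autoImplicit false

namespace Pool.Agent.Fr

open MeasureTheory Set

theorem STEP2_const (F : ℝ → ℝ) (c a b : ℝ) (hab : a ≤ b) (h : ∀ u, a < u → u < b → F u = c) :
    IntervalIntegrable F volume a b ∧ ∫ u in a..b, F u = (b - a) * c := by
  have h1 : EqOn (fun _ : ℝ => c) F (Ioo a b) := fun u hu => (h u hu.1 hu.2).symm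
  constructor
  · rw [intervalIntegrable_iff_integrableOn_Ioo_of_le hab]
    refine IntegrableOn.congr_fun ?_ h1 measurableSet_Ioo
    exact integrableOn_const (by rw [Real.volume_Ioo]; exact ENNReal.ofReal_ne_top)
  · rw [intervalIntegral.integral_of_le hab, integral_Ioc_eq_integral_Ioo,
      ← setIntegral_congr_fun measurableSet_Ioo h1, setIntegral_const]
    simp [Measure.real, Real.volume_Ioo, hab]

theorem STEP2_floor (n : ℕ) (hn : 1 ≤ n) (v : ℝ) :
    ⌊(n : ℝ) * Int.fract v⌋₊ = (⌊(n : ℝ) * v⌋ % (n : ℤ)).toNat := by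
  have hn0 : (0 : ℤ) < n := by exact_mod_cast hn
  have hnr : (0 : ℝ) < n := by exact_mod_cast hn
  have h1 : (n : ℝ) * Int.fract v = (n : ℝ) * v - (((n : ℤ) * ⌊v⌋ : ℤ) : ℝ) := by
    push_cast
    rw [← Int.self_sub_floor]
    ring
  have h2 : ⌊(n : ℝ) * Int.fract v⌋ = ⌊(n : ℝ) * v⌋ - (n : ℤ) * ⌊v⌋ := by
    rw [h1, Int.floor_sub_intCast]
  have h3 : 0 ≤ ⌊(n : ℝ) * Int.fract v⌋ := Int.floor_nonneg.2 (by positivity)
  have h4 : ⌊(n : ℝ) * Int.fract v⌋ < n := by
    rw [Int.floor_lt]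
    have := Int.fract_lt_one v
    push_cast
    nlinarith
  have h5 : ⌊(n : ℝ) * v⌋ % (n : ℤ) = ⌊(n : ℝ) * Int.fract v⌋ := by
    have : ⌊(n : ℝ) * v⌋ = ⌊(n : ℝ) * Int.fract v⌋ + (n : ℤ) * ⌊v⌋ := by rw [h2]; ring
    rw [this, Int.add_mul_emod_self_left, Int.emod_eq_of_lt h3 h4]
  rw [h5]
  rfl

theorem STEP2_value (n : ℕ) (hn : 1 ≤ n) (v : ℝ) (N : ℤ) (h1 : (N : ℝ) ≤ n * v)
    (h2 : (n : ℝ) * v < N + 1) : ⌊(n : ℝ) * Int.fract v⌋₊ = (N % (n : ℤ)).toNat := by
  rw [STEP2_floor n hn, Int.floor_eq_iff.2 ⟨h1, h2⟩]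

theorem th_STEP2 : S_STEP2 := by
  intro n f hn y
  have hn0 : (0 : ℤ) < n := by exact_mod_cast hn
  have hnr : (0 : ℝ) < n := by exact_mod_cast hn
  set N : ℤ := ⌊(n : ℝ) * y⌋ with hN
  set s : ℝ := Int.fract ((n : ℝ) * y) with hs
  have hs0 : 0 ≤ s := Int.fract_nonneg _
  have hs1 : s < 1 := Int.fract_lt_one _
  have hNs : (n : ℝ) * y = N + s := (Int.floor_add_fract _).symm
  set m : ℕ := (N % (n : ℤ)).toNat with hm
  have hmod0 : 0 ≤ N % (n : ℤ) := Int.emod_nonneg _ hn0.ne'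
  have hmodn : N % (n : ℤ) < n := Int.emod_lt_of_pos _ hn0
  have hmz : (m : ℤ) = N % (n : ℤ) := Int.toNat_of_nonneg hmod0
  have hmn : m < n := by
    have : (m : ℤ) < n := by rw [hmz]; exact hmodn
    exact_mod_cast this
  have hdec : N = m + n * (N / (n : ℤ)) := by
    rw [hmz]
    exact (Int.emod_add_mul_ediv N n).symm
  -- the neighbours
  have hplus : ((N + 1) % (n : ℤ)).toNat = (m + 1) % n := by
    have h : (N + 1) % (n : ℤ) = (((m + 1) % n : ℕ) : ℤ) := by
      rw [Int.natCast_mod]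
      conv_lhs => rw [hdec]
      rw [show (m : ℤ) + n * (N / (n : ℤ)) + 1 = ((m + 1 : ℕ) : ℤ) + n * (N / (n : ℤ)) by
        push_cast; ring, Int.add_mul_emod_self_left]
    rw [h]
    rfl
  have hminus : ((N - 1) % (n : ℤ)).toNat = (m + n - 1) % n := by
    have h : (N - 1) % (n : ℤ) = (((m + n - 1) % n : ℕ) : ℤ) := by
      rw [Int.natCast_mod]
      conv_lhs => rw [hdec]
      rw [show (m : ℤ) + n * (N / (n : ℤ)) - 1 =
        ((m + n - 1 : ℕ) : ℤ) + n * (N / (n : ℤ) - 1) by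
          have : ((m + n - 1 : ℕ) : ℤ) = (m : ℤ) + n - 1 := by omega
          rw [this]; ring, Int.add_mul_emod_self_left]
    rw [h]
    rfl
  set F : ℝ → ℝ := fun u : ℝ => f ⌊(n : ℝ) * Int.fract (y - 2 * u)⌋₊ with hF
  have hmul : ∀ u : ℝ, (n : ℝ) * (y - 2 * u) = N + s - 2 * n * u := by
    intro u
    rw [mul_sub, hNs]
    ring
  have e1 : (n : ℝ) * ((s - 1) / (2 * n)) = (s - 1) / 2 := by field_simp
  have e2 : (n : ℝ) * (s / (2 * n)) = s / 2 := by field_simp
  have e3 : (n : ℝ) * (1 / (2 * n)) = 1 / 2 := by field_simp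
  have hlt : ∀ a b : ℝ, a < b → (n : ℝ) * a < n * b := fun a b h => mul_lt_mul_of_pos_left h hnr
  obtain ⟨i1, v1⟩ := STEP2_const F (f ((m + 1) % n)) (-(1 / (2 * n))) ((s - 1) / (2 * n))
    (by
      rw [neg_div', div_le_div_iff_of_pos_right (by positivity)]
      linarith)
    (by
      intro u hu1 hu2
      have g1 := hlt _ _ hu1
      have g2 := hlt _ _ hu2
      rw [mul_neg, e3] at g1
      rw [e1] at g2
      simp only [hF]
      rw [STEP2_value n hn (y - 2 * u) (N + 1) (by rw [hmul]; push_cast; nlinarith)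
        (by rw [hmul]; push_cast; nlinarith), hplus])
  obtain ⟨i2, v2⟩ := STEP2_const F (f m) ((s - 1) / (2 * n)) (s / (2 * n))
    (by
      rw [div_le_div_iff_of_pos_right (by positivity)]
      linarith)
    (by
      intro u hu1 hu2
      have g1 := hlt _ _ hu1
      have g2 := hlt _ _ hu2
      rw [e1] at g1
      rw [e2] at g2
      simp only [hF]
      rw [STEP2_value n hn (y - 2 * u) N (by rw [hmul]; nlinarith)
        (by rw [hmul]; nlinarith)])
  obtain ⟨i3, v3⟩ := STEP2_const F (f ((m + n - 1) % n)) (s / (2 * n)) (1 / (2 * n))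
    (by
      rw [div_le_div_iff_of_pos_right (by positivity)]
      linarith)
    (by
      intro u hu1 hu2
      have g1 := hlt _ _ hu1
      have g2 := hlt _ _ hu2
      rw [e2] at g1
      rw [e3] at g2
      simp only [hF]
      rw [STEP2_value n hn (y - 2 * u) (N - 1) (by rw [hmul]; push_cast; nlinarith)
        (by rw [hmul]; push_cast; nlinarith), hminus])
  refine ⟨m, s, N / (n : ℤ), hmn, hs0, hs1.le, ?_, (i1.trans i2).trans i3, ?_⟩
  · rw [hNs]
    have : (N : ℝ) = m + n * ((N / (n : ℤ) : ℤ) : ℝ) := by exact_mod_cast hdec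
    rw [this]
    ring
  · change ∫ u in (-(1 / (2 * (n : ℝ))))..(1 / (2 * n)), F u = _
    rw [← intervalIntegral.integral_add_adjacent_intervals (i1.trans i2) i3,
      ← intervalIntegral.integral_add_adjacent_intervals i1 i2, v1, v2, v3]
    field_simp
    ring

end Pool.Agent.Fr

end
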