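import Pool.Agent.Work.MP_54ef3e_nt.Bd.B05
import Pool.Agent.Work.MP_54ef3e_nt.Bd.B01
import Pool.Agent.Work.MP_54ef3e_nt.Bd.B02

/-! Bundle of small proof modules (one section per former module). -/

section

set_option autoImplicit false

namespace Pool.Agent.Fr

theorem TR18_cos_tay (x : ℝ) (h0 : 0 ≤ x) (h1 : x ≤ 1) :
    |Real.cos x - (1 - x ^ 2 / 2 + x ^ 4 / 24 - x ^ 6 / 720 + x ^ 8 / 40320)| ≤
      x ^ 10 * (11 / 36288000) := by
  have hb := Complex.exp_bound (x := (x : ℂ) * Complex.I)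
    (by simpa [abs_of_nonneg h0] using h1) (n := 10) (by norm_num)
  have hs : ∑ m ∈ Finset.range 10, ((x : ℂ) * Complex.I) ^ m / (m.factorial : ℂ) =
      ((1 - x ^ 2 / 2 + x ^ 4 / 24 - x ^ 6 / 720 + x ^ 8 / 40320 : ℝ) : ℂ) +
      ((x - x ^ 3 / 6 + x ^ 5 / 120 - x ^ 7 / 5040 + x ^ 9 / 362880 : ℝ) : ℂ) * Complex.I := by
    have hI : Complex.I ^ 2 = -1 := Complex.I_sq
    simp only [Finset.sum_range_succ, Finset.sum_range_zero, Nat.factorial]
    push_cast
    linear_combination (x ^ 2 / 2 + x ^ 3 * Complex.I / 6 + x ^ 4 * (Complex.I ^ 2 - 1) / 24 +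
      x ^ 5 * Complex.I * (Complex.I ^ 2 - 1) / 120
      + x ^ 6 * (Complex.I ^ 4 - Complex.I ^ 2 + 1) / 720 +
      x ^ 7 * Complex.I * (Complex.I ^ 4 - Complex.I ^ 2 + 1) / 5040
      + x ^ 8 * (Complex.I ^ 6 - Complex.I ^ 4 + Complex.I ^ 2 - 1) / 40320
      + x ^ 9 * Complex.I * (Complex.I ^ 6 - Complex.I ^ 4 + Complex.I ^ 2 - 1) / 362880) * hI
  rw [hs] at hb
  have hr := Complex.abs_re_le_norm (Complex.exp ((x : ℂ) * Complex.I) -
    (((1 - x ^ 2 / 2 + x ^ 4 / 24 - x ^ 6 / 720 + x ^ 8 / 40320 : ℝ) : ℂ) +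
      ((x - x ^ 3 / 6 + x ^ 5 / 120 - x ^ 7 / 5040 + x ^ 9 / 362880 : ℝ) : ℂ) * Complex.I))
  have hre : (Complex.exp ((x : ℂ) * Complex.I) -
      (((1 - x ^ 2 / 2 + x ^ 4 / 24 - x ^ 6 / 720 + x ^ 8 / 40320 : ℝ) : ℂ) +
      ((x - x ^ 3 / 6 + x ^ 5 / 120 - x ^ 7 / 5040 + x ^ 9 / 362880 : ℝ) : ℂ) * Complex.I)).re =
      Real.cos x - (1 - x ^ 2 / 2 + x ^ 4 / 24 - x ^ 6 / 720 + x ^ 8 / 40320) := by
    rw [Complex.sub_re, Complex.exp_ofReal_mul_I_re, Complex.add_re, Complex.ofReal_re,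
      Complex.re_ofReal_mul, Complex.I_re, mul_zero, add_zero]
  rw [hre] at hr
  refine hr.trans (hb.trans ?_)
  have hn : ‖(x : ℂ) * Complex.I‖ = x := by simp [abs_of_nonneg h0]
  rw [hn]
  norm_num [Nat.factorial]

theorem TR18_cos_encl (x a b : ℝ) (ha : 0 ≤ a) (hax : a ≤ x) (hxb : x ≤ b) (hb : b ≤ 1) :
    1 - b ^ 2 / 2 + a ^ 4 / 24 - b ^ 6 / 720 + a ^ 8 / 40320 - b ^ 10 * (11 / 36288000) ≤
      Real.cos x ∧
    Real.cos x ≤
      1 - a ^ 2 / 2 + b ^ 4 / 24 - a ^ 6 / 720 + b ^ 8 / 40320 + b ^ 10 * (11 / 36288000) := by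
  have hx0 : 0 ≤ x := ha.trans hax
  have h := abs_le.1 (TR18_cos_tay x hx0 (hxb.trans hb))
  have a2 := pow_le_pow_left₀ ha hax 2
  have a4 := pow_le_pow_left₀ ha hax 4
  have a6 := pow_le_pow_left₀ ha hax 6
  have a8 := pow_le_pow_left₀ ha hax 8
  have b2 := pow_le_pow_left₀ hx0 hxb 2
  have b4 := pow_le_pow_left₀ hx0 hxb 4
  have b6 := pow_le_pow_left₀ hx0 hxb 6
  have b8 := pow_le_pow_left₀ hx0 hxb 8
  have b10 := pow_le_pow_left₀ hx0 hxb 10
  constructor <;> linarith [h.1, h.2]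

theorem TR18_vals :
    ((1.000000000000000 : ℝ) ≤ Real.cos (Real.pi * (0 : ℕ) / 18) ∧ Real.cos (Real.pi * (0 : ℕ) / 18) ≤ (1.000000000000000 : ℝ)) ∧
    ((0.984807753012206 : ℝ) ≤ Real.cos (Real.pi * (1 : ℕ) / 18) ∧ Real.cos (Real.pi * (1 : ℕ) / 18) ≤ (0.984807753012225 : ℝ)) ∧
    ((0.939692620785899 : ℝ) ≤ Real.cos (Real.pi * (2 : ℕ) / 18) ∧ Real.cos (Real.pi * (2 : ℕ) / 18) ≤ (0.939692620785977 : ℝ)) ∧
    ((0.866025403784398 : ℝ) ≤ Real.cos (Real.pi * (3 : ℕ) / 18) ∧ Real.cos (Real.pi * (3 : ℕ) / 18) ≤ (0.866025403784609 : ℝ)) ∧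
    ((0.766044443118824 : ℝ) ≤ Real.cos (Real.pi * (4 : ℕ) / 18) ∧ Real.cos (Real.pi * (4 : ℕ) / 18) ≤ (0.766044443119354 : ℝ)) ∧
    ((0.642787609686061 : ℝ) ≤ Real.cos (Real.pi * (5 : ℕ) / 18) ∧ Real.cos (Real.pi * (5 : ℕ) / 18) ≤ (0.642787609687348 : ℝ)) ∧
    ((0.499999999998678 : ℝ) ≤ Real.cos (Real.pi * (6 : ℕ) / 18) ∧ Real.cos (Real.pi * (6 : ℕ) / 18) ≤ (0.500000000001770 : ℝ)) ∧
    ((0.342020143322253 : ℝ) ≤ Real.cos (Real.pi * (7 : ℕ) / 18) ∧ Real.cos (Real.pi * (7 : ℕ) / 18) ≤ (0.342020143329652 : ℝ)) ∧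
    ((0.173648177658430 : ℝ) ≤ Real.cos (Real.pi * (8 : ℕ) / 18) ∧ Real.cos (Real.pi * (8 : ℕ) / 18) ≤ (0.173648177676111 : ℝ)) ∧
    ((-0.000000000020728 : ℝ) ≤ Real.cos (Real.pi * (9 : ℕ) / 18) ∧ Real.cos (Real.pi * (9 : ℕ) / 18) ≤ (0.000000000021505 : ℝ)) := by
  have p1 := Real.pi_gt_d20
  have p2 := Real.pi_lt_d20
  have c0 : ((1.000000000000000 : ℝ) ≤ Real.cos (Real.pi * (0 : ℕ) / 18) ∧ Real.cos (Real.pi * (0 : ℕ) / 18) ≤ (1.000000000000000 : ℝ)) := by
    rw [Nat.cast_zero, mul_zero, zero_div, Real.cos_zero]; norm_num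
  have c1 : ((0.984807753012206 : ℝ) ≤ Real.cos (Real.pi * (1 : ℕ) / 18) ∧ Real.cos (Real.pi * (1 : ℕ) / 18) ≤ (0.984807753012225 : ℝ)) := by
    have h := TR18_cos_encl (Real.pi * (1 : ℕ) / 18) (3.14159265358979 / 18) (3.14159265358980 / 18) (by norm_num)
      (by push_cast; linarith) (by push_cast; linarith) (by norm_num)
    refine ⟨le_trans ?_ h.1, le_trans h.2 ?_⟩ <;> norm_num
  have hrec : ∀ j : ℕ, Real.cos (Real.pi * ((j + 2 : ℕ) : ℝ) / 18) =
      2 * Real.cos (Real.pi * (1 : ℕ) / 18) * Real.cos (Real.pi * ((j + 1 : ℕ) : ℝ) / 18) -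
      Real.cos (Real.pi * (j : ℝ) / 18) := by
    intro j
    have h1 : Real.pi * ((j + 2 : ℕ) : ℝ) / 18 =
      Real.pi * ((j + 1 : ℕ) : ℝ) / 18 + Real.pi * (1 : ℕ) / 18 := by push_cast; ring
    have h2 : Real.pi * (j : ℝ) / 18 =
      Real.pi * ((j + 1 : ℕ) : ℝ) / 18 - Real.pi * (1 : ℕ) / 18 := by push_cast; ring
    rw [h1, h2, Real.cos_add, Real.cos_sub]; ring
  have c2 : ((0.939692620785899 : ℝ) ≤ Real.cos (Real.pi * (2 : ℕ) / 18) ∧ Real.cos (Real.pi * (2 : ℕ) / 18) ≤ (0.939692620785977 : ℝ)) := by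
    have h := hrec 0
    norm_num only [Nat.reduceAdd] at h
    have m1 := mul_le_mul c1.1 c1.1 (by norm_num) (le_trans (by norm_num) c1.1)
    have m2 := mul_le_mul c1.2 c1.2 (le_trans (by norm_num) c1.1) (by norm_num)
    norm_num only [Nat.cast_ofNat, Nat.cast_one, Nat.cast_zero] at h m1 m2 c0 c1 ⊢
    constructor <;> linarith [c0.1, c0.2]
  have c3 : ((0.866025403784398 : ℝ) ≤ Real.cos (Real.pi * (3 : ℕ) / 18) ∧ Real.cos (Real.pi * (3 : ℕ) / 18) ≤ (0.866025403784609 : ℝ)) := by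
    have h := hrec 1
    norm_num only [Nat.reduceAdd] at h
    have m1 := mul_le_mul c1.1 c2.1 (by norm_num) (le_trans (by norm_num) c1.1)
    have m2 := mul_le_mul c1.2 c2.2 (le_trans (by norm_num) c2.1) (by norm_num)
    norm_num only [Nat.cast_ofNat, Nat.cast_one, Nat.cast_zero] at h m1 m2 c1 c2 ⊢
    constructor <;> linarith [c1.1, c1.2]
  have c4 : ((0.766044443118824 : ℝ) ≤ Real.cos (Real.pi * (4 : ℕ) / 18) ∧ Real.cos (Real.pi * (4 : ℕ) / 18) ≤ (0.766044443119354 : ℝ)) := by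
    have h := hrec 2
    norm_num only [Nat.reduceAdd] at h
    have m1 := mul_le_mul c1.1 c3.1 (by norm_num) (le_trans (by norm_num) c1.1)
    have m2 := mul_le_mul c1.2 c3.2 (le_trans (by norm_num) c3.1) (by norm_num)
    norm_num only [Nat.cast_ofNat, Nat.cast_one, Nat.cast_zero] at h m1 m2 c1 c2 c3 ⊢
    constructor <;> linarith [c2.1, c2.2]
  have c5 : ((0.642787609686061 : ℝ) ≤ Real.cos (Real.pi * (5 : ℕ) / 18) ∧ Real.cos (Real.pi * (5 : ℕ) / 18) ≤ (0.642787609687348 : ℝ)) := by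
    have h := hrec 3
    norm_num only [Nat.reduceAdd] at h
    have m1 := mul_le_mul c1.1 c4.1 (by norm_num) (le_trans (by norm_num) c1.1)
    have m2 := mul_le_mul c1.2 c4.2 (le_trans (by norm_num) c4.1) (by norm_num)
    norm_num only [Nat.cast_ofNat, Nat.cast_one, Nat.cast_zero] at h m1 m2 c1 c3 c4 ⊢
    constructor <;> linarith [c3.1, c3.2]
  have c6 : ((0.499999999998678 : ℝ) ≤ Real.cos (Real.pi * (6 : ℕ) / 18) ∧ Real.cos (Real.pi * (6 : ℕ) / 18) ≤ (0.500000000001770 : ℝ)) := by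
    have h := hrec 4
    norm_num only [Nat.reduceAdd] at h
    have m1 := mul_le_mul c1.1 c5.1 (by norm_num) (le_trans (by norm_num) c1.1)
    have m2 := mul_le_mul c1.2 c5.2 (le_trans (by norm_num) c5.1) (by norm_num)
    norm_num only [Nat.cast_ofNat, Nat.cast_one, Nat.cast_zero] at h m1 m2 c1 c4 c5 ⊢
    constructor <;> linarith [c4.1, c4.2]
  have c7 : ((0.342020143322253 : ℝ) ≤ Real.cos (Real.pi * (7 : ℕ) / 18) ∧ Real.cos (Real.pi * (7 : ℕ) / 18) ≤ (0.342020143329652 : ℝ)) := by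
    have h := hrec 5
    norm_num only [Nat.reduceAdd] at h
    have m1 := mul_le_mul c1.1 c6.1 (by norm_num) (le_trans (by norm_num) c1.1)
    have m2 := mul_le_mul c1.2 c6.2 (le_trans (by norm_num) c6.1) (by norm_num)
    norm_num only [Nat.cast_ofNat, Nat.cast_one, Nat.cast_zero] at h m1 m2 c1 c5 c6 ⊢
    constructor <;> linarith [c5.1, c5.2]
  have c8 : ((0.173648177658430 : ℝ) ≤ Real.cos (Real.pi * (8 : ℕ) / 18) ∧ Real.cos (Real.pi * (8 : ℕ) / 18) ≤ (0.173648177676111 : ℝ)) := by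
    have h := hrec 6
    norm_num only [Nat.reduceAdd] at h
    have m1 := mul_le_mul c1.1 c7.1 (by norm_num) (le_trans (by norm_num) c1.1)
    have m2 := mul_le_mul c1.2 c7.2 (le_trans (by norm_num) c7.1) (by norm_num)
    norm_num only [Nat.cast_ofNat, Nat.cast_one, Nat.cast_zero] at h m1 m2 c1 c6 c7 ⊢
    constructor <;> linarith [c6.1, c6.2]
  have c9 : ((-0.000000000020728 : ℝ) ≤ Real.cos (Real.pi * (9 : ℕ) / 18) ∧ Real.cos (Real.pi * (9 : ℕ) / 18) ≤ (0.000000000021505 : ℝ)) := by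
    have h := hrec 7
    norm_num only [Nat.reduceAdd] at h
    have m1 := mul_le_mul c1.1 c8.1 (by norm_num) (le_trans (by norm_num) c1.1)
    have m2 := mul_le_mul c1.2 c8.2 (le_trans (by norm_num) c8.1) (by norm_num)
    norm_num only [Nat.cast_ofNat, Nat.cast_one, Nat.cast_zero] at h m1 m2 c1 c7 c8 ⊢
    constructor <;> linarith [c7.1, c7.2]
  exact ⟨c0, c1, c2, c3, c4, c5, c6, c7, c8, c9⟩

theorem TR18_neg (j : ℕ) (hj : j ≤ 18) : Real.cos (Real.pi * ((18 - j : ℕ) : ℝ) / 18) =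
    -Real.cos (Real.pi * j / 18) := by
  rw [Nat.cast_sub hj, ← Real.cos_pi_sub]
  congr 1
  push_cast
  ring

theorem TR18_per (j : ℕ) (hj : j ≤ 36) : Real.cos (Real.pi * ((36 - j : ℕ) : ℝ) / 18) =
    Real.cos (Real.pi * j / 18) := by
  rw [Nat.cast_sub hj, ← Real.cos_two_pi_sub]
  congr 1
  push_cast
  ring

theorem th_TR18 : S_TR18 := by
  have hv := TR18_vals
  have h1 : ∀ j : ℕ, j ≤ 9 → 100000000 * Real.cos (Real.pi * j / 18) ≤ (U18.getD j 0 : ℝ) ∧
      -(100000000 * Real.cos (Real.pi * j / 18)) ≤ (U18.getD (18 - j) 0 : ℝ) ∧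
      -(100000000 * Real.cos (Real.pi * j / 18)) ≤ (U18.getD (18 + j) 0 : ℝ) ∧
      100000000 * Real.cos (Real.pi * j / 18) ≤ (U18.getD (36 - j) 0 : ℝ) := by
    obtain ⟨c0, c1, c2, c3, c4, c5, c6, c7, c8, c9⟩ := hv
    intro j hj
    interval_cases j

    · refine ⟨?_, ?_, ?_, ?_⟩ <;> simp only [U18, List.getD_cons_succ, List.getD_cons_zero, Nat.reduceSub, Nat.reduceAdd] <;> push_cast at c0 ⊢ <;> linarith [c0.1, c0.2]
    · refine ⟨?_, ?_, ?_, ?_⟩ <;> simp only [U18, List.getD_cons_succ, List.getD_cons_zero, Nat.reduceSub, Nat.reduceAdd] <;> push_cast at c1 ⊢ <;> linarith [c1.1, c1.2]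
    · refine ⟨?_, ?_, ?_, ?_⟩ <;> simp only [U18, List.getD_cons_succ, List.getD_cons_zero, Nat.reduceSub, Nat.reduceAdd] <;> push_cast at c2 ⊢ <;> linarith [c2.1, c2.2]
    · refine ⟨?_, ?_, ?_, ?_⟩ <;> simp only [U18, List.getD_cons_succ, List.getD_cons_zero, Nat.reduceSub, Nat.reduceAdd] <;> push_cast at c3 ⊢ <;> linarith [c3.1, c3.2]
    · refine ⟨?_, ?_, ?_, ?_⟩ <;> simp only [U18, List.getD_cons_succ, List.getD_cons_zero, Nat.reduceSub, Nat.reduceAdd] <;> push_cast at c4 ⊢ <;> linarith [c4.1, c4.2]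
    · refine ⟨?_, ?_, ?_, ?_⟩ <;> simp only [U18, List.getD_cons_succ, List.getD_cons_zero, Nat.reduceSub, Nat.reduceAdd] <;> push_cast at c5 ⊢ <;> linarith [c5.1, c5.2]
    · refine ⟨?_, ?_, ?_, ?_⟩ <;> simp only [U18, List.getD_cons_succ, List.getD_cons_zero, Nat.reduceSub, Nat.reduceAdd] <;> push_cast at c6 ⊢ <;> linarith [c6.1, c6.2]
    · refine ⟨?_, ?_, ?_, ?_⟩ <;> simp only [U18, List.getD_cons_succ, List.getD_cons_zero, Nat.reduceSub, Nat.reduceAdd] <;> push_cast at c7 ⊢ <;> linarith [c7.1, c7.2]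
    · refine ⟨?_, ?_, ?_, ?_⟩ <;> simp only [U18, List.getD_cons_succ, List.getD_cons_zero, Nat.reduceSub, Nat.reduceAdd] <;> push_cast at c8 ⊢ <;> linarith [c8.1, c8.2]
    · refine ⟨?_, ?_, ?_, ?_⟩ <;> simp only [U18, List.getD_cons_succ, List.getD_cons_zero, Nat.reduceSub, Nat.reduceAdd] <;> push_cast at c9 ⊢ <;> linarith [c9.1, c9.2]
  intro j hj
  rcases Nat.lt_or_ge 9 j with h | h
  · rcases Nat.lt_or_ge 18 j with h' | h'
    · rcases Nat.lt_or_ge 27 j with h'' | h''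
      · have := (h1 (36 - j) (by omega)).2.2.2
        rw [TR18_per j (by omega), show 36 - (36 - j) = j by omega] at this
        exact this
      · have h2 := (h1 (j - 18) (by omega)).2.2.1
        rw [show 18 + (j - 18) = j by omega] at h2
        have h3 : Real.cos (Real.pi * j / 18) = -Real.cos (Real.pi * ((j - 18 : ℕ) : ℝ) / 18) := by
          rw [← TR18_neg (j - 18) (by omega), show 18 - (j - 18) = 36 - j by omega,
            TR18_per j (by omega)]
        rw [h3]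
        linarith
    · have h2 := (h1 (18 - j) (by omega)).2.1
      rw [TR18_neg j (by omega), show 18 - (18 - j) = j by omega] at h2
      linarith
  · exact (h1 j h).1

end Pool.Agent.Fr

end

section

set_option autoImplicit false

namespace Pool.Agent.Fr

theorem TR26_cos_tay (x : ℝ) (h0 : 0 ≤ x) (h1 : x ≤ 1) :
    |Real.cos x - (1 - x ^ 2 / 2 + x ^ 4 / 24 - x ^ 6 / 720 + x ^ 8 / 40320)| ≤
      x ^ 10 * (11 / 36288000) := by
  have hb := Complex.exp_bound (x := (x : ℂ) * Complex.I)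
    (by simpa [abs_of_nonneg h0] using h1) (n := 10) (by norm_num)
  have hs : ∑ m ∈ Finset.range 10, ((x : ℂ) * Complex.I) ^ m / (m.factorial : ℂ) =
      ((1 - x ^ 2 / 2 + x ^ 4 / 24 - x ^ 6 / 720 + x ^ 8 / 40320 : ℝ) : ℂ) +
      ((x - x ^ 3 / 6 + x ^ 5 / 120 - x ^ 7 / 5040 + x ^ 9 / 362880 : ℝ) : ℂ) * Complex.I := by
    have hI : Complex.I ^ 2 = -1 := Complex.I_sq
    simp only [Finset.sum_range_succ, Finset.sum_range_zero, Nat.factorial]
    push_cast
    linear_combination (x ^ 2 / 2 + x ^ 3 * Complex.I / 6 + x ^ 4 * (Complex.I ^ 2 - 1) / 24 +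
      x ^ 5 * Complex.I * (Complex.I ^ 2 - 1) / 120
      + x ^ 6 * (Complex.I ^ 4 - Complex.I ^ 2 + 1) / 720 +
      x ^ 7 * Complex.I * (Complex.I ^ 4 - Complex.I ^ 2 + 1) / 5040
      + x ^ 8 * (Complex.I ^ 6 - Complex.I ^ 4 + Complex.I ^ 2 - 1) / 40320
      + x ^ 9 * Complex.I * (Complex.I ^ 6 - Complex.I ^ 4 + Complex.I ^ 2 - 1) / 362880) * hI
  rw [hs] at hb
  have hr := Complex.abs_re_le_norm (Complex.exp ((x : ℂ) * Complex.I) -
    (((1 - x ^ 2 / 2 + x ^ 4 / 24 - x ^ 6 / 720 + x ^ 8 / 40320 : ℝ) : ℂ) +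
      ((x - x ^ 3 / 6 + x ^ 5 / 120 - x ^ 7 / 5040 + x ^ 9 / 362880 : ℝ) : ℂ) * Complex.I))
  have hre : (Complex.exp ((x : ℂ) * Complex.I) -
      (((1 - x ^ 2 / 2 + x ^ 4 / 24 - x ^ 6 / 720 + x ^ 8 / 40320 : ℝ) : ℂ) +
      ((x - x ^ 3 / 6 + x ^ 5 / 120 - x ^ 7 / 5040 + x ^ 9 / 362880 : ℝ) : ℂ) * Complex.I)).re =
      Real.cos x - (1 - x ^ 2 / 2 + x ^ 4 / 24 - x ^ 6 / 720 + x ^ 8 / 40320) := by
    rw [Complex.sub_re, Complex.exp_ofReal_mul_I_re, Complex.add_re, Complex.ofReal_re,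
      Complex.re_ofReal_mul, Complex.I_re, mul_zero, add_zero]
  rw [hre] at hr
  refine hr.trans (hb.trans ?_)
  have hn : ‖(x : ℂ) * Complex.I‖ = x := by simp [abs_of_nonneg h0]
  rw [hn]
  norm_num [Nat.factorial]

theorem TR26_cos_encl (x a b : ℝ) (ha : 0 ≤ a) (hax : a ≤ x) (hxb : x ≤ b) (hb : b ≤ 1) :
    1 - b ^ 2 / 2 + a ^ 4 / 24 - b ^ 6 / 720 + a ^ 8 / 40320 - b ^ 10 * (11 / 36288000) ≤
      Real.cos x ∧
    Real.cos x ≤
      1 - a ^ 2 / 2 + b ^ 4 / 24 - a ^ 6 / 720 + b ^ 8 / 40320 + b ^ 10 * (11 / 36288000) := by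
  have hx0 : 0 ≤ x := ha.trans hax
  have h := abs_le.1 (TR26_cos_tay x hx0 (hxb.trans hb))
  have a2 := pow_le_pow_left₀ ha hax 2
  have a4 := pow_le_pow_left₀ ha hax 4
  have a6 := pow_le_pow_left₀ ha hax 6
  have a8 := pow_le_pow_left₀ ha hax 8
  have b2 := pow_le_pow_left₀ hx0 hxb 2
  have b4 := pow_le_pow_left₀ hx0 hxb 4
  have b6 := pow_le_pow_left₀ hx0 hxb 6
  have b8 := pow_le_pow_left₀ hx0 hxb 8
  have b10 := pow_le_pow_left₀ hx0 hxb 10
  constructor <;> linarith [h.1, h.2]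

theorem TR26_vals :
    ((1.000000000000000 : ℝ) ≤ Real.cos (Real.pi * (0 : ℕ) / 26) ∧ Real.cos (Real.pi * (0 : ℕ) / 26) ≤ (1.000000000000000 : ℝ)) ∧
    ((0.992708874098052 : ℝ) ≤ Real.cos (Real.pi * (1 : ℕ) / 26) ∧ Real.cos (Real.pi * (1 : ℕ) / 26) ≤ (0.992708874098056 : ℝ)) ∧
    ((0.970941817426043 : ℝ) ≤ Real.cos (Real.pi * (2 : ℕ) / 26) ∧ Real.cos (Real.pi * (2 : ℕ) / 26) ≤ (0.970941817426061 : ℝ)) ∧
    ((0.935016242685390 : ℝ) ≤ Real.cos (Real.pi * (3 : ℕ) / 26) ∧ Real.cos (Real.pi * (3 : ℕ) / 26) ≤ (0.935016242685440 : ℝ)) ∧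
    ((0.885456025653146 : ℝ) ≤ Real.cos (Real.pi * (4 : ℕ) / 26) ∧ Real.cos (Real.pi * (4 : ℕ) / 26) ≤ (0.885456025653274 : ℝ)) ∧
    ((0.822983865893499 : ℝ) ≤ Real.cos (Real.pi * (5 : ℕ) / 26) ∧ Real.cos (Real.pi * (5 : ℕ) / 26) ≤ (0.822983865893814 : ℝ)) ∧
    ((0.748510748170720 : ℝ) ≤ Real.cos (Real.pi * (6 : ℕ) / 26) ∧ Real.cos (Real.pi * (6 : ℕ) / 26) ≤ (0.748510748171483 : ℝ)) ∧
    ((0.663122658239876 : ℝ) ≤ Real.cos (Real.pi * (7 : ℕ) / 26) ∧ Real.cos (Real.pi * (7 : ℕ) / 26) ≤ (0.663122658241715 : ℝ)) ∧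
    ((0.568064746728945 : ℝ) ≤ Real.cos (Real.pi * (8 : ℕ) / 26) ∧ Real.cos (Real.pi * (8 : ℕ) / 26) ≤ (0.568064746733367 : ℝ)) ∧
    ((0.464723172038456 : ℝ) ≤ Real.cos (Real.pi * (9 : ℕ) / 26) ∧ Real.cos (Real.pi * (9 : ℕ) / 26) ≤ (0.464723172049082 : ℝ)) ∧
    ((0.354604887029773 : ℝ) ≤ Real.cos (Real.pi * (10 : ℕ) / 26) ∧ Real.cos (Real.pi * (10 : ℕ) / 26) ≤ (0.354604887055299 : ℝ)) ∧
    ((0.239315664256902 : ℝ) ≤ Real.cos (Real.pi * (11 : ℕ) / 26) ∧ Real.cos (Real.pi * (11 : ℕ) / 26) ≤ (0.239315664318214 : ℝ)) ∧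
    ((0.120536680181693 : ℝ) ≤ Real.cos (Real.pi * (12 : ℕ) / 26) ∧ Real.cos (Real.pi * (12 : ℕ) / 26) ≤ (0.120536680328954 : ℝ)) ∧
    ((-0.000000000176845 : ℝ) ≤ Real.cos (Real.pi * (13 : ℕ) / 26) ∧ Real.cos (Real.pi * (13 : ℕ) / 26) ≤ (0.000000000176846 : ℝ)) := by
  have p1 := Real.pi_gt_d20
  have p2 := Real.pi_lt_d20
  have c0 : ((1.000000000000000 : ℝ) ≤ Real.cos (Real.pi * (0 : ℕ) / 26) ∧ Real.cos (Real.pi * (0 : ℕ) / 26) ≤ (1.000000000000000 : ℝ)) := by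
    rw [Nat.cast_zero, mul_zero, zero_div, Real.cos_zero]; norm_num
  have c1 : ((0.992708874098052 : ℝ) ≤ Real.cos (Real.pi * (1 : ℕ) / 26) ∧ Real.cos (Real.pi * (1 : ℕ) / 26) ≤ (0.992708874098056 : ℝ)) := by
    have h := TR26_cos_encl (Real.pi * (1 : ℕ) / 26) (3.14159265358979 / 26) (3.14159265358980 / 26) (by norm_num)
      (by push_cast; linarith) (by push_cast; linarith) (by norm_num)
    refine ⟨le_trans ?_ h.1, le_trans h.2 ?_⟩ <;> norm_num
  have hrec : ∀ j : ℕ, Real.cos (Real.pi * ((j + 2 : ℕ) : ℝ) / 26) =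
      2 * Real.cos (Real.pi * (1 : ℕ) / 26) * Real.cos (Real.pi * ((j + 1 : ℕ) : ℝ) / 26) -
      Real.cos (Real.pi * (j : ℝ) / 26) := by
    intro j
    have h1 : Real.pi * ((j + 2 : ℕ) : ℝ) / 26 =
      Real.pi * ((j + 1 : ℕ) : ℝ) / 26 + Real.pi * (1 : ℕ) / 26 := by push_cast; ring
    have h2 : Real.pi * (j : ℝ) / 26 =
      Real.pi * ((j + 1 : ℕ) : ℝ) / 26 - Real.pi * (1 : ℕ) / 26 := by push_cast; ring
    rw [h1, h2, Real.cos_add, Real.cos_sub]; ring
  have c2 : ((0.970941817426043 : ℝ) ≤ Real.cos (Real.pi * (2 : ℕ) / 26) ∧ Real.cos (Real.pi * (2 : ℕ) / 26) ≤ (0.970941817426061 : ℝ)) := by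
    have h := hrec 0
    norm_num only [Nat.reduceAdd] at h
    have m1 := mul_le_mul c1.1 c1.1 (by norm_num) (le_trans (by norm_num) c1.1)
    have m2 := mul_le_mul c1.2 c1.2 (le_trans (by norm_num) c1.1) (by norm_num)
    norm_num only [Nat.cast_ofNat, Nat.cast_one, Nat.cast_zero] at h m1 m2 c0 c1 ⊢
    constructor <;> linarith [c0.1, c0.2]
  have c3 : ((0.935016242685390 : ℝ) ≤ Real.cos (Real.pi * (3 : ℕ) / 26) ∧ Real.cos (Real.pi * (3 : ℕ) / 26) ≤ (0.935016242685440 : ℝ)) := by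
    have h := hrec 1
    norm_num only [Nat.reduceAdd] at h
    have m1 := mul_le_mul c1.1 c2.1 (by norm_num) (le_trans (by norm_num) c1.1)
    have m2 := mul_le_mul c1.2 c2.2 (le_trans (by norm_num) c2.1) (by norm_num)
    norm_num only [Nat.cast_ofNat, Nat.cast_one, Nat.cast_zero] at h m1 m2 c1 c2 ⊢
    constructor <;> linarith [c1.1, c1.2]
  have c4 : ((0.885456025653146 : ℝ) ≤ Real.cos (Real.pi * (4 : ℕ) / 26) ∧ Real.cos (Real.pi * (4 : ℕ) / 26) ≤ (0.885456025653274 : ℝ)) := by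
    have h := hrec 2
    norm_num only [Nat.reduceAdd] at h
    have m1 := mul_le_mul c1.1 c3.1 (by norm_num) (le_trans (by norm_num) c1.1)
    have m2 := mul_le_mul c1.2 c3.2 (le_trans (by norm_num) c3.1) (by norm_num)
    norm_num only [Nat.cast_ofNat, Nat.cast_one, Nat.cast_zero] at h m1 m2 c1 c2 c3 ⊢
    constructor <;> linarith [c2.1, c2.2]
  have c5 : ((0.822983865893499 : ℝ) ≤ Real.cos (Real.pi * (5 : ℕ) / 26) ∧ Real.cos (Real.pi * (5 : ℕ) / 26) ≤ (0.822983865893814 : ℝ)) := by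
    have h := hrec 3
    norm_num only [Nat.reduceAdd] at h
    have m1 := mul_le_mul c1.1 c4.1 (by norm_num) (le_trans (by norm_num) c1.1)
    have m2 := mul_le_mul c1.2 c4.2 (le_trans (by norm_num) c4.1) (by norm_num)
    norm_num only [Nat.cast_ofNat, Nat.cast_one, Nat.cast_zero] at h m1 m2 c1 c3 c4 ⊢
    constructor <;> linarith [c3.1, c3.2]
  have c6 : ((0.748510748170720 : ℝ) ≤ Real.cos (Real.pi * (6 : ℕ) / 26) ∧ Real.cos (Real.pi * (6 : ℕ) / 26) ≤ (0.748510748171483 : ℝ)) := by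
    have h := hrec 4
    norm_num only [Nat.reduceAdd] at h
    have m1 := mul_le_mul c1.1 c5.1 (by norm_num) (le_trans (by norm_num) c1.1)
    have m2 := mul_le_mul c1.2 c5.2 (le_trans (by norm_num) c5.1) (by norm_num)
    norm_num only [Nat.cast_ofNat, Nat.cast_one, Nat.cast_zero] at h m1 m2 c1 c4 c5 ⊢
    constructor <;> linarith [c4.1, c4.2]
  have c7 : ((0.663122658239876 : ℝ) ≤ Real.cos (Real.pi * (7 : ℕ) / 26) ∧ Real.cos (Real.pi * (7 : ℕ) / 26) ≤ (0.663122658241715 : ℝ)) := by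
    have h := hrec 5
    norm_num only [Nat.reduceAdd] at h
    have m1 := mul_le_mul c1.1 c6.1 (by norm_num) (le_trans (by norm_num) c1.1)
    have m2 := mul_le_mul c1.2 c6.2 (le_trans (by norm_num) c6.1) (by norm_num)
    norm_num only [Nat.cast_ofNat, Nat.cast_one, Nat.cast_zero] at h m1 m2 c1 c5 c6 ⊢
    constructor <;> linarith [c5.1, c5.2]
  have c8 : ((0.568064746728945 : ℝ) ≤ Real.cos (Real.pi * (8 : ℕ) / 26) ∧ Real.cos (Real.pi * (8 : ℕ) / 26) ≤ (0.568064746733367 : ℝ)) := by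
    have h := hrec 6
    norm_num only [Nat.reduceAdd] at h
    have m1 := mul_le_mul c1.1 c7.1 (by norm_num) (le_trans (by norm_num) c1.1)
    have m2 := mul_le_mul c1.2 c7.2 (le_trans (by norm_num) c7.1) (by norm_num)
    norm_num only [Nat.cast_ofNat, Nat.cast_one, Nat.cast_zero] at h m1 m2 c1 c6 c7 ⊢
    constructor <;> linarith [c6.1, c6.2]
  have c9 : ((0.464723172038456 : ℝ) ≤ Real.cos (Real.pi * (9 : ℕ) / 26) ∧ Real.cos (Real.pi * (9 : ℕ) / 26) ≤ (0.464723172049082 : ℝ)) := by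
    have h := hrec 7
    norm_num only [Nat.reduceAdd] at h
    have m1 := mul_le_mul c1.1 c8.1 (by norm_num) (le_trans (by norm_num) c1.1)
    have m2 := mul_le_mul c1.2 c8.2 (le_trans (by norm_num) c8.1) (by norm_num)
    norm_num only [Nat.cast_ofNat, Nat.cast_one, Nat.cast_zero] at h m1 m2 c1 c7 c8 ⊢
    constructor <;> linarith [c7.1, c7.2]
  have c10 : ((0.354604887029773 : ℝ) ≤ Real.cos (Real.pi * (10 : ℕ) / 26) ∧ Real.cos (Real.pi * (10 : ℕ) / 26) ≤ (0.354604887055299 : ℝ)) := by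
    have h := hrec 8
    norm_num only [Nat.reduceAdd] at h
    have m1 := mul_le_mul c1.1 c9.1 (by norm_num) (le_trans (by norm_num) c1.1)
    have m2 := mul_le_mul c1.2 c9.2 (le_trans (by norm_num) c9.1) (by norm_num)
    norm_num only [Nat.cast_ofNat, Nat.cast_one, Nat.cast_zero] at h m1 m2 c1 c8 c9 ⊢
    constructor <;> linarith [c8.1, c8.2]
  have c11 : ((0.239315664256902 : ℝ) ≤ Real.cos (Real.pi * (11 : ℕ) / 26) ∧ Real.cos (Real.pi * (11 : ℕ) / 26) ≤ (0.239315664318214 : ℝ)) := by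
    have h := hrec 9
    norm_num only [Nat.reduceAdd] at h
    have m1 := mul_le_mul c1.1 c10.1 (by norm_num) (le_trans (by norm_num) c1.1)
    have m2 := mul_le_mul c1.2 c10.2 (le_trans (by norm_num) c10.1) (by norm_num)
    norm_num only [Nat.cast_ofNat, Nat.cast_one, Nat.cast_zero] at h m1 m2 c1 c10 c9 ⊢
    constructor <;> linarith [c9.1, c9.2]
  have c12 : ((0.120536680181693 : ℝ) ≤ Real.cos (Real.pi * (12 : ℕ) / 26) ∧ Real.cos (Real.pi * (12 : ℕ) / 26) ≤ (0.120536680328954 : ℝ)) := by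
    have h := hrec 10
    norm_num only [Nat.reduceAdd] at h
    have m1 := mul_le_mul c1.1 c11.1 (by norm_num) (le_trans (by norm_num) c1.1)
    have m2 := mul_le_mul c1.2 c11.2 (le_trans (by norm_num) c11.1) (by norm_num)
    norm_num only [Nat.cast_ofNat, Nat.cast_one, Nat.cast_zero] at h m1 m2 c1 c10 c11 ⊢
    constructor <;> linarith [c10.1, c10.2]
  have c13 : ((-0.000000000176845 : ℝ) ≤ Real.cos (Real.pi * (13 : ℕ) / 26) ∧ Real.cos (Real.pi * (13 : ℕ) / 26) ≤ (0.000000000176846 : ℝ)) := by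
    have h := hrec 11
    norm_num only [Nat.reduceAdd] at h
    have m1 := mul_le_mul c1.1 c12.1 (by norm_num) (le_trans (by norm_num) c1.1)
    have m2 := mul_le_mul c1.2 c12.2 (le_trans (by norm_num) c12.1) (by norm_num)
    norm_num only [Nat.cast_ofNat, Nat.cast_one, Nat.cast_zero] at h m1 m2 c1 c11 c12 ⊢
    constructor <;> linarith [c11.1, c11.2]
  exact ⟨c0, c1, c2, c3, c4, c5, c6, c7, c8, c9, c10, c11, c12, c13⟩

theorem TR26_neg (j : ℕ) (hj : j ≤ 26) : Real.cos (Real.pi * ((26 - j : ℕ) : ℝ) / 26) =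
    -Real.cos (Real.pi * j / 26) := by
  rw [Nat.cast_sub hj, ← Real.cos_pi_sub]
  congr 1
  push_cast
  ring

theorem TR26_per (j : ℕ) (hj : j ≤ 52) : Real.cos (Real.pi * ((52 - j : ℕ) : ℝ) / 26) =
    Real.cos (Real.pi * j / 26) := by
  rw [Nat.cast_sub hj, ← Real.cos_two_pi_sub]
  congr 1
  push_cast
  ring

theorem th_TR26 : S_TR26 := by
  have hv := TR26_vals
  have h1 : ∀ j : ℕ, j ≤ 13 → 100000000 * Real.cos (Real.pi * j / 26) ≤ (U26.getD j 0 : ℝ) ∧
      -(100000000 * Real.cos (Real.pi * j / 26)) ≤ (U26.getD (26 - j) 0 : ℝ) ∧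
      -(100000000 * Real.cos (Real.pi * j / 26)) ≤ (U26.getD (26 + j) 0 : ℝ) ∧
      100000000 * Real.cos (Real.pi * j / 26) ≤ (U26.getD (52 - j) 0 : ℝ) := by
    obtain ⟨c0, c1, c2, c3, c4, c5, c6, c7, c8, c9, c10, c11, c12, c13⟩ := hv
    intro j hj
    interval_cases j

    · refine ⟨?_, ?_, ?_, ?_⟩ <;> simp only [U26, List.getD_cons_succ, List.getD_cons_zero, Nat.reduceSub, Nat.reduceAdd] <;> push_cast at c0 ⊢ <;> linarith [c0.1, c0.2]
    · refine ⟨?_, ?_, ?_, ?_⟩ <;> simp only [U26, List.getD_cons_succ, List.getD_cons_zero, Nat.reduceSub, Nat.reduceAdd] <;> push_cast at c1 ⊢ <;> linarith [c1.1, c1.2]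
    · refine ⟨?_, ?_, ?_, ?_⟩ <;> simp only [U26, List.getD_cons_succ, List.getD_cons_zero, Nat.reduceSub, Nat.reduceAdd] <;> push_cast at c2 ⊢ <;> linarith [c2.1, c2.2]
    · refine ⟨?_, ?_, ?_, ?_⟩ <;> simp only [U26, List.getD_cons_succ, List.getD_cons_zero, Nat.reduceSub, Nat.reduceAdd] <;> push_cast at c3 ⊢ <;> linarith [c3.1, c3.2]
    · refine ⟨?_, ?_, ?_, ?_⟩ <;> simp only [U26, List.getD_cons_succ, List.getD_cons_zero, Nat.reduceSub, Nat.reduceAdd] <;> push_cast at c4 ⊢ <;> linarith [c4.1, c4.2]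
    · refine ⟨?_, ?_, ?_, ?_⟩ <;> simp only [U26, List.getD_cons_succ, List.getD_cons_zero, Nat.reduceSub, Nat.reduceAdd] <;> push_cast at c5 ⊢ <;> linarith [c5.1, c5.2]
    · refine ⟨?_, ?_, ?_, ?_⟩ <;> simp only [U26, List.getD_cons_succ, List.getD_cons_zero, Nat.reduceSub, Nat.reduceAdd] <;> push_cast at c6 ⊢ <;> linarith [c6.1, c6.2]
    · refine ⟨?_, ?_, ?_, ?_⟩ <;> simp only [U26, List.getD_cons_succ, List.getD_cons_zero, Nat.reduceSub, Nat.reduceAdd] <;> push_cast at c7 ⊢ <;> linarith [c7.1, c7.2]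
    · refine ⟨?_, ?_, ?_, ?_⟩ <;> simp only [U26, List.getD_cons_succ, List.getD_cons_zero, Nat.reduceSub, Nat.reduceAdd] <;> push_cast at c8 ⊢ <;> linarith [c8.1, c8.2]
    · refine ⟨?_, ?_, ?_, ?_⟩ <;> simp only [U26, List.getD_cons_succ, List.getD_cons_zero, Nat.reduceSub, Nat.reduceAdd] <;> push_cast at c9 ⊢ <;> linarith [c9.1, c9.2]
    · refine ⟨?_, ?_, ?_, ?_⟩ <;> simp only [U26, List.getD_cons_succ, List.getD_cons_zero, Nat.reduceSub, Nat.reduceAdd] <;> push_cast at c10 ⊢ <;> linarith [c10.1, c10.2]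
    · refine ⟨?_, ?_, ?_, ?_⟩ <;> simp only [U26, List.getD_cons_succ, List.getD_cons_zero, Nat.reduceSub, Nat.reduceAdd] <;> push_cast at c11 ⊢ <;> linarith [c11.1, c11.2]
    · refine ⟨?_, ?_, ?_, ?_⟩ <;> simp only [U26, List.getD_cons_succ, List.getD_cons_zero, Nat.reduceSub, Nat.reduceAdd] <;> push_cast at c12 ⊢ <;> linarith [c12.1, c12.2]
    · refine ⟨?_, ?_, ?_, ?_⟩ <;> simp only [U26, List.getD_cons_succ, List.getD_cons_zero, Nat.reduceSub, Nat.reduceAdd] <;> push_cast at c13 ⊢ <;> linarith [c13.1, c13.2]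
  intro j hj
  rcases Nat.lt_or_ge 13 j with h | h
  · rcases Nat.lt_or_ge 26 j with h' | h'
    · rcases Nat.lt_or_ge 39 j with h'' | h''
      · have := (h1 (52 - j) (by omega)).2.2.2
        rw [TR26_per j (by omega), show 52 - (52 - j) = j by omega] at this
        exact this
      · have h2 := (h1 (j - 26) (by omega)).2.2.1
        rw [show 26 + (j - 26) = j by omega] at h2
        have h3 : Real.cos (Real.pi * j / 26) = -Real.cos (Real.pi * ((j - 26 : ℕ) : ℝ) / 26) := by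
          rw [← TR26_neg (j - 26) (by omega), show 26 - (j - 26) = 52 - j by omega,
            TR26_per j (by omega)]
        rw [h3]
        linarith
    · have h2 := (h1 (26 - j) (by omega)).2.1
      rw [TR26_neg j (by omega), show 26 - (26 - j) = j by omega] at h2
      linarith
  · exact (h1 j h).1

end Pool.Agent.Fr

end

section

/-!
# The fourteen search trees
-/

set_option autoImplicit false

namespace Pool.Agent.Fr

open Pool.Agent.Fr.Cert

/-- Table `C`, `n = 26`. -/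
def C26 : List ℤ :=
  [10026, 9443, 8312, 6697, 4694, 2417, 1, -2393, -4647, -6631, -8229, -9350, -9927, -9927, -9350, -8229, -6631, -4647, -2393, 1, 2417, 4694, 6697, 8312, 9443, 10026]

theorem okC26 : okC 26 10099 U26 C26 := by
  unfold okC
  decide +kernel

/-- Table `C`, `n = 18`. -/
def C18 : List ℤ :=
  [10052, 8840, 6561, 3492, 1, -3420, -6427, -8660, -9848, -9848, -8660, -6427, -3420, 1, 3492, 6561, 8840, 10052]

theorem okC18 : okC 18 10207 U18 C18 := by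
  unfold okC
  decide +kernel

/-- Table `D`, `n = 18`, middle `π 2 / 18`, half width `π 2 / 18`. -/
def D18_2_2 : List ℤ :=
  [5431, 5432, 4776, 3545, 1887, 0, -1847, -3473, -4679, -5320, -5321, -4679, -3473, -1847, 0, 1887, 3545, 4777]

theorem okD18_2_2 : okD 18 2 10207 5321 U18 D18_2_2 := by
  unfold okD
  decide +kernel

/-- Table `D`, `n = 18`, middle `π 6 / 18`, half width `π 2 / 18`. -/
def D18_6_2 : List ℤ :=
  [3545, 4776, 5432, 5432, 4776, 3545, 1887, 0, -1847, -3473, -4679, -5320, -5321, -4679, -3473, -1847, 0, 1887]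

theorem okD18_6_2 : okD 18 6 10207 5321 U18 D18_6_2 := by
  unfold okD
  decide +kernel

/-- Table `D`, `n = 18`, middle `π 7 / 18`, half width `π 2 / 18`. -/
def D18_7_2 : List ℤ :=
  [2757, 4226, 5182, 5516, 5182, 4226, 2758, 958, -938, -2701, -4139, -5077, -5403, -5077, -4139, -2701, -938, 959]

theorem okD18_7_2 : okD 18 7 10207 5321 U18 D18_7_2 := by
  unfold okD
  decide +kernel

/-- Table `D`, `n = 18`, middle `π 11 / 18`, half width `π 2 / 18`. -/
def D18_11_2 : List ℤ :=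
  [-938, 958, 2758, 4225, 5183, 5515, 5183, 4225, 2758, 958, -938, -2701, -4139, -5077, -5403, -5077, -4139, -2701]

theorem okD18_11_2 : okD 18 11 10207 5321 U18 D18_11_2 := by
  unfold okD
  decide +kernel

/-- Table `D`, `n = 18`, middle `π 11 / 18`, half width `π 3 / 18`. -/
def D18_11_3 : List ℤ :=
  [-1018, 1039, 2993, 4584, 5624, 5984, 5624, 4584, 2993, 1039, -1018, -2931, -4491, -5509, -5863, -5509, -4491, -2931]

theorem okD18_11_3 : okD 18 11 10207 5774 U18 D18_11_3 := by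
  unfold okD
  decide +kernel

/-- Table `D`, `n = 18`, middle `π 15 / 18`, half width `π 3 / 18`. -/
def D18_15_3 : List ℤ :=
  [-4491, -2931, -1018, 1039, 2993, 4584, 5624, 5984, 5624, 4584, 2993, 1039, -1018, -2931, -4491, -5509, -5863, -5509]

theorem okD18_15_3 : okD 18 15 10207 5774 U18 D18_15_3 := by
  unfold okD
  decide +kernel

/-- Table `D`, `n = 26`, middle `π 2 / 26`, half width `π 2 / 26`. -/
def D26_2_2 : List ℤ :=
  [5201, 5201, 4899, 4312, 3474, 2435, 1254, 0, -1241, -2411, -3440, -4269, -4851, -5149, -5149, -4851, -4269, -3440, -2411, -1241, 0, 1254, 2435, 3474, 4312, 4899]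

theorem okD26_2_2 : okD 26 2 10099 5150 U26 D26_2_2 := by
  unfold okD
  decide +kernel

/-- Table `D`, `n = 26`, middle `π 6 / 26`, half width `π 2 / 26`. -/
def D26_6_2 : List ℤ :=
  [4312, 4899, 5201, 5201, 4899, 4312, 3474, 2435, 1254, 0, -1241, -2411, -3440, -4269, -4851, -5149, -5149, -4851, -4269, -3440, -2411, -1241, 0, 1254, 2435, 3474]

theorem okD26_6_2 : okD 26 6 10099 5150 U26 D26_6_2 := by
  unfold okD
  decide +kernel

/-- Range A, sector `(26, 2, 2)`. -/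
def parA_26_2_2 : Par := ⟨26, C26, D26_2_2, 13251, 6810, -2082, 16841, 6990⟩

theorem tabOKA_26_2_2 : TabOK tabA_26_2_2 parA_26_2_2 where
  n := by decide +kernel
  two := by decide +kernel
  lt := by decide +kernel
  F0P := by decide +kernel
  F0Q := by decide +kernel
  F1P := by decide +kernel
  F1Q := by decide +kernel
  B1 := by decide +kernel
  B1le := by decide +kernel
  c0 := by decide +kernel
  c1 := by decide +kernel

theorem treeA_26_2_2 (hs : Soundness) (c : Conf) (hc : Good parA_26_2_2 c) (h1 : 17 ≤ c.k) (h2 : 0 = 0 ∨ c.k ≤ 0) :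
    False :=
  tree hs tabOKA_26_2_2 runA_26_2_2 c hc h1 h2

/-- Range A, sector `(26, 6, 2)`. -/
def parA_26_6_2 : Par := ⟨26, C26, D26_6_2, 13251, 6810, -2082, 16841, 6990⟩

theorem tabOKA_26_6_2 : TabOK tabA_26_6_2 parA_26_6_2 where
  n := by decide +kernel
  two := by decide +kernel
  lt := by decide +kernel
  F0P := by decide +kernel
  F0Q := by decide +kernel
  F1P := by decide +kernel
  F1Q := by decide +kernel
  B1 := by decide +kernel
  B1le := by decide +kernel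
  c0 := by decide +kernel
  c1 := by decide +kernel

theorem treeA_26_6_2 (hs : Soundness) (c : Conf) (hc : Good parA_26_6_2 c) (h1 : 17 ≤ c.k) (h2 : 0 = 0 ∨ c.k ≤ 0) :
    False :=
  tree hs tabOKA_26_6_2 runA_26_6_2 c hc h1 h2

/-- Range A, sector `(18, 7, 2)`. -/
def parA_18_7_2 : Par := ⟨18, C18, D18_7_2, 13251, 6810, -2082, 16841, 6990⟩

theorem tabOKA_18_7_2 : TabOK tabA_18_7_2 parA_18_7_2 where
  n := by decide +kernel
  two := by decide +kernel
  lt := by decide +kernel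
  F0P := by decide +kernel
  F0Q := by decide +kernel
  F1P := by decide +kernel
  F1Q := by decide +kernel
  B1 := by decide +kernel
  B1le := by decide +kernel
  c0 := by decide +kernel
  c1 := by decide +kernel

theorem treeA_18_7_2 (hs : Soundness) (c : Conf) (hc : Good parA_18_7_2 c) (h1 : 17 ≤ c.k) (h2 : 0 = 0 ∨ c.k ≤ 0) :
    False :=
  tree hs tabOKA_18_7_2 runA_18_7_2 c hc h1 h2

/-- Range A, sector `(18, 11, 2)`. -/
def parA_18_11_2 : Par := ⟨18, C18, D18_11_2, 13251, 6810, -2082, 16841, 6990⟩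

theorem tabOKA_18_11_2 : TabOK tabA_18_11_2 parA_18_11_2 where
  n := by decide +kernel
  two := by decide +kernel
  lt := by decide +kernel
  F0P := by decide +kernel
  F0Q := by decide +kernel
  F1P := by decide +kernel
  F1Q := by decide +kernel
  B1 := by decide +kernel
  B1le := by decide +kernel
  c0 := by decide +kernel
  c1 := by decide +kernel

theorem treeA_18_11_2 (hs : Soundness) (c : Conf) (hc : Good parA_18_11_2 c) (h1 : 17 ≤ c.k) (h2 : 0 = 0 ∨ c.k ≤ 0) :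
    False :=
  tree hs tabOKA_18_11_2 runA_18_11_2 c hc h1 h2

/-- Range A, sector `(18, 15, 3)`. -/
def parA_18_15_3 : Par := ⟨18, C18, D18_15_3, 13251, 6810, -2082, 16841, 6990⟩

theorem tabOKA_18_15_3 : TabOK tabA_18_15_3 parA_18_15_3 where
  n := by decide +kernel
  two := by decide +kernel
  lt := by decide +kernel
  F0P := by decide +kernel
  F0Q := by decide +kernel
  F1P := by decide +kernel
  F1Q := by decide +kernel
  B1 := by decide +kernel
  B1le := by decide +kernel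
  c0 := by decide +kernel
  c1 := by decide +kernel

theorem treeA_18_15_3 (hs : Soundness) (c : Conf) (hc : Good parA_18_15_3 c) (h1 : 17 ≤ c.k) (h2 : 0 = 0 ∨ c.k ≤ 0) :
    False :=
  tree hs tabOKA_18_15_3 runA_18_15_3 c hc h1 h2

/-- Range B, sector `(26, 2, 2)`. -/
def parB_26_2_2 : Par := ⟨26, C26, D26_2_2, 12242, -9512, -792, 15366, 5691⟩

theorem tabOKB_26_2_2 : TabOK tabB_26_2_2 parB_26_2_2 where
  n := by decide +kernel
  two := by decide +kernel
  lt := by decide +kernel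
  F0P := by decide +kernel
  F0Q := by decide +kernel
  F1P := by decide +kernel
  F1Q := by decide +kernel
  B1 := by decide +kernel
  B1le := by decide +kernel
  c0 := by decide +kernel
  c1 := by decide +kernel

theorem treeB_26_2_2 (hs : Soundness) (c : Conf) (hc : Good parB_26_2_2 c) (h1 : 8 ≤ c.k) (h2 : 16 = 0 ∨ c.k ≤ 16) :
    False :=
  tree hs tabOKB_26_2_2 runB_26_2_2 c hc h1 h2

/-- Range B, sector `(26, 6, 2)`. -/
def parB_26_6_2 : Par := ⟨26, C26, D26_6_2, 12242, -9512, -792, 15366, 5691⟩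

theorem tabOKB_26_6_2 : TabOK tabB_26_6_2 parB_26_6_2 where
  n := by decide +kernel
  two := by decide +kernel
  lt := by decide +kernel
  F0P := by decide +kernel
  F0Q := by decide +kernel
  F1P := by decide +kernel
  F1Q := by decide +kernel
  B1 := by decide +kernel
  B1le := by decide +kernel
  c0 := by decide +kernel
  c1 := by decide +kernel

theorem treeB_26_6_2 (hs : Soundness) (c : Conf) (hc : Good parB_26_6_2 c) (h1 : 8 ≤ c.k) (h2 : 16 = 0 ∨ c.k ≤ 16) :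
    False :=
  tree hs tabOKB_26_6_2 runB_26_6_2 c hc h1 h2

/-- Range B, sector `(18, 7, 2)`. -/
def parB_18_7_2 : Par := ⟨18, C18, D18_7_2, 12242, -9512, -792, 15366, 5691⟩

theorem tabOKB_18_7_2 : TabOK tabB_18_7_2 parB_18_7_2 where
  n := by decide +kernel
  two := by decide +kernel
  lt := by decide +kernel
  F0P := by decide +kernel
  F0Q := by decide +kernel
  F1P := by decide +kernel
  F1Q := by decide +kernel
  B1 := by decide +kernel
  B1le := by decide +kernel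
  c0 := by decide +kernel
  c1 := by decide +kernel

theorem treeB_18_7_2 (hs : Soundness) (c : Conf) (hc : Good parB_18_7_2 c) (h1 : 8 ≤ c.k) (h2 : 16 = 0 ∨ c.k ≤ 16) :
    False :=
  tree hs tabOKB_18_7_2 runB_18_7_2 c hc h1 h2

/-- Range B, sector `(18, 11, 3)`. -/
def parB_18_11_3 : Par := ⟨18, C18, D18_11_3, 12242, -9512, -792, 15366, 5691⟩

theorem tabOKB_18_11_3 : TabOK tabB_18_11_3 parB_18_11_3 where
  n := by decide +kernel
  two := by decide +kernel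
  lt := by decide +kernel
  F0P := by decide +kernel
  F0Q := by decide +kernel
  F1P := by decide +kernel
  F1Q := by decide +kernel
  B1 := by decide +kernel
  B1le := by decide +kernel
  c0 := by decide +kernel
  c1 := by decide +kernel

theorem treeB_18_11_3 (hs : Soundness) (c : Conf) (hc : Good parB_18_11_3 c) (h1 : 8 ≤ c.k) (h2 : 16 = 0 ∨ c.k ≤ 16) :
    False :=
  tree hs tabOKB_18_11_3 runB_18_11_3 c hc h1 h2

/-- Range B, sector `(18, 15, 3)`. -/
def parB_18_15_3 : Par := ⟨18, C18, D18_15_3, 12242, -9512, -792, 15366, 5691⟩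

theorem tabOKB_18_15_3 : TabOK tabB_18_15_3 parB_18_15_3 where
  n := by decide +kernel
  two := by decide +kernel
  lt := by decide +kernel
  F0P := by decide +kernel
  F0Q := by decide +kernel
  F1P := by decide +kernel
  F1Q := by decide +kernel
  B1 := by decide +kernel
  B1le := by decide +kernel
  c0 := by decide +kernel
  c1 := by decide +kernel

theorem treeB_18_15_3 (hs : Soundness) (c : Conf) (hc : Good parB_18_15_3 c) (h1 : 8 ≤ c.k) (h2 : 16 = 0 ∨ c.k ≤ 16) :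
    False :=
  tree hs tabOKB_18_15_3 runB_18_15_3 c hc h1 h2

/-- Range C, sector `(18, 2, 2)`. -/
def parC_18_2_2 : Par := ⟨18, C18, D18_2_2, 13090, -3396, 0, 0, 0⟩

theorem tabOKC_18_2_2 : TabOK tabC_18_2_2 parC_18_2_2 where
  n := by decide +kernel
  two := by decide +kernel
  lt := by decide +kernel
  F0P := by decide +kernel
  F0Q := by decide +kernel
  F1P := by decide +kernel
  F1Q := by decide +kernel
  B1 := by decide +kernel
  B1le := by decide +kernel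
  c0 := by decide +kernel
  c1 := by decide +kernel

theorem treeC_18_2_2 (hs : Soundness) (c : Conf) (hc : Good parC_18_2_2 c) (h1 : 3 ≤ c.k) (h2 : 7 = 0 ∨ c.k ≤ 7) :
    False :=
  tree hs tabOKC_18_2_2 runC_18_2_2 c hc h1 h2

/-- Range C, sector `(18, 6, 2)`. -/
def parC_18_6_2 : Par := ⟨18, C18, D18_6_2, 13090, -3396, 0, 0, 0⟩

theorem tabOKC_18_6_2 : TabOK tabC_18_6_2 parC_18_6_2 where
  n := by decide +kernel
  two := by decide +kernel
  lt := by decide +kernel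
  F0P := by decide +kernel
  F0Q := by decide +kernel
  F1P := by decide +kernel
  F1Q := by decide +kernel
  B1 := by decide +kernel
  B1le := by decide +kernel
  c0 := by decide +kernel
  c1 := by decide +kernel

theorem treeC_18_6_2 (hs : Soundness) (c : Conf) (hc : Good parC_18_6_2 c) (h1 : 3 ≤ c.k) (h2 : 7 = 0 ∨ c.k ≤ 7) :
    False :=
  tree hs tabOKC_18_6_2 runC_18_6_2 c hc h1 h2

/-- Range C, sector `(18, 11, 3)`. -/
def parC_18_11_3 : Par := ⟨18, C18, D18_11_3, 13090, -3396, 0, 0, 0⟩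

theorem tabOKC_18_11_3 : TabOK tabC_18_11_3 parC_18_11_3 where
  n := by decide +kernel
  two := by decide +kernel
  lt := by decide +kernel
  F0P := by decide +kernel
  F0Q := by decide +kernel
  F1P := by decide +kernel
  F1Q := by decide +kernel
  B1 := by decide +kernel
  B1le := by decide +kernel
  c0 := by decide +kernel
  c1 := by decide +kernel

theorem treeC_18_11_3 (hs : Soundness) (c : Conf) (hc : Good parC_18_11_3 c) (h1 : 3 ≤ c.k) (h2 : 7 = 0 ∨ c.k ≤ 7) :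
    False :=
  tree hs tabOKC_18_11_3 runC_18_11_3 c hc h1 h2

/-- Range C, sector `(18, 15, 3)`. -/
def parC_18_15_3 : Par := ⟨18, C18, D18_15_3, 13090, -3396, 0, 0, 0⟩

theorem tabOKC_18_15_3 : TabOK tabC_18_15_3 parC_18_15_3 where
  n := by decide +kernel
  two := by decide +kernel
  lt := by decide +kernel
  F0P := by decide +kernel
  F0Q := by decide +kernel
  F1P := by decide +kernel
  F1Q := by decide +kernel
  B1 := by decide +kernel
  B1le := by decide +kernel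
  c0 := by decide +kernel
  c1 := by decide +kernel

theorem treeC_18_15_3 (hs : Soundness) (c : Conf) (hc : Good parC_18_15_3 c) (h1 : 3 ≤ c.k) (h2 : 7 = 0 ∨ c.k ≤ 7) :
    False :=
  tree hs tabOKC_18_15_3 runC_18_15_3 c hc h1 h2

end Pool.Agent.Fr

end

section

/-!
# The end of the proof, given the items
-/

set_option autoImplicit false

open scoped Pointwise

namespace Pool.Agent.Fr

open Pool.Agent.LS Pool.Agent.Fou Pool.Agent.Fr.Cert

/-- the conclusion of `S_FUN` -/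
def FunC : Prop := ∀ (P : Par) (p : ℕ) [Fact p.Prime] (S : Finset (ZMod p)) (r : ZMod p) (u : ℝ)
    (V : ℝ), 4 ≤ P.n → Even P.n → Hyp S → ¬ Concl S → r ≠ 0 →
    V ≤ (P.Phi ⟨S.card, cnt P.n u (aff r 0 S), cnt P.n (u + u) (aff r 0 S + aff r 0 S)⟩ : ℝ) →
    (P.A0 : ℝ) * S.card ≤ V + P.C0 →
    (∀ u' : ℝ, (P.A1 : ℝ) * S.card + P.B1 * (half u' (aff r 0 S)).card ≤ V + P.C1) →
    Good P ⟨S.card, cnt P.n u (aff r 0 S), cnt P.n (u + u) (aff r 0 S + aff r 0 S)⟩

/-- a sector is settled for the sets of `k` elements -/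
def Settled (A0 C0 A1 B1 C1 : ℤ) (ps : ℝ) (k : ℕ) : Prop := ∃ (P : Par) (a : ℕ) (h : ℝ),
  4 ≤ P.n ∧ Even P.n ∧ P.A0 = A0 ∧ P.C0 = C0 ∧ P.A1 = A1 ∧ P.B1 = B1 ∧ P.C1 = C1 ∧
  Sector P a h ∧ |ps - Real.pi * a / P.n| ≤ h ∧ ∀ c : Conf, Good P c → c.k = k → False

theorem close {p : ℕ} [Fact p.Prime] (hPH : S_PH) (hFUN : FunC) {S : Finset (ZMod p)}
    (hS : Hyp S) (hC : ¬ Concl S) {A0 C0 A1 B1 C1 : ℤ}
    (hF : Freq S (A0 : ℝ) (C0 : ℝ) (A1 : ℝ) (B1 : ℝ) (C1 : ℝ))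
    (hsec : ∀ ps : ℝ, 0 ≤ ps → ps ≤ Real.pi → Settled A0 C0 A1 B1 C1 ps S.card) : False := by
  obtain ⟨r, hr, h0, h1⟩ := hF
  obtain ⟨r', hr', th, ps, hp0, hp1, hfa, hfaT, hsS, hsT⟩ := hPH p S r hr
  obtain ⟨P, a, h, hn4, hne, eA0, eC0, eA1, eB1, eC1, hSec, hps, hgood⟩ := hsec ps hp0 hp1
  obtain ⟨u, hu⟩ := hSec p (aff r' 0 S) th ps hps hsS hsT
  have hcard : (aff r' 0 S).card = S.card := card_aff hr' S
  rw [hcard] at hu
  refine hgood _ (hFUN P p S r' u _ hn4 hne hS hC hr' hu ?_ ?_) rfl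
  · rw [hfa, hfaT, eA0, eC0]
    exact h0
  · intro u'
    rw [hfa, hfaT, eA1, eB1, eC1]
    exact h1 r' u' hr'

/-- the conclusion of `S_SEC` -/
def SecC : Prop :=
  ∀ (P : Par) (a : ℕ) (κ l : ℤ) (h : ℝ) (U : List ℤ), 3 ≤ P.n → a ≤ P.n → 10000 ≤ κ → 0 ≤ l →
  (∀ j : ℕ, j ≤ 2 * P.n → 100000000 * Real.cos (Real.pi * j / P.n) ≤ (U.getD j 0 : ℝ)) →
  2 * Real.pi / P.n ≤ (κ / 10000 : ℝ) * Real.sin (2 * Real.pi / P.n) →
  0 ≤ h → h ≤ Real.pi → 1 / 2 ≤ (l / 10000 : ℝ) * Real.cos h →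
  okC P.n κ U P.C → okD P.n a κ l U P.D → Sector P a h

theorem sec26_2 (hSEC : SecC) (hTR : S_TR26) (hK : S_KAP) {P : Par} {a : ℕ} (hn : P.n = 26)
    (ha : a ≤ 26) (hC : okC 26 10099 U26 P.C) (hD : okD 26 a 10099 5150 U26 P.D) :
    Sector P a (Real.pi * 2 / 26) := by
  have hpi := Real.pi_pos
  obtain ⟨k1, k2, k3, k4, k5⟩ := hK
  refine hSEC P a 10099 5150 _ U26 (by omega) (by omega) (by norm_num) (by norm_num) ?_ ?_
    (by positivity) (by linarith) ?_ ?_ ?_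
  · intro j hj
    rw [hn] at hj ⊢
    exact hTR j (by omega)
  · rw [hn]
    norm_num at k1 ⊢
    exact k1
  · norm_num at k3 ⊢
    exact k3
  · rw [hn]; exact hC
  · rw [hn]; exact hD

theorem sec18_2 (hSEC : SecC) (hTR : S_TR18) (hK : S_KAP) {P : Par} {a : ℕ} (hn : P.n = 18)
    (ha : a ≤ 18) (hC : okC 18 10207 U18 P.C) (hD : okD 18 a 10207 5321 U18 P.D) :
    Sector P a (Real.pi * 2 / 18) := by
  have hpi := Real.pi_pos
  obtain ⟨k1, k2, k3, k4, k5⟩ := hK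
  refine hSEC P a 10207 5321 _ U18 (by omega) (by omega) (by norm_num) (by norm_num) ?_ ?_
    (by positivity) (by linarith) ?_ ?_ ?_
  · intro j hj
    rw [hn] at hj ⊢
    exact hTR j (by omega)
  · rw [hn]
    norm_num at k2 ⊢
    exact k2
  · norm_num at k4 ⊢
    exact k4
  · rw [hn]; exact hC
  · rw [hn]; exact hD

theorem sec18_3 (hSEC : SecC) (hTR : S_TR18) (hK : S_KAP) {P : Par} {a : ℕ} (hn : P.n = 18)
    (ha : a ≤ 18) (hC : okC 18 10207 U18 P.C) (hD : okD 18 a 10207 5774 U18 P.D) :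
    Sector P a (Real.pi * 3 / 18) := by
  have hpi := Real.pi_pos
  obtain ⟨k1, k2, k3, k4, k5⟩ := hK
  refine hSEC P a 10207 5774 _ U18 (by omega) (by omega) (by norm_num) (by norm_num) ?_ ?_
    (by positivity) (by linarith) ?_ ?_ ?_
  · intro j hj
    rw [hn] at hj ⊢
    exact hTR j (by omega)
  · rw [hn]
    norm_num at k2 ⊢
    exact k2
  · norm_num at k5 ⊢
    exact k5
  · rw [hn]; exact hC
  · rw [hn]; exact hD

section

variable (hs : Soundness) (hSEC : SecC) (h26 : S_TR26) (h18 : S_TR18) (hK : S_KAP)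

include hs hSEC h26 h18 hK

theorem settledA {ps : ℝ} (h0 : 0 ≤ ps) (h1 : ps ≤ Real.pi) {k : ℕ} (hk : 17 ≤ k) :
    Settled 13251 6810 (-2082) 16841 6990 ps k := by
  have hpi := Real.pi_pos
  rcases le_or_gt ps (4 * Real.pi / 26) with q1 | q1
  · refine ⟨parA_26_2_2, 2, Real.pi * 2 / 26, by decide, by decide, rfl, rfl, rfl, rfl, rfl,
      sec26_2 hSEC h26 hK rfl (by norm_num) okC26 okD26_2_2, ?_, fun c hc e =>
      treeA_26_2_2 hs c hc (by omega) (Or.inl rfl)⟩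
    rw [abs_le, show ((parA_26_2_2.n : ℕ) : ℝ) = 26 by norm_num [parA_26_2_2]]
    constructor <;> push_cast <;> linarith
  rcases le_or_gt ps (8 * Real.pi / 26) with q2 | q2
  · refine ⟨parA_26_6_2, 6, Real.pi * 2 / 26, by decide, by decide, rfl, rfl, rfl, rfl, rfl,
      sec26_2 hSEC h26 hK rfl (by norm_num) okC26 okD26_6_2, ?_, fun c hc e =>
      treeA_26_6_2 hs c hc (by omega) (Or.inl rfl)⟩
    rw [abs_le, show ((parA_26_6_2.n : ℕ) : ℝ) = 26 by norm_num [parA_26_6_2]]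
    constructor <;> push_cast <;> linarith
  rcases le_or_gt ps (9 * Real.pi / 18) with q3 | q3
  · refine ⟨parA_18_7_2, 7, Real.pi * 2 / 18, by decide, by decide, rfl, rfl, rfl, rfl, rfl,
      sec18_2 hSEC h18 hK rfl (by norm_num) okC18 okD18_7_2, ?_, fun c hc e =>
      treeA_18_7_2 hs c hc (by omega) (Or.inl rfl)⟩
    rw [abs_le, show ((parA_18_7_2.n : ℕ) : ℝ) = 18 by norm_num [parA_18_7_2]]
    constructor <;> push_cast <;> linarith
  rcases le_or_gt ps (13 * Real.pi / 18) with q4 | q4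
  · refine ⟨parA_18_11_2, 11, Real.pi * 2 / 18, by decide, by decide, rfl, rfl, rfl, rfl, rfl,
      sec18_2 hSEC h18 hK rfl (by norm_num) okC18 okD18_11_2, ?_, fun c hc e =>
      treeA_18_11_2 hs c hc (by omega) (Or.inl rfl)⟩
    rw [abs_le, show ((parA_18_11_2.n : ℕ) : ℝ) = 18 by norm_num [parA_18_11_2]]
    constructor <;> push_cast <;> linarith
  · refine ⟨parA_18_15_3, 15, Real.pi * 3 / 18, by decide, by decide, rfl, rfl, rfl, rfl, rfl,
      sec18_3 hSEC h18 hK rfl (by norm_num) okC18 okD18_15_3, ?_, fun c hc e =>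
      treeA_18_15_3 hs c hc (by omega) (Or.inl rfl)⟩
    rw [abs_le, show ((parA_18_15_3.n : ℕ) : ℝ) = 18 by norm_num [parA_18_15_3]]
    constructor <;> push_cast <;> linarith

theorem settledB {ps : ℝ} (h0 : 0 ≤ ps) (h1 : ps ≤ Real.pi) {k : ℕ} (hk : 8 ≤ k) (hk' : k ≤ 16) :
    Settled 12242 (-9512) (-792) 15366 5691 ps k := by
  have hpi := Real.pi_pos
  rcases le_or_gt ps (4 * Real.pi / 26) with q1 | q1
  · refine ⟨parB_26_2_2, 2, Real.pi * 2 / 26, by decide, by decide, rfl, rfl, rfl, rfl, rfl,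
      sec26_2 hSEC h26 hK rfl (by norm_num) okC26 okD26_2_2, ?_, fun c hc e =>
      treeB_26_2_2 hs c hc (by omega) (Or.inr (by omega))⟩
    rw [abs_le, show ((parB_26_2_2.n : ℕ) : ℝ) = 26 by norm_num [parB_26_2_2]]
    constructor <;> push_cast <;> linarith
  rcases le_or_gt ps (8 * Real.pi / 26) with q2 | q2
  · refine ⟨parB_26_6_2, 6, Real.pi * 2 / 26, by decide, by decide, rfl, rfl, rfl, rfl, rfl,
      sec26_2 hSEC h26 hK rfl (by norm_num) okC26 okD26_6_2, ?_, fun c hc e =>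
      treeB_26_6_2 hs c hc (by omega) (Or.inr (by omega))⟩
    rw [abs_le, show ((parB_26_6_2.n : ℕ) : ℝ) = 26 by norm_num [parB_26_6_2]]
    constructor <;> push_cast <;> linarith
  rcases le_or_gt ps (9 * Real.pi / 18) with q3 | q3
  · refine ⟨parB_18_7_2, 7, Real.pi * 2 / 18, by decide, by decide, rfl, rfl, rfl, rfl, rfl,
      sec18_2 hSEC h18 hK rfl (by norm_num) okC18 okD18_7_2, ?_, fun c hc e =>
      treeB_18_7_2 hs c hc (by omega) (Or.inr (by omega))⟩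
    rw [abs_le, show ((parB_18_7_2.n : ℕ) : ℝ) = 18 by norm_num [parB_18_7_2]]
    constructor <;> push_cast <;> linarith
  rcases le_or_gt ps (14 * Real.pi / 18) with q4 | q4
  · refine ⟨parB_18_11_3, 11, Real.pi * 3 / 18, by decide, by decide, rfl, rfl, rfl, rfl, rfl,
      sec18_3 hSEC h18 hK rfl (by norm_num) okC18 okD18_11_3, ?_, fun c hc e =>
      treeB_18_11_3 hs c hc (by omega) (Or.inr (by omega))⟩
    rw [abs_le, show ((parB_18_11_3.n : ℕ) : ℝ) = 18 by norm_num [parB_18_11_3]]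
    constructor <;> push_cast <;> linarith
  · refine ⟨parB_18_15_3, 15, Real.pi * 3 / 18, by decide, by decide, rfl, rfl, rfl, rfl, rfl,
      sec18_3 hSEC h18 hK rfl (by norm_num) okC18 okD18_15_3, ?_, fun c hc e =>
      treeB_18_15_3 hs c hc (by omega) (Or.inr (by omega))⟩
    rw [abs_le, show ((parB_18_15_3.n : ℕ) : ℝ) = 18 by norm_num [parB_18_15_3]]
    constructor <;> push_cast <;> linarith

theorem settledC {ps : ℝ} (h0 : 0 ≤ ps) (h1 : ps ≤ Real.pi) {k : ℕ} (hk : 3 ≤ k) (hk' : k ≤ 7) :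
    Settled 13090 (-3396) 0 0 0 ps k := by
  have hpi := Real.pi_pos
  rcases le_or_gt ps (4 * Real.pi / 18) with q1 | q1
  · refine ⟨parC_18_2_2, 2, Real.pi * 2 / 18, by decide, by decide, rfl, rfl, rfl, rfl, rfl,
      sec18_2 hSEC h18 hK rfl (by norm_num) okC18 okD18_2_2, ?_, fun c hc e =>
      treeC_18_2_2 hs c hc (by omega) (Or.inr (by omega))⟩
    rw [abs_le, show ((parC_18_2_2.n : ℕ) : ℝ) = 18 by norm_num [parC_18_2_2]]
    constructor <;> push_cast <;> linarith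
  rcases le_or_gt ps (8 * Real.pi / 18) with q2 | q2
  · refine ⟨parC_18_6_2, 6, Real.pi * 2 / 18, by decide, by decide, rfl, rfl, rfl, rfl, rfl,
      sec18_2 hSEC h18 hK rfl (by norm_num) okC18 okD18_6_2, ?_, fun c hc e =>
      treeC_18_6_2 hs c hc (by omega) (Or.inr (by omega))⟩
    rw [abs_le, show ((parC_18_6_2.n : ℕ) : ℝ) = 18 by norm_num [parC_18_6_2]]
    constructor <;> push_cast <;> linarith
  rcases le_or_gt ps (14 * Real.pi / 18) with q4 | q4
  · refine ⟨parC_18_11_3, 11, Real.pi * 3 / 18, by decide, by decide, rfl, rfl, rfl, rfl, rfl,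
      sec18_3 hSEC h18 hK rfl (by norm_num) okC18 okD18_11_3, ?_, fun c hc e =>
      treeC_18_11_3 hs c hc (by omega) (Or.inr (by omega))⟩
    rw [abs_le, show ((parC_18_11_3.n : ℕ) : ℝ) = 18 by norm_num [parC_18_11_3]]
    constructor <;> push_cast <;> linarith
  · refine ⟨parC_18_15_3, 15, Real.pi * 3 / 18, by decide, by decide, rfl, rfl, rfl, rfl, rfl,
      sec18_3 hSEC h18 hK rfl (by norm_num) okC18 okD18_15_3, ?_, fun c hc e =>
      treeC_18_15_3 hs c hc (by omega) (Or.inr (by omega))⟩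
    rw [abs_le, show ((parC_18_15_3.n : ℕ) : ℝ) = 18 by norm_num [parC_18_15_3]]
    constructor <;> push_cast <;> linarith

end

end Pool.Agent.Fr

end
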